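import Mathlib

/-!
For every `J` there are arbitrarily large `K` with `p_{K+J} ≤ (4/3) p_K`, where `p_k` is the `k`-th
prime.
-/

set_option autoImplicit false
open Filter

namespace Pool.Agent.H813R2.Window

/-- The `k`-th prime. -/
noncomputable def pr (k : ℕ) : ℕ := Nat.nth Nat.Prime k

lemma pr_prime (k : ℕ) : (pr k).Prime := Nat.prime_nth_prime k

lemma pr_strictMono : StrictMono pr := Nat.nth_strictMono Nat.infinite_setOfPred_prime

lemma not_summable_pr : ¬ Summable fun k : ℕ => 1 / (pr k : ℝ) := by
  intro h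
  apply not_summable_one_div_on_primes
  have hinj : Function.Injective pr := pr_strictMono.injective
  rw [← hinj.summable_iff]
  · refine h.congr fun k => ?_
    simp only [Function.comp]
    rw [Set.indicator_of_mem]
    exact pr_prime k
  · intro x hx
    rw [Set.indicator_of_notMem]
    intro hp
    apply hx
    exact ⟨Nat.count Nat.Prime x, Nat.nth_count hp⟩

theorem exists_window (J K₀ : ℕ) : ∃ K, K₀ ≤ K ∧ 3 * pr (K + J) ≤ 4 * pr K := by
  by_contra hcon
  push Not at hcon
  apply not_summable_pr
  set a : ℕ → ℝ := fun k => 1 / (pr k : ℝ) with ha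
  have ha0 : ∀ k, 0 ≤ a k := fun k => by positivity
  have hstep : ∀ k, K₀ ≤ k → a (k + J) ≤ 3 / 4 * a k := by
    intro k hk
    have h1 := hcon k hk
    have h2 : (4 : ℝ) * pr k < 3 * pr (k + J) := by exact_mod_cast h1
    have h3 : (0 : ℝ) < pr k := by exact_mod_cast (pr_prime k).pos
    have h4 : (0 : ℝ) < pr (k + J) := by exact_mod_cast (pr_prime (k + J)).pos
    simp only [ha]
    rw [div_mul_div_comm, div_le_div_iff₀ h4 (by positivity)]
    linarith
  rw [← summable_nat_add_iff K₀]
  -- partial sums of the tail are bounded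
  set b : ℕ → ℝ := fun k => a (k + K₀) with hb
  have hb0 : ∀ k, 0 ≤ b k := fun k => ha0 _
  have hbs : ∀ k, b (k + J) ≤ 3 / 4 * b k := by
    intro k
    have := hstep (k + K₀) (by omega)
    simp only [hb]
    rwa [show k + J + K₀ = k + K₀ + J by ring]
  have hbound : ∀ n, ∑ i ∈ Finset.range n, b i ≤ 4 * ∑ i ∈ Finset.range J, b i := by
    intro n
    have h1 : ∑ i ∈ Finset.range n, b i ≤ ∑ i ∈ Finset.range (n + J), b i := by
      apply Finset.sum_le_sum_of_subset_of_nonneg
      · exact Finset.range_subset_range.2 (by omega)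
      · intro i _ _; exact hb0 i
    have h2 : ∑ i ∈ Finset.range (n + J), b i =
        ∑ i ∈ Finset.range J, b i + ∑ i ∈ Finset.range n, b (i + J) := by
      rw [add_comm n J, Finset.sum_range_add]
      congr 1
      refine Finset.sum_congr rfl fun i _ => ?_
      rw [add_comm]
    have h3 : ∑ i ∈ Finset.range n, b (i + J) ≤ 3 / 4 * ∑ i ∈ Finset.range n, b i := by
      rw [Finset.mul_sum]
      exact Finset.sum_le_sum fun i _ => hbs i
    linarith
  exact summable_of_sum_range_le hb0 hbound

end Pool.Agent.H813R2.Window
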