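import Pool.Agent.H813R2.Kron
import Pool.Agent.H813R2.Window

/-!
The basic construction: a set `G` of small measure such that every `x ∈ (1/2, 3/4)` has a large
multiple `n x` all of whose integer parts `n x / r` in `[1, 2]` lie in `G`.
-/

set_option autoImplicit false
open MeasureTheory Filter
open scoped ENNReal Topology

namespace Pool.Agent.H813R2.Haight

open Pool.Agent.H813R2.Window Pool.Agent.Helper873.Mean

/-- the phase of `x` -/
noncomputable def ph (T x : ℝ) : UnitAddCircle := ((T * Real.log x : ℝ) : UnitAddCircle)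

lemma ph_mul (T : ℝ) {x y : ℝ} (hx : 0 < x) (hy : 0 < y) : ph T (x * y) = ph T x + ph T y := by
  unfold ph
  rw [Real.log_mul hx.ne' hy.ne', mul_add, AddCircle.coe_add]

lemma ph_div (T : ℝ) {x y : ℝ} (hx : 0 < x) (hy : 0 < y) : ph T (x / y) = ph T x - ph T y := by
  unfold ph
  rw [Real.log_div hx.ne' hy.ne', mul_sub, AddCircle.coe_sub]

lemma norm_coe_le (x : ℝ) : ‖(x : UnitAddCircle)‖ ≤ |x| := by
  rw [UnitAddCircle.norm_eq]
  have := round_le x 0
  simpa using this

lemma ph_nat_small {T η : ℝ} (hη : 0 ≤ η) {K : ℕ} (h : ∀ k < K, ‖ph T (pr k)‖ ≤ η) :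
    ∀ r : ℕ, 0 < r → r < pr K → ‖ph T r‖ ≤ r * η := by
  intro r
  induction r using Nat.strong_induction_on with
  | _ r ih =>
    intro hr hrK
    rcases Nat.lt_or_ge 1 r with h1 | h1
    · have hp : (r.minFac).Prime := Nat.minFac_prime (by omega)
      obtain ⟨m, hm⟩ := Nat.minFac_dvd r
      have hp2 := hp.two_le
      have hm0 : 0 < m := by
        rcases Nat.eq_zero_or_pos m with h0 | h0
        · rw [h0, mul_zero] at hm; omega
        · exact h0
      have hmr : m < r := by
        have h5 : 2 * m ≤ r.minFac * m := Nat.mul_le_mul_right m hp2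
        rw [← hm] at h5
        omega
      have hple : r.minFac ≤ r := Nat.minFac_le hr
      have hpk : pr (Nat.count Nat.Prime r.minFac) = r.minFac := Nat.nth_count hp
      have hk : Nat.count Nat.Prime r.minFac < K := by
        by_contra hc
        push Not at hc
        have := pr_strictMono.monotone hc
        rw [hpk] at this
        omega
      have e1 : ph T (r : ℝ) = ph T (r.minFac : ℝ) + ph T (m : ℝ) := by
        rw [← ph_mul T (by exact_mod_cast hp.pos) (by exact_mod_cast hm0)]
        congr 1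
        exact_mod_cast hm
      have e2 := h _ hk
      rw [hpk] at e2
      have e3 := ih m hmr hm0 (by omega)
      have e4 : (m : ℝ) + 1 ≤ r := by exact_mod_cast hmr
      rw [e1]
      calc _ ≤ ‖ph T (r.minFac : ℝ)‖ + ‖ph T (m : ℝ)‖ := norm_add_le _ _
        _ ≤ η + m * η := by linarith
        _ = (m + 1) * η := by ring
        _ ≤ r * η := by gcongr
    · have : r = 1 := by omega
      subst this
      simp [ph, hη]

/-- One of the arcs has a preimage of small measure. -/
lemma exists_arc (T : ℝ) (M : ℕ) (hM : 0 < M) : ∃ c : UnitAddCircle,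
    volume {z ∈ Set.Icc (1 : ℝ) 2 | ‖ph T z - c‖ < 1 / (2 * M)} ≤ ENNReal.ofReal (1 / M) := by
  set c : ℕ → UnitAddCircle := fun m => ((m / M : ℝ) : UnitAddCircle) with hc
  set A : ℕ → Set ℝ := fun m => {z ∈ Set.Icc (1 : ℝ) 2 | ‖ph T z - c m‖ < 1 / (2 * M)} with hA
  have hMr : (0 : ℝ) < M := by exact_mod_cast hM
  have hph : Measurable (ph T) := by
    unfold ph
    have h1 : Measurable fun x : ℝ => T * Real.log x := by fun_prop
    exact (AddCircle.measurable_mk' (a := (1 : ℝ))).comp h1
  have hmeas : ∀ m, MeasurableSet (A m) := by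
    intro m
    have h2 : Measurable fun z => ‖ph T z - c m‖ := (hph.sub_const _).norm
    exact measurableSet_Icc.inter (h2 measurableSet_Iio)
  by_contra hcon
  push Not at hcon
  have hsum : (M : ℝ≥0∞) * ENNReal.ofReal (1 / M) < ∑ m ∈ Finset.range M, volume (A m) := by
    have : ∑ m ∈ Finset.range M, ENNReal.ofReal (1 / M) < ∑ m ∈ Finset.range M, volume (A m) := by
      apply ENNReal.sum_lt_sum_of_nonempty (Finset.nonempty_range_iff.2 hM.ne')
      intro m _
      exact hcon (c m)
    simpa using this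
  have hdisj : Set.PairwiseDisjoint (↑(Finset.range M)) A := by
    intro m hm m' hm' hne
    rw [Function.onFun, Set.disjoint_left]
    rintro z ⟨-, h1⟩ ⟨-, h2⟩
    have h3 : ‖c m - c m'‖ < 1 / M := by
      have : c m - c m' = (ph T z - c m') - (ph T z - c m) := by abel
      rw [this]
      calc _ ≤ ‖ph T z - c m'‖ + ‖ph T z - c m‖ := norm_sub_le _ _
        _ < 1 / (2 * M) + 1 / (2 * M) := by linarith
        _ = 1 / M := by field_simp; ring
    have h4 : c m - c m' = ((((m : ℝ) - m') / M : ℝ) : UnitAddCircle) := by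
      rw [sub_div, AddCircle.coe_sub]
    rw [h4, UnitAddCircle.norm_eq] at h3
    set k := round (((m : ℝ) - m') / M) with hk
    have h5 : |((m : ℤ) - m' - k * M : ℤ)| < 1 := by
      have h6 : |(((m : ℤ) - m' - k * M : ℤ) : ℝ)| < 1 := by
        have : (((m : ℤ) - m' - k * M : ℤ) : ℝ) = (((m : ℝ) - m') / M - k) * M := by
          push_cast
          field_simp
        rw [this, abs_mul, abs_of_pos hMr]
        rwa [← lt_div_iff₀ hMr]
      exact_mod_cast h6
    have h7 : (m : ℤ) - m' - k * M = 0 := Int.abs_lt_one_iff.1 h5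
    simp only [Finset.coe_range, Set.mem_Iio] at hm hm'
    have h8 : k = 0 := by
      by_contra hk0
      have h9 : (m : ℤ) - m' = k * M := by linarith
      have h10 : (M : ℤ) ≤ |k * M| := by
        rw [abs_mul, abs_of_pos (by exact_mod_cast hM : (0 : ℤ) < M)]
        have := Int.one_le_abs hk0
        nlinarith
      rw [← h9] at h10
      have h11 : |(m : ℤ) - m'| < M := by
        rw [abs_lt]; constructor <;> omega
      omega
    rw [h8] at h7
    omega
  rw [← measure_biUnion_finset hdisj fun m _ => hmeas m] at hsum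
  have hle : volume (⋃ m ∈ Finset.range M, A m) ≤ volume (Set.Icc (1 : ℝ) 2) := by
    apply measure_mono
    intro z hz
    simp only [Set.mem_iUnion] at hz
    obtain ⟨m, -, hz⟩ := hz
    exact hz.1
  rw [Real.volume_Icc] at hle
  have h1 : (M : ℝ≥0∞) * ENNReal.ofReal (1 / M) = 1 := by
    rw [← ENNReal.ofReal_natCast, ← ENNReal.ofReal_mul hMr.le]
    rw [mul_one_div_cancel hMr.ne', ENNReal.ofReal_one]
  rw [h1] at hsum
  have h2 : ENNReal.ofReal ((2 : ℝ) - 1) = 1 := by norm_num
  rw [h2] at hle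
  exact absurd hsum (not_lt.2 hle)

theorem basic (M : ℕ) (hM : 0 < M) (N₀ : ℕ) : ∃ G : Set ℝ, IsOpen G ∧
    volume (Set.Icc 1 2 ∩ G) ≤ ENNReal.ofReal (1 / M) ∧
    ∀ x ∈ Set.Ioo (1 / 2 : ℝ) (3 / 4), ∃ n : ℕ, N₀ ≤ n ∧
      ∀ r : ℕ, 0 < r → (n : ℝ) * x / r ∈ Set.Icc (1 : ℝ) 2 → (n : ℝ) * x / r ∈ G := by
  have hMr : (0 : ℝ) < M := by exact_mod_cast hM
  obtain ⟨K, hK, hwin⟩ := exists_window (4 * M) N₀
  set q : ℝ := ((pr K : ℕ) : ℝ) with hq
  have hq0 : 0 < q := by rw [hq]; exact_mod_cast (pr_prime K).pos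
  set η : ℝ := 1 / (4 * M * (q + 1)) with hη
  have hη0 : 0 < η := by positivity
  obtain ⟨t, ht⟩ := Kron.kron (K + 4 * M)
    (fun k => if k < K then 0 else ((((k - K : ℕ) : ℝ) / (4 * M : ℕ) : ℝ) : UnitAddCircle)) η hη0
  set T : ℝ := t / (2 * Real.pi) with hT
  have hzt : ∀ k, zt t k = ph T (pr k) := by
    intro k
    unfold zt ph pr
    congr 1
    rw [hT]; ring
  have ht1 : ∀ k < K, ‖ph T (pr k)‖ ≤ η := by
    intro k hk
    have := ht k (by omega)
    rw [hzt, if_pos hk, sub_zero] at this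
    exact this.le
  have ht2 : ∀ j < 4 * M, ‖ph T (pr (K + j)) - (((j : ℝ) / (4 * M : ℕ) : ℝ) : UnitAddCircle)‖ ≤ η := by
    intro j hj
    have := ht (K + j) (by omega)
    rw [hzt, if_neg (by omega), Nat.add_sub_cancel_left] at this
    exact this.le
  obtain ⟨c, hc⟩ := exists_arc T M hM
  refine ⟨{z | 0 < z ∧ ‖ph T z - c‖ < 1 / (2 * M)}, ?_, ?_, ?_⟩
  · have hcont : ContinuousOn (fun z => ‖ph T z - c‖) (Set.Ioi 0) := by
      have h1 : ContinuousOn (fun x : ℝ => T * Real.log x) (Set.Ioi 0) :=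
        continuousOn_const.mul (Real.continuousOn_log.mono fun x hx => (ne_of_gt hx))
      have h2 : ContinuousOn (ph T) (Set.Ioi 0) :=
        (AddCircle.continuous_mk' (1 : ℝ)).comp_continuousOn h1
      exact (h2.sub continuousOn_const).norm
    exact hcont.isOpen_inter_preimage isOpen_Ioi isOpen_Iio
  · refine le_trans (measure_mono ?_) hc
    rintro z ⟨h1, h2⟩
    exact ⟨h1, h2.2⟩
  · intro x hx
    have hx0 : 0 < x := by linarith [hx.1]
    -- choose the prime
    obtain ⟨j, hj, hjc⟩ : ∃ j < 4 * M, ‖(c - ph T x) - (((j : ℝ) / (4 * M : ℕ) : ℝ) : UnitAddCircle)‖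
        ≤ 1 / (4 * M) := by
      obtain ⟨a, ha⟩ := QuotientAddGroup.mk_surjective (c - ph T x)
      set b := Int.fract a with hb
      have hab : (c - ph T x) = ((b : ℝ) : UnitAddCircle) := by
        rw [← ha, hb]
        have : a = (⌊a⌋ : ℝ) + Int.fract a := (Int.floor_add_fract a).symm
        conv_lhs => rw [this]
        have h2 : (((⌊a⌋ : ℤ) : ℝ) : UnitAddCircle) = 0 := by
          have := AddCircle.coe_period (1 : ℝ)
          have h3 : (((⌊a⌋ : ℤ) : ℝ)) = ⌊a⌋ • (1 : ℝ) := by simp
          rw [h3, AddCircle.coe_zsmul, this, smul_zero]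
        show (((⌊a⌋ : ℝ) + Int.fract a : ℝ) : UnitAddCircle) = _
        rw [AddCircle.coe_add, h2, zero_add]
      have hb0 : 0 ≤ b := Int.fract_nonneg a
      have hb1 : b < 1 := Int.fract_lt_one a
      have h4M : (0 : ℝ) < ((4 * M : ℕ) : ℝ) := by push_cast; positivity
      refine ⟨⌊b * (4 * M : ℕ)⌋₊, ?_, ?_⟩
      · rw [Nat.floor_lt (by positivity)]
        nlinarith
      · rw [hab, ← AddCircle.coe_sub]
        refine (norm_coe_le _).trans ?_
        have h1 := Nat.floor_le (a := b * (4 * M : ℕ)) (by positivity)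
        have h2 := Nat.lt_floor_add_one (b * (4 * M : ℕ))
        rw [abs_of_nonneg]
        · rw [sub_le_iff_le_add, show (1 : ℝ) / (4 * M) = 1 / ((4 * M : ℕ) : ℝ) by push_cast; rfl,
            ← add_div, le_div_iff₀ h4M]
          linarith
        · rw [sub_nonneg, div_le_iff₀ h4M]
          exact h1
    refine ⟨pr (K + j), ?_, ?_⟩
    · have h1 : K + j ≤ pr (K + j) := pr_strictMono.le_apply
      omega
    · intro r hr hz
      have hr0 : (0 : ℝ) < r := by exact_mod_cast hr
      have hn0 : (0 : ℝ) < pr (K + j) := by exact_mod_cast (pr_prime (K + j)).pos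
      have hnq : (pr (K + j) : ℝ) ≤ 4 / 3 * q := by
        have h1 : pr (K + j) ≤ pr (K + 4 * M) := pr_strictMono.monotone (by omega)
        have h2 : 3 * pr (K + j) ≤ 4 * pr K := by omega
        have h3 : (3 : ℝ) * pr (K + j) ≤ 4 * pr K := by exact_mod_cast h2
        rw [hq]; linarith
      have hrlt : (r : ℝ) < q := by
        have h1 := hz.1
        rw [le_div_iff₀ hr0, one_mul] at h1
        have h2 : (pr (K + j) : ℝ) * x < 4 / 3 * q * (3 / 4) := by
          apply mul_lt_mul' hnq hx.2 hx0.le (by positivity)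
        linarith
      have hrlt' : r < pr K := by
        rw [hq] at hrlt
        exact_mod_cast hrlt
      have hsm := ph_nat_small hη0.le ht1 r hr hrlt'
      refine ⟨by positivity, ?_⟩
      rw [ph_div T (by positivity) hr0, ph_mul T hn0 hx0]
      have e : ph T (pr (K + j)) + ph T x - ph T r - c =
          (ph T (pr (K + j)) - (((j : ℝ) / (4 * M : ℕ) : ℝ) : UnitAddCircle)) -
          ((c - ph T x) - (((j : ℝ) / (4 * M : ℕ) : ℝ) : UnitAddCircle)) - ph T r := by abel
      rw [e]
      have h1 := ht2 j hj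
      calc _ ≤ ‖ph T (pr (K + j)) - (((j : ℝ) / (4 * M : ℕ) : ℝ) : UnitAddCircle)‖ +
            ‖(c - ph T x) - (((j : ℝ) / (4 * M : ℕ) : ℝ) : UnitAddCircle)‖ + ‖ph T r‖ := by
            refine (norm_sub_le _ _).trans ?_
            gcongr
            exact norm_sub_le _ _
        _ ≤ η + 1 / (4 * M) + r * η := by linarith
        _ < (q + 1) * η + 1 / (4 * M) := by nlinarith
        _ = 1 / (2 * M) := by
          rw [hη]
          field_simp
          norm_num

end Pool.Agent.H813R2.Haight
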