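import Pool.Agent.Helper873.Mean

/-!
Simultaneous inhomogeneous approximation of the numbers `t log p / 2π` modulo one, where `p` runs
through the first primes.
-/

set_option autoImplicit false
open MeasureTheory Metric Filter
open scoped ENNReal Topology

namespace Pool.Agent.H813R2.Kron

open Pool.Agent.Helper873.Product Pool.Agent.Helper873.Mean

/-- Kronecker's theorem for the logarithms of the primes. -/
theorem kron (N : ℕ) (α : ℕ → UnitAddCircle) (ε : ℝ) (hε : 0 < ε) :
    ∃ t : ℝ, ∀ k < N, ‖zt t k - α k‖ < ε := by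
  by_contra hcon
  push Not at hcon
  let g : ℕ → UnitAddCircle → ℝ := fun k w => max 0 (ε - ‖w - α k‖)
  have hgc : ∀ k, Continuous (g k) := fun k => by
    show Continuous fun w => max 0 (ε - ‖w - α k‖)
    fun_prop
  have hg0 : ∀ k w, 0 ≤ g k w := fun k w => le_max_left _ _
  let f : C(ℕ → UnitAddCircle, ℂ) :=
    ⟨fun z => ((∏ k ∈ Finset.range N, g k (z k) : ℝ) : ℂ), by
      refine Complex.continuous_ofReal.comp ?_
      exact continuous_finsetProd _ fun k _ => (hgc k).comp (continuous_apply k)⟩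
  have h1 := kw f
  unfold EqM at h1
  have h2 : ∀ t, f (zt t) = 0 := by
    intro t
    obtain ⟨k, hk, hk2⟩ := hcon t
    show ((∏ k ∈ Finset.range N, g k (zt t k) : ℝ) : ℂ) = 0
    rw [Finset.prod_eq_zero (Finset.mem_range.2 hk)]
    · simp
    · exact max_eq_left (by linarith)
  have h3 : ∫ z, f z ∂tor = 0 := by
    refine tendsto_nhds_unique h1 ?_
    have : (fun T => mT (fun t => f (zt t)) T) = fun _ => (0 : ℂ) := by
      funext T
      unfold mT
      simp [h2]
    rw [this]
    exact tendsto_const_nhds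
  have h4 : ∫ z, (∏ k ∈ Finset.range N, g k (z k) : ℝ) ∂tor = 0 := by
    have h5 : ∫ z, f z ∂tor = ((∫ z, (∏ k ∈ Finset.range N, g k (z k) : ℝ) ∂tor : ℝ) : ℂ) :=
      integral_ofReal
    rw [h5] at h3
    exact_mod_cast h3
  have hc : Continuous fun z : ℕ → UnitAddCircle => ∏ k ∈ Finset.range N, g k (z k) :=
    continuous_finsetProd _ fun k _ => (hgc k).comp (continuous_apply k)
  have hp0 : ∀ z : ℕ → UnitAddCircle, 0 ≤ ∏ k ∈ Finset.range N, g k (z k) := fun z =>
    Finset.prod_nonneg fun k _ => hg0 k _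
  have hint : Integrable (fun z : ℕ → UnitAddCircle => ∏ k ∈ Finset.range N, g k (z k)) tor :=
    hc.integrable_of_hasCompactSupport (HasCompactSupport.of_compactSpace _)
  have h6 : ∫⁻ z, ENNReal.ofReal (∏ k ∈ Finset.range N, g k (z k)) ∂tor = 0 := by
    rw [← ofReal_integral_eq_lintegral_ofReal hint (Eventually.of_forall hp0), h4]
    simp
  have h7 : ∫⁻ z, ∏ k ∈ Finset.range N, ENNReal.ofReal (g k (z k)) ∂tor =
      ∏ k ∈ Finset.range N, ∫⁻ w, ENNReal.ofReal (g k w) ∂(AddCircle.haarAddCircle (T := 1)) := by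
    exact lintegral_prod_range (fun k w => ENNReal.ofReal (g k w))
      (fun k => (ENNReal.continuous_ofReal.comp (hgc k)).measurable) N
  have h8 : ∀ z : ℕ → UnitAddCircle, ENNReal.ofReal (∏ k ∈ Finset.range N, g k (z k)) =
      ∏ k ∈ Finset.range N, ENNReal.ofReal (g k (z k)) := fun z =>
    ENNReal.ofReal_prod_of_nonneg fun k _ => hg0 k _
  simp_rw [h8] at h6
  rw [h7, Finset.prod_eq_zero_iff] at h6
  obtain ⟨k, -, hk⟩ := h6
  have h9 : 0 < ∫⁻ w, ENNReal.ofReal (g k w) ∂(AddCircle.haarAddCircle (T := 1)) := by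
    have hm : Measurable fun w => ENNReal.ofReal (g k w) :=
      (ENNReal.continuous_ofReal.comp (hgc k)).measurable
    rw [lintegral_pos_iff_support hm]
    have hop : IsOpen (Function.support fun w => ENNReal.ofReal (g k w)) :=
      (ENNReal.continuous_ofReal.comp (hgc k)).isOpen_support
    refine hop.measure_pos _ ⟨α k, ?_⟩
    simp only [Function.mem_support, ne_eq, ENNReal.ofReal_eq_zero, not_le, g]
    simp [hε]
  exact h9.ne' hk

end Pool.Agent.H813R2.Kron
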