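import Mathlib
set_option autoImplicit false
open MeasureTheory Metric Set Filter Topology
open scoped Real

namespace Pool.Agent.H813R2.Pot

abbrev E3 := EuclideanSpace ℝ (Fin 3)
abbrev E2 := EuclideanSpace ℝ (Fin 2)
abbrev W3 := WithLp 2 (ℝ × E2)

lemma finrank_W : Module.finrank ℝ W3 = 3 := by
  have h := (WithLp.linearEquiv 2 ℝ (ℝ × E2)).finrank_eq
  rw [h]
  simp

lemma exists_iso (y : E3) : ∃ L : W3 ≃ₗᵢ[ℝ] E3, L (WithLp.toLp 2 (‖y‖, (0:E2))) = y := by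
  let L0 : W3 ≃ₗᵢ[ℝ] E3 := ((stdOrthonormalBasis ℝ W3).reindex (finCongr finrank_W)).repr
  have hn : ‖L0 (WithLp.toLp 2 (‖y‖, (0:E2)))‖ = ‖y‖ := by
    rw [L0.norm_map, WithLp.prod_norm_eq_of_L2]
    simp
  refine ⟨L0.trans ((ℝ ∙ (L0 (WithLp.toLp 2 (‖y‖, (0:E2))) - y))ᗮ.reflection), ?_⟩
  simp only [LinearIsometryEquiv.trans_apply]
  exact Submodule.reflection_sub hn

/-- one dimensional integral -/
lemma int_disc1 (a : ℝ) {ρ : ℝ} (hρ : 0 ≤ ρ) :
    ∫ y in (0:ℝ)..ρ, y * (√(a ^ 2 + y ^ 2))⁻¹ = √(a ^ 2 + ρ ^ 2) - |a| := by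
  have hd : ∀ y ∈ Ioo 0 ρ, HasDerivAt (fun y => √(a ^ 2 + y ^ 2)) (y * (√(a ^ 2 + y ^ 2))⁻¹) y := by
    intro y hy
    have hpos : 0 < a ^ 2 + y ^ 2 := by have := hy.1; positivity
    have h1 : HasDerivAt (fun y : ℝ => a ^ 2 + y ^ 2) (2 * y) y := by
      simpa using (hasDerivAt_pow 2 y).const_add (a ^ 2)
    have h2 := h1.sqrt hpos.ne'
    convert h2 using 1
    field_simp
  have hcont : ContinuousOn (fun y => √(a ^ 2 + y ^ 2)) (Icc 0 ρ) := by fun_prop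
  have hint : IntegrableOn (fun y => y * (√(a ^ 2 + y ^ 2))⁻¹) (Ioc 0 ρ) := by
    apply intervalIntegral.integrableOn_deriv_of_nonneg hcont hd
    intro y hy
    have := hy.1
    positivity
  have h := intervalIntegral.integral_eq_sub_of_hasDerivAt_of_le hρ hcont hd
    ((intervalIntegrable_iff_integrableOn_Ioc_of_le hρ).2 hint)
  rw [h]
  simp [Real.sqrt_sq_eq_abs]

lemma disc_int (a : ℝ) {ρ : ℝ} (hρ : 0 ≤ ρ) :
    ∫ w : E2, (Iio ρ).indicator (fun t => (√(a ^ 2 + t ^ 2))⁻¹) ‖w‖ =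
      2 * π * (√(a ^ 2 + ρ ^ 2) - |a|) := by
  rw [integral_fun_norm_addHaar]
  have h1 : (volume : Measure E2).real (ball 0 1) = π := by
    rw [measureReal_def, EuclideanSpace.volume_ball_fin_two]
    simp [Real.pi_pos.le]
  rw [h1]
  have h2 : Module.finrank ℝ E2 = 2 := by simp
  rw [h2]
  have h3 : ∫ y in Ioi (0:ℝ), y ^ (2 - 1) • (Iio ρ).indicator (fun t => (√(a ^ 2 + t ^ 2))⁻¹) y
      = √(a ^ 2 + ρ ^ 2) - |a| := by
    rw [← int_disc1 a hρ, intervalIntegral.integral_of_le hρ, integral_Ioc_eq_integral_Ioo]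
    have : ∀ y : ℝ, y ^ (2 - 1) • (Iio ρ).indicator (fun t => (√(a ^ 2 + t ^ 2))⁻¹) y =
        (Iio ρ).indicator (fun t => t * (√(a ^ 2 + t ^ 2))⁻¹) y := by
      intro y
      by_cases hy : y ∈ Iio ρ
      · simp [indicator_of_mem hy]
      · simp [indicator_of_notMem hy]
    simp_rw [this]
    rw [integral_indicator measurableSet_Iio, Measure.restrict_restrict measurableSet_Iio]
    congr 2
    ext y; simp [and_comm]
  rw [h3]
  simp
  ring

end Pool.Agent.H813R2.Pot
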