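import Mathlib
import Pool.Agent.H813R2.Pot1
set_option autoImplicit false
open MeasureTheory Metric Set Filter Topology
open scoped Real

namespace Pool.Agent.H813R2.Pot

lemma kern_intOn {F : Type*} [NormedAddCommGroup F] [NormedSpace ℝ F] [FiniteDimensional ℝ F]
    [MeasurableSpace F] [BorelSpace F] (μ : Measure F) [μ.IsAddHaarMeasure]
    (hdim : Module.finrank ℝ F = 3) (p : ℕ) (hp : p ≤ 2) (c : F) (R : ℝ) :
    IntegrableOn (fun x => (‖x - c‖⁻¹) ^ p) (ball 0 R) μ := by
  have : Nontrivial F := Module.nontrivial_of_finrank_pos (R := ℝ) (by omega)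
  have h0 : ∀ R' : ℝ, IntegrableOn (fun x : F => (‖x‖⁻¹) ^ p) (ball 0 R') μ := by
    intro R'
    rw [integrableOn_fun_norm_addHaar μ (f := fun y => (y⁻¹) ^ p), hdim]
    have hc : IntegrableOn (fun y : ℝ => y ^ (2 - p)) (Ioo 0 R') := by
      apply ((continuous_pow (2 - p)).integrableOn_Icc (a := 0) (b := R')).mono_set
      exact Ioo_subset_Icc_self
    refine hc.congr_fun ?_ measurableSet_Ioo
    intro y hy
    have hy0 : y ≠ 0 := hy.1.ne'
    simp only [smul_eq_mul]
    interval_cases p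
    · simp
    · simp; field_simp
    · simp; field_simp
  have h1 : IntegrableOn (fun x : F => (‖x - c‖⁻¹) ^ p) (ball c (R + ‖c‖)) μ := by
    have h2 := h0 (R + ‖c‖)
    have h3 : MeasurePreserving (fun x : F => x - c) μ μ := measurePreserving_sub_right μ c
    have h4 : (fun x : F => x - c) ⁻¹' (ball 0 (R + ‖c‖)) = ball c (R + ‖c‖) := by
      ext x; simp [dist_eq_norm]
    rw [← h4]
    exact (h3.integrableOn_comp_preimage (MeasurableEquiv.subRight c).measurableEmbedding).2 h2
  apply h1.mono_set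
  intro x hx
  rw [mem_ball, dist_eq_norm] at *
  calc ‖x - c‖ ≤ ‖x - 0‖ + ‖c‖ := by simpa using norm_sub_le x c
    _ < R + ‖c‖ := by linarith


lemma W_norm_sub (z h : ℝ) (w : E2) :
    ‖(WithLp.toLp 2 (z, w) : W3) - WithLp.toLp 2 (h, (0:E2))‖ = √((z - h) ^ 2 + ‖w‖ ^ 2) := by
  rw [← WithLp.toLp_sub, WithLp.prod_norm_eq_of_L2]
  simp

lemma W_norm (z : ℝ) (w : E2) :
    ‖(WithLp.toLp 2 (z, w) : W3)‖ = √(z ^ 2 + ‖w‖ ^ 2) := by
  rw [WithLp.prod_norm_eq_of_L2]
  simp

lemma ball_pot_W (r h : ℝ) (hr : 0 < r) :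
    ∫ w : W3 in ball 0 r, ‖w - WithLp.toLp 2 (h, (0:E2))‖⁻¹ =
      ∫ z in (-r)..r, 2 * π * (√(r ^ 2 + h ^ 2 - 2 * h * z) - |z - h|) := by
  set c : W3 := WithLp.toLp 2 (h, (0:E2)) with hc
  have hmp := WithLp.volume_preserving_toLp ℝ E2
  have hme : MeasurableEmbedding (@WithLp.toLp 2 (ℝ × E2)) :=
    (MeasurableEquiv.toLp 2 (ℝ × E2)).measurableEmbedding
  rw [← integral_indicator measurableSet_ball, ← hmp.integral_comp hme]
  have hint : Integrable (fun p : ℝ × E2 => (ball (0:W3) r).indicator (fun w => ‖w - c‖⁻¹)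
      (WithLp.toLp 2 p)) := by
    have h1 : IntegrableOn (fun x : W3 => (‖x - c‖⁻¹) ^ 1) (ball 0 r) volume :=
      kern_intOn volume finrank_W 1 (by norm_num) c r
    simp only [pow_one] at h1
    have h2 : Integrable ((ball (0:W3) r).indicator (fun w => ‖w - c‖⁻¹)) :=
      (integrable_indicator_iff measurableSet_ball).2 h1
    exact (hmp.integrable_comp_emb hme).2 h2
  have hprod : (volume : Measure (ℝ × E2)) = (volume : Measure ℝ).prod (volume : Measure E2) := rfl
  rw [hprod, integral_prod _ (by rw [← hprod]; exact hint)]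
  have hin : ∀ z : ℝ, ∫ w : E2, (ball (0:W3) r).indicator (fun w => ‖w - c‖⁻¹)
      (WithLp.toLp 2 (z, w)) = (Ioo (-r) r).indicator
        (fun z => 2 * π * (√(r ^ 2 + h ^ 2 - 2 * h * z) - |z - h|)) z := by
    intro z
    by_cases hz : z ∈ Ioo (-r) r
    · rw [indicator_of_mem hz]
      have hzr : 0 < r ^ 2 - z ^ 2 := by nlinarith [hz.1, hz.2]
      have hρ : 0 ≤ √(r ^ 2 - z ^ 2) := Real.sqrt_nonneg _
      have h1 := disc_int (z - h) hρ
      rw [Real.sq_sqrt hzr.le] at h1
      rw [show r ^ 2 + h ^ 2 - 2 * h * z = (z - h) ^ 2 + (r ^ 2 - z ^ 2) by ring, ← h1]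
      congr 1
      ext w
      have h2 : (WithLp.toLp 2 (z, w) : W3) ∈ ball (0:W3) r ↔ ‖w‖ ∈ Iio (√(r ^ 2 - z ^ 2)) := by
        rw [mem_ball_zero_iff, W_norm, mem_Iio, Real.lt_sqrt (norm_nonneg _),
          Real.sqrt_lt' hr]
        constructor <;> intro h <;> linarith
      by_cases h3 : ‖w‖ ∈ Iio (√(r ^ 2 - z ^ 2))
      · rw [indicator_of_mem h3, indicator_of_mem (h2.2 h3), hc, W_norm_sub]
      · rw [indicator_of_notMem h3, indicator_of_notMem (fun h => h3 (h2.1 h))]
    · rw [indicator_of_notMem hz]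
      have : ∀ w : E2, (ball (0:W3) r).indicator (fun w => ‖w - c‖⁻¹)
          (WithLp.toLp 2 (z, w)) = 0 := by
        intro w
        rw [indicator_of_notMem]
        rw [mem_ball_zero_iff, W_norm, Real.sqrt_lt' hr]
        intro h
        apply hz
        constructor <;> nlinarith [sq_nonneg ‖w‖, abs_le_of_sq_le_sq' (a := z) (b := r) (by nlinarith [sq_nonneg ‖w‖]) hr.le]
      simp_rw [this]
      simp
  simp_rw [hin]
  rw [integral_indicator measurableSet_Ioo, intervalIntegral.integral_of_le (by linarith),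
    integral_Ioc_eq_integral_Ioo]


lemma int_lin (a b h : ℝ) : ∫ z in a..b, (h - z) = h * (b - a) - (b ^ 2 - a ^ 2) / 2 := by
  rw [intervalIntegral.integral_sub (by simp) (by simp)]
  simp
  ring

lemma int_lin' (a b h : ℝ) : ∫ z in a..b, (z - h) = (b ^ 2 - a ^ 2) / 2 - h * (b - a) := by
  rw [intervalIntegral.integral_sub (by simp) (by simp)]
  simp
  ring

lemma int_sqrt (r h : ℝ) (hr : 0 < r) (hh : 0 < h) :
    ∫ z in (-r)..r, √(r ^ 2 + h ^ 2 - 2 * h * z) = ((r + h) ^ 3 - |r - h| ^ 3) / (3 * h) := by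
  have hd : ∀ z ∈ Ioo (-r) r, HasDerivAt
      (fun z => -((r ^ 2 + h ^ 2 - 2 * h * z) * √(r ^ 2 + h ^ 2 - 2 * h * z)) / (3 * h))
      (√(r ^ 2 + h ^ 2 - 2 * h * z)) z := by
    intro z hz
    have hpos : 0 < r ^ 2 + h ^ 2 - 2 * h * z := by nlinarith [sq_nonneg (r - h), hz.2]
    have h1 : HasDerivAt (fun z : ℝ => r ^ 2 + h ^ 2 - 2 * h * z) (-(2 * h)) z := by
      have := ((hasDerivAt_id z).const_mul (2 * h)).const_sub (r ^ 2 + h ^ 2)
      simpa using this
    have h2 := ((h1.mul (h1.sqrt hpos.ne')).neg).div_const (3 * h)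
    refine HasDerivAt.congr_deriv h2 ?_
    have hs : √(r ^ 2 + h ^ 2 - 2 * h * z) ≠ 0 := (Real.sqrt_pos.2 hpos).ne'
    have hs2 : √(r ^ 2 + h ^ 2 - 2 * h * z) ^ 2 = r ^ 2 + h ^ 2 - 2 * h * z := Real.sq_sqrt hpos.le
    field_simp
    rw [hs2]
    ring
  have hcont : ContinuousOn
      (fun z => -((r ^ 2 + h ^ 2 - 2 * h * z) * √(r ^ 2 + h ^ 2 - 2 * h * z)) / (3 * h))
      (Icc (-r) r) := by fun_prop
  have hint : IntervalIntegrable (fun z => √(r ^ 2 + h ^ 2 - 2 * h * z)) volume (-r) r := by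
    apply Continuous.intervalIntegrable; fun_prop
  rw [intervalIntegral.integral_eq_sub_of_hasDerivAt_of_le (by linarith) hcont hd hint]
  have e1 : r ^ 2 + h ^ 2 - 2 * h * r = (r - h) ^ 2 := by ring
  have e2 : r ^ 2 + h ^ 2 - 2 * h * (-r) = (r + h) ^ 2 := by ring
  rw [e1, e2, Real.sqrt_sq_eq_abs, Real.sqrt_sq_eq_abs, abs_of_pos (show 0 < r + h by linarith)]
  have e3 : |r - h| ^ 3 = (r - h) ^ 2 * |r - h| := by
    rw [pow_succ, sq_abs]
  rw [e3]
  field_simp
  ring

lemma int_abs (r h : ℝ) (hr : 0 < r) (hh : 0 < h) :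
    ∫ z in (-r)..r, |z - h| = if r ≤ h then 2 * r * h else r ^ 2 + h ^ 2 := by
  split_ifs with hrh
  · have : ∫ z in (-r)..r, |z - h| = ∫ z in (-r)..r, (h - z) := by
      apply intervalIntegral.integral_congr
      intro z hz
      rw [uIcc_of_le (by linarith)] at hz
      show |z - h| = h - z
      rw [abs_of_nonpos (by linarith [hz.2])]
      ring
    rw [this, int_lin]
    ring
  · push Not at hrh
    have hi : ∀ a b : ℝ, IntervalIntegrable (fun z => |z - h|) volume a b := by
      intro a b; apply Continuous.intervalIntegrable; fun_prop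
    rw [← intervalIntegral.integral_add_adjacent_intervals (hi (-r) h) (hi h r)]
    have h1 : ∫ z in (-r)..h, |z - h| = ∫ z in (-r)..h, (h - z) := by
      apply intervalIntegral.integral_congr
      intro z hz
      rw [uIcc_of_le (by linarith)] at hz
      show |z - h| = h - z
      rw [abs_of_nonpos (by linarith [hz.2])]
      ring
    have h2 : ∫ z in h..r, |z - h| = ∫ z in h..r, (z - h) := by
      apply intervalIntegral.integral_congr
      intro z hz
      rw [uIcc_of_le (by linarith)] at hz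
      show |z - h| = z - h
      rw [abs_of_nonneg (by linarith [hz.1])]
    rw [h1, h2, int_lin, int_lin']
    ring

lemma ball_pot_W' (r h : ℝ) (hr : 0 < r) (hh : 0 < h) :
    ∫ w : W3 in ball 0 r, ‖w - WithLp.toLp 2 (h, (0:E2))‖⁻¹ =
      if r ≤ h then 4 * π / 3 * r ^ 3 / h else 2 * π * r ^ 2 - 2 * π / 3 * h ^ 2 := by
  rw [ball_pot_W r h hr, intervalIntegral.integral_const_mul,
    intervalIntegral.integral_sub, int_sqrt r h hr hh, int_abs r h hr hh]
  · split_ifs with hrh
    · rw [abs_of_nonpos (by linarith)]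
      field_simp
      ring
    · push Not at hrh
      rw [abs_of_pos (by linarith)]
      field_simp
      ring
  · apply Continuous.intervalIntegrable; fun_prop
  · apply Continuous.intervalIntegrable; fun_prop

/-- Newton's theorem: potential of a homogeneous ball. -/
theorem ball_pot (r : ℝ) (hr : 0 < r) (y : E3) :
    ∫ x in ball (0:E3) r, ‖x - y‖⁻¹ =
      if r ≤ ‖y‖ then 4 * π / 3 * r ^ 3 / ‖y‖ else 2 * π * r ^ 2 - 2 * π / 3 * ‖y‖ ^ 2 := by
  obtain ⟨L, hL⟩ := exists_iso y
  have hmp : MeasurePreserving L := L.measurePreserving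
  have hme : MeasurableEmbedding L := L.toHomeomorph.measurableEmbedding
  have h1 : L ⁻¹' (ball (0:E3) r) = ball (0:W3) r := by
    ext w; simp
  have h2 := hmp.setIntegral_preimage_emb hme (fun x => ‖x - y‖⁻¹) (ball (0:E3) r)
  rw [← h2, h1]
  have h3 : ∀ w : W3, ‖L w - y‖⁻¹ = ‖w - WithLp.toLp 2 (‖y‖, (0:E2))‖⁻¹ := by
    intro w
    conv_lhs => rw [← hL]
    rw [← map_sub, L.norm_map]
  simp_rw [h3]
  by_cases hy : 0 < ‖y‖
  · exact ball_pot_W' r ‖y‖ hr hy
  · have hy0 : ‖y‖ = 0 := le_antisymm (not_lt.1 hy) (norm_nonneg _)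
    rw [hy0, if_neg (by linarith), ball_pot_W r 0 hr]
    have e : ∀ z : ℝ, 2 * π * (√(r ^ 2 + 0 ^ 2 - 2 * 0 * z) - |z - 0|) = 2 * π * (r - |z|) := by
      intro z
      rw [show r ^ 2 + 0 ^ 2 - 2 * 0 * z = r ^ 2 by ring, Real.sqrt_sq hr.le, sub_zero]
    simp_rw [e]
    rw [intervalIntegral.integral_const_mul, intervalIntegral.integral_sub]
    · have h4 : ∫ z in (-r)..r, |z| = r ^ 2 := by
        have hi : ∀ a b : ℝ, IntervalIntegrable (fun z : ℝ => |z|) volume a b := by
          intro a b; apply Continuous.intervalIntegrable; fun_prop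
        rw [← intervalIntegral.integral_add_adjacent_intervals (hi (-r) 0) (hi 0 r)]
        have h1 : ∫ z in (-r)..0, |z| = ∫ z in (-r)..0, (0 - z) := by
          apply intervalIntegral.integral_congr
          intro z hz
          rw [uIcc_of_le (by linarith)] at hz
          show |z| = 0 - z
          rw [abs_of_nonpos hz.2, zero_sub]
        have h2 : ∫ z in (0:ℝ)..r, |z| = ∫ z in (0:ℝ)..r, (z - 0) := by
          apply intervalIntegral.integral_congr
          intro z hz
          rw [uIcc_of_le (by linarith)] at hz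
          show |z| = z - 0
          rw [abs_of_nonneg hz.1, sub_zero]
        rw [h1, h2, int_lin, int_lin']
        ring
      rw [h4]
      simp
      ring
    · simp
    · apply Continuous.intervalIntegrable; fun_prop

end Pool.Agent.H813R2.Pot
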