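import Mathlib
import Pool.Agent.H813R2.Pot1b
set_option autoImplicit false
open MeasureTheory Metric Set Filter Topology
open scoped Real RealInnerProductSpace

namespace Pool.Agent.H813R2.Pot

/-- truncated kernel -/
noncomputable def hk (R : ℝ) : E3 → ℝ := (ball (0:E3) R).indicator (fun z => ‖z‖⁻¹)

lemma hk_meas (R : ℝ) : Measurable (hk R) := by
  unfold hk
  exact (measurable_norm.inv).indicator measurableSet_ball

lemma hk_memLp (R : ℝ) : MemLp (hk R) 2 (volume : Measure E3) := by
  rw [memLp_two_iff_integrable_sq (hk_meas R).aestronglyMeasurable]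
  have h := kern_intOn (volume : Measure E3) (by simp) 2 le_rfl 0 R
  rw [← integrable_indicator_iff measurableSet_ball] at h
  refine h.congr (ae_of_all _ fun x => ?_)
  unfold hk
  by_cases hx : x ∈ ball (0:E3) R
  · simp [indicator_of_mem hx]
  · simp [indicator_of_notMem hx]

noncomputable def hLp (R : ℝ) : Lp ℝ 2 (volume : Measure E3) := (hk_memLp R).toLp (hk R)

noncomputable def kx (R : ℝ) (x : E3) : Lp ℝ 2 (volume : Measure E3) :=
  DomAddAct.mk (-x) +ᵥ hLp R

lemma kx_continuous (R : ℝ) : Continuous (kx R) := by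
  unfold kx
  have : Fact ((2:ENNReal) ≠ ⊤) := ⟨by norm_num⟩
  have h1 : Continuous (fun x : E3 => (DomAddAct.mk (-x) : (E3)ᵈᵃᵃ)) :=
    DomAddAct.continuous_mk.comp continuous_neg
  exact h1.vadd continuous_const

lemma kx_ae (R : ℝ) (x : E3) : kx R x =ᵐ[volume] fun y => hk R (-x + y) := by
  have h : kx R x = ((hk_memLp R).comp_measurePreserving
    (measurePreserving_vadd (-x) volume)).toLp (hk R <| (-x) +ᵥ ·) := rfl
  rw [h]
  exact MemLp.coeFn_toLp _

/-- bounded measurable densities with bounded support -/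
structure Nice (R : ℝ) (g : E3 → ℝ) : Prop where
  meas : Measurable g
  bdd : ∀ y, |g y| ≤ 1
  supp : ∀ y, R ≤ ‖y‖ → g y = 0

/-- the Newtonian potential -/
noncomputable def P (g : E3 → ℝ) (x : E3) : ℝ := ∫ y, g y * ‖x - y‖⁻¹

lemma kern_intOn' (x : E3) (R : ℝ) : IntegrableOn (fun y => ‖x - y‖⁻¹) (ball 0 R) volume := by
  have := kern_intOn (volume : Measure E3) (by simp) 1 (by norm_num) x R
  simpa [norm_sub_rev] using this

variable {R : ℝ} {g : E3 → ℝ}

lemma Nice.integrable_mul (hg : Nice R g) {F : E3 → ℝ} (hF : IntegrableOn F (ball 0 R) volume) :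
    Integrable (fun y => g y * F y) := by
  have h1 : IntegrableOn (fun y => g y * F y) (ball 0 R) :=
    hF.bdd_mul (c := 1) hg.meas.aestronglyMeasurable (ae_of_all _ fun y => by simpa using hg.bdd y)
  rw [← integrableOn_iff_integrable_of_support_subset (s := ball 0 R)]
  · exact h1
  · intro y hy
    by_contra h
    apply hy
    simp only [mem_ball_zero_iff, not_lt] at h
    simp [hg.supp y h]

lemma Nice.integrable (hg : Nice R g) (x : E3) : Integrable (fun y => g y * ‖x - y‖⁻¹) :=
  hg.integrable_mul (kern_intOn' x R)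

lemma Nice.integrable_self (hg : Nice R g) : Integrable g := by
  have := hg.integrable_mul (F := fun _ => 1) (integrableOn_const measure_ball_lt_top.ne)
  simpa using this

lemma Nice.memLp (hg : Nice R g) : MemLp g 2 volume := by
  rw [memLp_two_iff_integrable_sq hg.meas.aestronglyMeasurable]
  have := hg.integrable_mul (F := g) hg.integrable_self.integrableOn
  simpa [sq] using this

lemma Nice.P_eq_inner (hg : Nice R g) {R' : ℝ} {x : E3} (hx : ‖x‖ + R ≤ R') :
    P g x = ⟪hg.memLp.toLp g, kx R' x⟫ := by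
  rw [L2.inner_def]
  unfold P
  apply integral_congr_ae
  filter_upwards [kx_ae R' x, hg.memLp.coeFn_toLp] with y h1 h2
  rw [h1, h2]
  simp only [RCLike.inner_apply, conj_trivial]
  by_cases hy : R ≤ ‖y‖
  · simp [hg.supp y hy]
  · have : -x + y ∈ ball (0:E3) R' := by
      rw [mem_ball_zero_iff]
      calc ‖-x + y‖ ≤ ‖-x‖ + ‖y‖ := norm_add_le _ _
        _ < R' := by rw [norm_neg]; linarith
    unfold hk
    rw [indicator_of_mem this, mul_comm, show -x + y = y - x by abel, norm_sub_rev]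

lemma Nice.continuous_P (hg : Nice R g) : Continuous (P g) := by
  rw [continuous_iff_continuousAt]
  intro x0
  have h1 : ContinuousAt (fun x => ⟪hg.memLp.toLp g, kx (‖x0‖ + 1 + R) x⟫) x0 :=
    (continuous_const.inner (kx_continuous _)).continuousAt
  apply h1.congr
  filter_upwards [ball_mem_nhds x0 one_pos] with x hx
  rw [hg.P_eq_inner]
  have : ‖x‖ ≤ ‖x0‖ + 1 := by
    have h2 := norm_sub_norm_le x x0
    rw [mem_ball, dist_eq_norm] at hx
    linarith
  linarith

lemma Nice.abs_P_le (hg : Nice R g) {x : E3} (hx : R < ‖x‖) :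
    |P g x| ≤ (∫ y, |g y|) * (‖x‖ - R)⁻¹ := by
  unfold P
  rw [← integral_mul_const]
  refine (abs_integral_le_integral_abs).trans ?_
  apply integral_mono_of_nonneg (ae_of_all _ fun y => abs_nonneg _)
    (hg.integrable_self.abs.mul_const _) (ae_of_all _ fun y => ?_)
  simp only [abs_mul]
  by_cases hy : R ≤ ‖y‖
  · simp [hg.supp y hy]
  · apply mul_le_mul_of_nonneg_left _ (abs_nonneg _)
    rw [abs_of_nonneg (by positivity)]
    apply inv_anti₀ (by linarith)
    have := norm_sub_norm_le x y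
    push Not at hy
    linarith

lemma Nice.tendsto_P (hg : Nice R g) : Tendsto (P g) (cocompact E3) (𝓝 0) := by
  have h1 : Tendsto (fun x : E3 => (∫ y, |g y|) * (‖x‖ - R)⁻¹) (cocompact E3) (𝓝 0) := by
    have h2 : Tendsto (fun x : E3 => ‖x‖ - R) (cocompact E3) atTop :=
      tendsto_atTop_add_const_right _ _ (tendsto_norm_cocompact_atTop)
    have := (tendsto_inv_atTop_zero.comp h2).const_mul (∫ y, |g y|)
    simpa using this
  apply squeeze_zero_norm' _ h1
  have h3 := (tendsto_norm_cocompact_atTop (E := E3)).eventually_gt_atTop R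
  filter_upwards [h3] with x hx
  exact hg.abs_P_le hx


/-- potential of the ball of radius `r` at the origin -/
noncomputable def Mr (r : ℝ) (z : E3) : ℝ :=
  if r ≤ ‖z‖ then 4 * π / 3 * r ^ 3 / ‖z‖ else 2 * π * r ^ 2 - 2 * π / 3 * ‖z‖ ^ 2

lemma Mr_meas (r : ℝ) : Measurable (Mr r) := by
  unfold Mr
  apply Measurable.ite (measurableSet_le measurable_const measurable_norm)
  · exact measurable_const.div measurable_norm
  · exact measurable_const.sub ((measurable_norm.pow_const 2).const_mul _)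

lemma Mr_aesm (r : ℝ) (x0 : E3) {μ : Measure E3} : AEStronglyMeasurable (fun y => Mr r (y - x0)) μ :=
  ((Mr_meas r).comp (measurable_id.sub_const x0)).aestronglyMeasurable

lemma Mr_bd {r : ℝ} (hr : 0 < r) (z : E3) : |Mr r z| ≤ 2 * π * r ^ 2 := by
  have hπ := Real.pi_pos
  unfold Mr
  split_ifs with h
  · have hz : 0 < ‖z‖ := lt_of_lt_of_le hr h
    rw [abs_of_nonneg (by positivity), div_le_iff₀ hz]
    have h1 : r ^ 2 * r ≤ r ^ 2 * ‖z‖ := mul_le_mul_of_nonneg_left h (by positivity)
    nlinarith [mul_le_mul_of_nonneg_left h1 hπ.le, mul_nonneg hπ.le (mul_nonneg (sq_nonneg r) hz.le)]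
  · push Not at h
    have h1 : ‖z‖ ^ 2 ≤ r ^ 2 := by nlinarith [norm_nonneg z]
    rw [abs_of_nonneg]
    · nlinarith [mul_nonneg hπ.le (sq_nonneg ‖z‖)]
    · nlinarith [mul_le_mul_of_nonneg_left h1 hπ.le, mul_nonneg hπ.le (sq_nonneg ‖z‖)]

lemma ball_pot' {r : ℝ} (hr : 0 < r) (x0 y : E3) :
    ∫ x in ball x0 r, ‖x - y‖⁻¹ = Mr r (y - x0) := by
  have h := ball_pot r hr (y - x0)
  unfold Mr
  rw [← h]
  have h3 : MeasurePreserving (fun x : E3 => x - x0) volume volume := measurePreserving_sub_right volume x0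
  have h4 : (fun x : E3 => x - x0) ⁻¹' (ball 0 r) = ball x0 r := by
    ext x; simp [dist_eq_norm]
  rw [← h3.setIntegral_preimage_emb (MeasurableEquiv.subRight x0).measurableEmbedding
    (fun x => ‖x - (y - x0)‖⁻¹) (ball 0 r), h4]
  congr 1
  ext x
  congr 2
  abel

lemma meas_kern : Measurable (fun p : E3 × E3 => ‖p.1 - p.2‖⁻¹) :=
  ((measurable_fst.sub measurable_snd).norm).inv

lemma Nice.mean (hg : Nice R g) (x0 : E3) {r : ℝ} (hr : 0 < r) :
    ∫ x in ball x0 r, P g x = ∫ y, g y * Mr r (y - x0) := by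
  unfold P
  rw [integral_integral_swap]
  · congr 1
    ext y
    rw [integral_const_mul, ball_pot' hr]
  · have hm : Measurable (Function.uncurry fun (x y : E3) => g y * ‖x - y‖⁻¹) :=
      (hg.meas.comp measurable_snd).mul meas_kern
    rw [integrable_prod_iff' hm.aestronglyMeasurable]
    constructor
    · refine ae_of_all _ fun y => ?_
      simp only [Function.uncurry]
      apply Integrable.const_mul
      have := kern_intOn (volume : Measure E3) (by simp) 1 (by norm_num) y (‖x0‖ + r)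
      simp only [pow_one] at this
      apply this.mono_set
      intro x hx
      rw [mem_ball, dist_eq_norm] at hx
      rw [mem_ball_zero_iff]
      have := norm_sub_norm_le x x0
      linarith
    · have : (fun y => ∫ x in ball x0 r, ‖Function.uncurry (fun (x y : E3) => g y * ‖x - y‖⁻¹) (x, y)‖) =
          fun y => |g y| * Mr r (y - x0) := by
        ext y
        simp only [Function.uncurry, norm_mul, Real.norm_eq_abs, abs_inv, abs_norm]
        rw [integral_const_mul, ball_pot' hr]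
      rw [this]
      have hg' : Nice R (fun y => |g y|) :=
        ⟨hg.meas.abs, fun y => by rw [abs_abs]; exact hg.bdd y, fun y hy => by simp [hg.supp y hy]⟩
      apply hg'.integrable_mul
      exact Measure.integrableOn_of_bounded (M := 2 * π * r ^ 2) measure_ball_lt_top.ne
        (Mr_aesm r x0) (ae_of_all _ fun y => Mr_bd hr _)

/-- defect kernel -/
noncomputable def kr (r : ℝ) (z : E3) : ℝ := 4 * π / 3 * r ^ 3 * ‖z‖⁻¹ - Mr r z

lemma kr_zero {r : ℝ} {z : E3} (hz : r ≤ ‖z‖) : kr r z = 0 := by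
  unfold kr Mr
  rw [if_pos hz, div_eq_mul_inv (4 * π / 3 * r ^ 3) ‖z‖, sub_self]

lemma kr_pos {r : ℝ} {z : E3} (hz : ‖z‖ < r) (hz0 : z ≠ 0) : 0 < kr r z := by
  have hπ := Real.pi_pos
  have hn : 0 < ‖z‖ := norm_pos_iff.2 hz0
  unfold kr Mr
  rw [if_neg (not_le.2 hz)]
  have h1 : 4 * π / 3 * r ^ 3 * ‖z‖⁻¹ - (2 * π * r ^ 2 - 2 * π / 3 * ‖z‖ ^ 2) =
      2 * π / 3 * ‖z‖⁻¹ * ((r - ‖z‖) ^ 2 * (2 * r + ‖z‖)) := by
    field_simp
    ring
  rw [h1]
  have h2 : 0 < r - ‖z‖ := by linarith
  have h3 : 0 < 2 * r + ‖z‖ := by linarith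
  positivity

lemma vol_ball (x0 : E3) {r : ℝ} (hr : 0 < r) : (volume : Measure E3).real (ball x0 r) = 4 * π / 3 * r ^ 3 := by
  rw [measureReal_def, EuclideanSpace.volume_ball_fin_three, ENNReal.toReal_mul, ENNReal.toReal_pow,
    ENNReal.toReal_ofReal hr.le, ENNReal.toReal_ofReal (by positivity)]
  ring

lemma Nice.defect (hg : Nice R g) (x0 : E3) {r : ℝ} (hr : 0 < r) :
    4 * π / 3 * r ^ 3 * P g x0 - ∫ x in ball x0 r, P g x = ∫ y, g y * kr r (y - x0) := by
  rw [hg.mean x0 hr]
  unfold P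
  rw [← integral_const_mul, ← integral_sub]
  · congr 1
    ext y
    unfold kr
    rw [norm_sub_rev x0 y]
    ring
  · exact (hg.integrable x0).const_mul _
  · apply hg.integrable_mul
    exact Measure.integrableOn_of_bounded (M := 2 * π * r ^ 2) measure_ball_lt_top.ne
      (Mr_aesm r x0) (ae_of_all _ fun y => Mr_bd hr _)

lemma Nice.integrable_kr (hg : Nice R g) (x0 : E3) {r : ℝ} (hr : 0 < r) :
    Integrable (fun y => g y * kr r (y - x0)) := by
  unfold kr
  simp_rw [mul_sub]
  apply Integrable.sub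
  · have := (hg.integrable x0).const_mul (4 * π / 3 * r ^ 3)
    refine this.congr (ae_of_all _ fun y => ?_)
    simp only
    rw [norm_sub_rev x0 y]
    ring
  · apply hg.integrable_mul
    exact Measure.integrableOn_of_bounded (M := 2 * π * r ^ 2) measure_ball_lt_top.ne
      (Mr_aesm r x0) (ae_of_all _ fun y => Mr_bd hr _)

lemma kr_mul_nonneg {x0 : E3} {r : ℝ} (h : ∀ᵐ y, y ∈ ball x0 r → 0 ≤ g y) :
    ∀ᵐ y, 0 ≤ g y * kr r (y - x0) := by
  have h0 : ∀ᵐ y : E3, y ≠ x0 := by
    rw [ae_iff]; simp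
  filter_upwards [h, h0] with y hy hy0
  by_cases hyb : y ∈ ball x0 r
  · rw [mem_ball, dist_eq_norm] at hyb
    exact mul_nonneg (hy hyb) (kr_pos hyb (sub_ne_zero.2 hy0)).le
  · rw [mem_ball, dist_eq_norm, not_lt] at hyb
    rw [kr_zero hyb, mul_zero]

lemma Nice.min_const (hg : Nice R g) {x0 : E3} {r : ℝ} (hr : 0 < r)
    (h : ∀ᵐ y, y ∈ ball x0 r → 0 ≤ g y) (h2 : ∀ x ∈ ball x0 r, P g x0 ≤ P g x) :
    ∀ x ∈ ball x0 r, P g x = P g x0 := by
  have h3 : 0 ≤ ∫ y, g y * kr r (y - x0) := integral_nonneg_of_ae (kr_mul_nonneg h)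
  rw [← hg.defect x0 hr] at h3
  have hint : IntegrableOn (P g) (ball x0 r) :=
    (hg.continuous_P.continuousOn.integrableOn_compact (isCompact_closedBall x0 r)).mono_set
      ball_subset_closedBall
  have h4 : ∫ x in ball x0 r, (P g x - P g x0) ≤ 0 := by
    rw [integral_sub hint (integrableOn_const measure_ball_lt_top.ne), setIntegral_const, vol_ball x0 hr,
      smul_eq_mul]
    linarith
  have h5 : 0 ≤ᵐ[volume.restrict (ball x0 r)] fun x => P g x - P g x0 := by
    filter_upwards [ae_restrict_mem measurableSet_ball] with x hx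
    have := h2 x hx
    simp only [Pi.zero_apply]
    linarith
  have h6 : ∫ x in ball x0 r, (P g x - P g x0) = 0 :=
    le_antisymm h4 (integral_nonneg_of_ae h5)
  rw [integral_eq_zero_iff_of_nonneg_ae h5
    (hint.sub (integrableOn_const measure_ball_lt_top.ne))] at h6
  have h7 : EqOn (fun x => P g x - P g x0) 0 (ball x0 r) :=
    Measure.eqOn_open_of_ae_eq h6 isOpen_ball
      ((hg.continuous_P.sub continuous_const).continuousOn) continuousOn_const
  intro x hx
  have := h7 hx
  simp only [Pi.zero_apply] at this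
  linarith

lemma Nice.zero_of_const (hg : Nice R g) {x0 : E3} {r : ℝ} (hr : 0 < r)
    (h : ∀ᵐ y, y ∈ ball x0 r → 0 ≤ g y) (h2 : ∀ x ∈ ball x0 r, P g x = P g x0) :
    ∀ᵐ y, y ∈ ball x0 r → g y = 0 := by
  have h3 : ∫ y, g y * kr r (y - x0) = 0 := by
    rw [← hg.defect x0 hr, setIntegral_congr_fun measurableSet_ball (g := fun _ => P g x0) h2,
      setIntegral_const, vol_ball x0 hr, smul_eq_mul, sub_self]
  rw [integral_eq_zero_iff_of_nonneg_ae (kr_mul_nonneg h) (hg.integrable_kr x0 hr)] at h3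
  have h0 : ∀ᵐ y : E3, y ≠ x0 := by
    rw [ae_iff]; simp
  filter_upwards [h3, h0] with y h4 h5 h6
  rw [mem_ball, dist_eq_norm] at h6
  have := (kr_pos h6 (sub_ne_zero.2 h5)).ne'
  simpa [this] using h4

end Pool.Agent.H813R2.Pot
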