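import Mathlib
import Pool.Agent.H813R2.Pot2
set_option autoImplicit false
open MeasureTheory Metric Set Filter Topology
open scoped Real RealInnerProductSpace

namespace Pool.Agent.H813R2.Pot

/-- extremal point: a minimiser over the closed set `C`, which is extreme in direction `e`. -/
lemma exists_extremal {D : E3 → ℝ} (hD : Continuous D) (hD0 : Tendsto D (cocompact E3) (𝓝 0))
    {C : Set E3} (hC : IsClosed C) {x1 : E3} (hx1 : x1 ∈ C) (hneg : D x1 < 0) (e : E3) :
    ∃ z ∈ C, D z < 0 ∧ (∀ x ∈ C, D z ≤ D x) ∧ (∀ x ∈ C, D x = D z → ⟪x, e⟫ ≤ ⟪z, e⟫) := by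
  have hbd : Bornology.IsBounded {x | D x ≤ D x1} := by
    have h1 : ∀ᶠ x in cocompact E3, D x1 < D x := hD0.eventually_const_lt hneg
    have h2 := Metric.isBounded_iff_subset_closedBall (s := {x | D x ≤ D x1}) (0:E3)
    rw [Filter.Eventually, Filter.mem_cocompact] at h1
    obtain ⟨t, ht, hts⟩ := h1
    apply ht.isBounded.subset
    intro x hx
    by_contra hxt
    have := hts hxt
    simp only [mem_ofPred_eq] at this hx
    linarith
  have hK : IsCompact (C ∩ {x | D x ≤ D x1}) := by
    apply isCompact_of_isClosed_isBounded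
    · exact hC.inter (isClosed_le hD continuous_const)
    · exact hbd.subset inter_subset_right
  obtain ⟨z1, hz1, hmin⟩ := hK.exists_isMinOn ⟨x1, hx1, le_refl (D x1)⟩ hD.continuousOn
  have hmin' : ∀ x ∈ C, D z1 ≤ D x := by
    intro x hx
    by_cases h : D x ≤ D x1
    · exact hmin ⟨hx, h⟩
    · push Not at h
      exact hz1.2.trans h.le
  have hK2 : IsCompact (C ∩ {x | D x = D z1}) := by
    apply isCompact_of_isClosed_isBounded
    · exact hC.inter (isClosed_eq hD continuous_const)
    · apply hbd.subset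
      rintro x ⟨_, hx⟩
      simp only [mem_ofPred_eq] at hx ⊢
      rw [hx]; exact hz1.2
  obtain ⟨z, hz, hmax⟩ := hK2.exists_isMaxOn (f := fun x => ⟪x, e⟫) ⟨z1, hz1.1, rfl⟩
    (by fun_prop)
  have hz2 : D z = D z1 := hz.2
  refine ⟨z, hz.1, ?_, ?_, ?_⟩
  · rw [hz2]; exact lt_of_le_of_lt hz1.2 hneg
  · intro x hx; rw [hz2]; exact hmin' x hx
  · intro x hx hxe
    exact hmax ⟨hx, by rw [mem_ofPred_eq, hxe, hz2]⟩

structure Sol (U : Set E3) (c : ℝ) (f : E3 → ℝ) : Prop where
  nice : Nice 1 f
  nonneg : ∀ y, 0 ≤ f y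
  le_one : ∀ y, f y ≤ 1
  supp : ∀ y ∉ U, f y = 0
  lt_one : ∀ᵐ y, y ∈ U → P f y < c → f y = 1
  gt_zero : ∀ᵐ y, c < P f y → f y = 0

lemma Nice.neg {R : ℝ} {g : E3 → ℝ} (hg : Nice R g) : Nice R (fun y => - g y) :=
  ⟨hg.meas.neg, fun y => by rw [abs_neg]; exact hg.bdd y, fun y hy => by simp [hg.supp y hy]⟩

lemma P_neg (g : E3 → ℝ) (x : E3) : P (fun y => - g y) x = - P g x := by
  unfold P
  rw [← integral_neg]
  congr 1
  ext y
  ring

/-- no extremal point can have the `min_const` property -/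
lemma step_contra {D : E3 → ℝ} {C : Set E3} {z e : E3} {r : ℝ} (hr : 0 < r) (he : ‖e‖ = 1)
    (hC : ball z r ⊆ C) (hconst : ∀ x ∈ ball z r, D x = D z)
    (hmax : ∀ x ∈ C, D x = D z → ⟪x, e⟫ ≤ ⟪z, e⟫) : False := by
  have hx : z + (r / 2) • e ∈ ball z r := by
    rw [mem_ball, dist_eq_norm, add_sub_cancel_left, norm_smul, he, Real.norm_eq_abs,
      abs_of_pos (by positivity)]
    linarith
  have h1 := hmax _ (hC hx) (hconst _ hx)
  rw [inner_add_left, inner_smul_left, real_inner_self_eq_norm_sq, he] at h1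
  simp at h1
  linarith

lemma norm_e0 : ‖(EuclideanSpace.single (0 : Fin 3) (1 : ℝ) : E3)‖ = 1 := by simp

lemma Sol.P_le {U : Set E3} {c : ℝ} {f : E3 → ℝ} (hf : Sol U c f) (hc : 0 ≤ c) (x : E3) :
    P f x ≤ c := by
  by_contra hx
  push Not at hx
  have hn := hf.nice.neg
  have hneg : P (fun y => - f y) x < 0 := by rw [P_neg]; linarith
  obtain ⟨z, -, hz1, hz2, hz3⟩ := exists_extremal hn.continuous_P hn.tendsto_P isClosed_univ
    (mem_univ x) hneg (EuclideanSpace.single (0 : Fin 3) (1 : ℝ))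
  have hzc : c < P f z := by
    have := hz2 x (mem_univ x)
    rw [P_neg, P_neg] at this
    linarith
  have hopen : IsOpen {y | c < P f y} := isOpen_lt continuous_const hf.nice.continuous_P
  obtain ⟨r, hr, hball⟩ := Metric.isOpen_iff.1 hopen z hzc
  refine step_contra hr norm_e0 (subset_univ _) (hn.min_const hr ?_ fun x _ => hz2 x (mem_univ x)) hz3
  filter_upwards [hf.gt_zero] with y hy hyb
  rw [hy (hball hyb), neg_zero]

/-- reflection across the hyperplane `⟪x, e⟫ = l` -/
noncomputable def sig (e : E3) (l : ℝ) (x : E3) : E3 := x - (2 * (⟪x, e⟫ - l)) • e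

lemma sig_inner {e : E3} (he : ‖e‖ = 1) (l : ℝ) (x : E3) : ⟪sig e l x, e⟫ = 2 * l - ⟪x, e⟫ := by
  unfold sig
  rw [inner_sub_left, inner_smul_left, real_inner_self_eq_norm_sq, he]
  simp
  ring

lemma sig_sig {e : E3} (he : ‖e‖ = 1) (l : ℝ) (x : E3) : sig e l (sig e l x) = x := by
  have h := sig_inner he l x
  conv_lhs => unfold sig
  change sig e l x - (2 * (⟪sig e l x, e⟫ - l)) • e = x
  rw [h]
  unfold sig
  module

lemma sig_dist {e : E3} (he : ‖e‖ = 1) (l : ℝ) (x y : E3) : ‖sig e l x - sig e l y‖ = ‖x - y‖ := by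
  have h1 : sig e l x - sig e l y = (x - y) - (2 * ⟪x - y, e⟫) • e := by
    unfold sig
    rw [inner_sub_left]
    module
  rw [h1]
  have h2 : ‖(x - y) - (2 * ⟪x - y, e⟫) • e‖ ^ 2 = ‖x - y‖ ^ 2 := by
    rw [norm_sub_sq_real, inner_smul_right, norm_smul, he, mul_one, Real.norm_eq_abs, sq_abs]
    ring
  exact (sq_eq_sq₀ (norm_nonneg _) (norm_nonneg _)).1 h2

noncomputable def sigE (e : E3) (he : ‖e‖ = 1) (l : ℝ) : E3 ≃ᵢ E3 where
  toFun := sig e l
  invFun := sig e l
  left_inv := sig_sig he l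
  right_inv := sig_sig he l
  isometry_toFun := by
    apply Isometry.of_dist_eq
    intro x y
    rw [dist_eq_norm, dist_eq_norm, sig_dist he]

lemma sig_mp {e : E3} (he : ‖e‖ = 1) (l : ℝ) : MeasurePreserving (sig e l) volume volume := by
  have h0 : sig e l = (fun v => v + sig e l 0) ∘ (fun x => sig e 0 x) := by
    ext1 x
    unfold sig
    simp only [Function.comp_apply, inner_zero_left, sub_zero, zero_sub]
    module
  have h1 : MeasurePreserving (fun x : E3 => sig e 0 x) volume volume := by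
    have h2 : (fun x : E3 => sig e 0 x) = ((ℝ ∙ e)ᗮ.reflection) := by
      ext1 x
      rw [Submodule.reflection_orthogonal_apply, Submodule.reflection_apply]
      rw [Submodule.starProjection_unit_singleton ℝ he]
      unfold sig
      rw [real_inner_comm]
      module
    rw [h2]
    exact LinearIsometryEquiv.measurePreserving _
  rw [h0]
  exact (measurePreserving_add_right volume _).comp h1


lemma sig_me {e : E3} (he : ‖e‖ = 1) (l : ℝ) : MeasurableEmbedding (sig e l) :=
  (sigE e he l).toHomeomorph.measurableEmbedding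

lemma P_sig {e : E3} (he : ‖e‖ = 1) (l : ℝ) (f : E3 → ℝ) (x : E3) :
    P (fun y => f (sig e l y)) x = P f (sig e l x) := by
  unfold P
  rw [← (sig_mp he l).integral_comp (sig_me he l)]
  congr 1
  ext y
  have h := sig_dist he l x (sig e l y)
  rw [sig_sig he] at h
  simp only [sig_sig he]
  rw [h]

lemma sig_cont {e : E3} (l : ℝ) : Continuous (sig e l) := by
  unfold sig; fun_prop

theorem Sol.polarize {U : Set E3} {c : ℝ} {f : E3 → ℝ} (hf : Sol U c f) (hc : 0 ≤ c)
    {e : E3} (he : ‖e‖ = 1) {l : ℝ} (hU : ∀ z ∈ U, l ≤ ⟪z, e⟫ → sig e l z ∈ U)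
    (x : E3) (hx : ⟪x, e⟫ ≤ l) : P f (sig e l x) ≤ P f x := by
  set g : E3 → ℝ := fun y => f y - f (sig e l y) with hg
  have hgN : Nice (1 + ‖sig e l 0‖) g := by
    refine ⟨hf.nice.meas.sub (hf.nice.meas.comp (sig_cont l).measurable), ?_, ?_⟩
    · intro y
      have h1 := hf.nonneg y
      have h2 := hf.le_one y
      have h3 := hf.nonneg (sig e l y)
      have h4 := hf.le_one (sig e l y)
      rw [abs_le]; constructor <;> simp only [hg] <;> linarith
    · intro y hy
      have h1 : 1 ≤ ‖y‖ := by have := norm_nonneg (sig e l 0); linarith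
      have h2 : 1 ≤ ‖sig e l y‖ := by
        have h3 := sig_dist he l y 0
        rw [sub_zero] at h3
        have h4 := norm_sub_le (sig e l y) (sig e l 0)
        linarith
      simp [hg, hf.nice.supp y h1, hf.nice.supp _ h2]
  have hPg : ∀ y, P g y = P f y - P f (sig e l y) := by
    intro y
    rw [← P_sig he l f y]
    unfold P
    rw [← integral_sub]
    · congr 1
      ext w
      simp only [hg]
      ring
    · exact hf.nice.integrable y
    · have h5 : Nice (1 + ‖sig e l 0‖) (fun y => f (sig e l y)) := by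
        refine ⟨hf.nice.meas.comp (sig_cont l).measurable, fun y => hf.nice.bdd _, ?_⟩
        intro y hy
        have h2 : 1 ≤ ‖sig e l y‖ := by
          have h3 := sig_dist he l y 0
          rw [sub_zero] at h3
          have h4 := norm_sub_le (sig e l y) (sig e l 0)
          linarith
        exact hf.nice.supp _ h2
      exact h5.integrable y
  by_contra hcon
  push Not at hcon
  set C : Set E3 := {y | ⟪y, e⟫ ≤ l} with hC
  have hCc : IsClosed C := isClosed_le (by fun_prop) continuous_const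
  have hneg : P g x < 0 := by rw [hPg]; linarith
  obtain ⟨z, hzC, hz1, hz2, hz3⟩ := exists_extremal hgN.continuous_P hgN.tendsto_P hCc
    (show x ∈ C from hx) hneg e
  have hzl : ⟪z, e⟫ < l := by
    rcases lt_or_eq_of_le (show ⟪z, e⟫ ≤ l from hzC) with h | h
    · exact h
    · exfalso
      have h5 : sig e l z = z := by unfold sig; rw [h]; simp
      rw [hPg, h5, sub_self] at hz1
      exact lt_irrefl _ hz1
  have hzc : P f z < c := by
    rw [hPg] at hz1
    have := hf.P_le hc (sig e l z)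
    linarith
  have hopen : IsOpen ({y | P f y < c} ∩ {y | ⟪y, e⟫ < l}) :=
    (isOpen_lt hf.nice.continuous_P continuous_const).inter (isOpen_lt (by fun_prop) continuous_const)
  obtain ⟨r, hr, hball⟩ := Metric.isOpen_iff.1 hopen z ⟨hzc, hzl⟩
  have hbC : ball z r ⊆ C := fun y hy => (show ⟪y, e⟫ < l from (hball hy).2).le
  refine step_contra hr he hbC (hgN.min_const hr ?_ fun x hx => hz2 x (hbC hx)) hz3
  filter_upwards [hf.lt_one] with y hy hyb
  simp only [hg]
  by_cases hyU : y ∈ U
  · rw [hy hyU (hball hyb).1]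
    have := hf.le_one (sig e l y)
    linarith
  · have h6 : sig e l y ∉ U := by
      intro h7
      apply hyU
      rw [← sig_sig he l y]
      apply hU _ h7
      rw [sig_inner he]
      have : ⟪y, e⟫ < l := (hball hyb).2
      linarith
    rw [hf.supp y hyU, hf.supp _ h6, sub_zero]

end Pool.Agent.H813R2.Pot
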