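import Mathlib
import Pool.Agent.H813R2.Pot3
set_option autoImplicit false
open MeasureTheory Metric Set Filter Topology
open scoped Real RealInnerProductSpace

namespace Pool.Agent.H813R2.Pot

noncomputable abbrev H2 := Lp ℝ 2 (volume : Measure E3)

structure Adm (U : Set E3) (f : E3 → ℝ) : Prop where
  meas : Measurable f
  nonneg : ∀ y, 0 ≤ f y
  le_one : ∀ y, f y ≤ 1
  supp : ∀ y ∉ U, f y = 0

variable {U : Set E3}

lemma Adm.nice {f : E3 → ℝ} (hU : U ⊆ ball 0 1) (hf : Adm U f) : Nice 1 f :=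
  ⟨hf.meas, fun y => abs_le.2 ⟨by linarith [hf.nonneg y], hf.le_one y⟩, fun y hy =>
    hf.supp y fun h => by have := hU h; rw [mem_ball_zero_iff] at this; linarith⟩

/-- the energy -/
noncomputable def J (c : ℝ) (f : E3 → ℝ) : ℝ := (∫ x, f x * P f x) / 2 - c * ∫ x, f x

lemma kx_norm (R : ℝ) (x : E3) : ‖kx R x‖ = ‖hLp R‖ := by
  unfold kx
  exact DomAddAct.norm_vadd_Lp _ _

section
variable (hUm : MeasurableSet U) (hUf : volume U ≠ ⊤)
include hUm hUf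

lemma TF_memLp (φ : WeakDual ℝ H2) : MemLp (U.indicator (fun x => φ (kx 2 x))) 2 volume := by
  have hc : Continuous (fun x => φ (kx 2 x)) := (WeakDual.toStrongDual φ).continuous.comp (kx_continuous 2)
  have h1 : MemLp (fun x => φ (kx 2 x)) 2 (volume.restrict U) := by
    have : IsFiniteMeasure (volume.restrict U) := ⟨by rw [Measure.restrict_apply_univ]; exact hUf.lt_top⟩
    apply MemLp.of_bound hc.aestronglyMeasurable (‖WeakDual.toStrongDual φ‖ * ‖hLp 2‖)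
    refine ae_of_all _ fun x => ?_
    rw [← kx_norm 2 x]
    exact (WeakDual.toStrongDual φ).le_opNorm _
  exact (memLp_indicator_iff_restrict hUm).2 h1

/-- the element `x ↦ 1_U(x) φ(k_x)` of `L²` -/
noncomputable def TF (φ : WeakDual ℝ H2) : H2 := (TF_memLp hUm hUf φ).toLp _

noncomputable def oneU : H2 := indicatorConstLp 2 hUm hUf (1:ℝ)

lemma TF_dist (φ ψ : WeakDual ℝ H2) {δ : ℝ} (h : ∀ x ∈ U, |φ (kx 2 x) - ψ (kx 2 x)| ≤ δ) :
    ‖TF hUm hUf φ - TF hUm hUf ψ‖ ≤ δ * ‖oneU hUm hUf‖ := by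
  apply Lp.norm_le_mul_norm_of_ae_le_mul
  have h1 : TF hUm hUf φ =ᵐ[volume] U.indicator (fun x => φ (kx 2 x)) := MemLp.coeFn_toLp _
  have h2 : TF hUm hUf ψ =ᵐ[volume] U.indicator (fun x => ψ (kx 2 x)) := MemLp.coeFn_toLp _
  have h3 : oneU hUm hUf =ᵐ[volume] U.indicator (fun _ => (1:ℝ)) := indicatorConstLp_coeFn
  filter_upwards [h1, h2, h3, Lp.coeFn_sub (TF hUm hUf φ) (TF hUm hUf ψ)] with x e1 e2 e3 e4
  rw [e4, e3, Pi.sub_apply, e1, e2]
  by_cases hx : x ∈ U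
  · simp only [indicator_of_mem hx, Real.norm_eq_abs, abs_one, mul_one]
    exact h x hx
  · simp [indicator_of_notMem hx]

/-- the weak-* compact set of admissible densities -/
def XX (N : ℝ) : Set (WeakDual ℝ H2) :=
  (WeakDual.toStrongDual ⁻¹' closedBall (0 : StrongDual ℝ H2) N) ∩
  {φ | ∀ (A : Set E3) (hA : MeasurableSet A) (hμ : volume A ≠ ⊤),
    0 ≤ φ (indicatorConstLp 2 hA hμ (1:ℝ)) ∧
    φ (indicatorConstLp 2 hA hμ (1:ℝ)) ≤ volume.real (A ∩ U)}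

omit hUm hUf in
lemma XX_compact (N : ℝ) : IsCompact (XX (U := U) N) := by
  apply (WeakDual.isCompact_closedBall (0 : StrongDual ℝ H2) N).inter_right
  simp only [ofPred_forall]
  refine isClosed_iInter fun A => isClosed_iInter fun hA => isClosed_iInter fun hμ => ?_
  apply IsClosed.inter
  · exact isClosed_le continuous_const (WeakDual.eval_continuous _)
  · exact isClosed_le (WeakDual.eval_continuous _) continuous_const

omit hUm hUf in
lemma XX_bound {N : ℝ} {φ : WeakDual ℝ H2} (hφ : φ ∈ XX (U := U) N) (h : H2) : |φ h| ≤ N * ‖h‖ := by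
  have h1 : ‖WeakDual.toStrongDual φ‖ ≤ N := by simpa using hφ.1
  calc |φ h| ≤ ‖WeakDual.toStrongDual φ‖ * ‖h‖ := (WeakDual.toStrongDual φ).le_opNorm h
    _ ≤ N * ‖h‖ := by gcongr

lemma TF_continuousOn {N : ℝ} (hU : U ⊆ ball 0 1) {φ₀ : WeakDual ℝ H2} (hφ₀ : φ₀ ∈ XX (U := U) N) :
    Tendsto (fun φ => ‖TF hUm hUf φ - TF hUm hUf φ₀‖) (𝓝[XX (U := U) N] φ₀) (𝓝 0) := by
  rw [Metric.tendsto_nhds]
  intro ε hε
  have hN : 0 ≤ N := by
    have := XX_bound hφ₀ (hLp 1)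
    by_contra h
    push Not at h
    have h1 : ‖WeakDual.toStrongDual φ₀‖ ≤ N := by simpa using hφ₀.1
    linarith [norm_nonneg (WeakDual.toStrongDual φ₀)]
  -- choose η
  set A := ‖oneU hUm hUf‖ with hA
  have hA0 : 0 ≤ A := norm_nonneg _
  obtain ⟨η, hη, hη2⟩ : ∃ η : ℝ, 0 < η ∧ (2 * N + 1) * η * A < ε := by
    refine ⟨ε / ((2 * N + 1) * (A + 1)), by positivity, ?_⟩
    have : (2 * N + 1) * (ε / ((2 * N + 1) * (A + 1))) * A = ε * (A / (A + 1)) := by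
      field_simp
    rw [this]
    have h2 : A / (A + 1) < 1 := by rw [div_lt_one (by positivity)]; linarith
    nlinarith
  have hS : IsCompact (kx 2 '' closedBall (0:E3) 1) :=
    (isCompact_closedBall 0 1).image (kx_continuous 2)
  obtain ⟨t, htf, ht⟩ := Metric.totallyBounded_iff.1 hS.totallyBounded η hη
  have hev : ∀ᶠ φ in 𝓝[XX (U := U) N] φ₀, ∀ h ∈ t, |φ h - φ₀ h| < η := by
    rw [Filter.eventually_all_finite htf]
    intro h _
    have hc : Tendsto (fun φ : WeakDual ℝ H2 => φ h) (𝓝[XX (U := U) N] φ₀) (𝓝 (φ₀ h)) :=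
      ((WeakDual.eval_continuous h).tendsto φ₀).mono_left nhdsWithin_le_nhds
    have := Metric.tendsto_nhds.1 hc η hη
    simpa [Real.dist_eq] using this
  filter_upwards [hev, self_mem_nhdsWithin] with φ hφ1 hφX
  rw [Real.dist_eq, sub_zero, abs_norm]
  refine lt_of_le_of_lt (TF_dist hUm hUf φ φ₀ (δ := (2 * N + 1) * η) ?_) hη2
  intro x hx
  have hx1 : kx 2 x ∈ kx 2 '' closedBall (0:E3) 1 := ⟨x, ball_subset_closedBall (hU hx), rfl⟩
  have hx2 := ht hx1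
  simp only [mem_iUnion, mem_ball, exists_prop] at hx2
  obtain ⟨h, hht, hd⟩ := hx2
  rw [dist_eq_norm] at hd
  have e1 : |φ (kx 2 x - h)| ≤ N * η := (XX_bound hφX _).trans (by gcongr)
  have e2 : |φ₀ (kx 2 x - h)| ≤ N * η := (XX_bound hφ₀ _).trans (by gcongr)
  have e3 := hφ1 h hht
  have e4 : φ (kx 2 x) - φ₀ (kx 2 x) = φ (kx 2 x - h) - φ₀ (kx 2 x - h) + (φ h - φ₀ h) := by
    rw [map_sub, map_sub]; ring
  rw [e4]
  have e5 := abs_add_le (φ (kx 2 x - h) - φ₀ (kx 2 x - h)) (φ h - φ₀ h)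
  have e6 := abs_sub (φ (kx 2 x - h)) (φ₀ (kx 2 x - h))
  linarith

noncomputable def JJ (c : ℝ) (φ : WeakDual ℝ H2) : ℝ := φ (TF hUm hUf φ) / 2 - c * φ (oneU hUm hUf)

lemma JJ_continuousOn {N : ℝ} (hU : U ⊆ ball 0 1) (c : ℝ) :
    ContinuousOn (JJ hUm hUf c) (XX (U := U) N) := by
  intro φ₀ hφ₀
  have h1 : Tendsto (fun φ : WeakDual ℝ H2 => φ (oneU hUm hUf)) (𝓝[XX (U := U) N] φ₀)
      (𝓝 (φ₀ (oneU hUm hUf))) :=
    ((WeakDual.eval_continuous _).tendsto φ₀).mono_left nhdsWithin_le_nhds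
  have h2 : Tendsto (fun φ : WeakDual ℝ H2 => φ (TF hUm hUf φ₀)) (𝓝[XX (U := U) N] φ₀)
      (𝓝 (φ₀ (TF hUm hUf φ₀))) :=
    ((WeakDual.eval_continuous _).tendsto φ₀).mono_left nhdsWithin_le_nhds
  have h3 : Tendsto (fun φ : WeakDual ℝ H2 => φ (TF hUm hUf φ - TF hUm hUf φ₀))
      (𝓝[XX (U := U) N] φ₀) (𝓝 0) := by
    have h4 := (TF_continuousOn hUm hUf hU hφ₀).const_mul N
    rw [mul_zero] at h4
    refine squeeze_zero_norm' ?_ h4
    filter_upwards [self_mem_nhdsWithin] with φ hφ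
    exact XX_bound hφ _
  have h5 : Tendsto (fun φ : WeakDual ℝ H2 => φ (TF hUm hUf φ)) (𝓝[XX (U := U) N] φ₀)
      (𝓝 (φ₀ (TF hUm hUf φ₀))) := by
    have h6 := h3.add h2
    rw [zero_add] at h6
    refine h6.congr fun φ => ?_
    rw [map_sub]; ring
  exact (h5.div_const 2).sub (h1.const_mul c)

end

end Pool.Agent.H813R2.Pot
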