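import Mathlib
import Pool.Agent.H813R2.Pot4
set_option autoImplicit false
open MeasureTheory Metric Set Filter Topology
open scoped Real RealInnerProductSpace

namespace Pool.Agent.H813R2.Pot

variable {U : Set E3}

/-- functional attached to an element of `L²` -/
noncomputable def Phi (f : H2) : WeakDual ℝ H2 :=
  StrongDual.toWeakDual (InnerProductSpace.toDual ℝ H2 f)

lemma Phi_apply (f h : H2) : Phi f h = ⟪f, h⟫ := rfl

section
variable (hUm : MeasurableSet U) (hUf : volume U ≠ ⊤) (hU : U ⊆ ball 0 1)
include hUm hUf hU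

lemma Phi_mem {g : E3 → ℝ} (hg : Adm U g) :
    Phi ((hg.nice hU).memLp.toLp g) ∈ XX (U := U) ‖oneU hUm hUf‖ := by
  have hg2 : (hg.nice hU).memLp.toLp g =ᵐ[volume] g := MemLp.coeFn_toLp _
  constructor
  · have h1 : ‖WeakDual.toStrongDual (Phi ((hg.nice hU).memLp.toLp g))‖ =
        ‖(hg.nice hU).memLp.toLp g‖ := by
      unfold Phi
      exact (InnerProductSpace.toDual ℝ H2).norm_map _
    have h2 : ‖(hg.nice hU).memLp.toLp g‖ ≤ ‖oneU hUm hUf‖ := by
      apply Lp.norm_le_norm_of_ae_le
      have h3 : oneU hUm hUf =ᵐ[volume] U.indicator (fun _ => (1:ℝ)) := indicatorConstLp_coeFn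
      filter_upwards [hg2, h3] with x e1 e2
      rw [e1, e2]
      by_cases hx : x ∈ U
      · rw [indicator_of_mem hx, Real.norm_eq_abs, norm_one]
        exact (hg.nice hU).bdd x
      · rw [hg.supp x hx]; simp
    simp only [mem_preimage, mem_closedBall_zero_iff]
    rw [h1]; exact h2
  · intro A hA hμ
    rw [Phi_apply, real_inner_comm, L2.inner_indicatorConstLp_one]
    have h4 : ∫ x in A, ((hg.nice hU).memLp.toLp g) x = ∫ x in A, g x :=
      integral_congr_ae (ae_restrict_of_ae hg2)
    rw [h4]
    constructor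
    · exact integral_nonneg fun x => hg.nonneg x
    · have h5 : ∫ x in A, g x ≤ ∫ x in A, U.indicator (fun _ => (1:ℝ)) x := by
        apply integral_mono_of_nonneg (ae_of_all _ fun x => hg.nonneg x)
        · apply Integrable.integrableOn
          rw [integrable_indicator_iff hUm]
          exact integrableOn_const hUf
        · refine ae_of_all _ fun x => ?_
          by_cases hx : x ∈ U
          · rw [indicator_of_mem hx]; exact hg.le_one x
          · rw [hg.supp x hx, indicator_of_notMem hx]
      refine h5.trans (le_of_eq ?_)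
      rw [integral_indicator hUm, setIntegral_const, smul_eq_mul, mul_one, measureReal_restrict_apply hUm,
        inter_comm]

lemma exists_adm {N : ℝ} {φ : WeakDual ℝ H2} (hφ : φ ∈ XX (U := U) N) :
    ∃ (g : E3 → ℝ) (hg : Adm U g), φ = Phi ((hg.nice hU).memLp.toLp g) := by
  set f0 : H2 := (InnerProductSpace.toDual ℝ H2).symm (WeakDual.toStrongDual φ) with hf0
  have hap : ∀ h : H2, φ h = ⟪f0, h⟫ := by
    intro h
    rw [hf0, InnerProductSpace.toDual_symm_apply]
    rfl
  have hint : ∀ s, MeasurableSet s → volume s < ⊤ → IntegrableOn f0 s volume := by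
    intro s _ hs
    have : IsFiniteMeasure (volume.restrict s) := ⟨by rw [Measure.restrict_apply_univ]; exact hs⟩
    exact ((Lp.memLp f0).restrict s).integrable (by norm_num)
  have hset : ∀ (s) (hs : MeasurableSet s) (hsf : volume s < ⊤),
      φ (indicatorConstLp 2 hs hsf.ne (1:ℝ)) = ∫ x in s, f0 x := by
    intro s hs hsf
    rw [hap, real_inner_comm, L2.inner_indicatorConstLp_one]
  have h0 : 0 ≤ᵐ[volume] f0 := by
    apply ae_nonneg_of_forall_setIntegral_nonneg_of_sigmaFinite hint
    intro s hs hsf
    rw [← hset s hs hsf]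
    exact (hφ.2 s hs hsf.ne).1
  have h1 : 0 ≤ᵐ[volume] fun x => U.indicator (fun _ => (1:ℝ)) x - f0 x := by
    have hi : ∀ s, MeasurableSet s → volume s < ⊤ →
        IntegrableOn (fun x => U.indicator (fun _ => (1:ℝ)) x) s volume := by
      intro s _ _
      apply Integrable.integrableOn
      rw [integrable_indicator_iff hUm]
      exact integrableOn_const hUf
    apply ae_nonneg_of_forall_setIntegral_nonneg_of_sigmaFinite
    · intro s hs hsf
      exact (hi s hs hsf).sub (hint s hs hsf)
    · intro s hs hsf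
      rw [integral_sub (hi s hs hsf) (hint s hs hsf), ← hset s hs hsf]
      have h2 := (hφ.2 s hs hsf.ne).2
      have h3 : ∫ x in s, U.indicator (fun _ => (1:ℝ)) x = volume.real (s ∩ U) := by
        rw [integral_indicator hUm, setIntegral_const, smul_eq_mul, mul_one,
          measureReal_restrict_apply hUm, inter_comm]
      rw [h3]; linarith
  set g : E3 → ℝ := U.indicator (fun x => max 0 (min 1 (f0 x))) with hg
  have hgA : Adm U g := by
    refine ⟨?_, ?_, ?_, ?_⟩
    · apply Measurable.indicator _ hUm
      exact measurable_const.max (measurable_const.min (Lp.stronglyMeasurable f0).measurable)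
    · intro y
      exact indicator_nonneg (fun x _ => le_max_left _ _) y
    · intro y
      rw [hg]
      by_cases hy : y ∈ U
      · rw [indicator_of_mem hy]
        exact max_le zero_le_one (min_le_left _ _)
      · rw [indicator_of_notMem hy]; exact zero_le_one
    · intro y hy
      rw [hg, indicator_of_notMem hy]
  have hge : g =ᵐ[volume] f0 := by
    filter_upwards [h0, h1] with x e0 e1
    simp only [Pi.zero_apply] at e0 e1
    rw [hg]
    by_cases hx : x ∈ U
    · rw [indicator_of_mem hx] at e1 ⊢
      rw [min_eq_right (by linarith), max_eq_right e0]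
    · rw [indicator_of_notMem hx] at e1 ⊢
      linarith
  refine ⟨g, hgA, ?_⟩
  have h5 : (hgA.nice hU).memLp.toLp g = f0 := by
    apply Lp.ext
    exact (MemLp.coeFn_toLp _).trans hge
  rw [h5]
  refine DFunLike.ext _ _ fun h => ?_
  rw [Phi_apply, hap]

lemma JJ_Phi (c : ℝ) {g : E3 → ℝ} (hg : Adm U g) :
    JJ hUm hUf c (Phi ((hg.nice hU).memLp.toLp g)) = J c g := by
  have hg2 : (hg.nice hU).memLp.toLp g =ᵐ[volume] g := MemLp.coeFn_toLp _
  unfold JJ J
  rw [Phi_apply, Phi_apply]
  have h1 : ⟪(hg.nice hU).memLp.toLp g, TF hUm hUf (Phi ((hg.nice hU).memLp.toLp g))⟫ =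
      ∫ x, g x * P g x := by
    rw [L2.inner_def]
    apply integral_congr_ae
    have h2 : TF hUm hUf (Phi ((hg.nice hU).memLp.toLp g)) =ᵐ[volume]
      U.indicator (fun x => Phi ((hg.nice hU).memLp.toLp g) (kx 2 x)) := MemLp.coeFn_toLp _
    filter_upwards [hg2, h2] with x e1 e2
    rw [e1, e2]
    simp only [RCLike.inner_apply, conj_trivial]
    by_cases hx : x ∈ U
    · rw [indicator_of_mem hx, Phi_apply, ← (hg.nice hU).P_eq_inner, mul_comm]
      have := hU hx
      rw [mem_ball_zero_iff] at this
      linarith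
    · rw [hg.supp x hx]; simp
  have h3 : ⟪(hg.nice hU).memLp.toLp g, oneU hUm hUf⟫ = ∫ x, g x := by
    unfold oneU
    rw [real_inner_comm, L2.inner_indicatorConstLp_one, integral_congr_ae (ae_restrict_of_ae hg2),
      ← integral_indicator hUm]
    congr 1
    ext x
    by_cases hx : x ∈ U
    · rw [indicator_of_mem hx]
    · rw [indicator_of_notMem hx, hg.supp x hx]
  rw [h1, h3]

theorem exists_min (c : ℝ) : ∃ f, Adm U f ∧ ∀ g, Adm U g → J c f ≤ J c g := by
  have hz : Adm U (fun _ => (0:ℝ)) :=
    ⟨measurable_const, fun _ => le_rfl, fun _ => zero_le_one, fun _ _ => rfl⟩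
  obtain ⟨φ, hφ, hmin⟩ := (XX_compact (U := U) ‖oneU hUm hUf‖).exists_isMinOn
    ⟨_, Phi_mem hUm hUf hU hz⟩ (JJ_continuousOn hUm hUf hU c)
  obtain ⟨f, hf, rfl⟩ := exists_adm hUm hUf hU hφ
  refine ⟨f, hf, fun g hg => ?_⟩
  have := hmin (Phi_mem hUm hUf hU hg)
  simp only [mem_ofPred_eq] at this
  rwa [JJ_Phi hUm hUf hU c hf, JJ_Phi hUm hUf hU c hg] at this

end


lemma Nice.sub {R : ℝ} {f g : E3 → ℝ} (hf : Nice R f) (hg : Nice R g)
    (h : ∀ y, |f y - g y| ≤ 1) : Nice R (fun y => f y - g y) :=
  ⟨hf.meas.sub hg.meas, h, fun y hy => by rw [hf.supp y hy, hg.supp y hy, sub_zero]⟩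

lemma Nice.abs {R : ℝ} {f : E3 → ℝ} (hf : Nice R f) : Nice R (fun y => |f y|) :=
  ⟨hf.meas.abs, fun y => by rw [abs_abs]; exact hf.bdd y, fun y hy => by simp [hf.supp y hy]⟩

lemma Nice.mul_cont {R : ℝ} {f : E3 → ℝ} (hf : Nice R f) {F : E3 → ℝ} (hF : Continuous F) :
    Integrable (fun y => f y * F y) :=
  hf.integrable_mul ((hF.continuousOn.integrableOn_compact (isCompact_closedBall 0 R)).mono_set
      ball_subset_closedBall)

lemma P_symm {R : ℝ} {f g : E3 → ℝ} (hf : Nice R f) (hg : Nice R g) :
    ∫ x, f x * P g x = ∫ x, g x * P f x := by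
  have h1 : ∀ x, f x * P g x = ∫ y, f x * (g y * ‖x - y‖⁻¹) := by
    intro x; unfold P; rw [integral_const_mul]
  have h2 : ∀ y, g y * P f y = ∫ x, f x * (g y * ‖x - y‖⁻¹) := by
    intro y; unfold P; rw [← integral_const_mul]
    congr 1
    ext x
    rw [norm_sub_rev]
    ring
  simp_rw [h1, h2]
  apply integral_integral_swap
  have hm : Measurable (Function.uncurry fun (x y : E3) => f x * (g y * ‖x - y‖⁻¹)) :=
    (hf.meas.comp measurable_fst).mul ((hg.meas.comp measurable_snd).mul meas_kern)
  rw [integrable_prod_iff' hm.aestronglyMeasurable]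
  constructor
  · refine ae_of_all _ fun y => ?_
    simp only [Function.uncurry]
    have := (hf.integrable y).const_mul (g y)
    refine this.congr (ae_of_all _ fun x => ?_)
    simp only
    rw [norm_sub_rev]
    ring
  · have : (fun y => ∫ x, ‖Function.uncurry (fun (x y : E3) => f x * (g y * ‖x - y‖⁻¹)) (x, y)‖) =
        fun y => |g y| * P (fun y => |f y|) y := by
      ext y
      simp only [Function.uncurry, norm_mul, Real.norm_eq_abs, abs_inv, abs_norm]
      unfold P
      rw [← integral_const_mul]
      congr 1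
      ext x
      rw [norm_sub_rev]
      ring
    rw [this]
    exact hg.abs.mul_cont hf.abs.continuous_P

lemma P_add_smul {R : ℝ} {f d : E3 → ℝ} (hf : Nice R f) (hd : Nice R d) (t : ℝ) (x : E3) :
    P (fun y => f y + t * d y) x = P f x + t * P d x := by
  unfold P
  rw [← integral_const_mul, ← integral_add (hf.integrable x) ((hd.integrable x).const_mul t)]
  congr 1
  ext y
  ring

theorem exists_sol (hUm : MeasurableSet U) (hU : U ⊆ ball 0 1) (c : ℝ) : ∃ f, Sol U c f := by
  have hUf : volume U ≠ ⊤ := ((measure_mono hU).trans_lt measure_ball_lt_top).ne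
  obtain ⟨f, hf, hmin⟩ := exists_min hUm hUf hU c
  have hfN := hf.nice hU
  have hPc := hfN.continuous_P
  refine ⟨f, ?_⟩
  set g : E3 → ℝ := (U ∩ {y | P f y < c}).indicator (fun _ => 1) with hg
  have hSm : MeasurableSet (U ∩ {y | P f y < c}) :=
    hUm.inter (isOpen_lt hPc continuous_const).measurableSet
  have hgA : Adm U g := by
    refine ⟨measurable_const.indicator hSm, ?_, ?_, ?_⟩
    · intro y; exact indicator_nonneg (fun _ _ => zero_le_one) y
    · intro y; exact indicator_le_self' (fun _ _ => zero_le_one) y |>.trans le_rfl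
    · intro y hy; rw [hg, indicator_of_notMem (fun h => hy h.1)]
  have hgN := hgA.nice hU
  set d : E3 → ℝ := fun y => g y - f y with hd
  have hdN : Nice 1 d := hgN.sub hfN fun y => by
    rw [abs_le]
    have := hgA.nonneg y; have := hgA.le_one y; have := hf.nonneg y; have := hf.le_one y
    constructor <;> linarith
  have hA : ∀ t ∈ Icc (0:ℝ) 1, Adm U (fun y => f y + t * d y) := by
    intro t ht
    refine ⟨hf.meas.add (hdN.meas.const_mul t), ?_, ?_, ?_⟩
    · intro y
      have := hgA.nonneg y; have := hf.nonneg y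
      simp only [hd]
      nlinarith [ht.1, ht.2]
    · intro y
      have := hgA.le_one y; have := hf.le_one y
      simp only [hd]
      nlinarith [ht.1, ht.2]
    · intro y hy
      simp only [hd]
      rw [hgA.supp y hy, hf.supp y hy]; ring
  have hJ : ∀ t : ℝ, J c (fun y => f y + t * d y) =
      J c f + t * ((∫ y, d y * P f y) - c * ∫ y, d y) + t ^ 2 * ((∫ y, d y * P d y) / 2) := by
    intro t
    unfold J
    have e1 : ∀ y, (f y + t * d y) * P (fun y => f y + t * d y) y =
        f y * P f y + t * (f y * P d y) + t * (d y * P f y) + t ^ 2 * (d y * P d y) := by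
      intro y
      rw [P_add_smul hfN hdN]; ring
    simp_rw [e1]
    have i1 := hfN.mul_cont hPc
    have i2 := (hfN.mul_cont hdN.continuous_P).const_mul t
    have i3 := (hdN.mul_cont hPc).const_mul t
    have i4 := (hdN.mul_cont hdN.continuous_P).const_mul (t ^ 2)
    have i12 : Integrable (fun y => f y * P f y + t * (f y * P d y)) := i1.add i2
    have i123 : Integrable (fun y => f y * P f y + t * (f y * P d y) + t * (d y * P f y)) :=
      i12.add i3
    rw [integral_add i123 i4, integral_add i12 i3, integral_add i1 i2,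
      integral_const_mul, integral_const_mul, integral_const_mul, P_symm hfN hdN,
      integral_add hfN.integrable_self (hdN.integrable_self.const_mul t), integral_const_mul]
    ring
  have hder : 0 ≤ (∫ y, d y * P f y) - c * ∫ y, d y := by
    by_contra hneg
    push Not at hneg
    set a := (∫ y, d y * P f y) - c * ∫ y, d y with ha
    set b := (∫ y, d y * P d y) / 2 with hb
    -- choose t small
    have h1 : ∀ t ∈ Icc (0:ℝ) 1, 0 ≤ t * a + t ^ 2 * b := by
      intro t ht
      have := hmin _ (hA t ht)
      rw [hJ t] at this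
      linarith
    have h2 := h1 (min 1 (-a / (2 * (|b| + 1)))) ⟨le_min zero_le_one (by
      apply div_nonneg (by linarith) (by positivity)), min_le_left _ _⟩
    set t := min 1 (-a / (2 * (|b| + 1))) with ht
    have ht0 : 0 < t := lt_min one_pos (by apply div_pos (by linarith) (by positivity))
    have ht1 : t ≤ -a / (2 * (|b| + 1)) := min_le_right _ _
    rw [le_div_iff₀ (by positivity)] at ht1
    have hb' : b ≤ |b| := le_abs_self b
    have h3 : 0 ≤ t * (a + t * b) := by nlinarith
    have h4 : 0 ≤ a + t * b := by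
      by_contra h
      push Not at h
      nlinarith
    nlinarith [abs_nonneg b]
  have hint0 : ∫ y, -(d y * (P f y - c)) ≤ 0 := by
    have e2 : ∀ y, -(d y * (P f y - c)) = c * d y - d y * P f y := by intro y; ring
    simp_rw [e2]
    rw [integral_sub (hdN.integrable_self.const_mul c) (hdN.mul_cont hPc), integral_const_mul]
    linarith
  have hsign : ∀ y, 0 ≤ -(d y * (P f y - c)) := by
    intro y
    simp only [hd]
    by_cases hyU : y ∈ U
    · by_cases hy : P f y < c
      · rw [hg, indicator_of_mem (show y ∈ U ∩ {y | P f y < c} from ⟨hyU, hy⟩)]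
        have := hf.le_one y
        nlinarith
      · rw [hg, indicator_of_notMem (fun h : y ∈ U ∩ {y | P f y < c} => hy h.2)]
        have := hf.nonneg y
        push Not at hy
        nlinarith
    · rw [hgA.supp y hyU, hf.supp y hyU]; simp
  have hzero : (fun y => -(d y * (P f y - c))) =ᵐ[volume] 0 := by
    rw [← integral_eq_zero_iff_of_nonneg hsign]
    · exact le_antisymm hint0 (integral_nonneg hsign)
    · exact (hdN.mul_cont (hPc.sub continuous_const)).neg
  refine ⟨hfN, hf.nonneg, hf.le_one, hf.supp, ?_, ?_⟩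
  · filter_upwards [hzero] with y hy hyU hyc
    simp only [hd, Pi.zero_apply, neg_eq_zero, mul_eq_zero] at hy
    rw [hg, indicator_of_mem (show y ∈ U ∩ {y | P f y < c} from ⟨hyU, hyc⟩)] at hy
    rcases hy with h | h
    · linarith
    · linarith
  · filter_upwards [hzero] with y hy hyc
    simp only [hd, Pi.zero_apply, neg_eq_zero, mul_eq_zero] at hy
    rw [hg, indicator_of_notMem (fun h : y ∈ U ∩ {y | P f y < c} =>
      lt_asymm hyc h.2)] at hy
    rcases hy with h | h
    · linarith
    · linarith

end Pool.Agent.H813R2.Pot
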