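import Mathlib
import Pool.Agent.H813R2.Pot5
set_option autoImplicit false
open MeasureTheory Metric Set Filter Topology
open scoped Real RealInnerProductSpace

namespace Pool.Agent.H813R2.Pot

/-- the truncated ball -/
def UU : Set E3 := ball 0 1 ∩ {x | ∀ i, |x i| < 9 / 10}

lemma UU_open : IsOpen UU := by
  apply isOpen_ball.inter
  simp only [ofPred_forall]
  apply isOpen_iInter_of_finite
  intro i
  exact isOpen_lt (by fun_prop) continuous_const

lemma UU_convex : Convex ℝ UU := by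
  apply (convex_ball 0 1).inter
  intro x hx y hy a b ha hb hab i
  have h1 := abs_lt.1 (hx i)
  have h2 := abs_lt.1 (hy i)
  rw [abs_lt]
  exact (convex_Ioo (𝕜 := ℝ) (-(9 / 10) : ℝ) (9 / 10)) h1 h2 ha hb hab

lemma UU_sub : UU ⊆ ball 0 1 := inter_subset_left

lemma ball_sub_UU : ball 0 (9 / 10) ⊆ UU := by
  intro x hx
  refine ⟨ball_subset_ball (by norm_num) hx, fun i => ?_⟩
  rw [mem_ball_zero_iff] at hx
  exact lt_of_le_of_lt (by simpa using PiLp.norm_apply_le x i) hx

lemma sig_norm_le {e : E3} (he : ‖e‖ = 1) {l : ℝ} (hl : 0 ≤ l) {z : E3} (hz : l ≤ ⟪z, e⟫) :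
    ‖sig e l z‖ ≤ ‖z‖ := by
  have h : ‖sig e l z‖ ^ 2 ≤ ‖z‖ ^ 2 := by
    unfold sig
    rw [norm_sub_sq_real, inner_smul_right, norm_smul, he, mul_one, Real.norm_eq_abs, sq_abs]
    nlinarith
  exact (sq_le_sq₀ (norm_nonneg _) (norm_nonneg _)).1 h

/-- coordinate directions -/
lemma UU_refl1 (i : Fin 3) {s : ℝ} (hs : s = 1 ∨ s = -1) {l : ℝ} (hl : 0 ≤ l) :
    ∀ z ∈ UU, l ≤ ⟪z, s • (EuclideanSpace.single i (1:ℝ) : E3)⟫ →
      sig (s • EuclideanSpace.single i (1:ℝ)) l z ∈ UU := by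
  intro z hz hlz
  have hn : ‖s • (EuclideanSpace.single i (1:ℝ) : E3)‖ = 1 := by
    rw [norm_smul]; rcases hs with h | h <;> simp [h]
  constructor
  · rw [mem_ball_zero_iff]
    have := hz.1
    rw [mem_ball_zero_iff] at this
    exact lt_of_le_of_lt (sig_norm_le hn hl hlz) this
  · intro k
    have hk := abs_lt.1 (hz.2 k)
    have hi := abs_lt.1 (hz.2 i)
    have hin : ⟪z, s • (EuclideanSpace.single i (1:ℝ) : E3)⟫ = s * z i := by
      rw [inner_smul_right, EuclideanSpace.inner_single_right]; simp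
    rw [hin] at hlz
    unfold sig
    rw [hin]
    simp only [PiLp.sub_apply, PiLp.smul_apply, smul_eq_mul]
    by_cases hki : k = i
    · subst hki
      simp only [PiLp.single_apply, if_true]
      rw [abs_lt]
      rcases hs with h | h <;> subst h <;> constructor <;> linarith
    · simp only [PiLp.single_apply, if_neg hki, mul_zero, sub_zero]
      exact hz.2 k

/-- the direction `(e_i - e_j)/√2` -/
noncomputable def dd (i j : Fin 3) : E3 :=
  (√2)⁻¹ • (EuclideanSpace.single i (1:ℝ) - EuclideanSpace.single j (1:ℝ))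

lemma dd_norm {i j : Fin 3} (hij : i ≠ j) : ‖dd i j‖ = 1 := by
  unfold dd
  have h1 : ‖(EuclideanSpace.single i (1:ℝ) - EuclideanSpace.single j (1:ℝ) : E3)‖ ^ 2 = 2 := by
    rw [norm_sub_sq_real]
    simp [EuclideanSpace.inner_single_left, hij]
    norm_num
  have h2 : ‖(EuclideanSpace.single i (1:ℝ) - EuclideanSpace.single j (1:ℝ) : E3)‖ = √2 := by
    rw [← h1, Real.sqrt_sq (norm_nonneg _)]
  rw [norm_smul, h2, norm_inv, Real.norm_eq_abs, abs_of_pos (by positivity)]
  field_simp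

lemma dd_inner (i j : Fin 3) (z : E3) : ⟪z, dd i j⟫ = (√2)⁻¹ * (z i - z j) := by
  unfold dd
  rw [inner_smul_right, inner_sub_right, EuclideanSpace.inner_single_right,
    EuclideanSpace.inner_single_right]
  simp

lemma sig_dd (i j : Fin 3) (l : ℝ) (z : E3) :
    sig (dd i j) l z = z - ((z i - z j) - √2 * l) •
      (EuclideanSpace.single i (1:ℝ) - EuclideanSpace.single j (1:ℝ) : E3) := by
  unfold sig
  rw [dd_inner]
  unfold dd
  rw [smul_smul]
  congr 2
  field_simp
  rw [Real.sq_sqrt (by norm_num)]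

lemma UU_refl2 {i j : Fin 3} (hij : i ≠ j) {l : ℝ} (hl : 0 ≤ l) :
    ∀ z ∈ UU, l ≤ ⟪z, dd i j⟫ → sig (dd i j) l z ∈ UU := by
  intro z hz hlz
  constructor
  · rw [mem_ball_zero_iff]
    have := hz.1
    rw [mem_ball_zero_iff] at this
    exact lt_of_le_of_lt (sig_norm_le (dd_norm hij) hl hlz) this
  · intro k
    have hi := abs_lt.1 (hz.2 i)
    have hj := abs_lt.1 (hz.2 j)
    rw [dd_inner] at hlz
    have h2 : 0 < √2 := by positivity
    have hlz' : √2 * l ≤ z i - z j := by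
      calc √2 * l ≤ √2 * ((√2)⁻¹ * (z i - z j)) := by gcongr
        _ = z i - z j := by field_simp
    have hl' : 0 ≤ √2 * l := by positivity
    rw [sig_dd]
    simp only [PiLp.sub_apply, PiLp.smul_apply, smul_eq_mul, PiLp.single_apply]
    by_cases hki : k = i
    · subst hki
      rw [if_pos rfl, if_neg hij, abs_lt]
      constructor <;> linarith
    · by_cases hkj : k = j
      · subst hkj
        rw [if_neg hki, if_pos rfl, abs_lt]
        constructor <;> linarith
      · rw [if_neg hki, if_neg hkj]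
        simpa using hz.2 k

/-- data for the rest of the argument -/
structure Dat (f : E3 → ℝ) : Prop where
  sol : Sol UU (3 * π / 2) f

variable {f : E3 → ℝ}

lemma c_nonneg : (0:ℝ) ≤ 3 * π / 2 := by positivity

/-- the coincidence set -/
def AA (f : E3 → ℝ) : Set E3 := {x | P f x = 3 * π / 2}

lemma move (hf : Dat f) {e : E3} (he : ‖e‖ = 1) {l : ℝ}
    (hU : ∀ z ∈ UU, l ≤ ⟪z, e⟫ → sig e l z ∈ UU) {y : E3} (hy : y ∈ AA f) (hly : l ≤ ⟪y, e⟫) :
    sig e l y ∈ AA f := by
  have h1 := hf.sol.polarize c_nonneg he hU (sig e l y) (by rw [sig_inner he]; linarith)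
  rw [sig_sig he] at h1
  have h2 : P f y = 3 * π / 2 := hy
  have h3 := hf.sol.P_le c_nonneg (sig e l y)
  exact le_antisymm h3 (h2 ▸ h1)

lemma move1 (hf : Dat f) {y : E3} (hy : y ∈ AA f) (i : Fin 3) {a : ℝ} (ha : |a| ≤ |y i|) :
    y + (a - y i) • (EuclideanSpace.single i (1:ℝ) : E3) ∈ AA f := by
  obtain ⟨s, hs, hs2⟩ : ∃ s : ℝ, (s = 1 ∨ s = -1) ∧ s * y i = |y i| := by
    rcases le_total 0 (y i) with h | h
    · exact ⟨1, Or.inl rfl, by rw [abs_of_nonneg h, one_mul]⟩
    · exact ⟨-1, Or.inr rfl, by rw [abs_of_nonpos h]; ring⟩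
  have hn : ‖s • (EuclideanSpace.single i (1:ℝ) : E3)‖ = 1 := by
    rw [norm_smul]; rcases hs with h | h <;> simp [h]
  have hin : ⟪y, s • (EuclideanSpace.single i (1:ℝ) : E3)⟫ = s * y i := by
    rw [inner_smul_right, EuclideanSpace.inner_single_right]; simp
  have hsa : |s * a| ≤ |y i| := by
    rw [abs_mul]; rcases hs with h | h <;> simpa [h] using ha
  have hss : s * s = 1 := by rcases hs with h | h <;> rw [h] <;> norm_num
  have h1 := abs_le.1 hsa
  have h2 := move hf hn (l := (s * y i + s * a) / 2) (UU_refl1 i hs (by rw [hs2]; linarith)) hy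
    (by rw [hin, hs2]; linarith)
  convert h2 using 1
  unfold sig
  have key : 2 * (s * y i - (s * y i + s * a) / 2) * s = -(a - y i) := by
    linear_combination (y i - a) * hss
  rw [hin, smul_smul, key, neg_smul, sub_neg_eq_add]

lemma move2 (hf : Dat f) {y : E3} (hy : y ∈ AA f) {i j : Fin 3} (hij : i ≠ j) {τ : ℝ} (h0 : 0 ≤ τ)
    (h1 : τ ≤ y i - y j) :
    y - τ • (EuclideanSpace.single i (1:ℝ) - EuclideanSpace.single j (1:ℝ) : E3) ∈ AA f := by
  have h2 : 0 < √2 := by positivity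
  have h3 := move hf (dd_norm hij) (l := (√2)⁻¹ * (y i - y j - τ))
    (UU_refl2 hij (mul_nonneg (by positivity) (by linarith))) hy (by
      rw [dd_inner]
      apply mul_le_mul_of_nonneg_left _ (by positivity)
      linarith)
  rw [sig_dd] at h3
  convert h3 using 3
  field_simp
  ring


lemma lower (hf : Dat f) {y z : E3} (hy : y ∈ AA f) (hz : ∀ k, |z k| ≤ |y k|) : z ∈ AA f := by
  have m0 := move1 hf hy 0 (hz 0)
  set y1 := y + (z 0 - y 0) • (EuclideanSpace.single 0 (1:ℝ) : E3) with hy1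
  have e10 : y1 0 = z 0 := by simp [hy1]
  have e11 : y1 1 = y 1 := by simp [hy1]
  have e12 : y1 2 = y 2 := by simp [hy1]
  have m1 := move1 hf m0 1 (a := z 1) (by rw [e11]; exact hz 1)
  set y2 := y1 + (z 1 - y1 1) • (EuclideanSpace.single 1 (1:ℝ) : E3) with hy2
  have e20 : y2 0 = z 0 := by simp [hy2, e10]
  have e21 : y2 1 = z 1 := by simp [hy2]
  have e22 : y2 2 = y 2 := by simp [hy2, e12]
  have m2 := move1 hf m1 2 (a := z 2) (by rw [e22]; exact hz 2)
  convert m2 using 1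
  ext k
  fin_cases k <;> simp [e20, e21]

lemma step_aux (hf : Dat f) {y : E3} (hy : y ∈ AA f) (hpos : ∀ k, 0 ≤ y k) {i j : Fin 3}
    (hij : i ≠ j) {η : ℝ} (h0 : 0 < η) (h1 : η < 1) (hle : y j ≤ y i) :
    ∃ y' ∈ AA f, (∀ k, (1 - η) * y k ≤ y' k) ∧ (∀ k, 0 ≤ y' k) ∧
      (0 < y i ∨ 0 < y j → 0 < y' i ∧ 0 < y' j) := by
  have hi := hpos i
  have hj := hpos j
  refine ⟨y - (η * (y i - y j)) • (EuclideanSpace.single i (1:ℝ) - EuclideanSpace.single j (1:ℝ) : E3),
    move2 hf hy hij (mul_nonneg h0.le (by linarith)) (by nlinarith), ?_⟩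
  have ei : (y - (η * (y i - y j)) • (EuclideanSpace.single i (1:ℝ) -
      EuclideanSpace.single j (1:ℝ) : E3)) i = (1 - η) * y i + η * y j := by
    simp [hij]; ring
  have ej : (y - (η * (y i - y j)) • (EuclideanSpace.single i (1:ℝ) -
      EuclideanSpace.single j (1:ℝ) : E3)) j = (1 - η) * y j + η * y i := by
    simp [hij.symm]; ring
  have ek : ∀ k, k ≠ i → k ≠ j → (y - (η * (y i - y j)) • (EuclideanSpace.single i (1:ℝ) -
      EuclideanSpace.single j (1:ℝ) : E3)) k = y k := by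
    intro k hki hkj
    simp [hki, hkj]
  have hall : ∀ k, (1 - η) * y k ≤ (y - (η * (y i - y j)) • (EuclideanSpace.single i (1:ℝ) -
      EuclideanSpace.single j (1:ℝ) : E3)) k := by
    intro k
    have hk := hpos k
    by_cases hki : k = i
    · subst hki; rw [ei]; nlinarith
    · by_cases hkj : k = j
      · subst hkj; rw [ej]; nlinarith
      · rw [ek k hki hkj]; nlinarith
  refine ⟨hall, fun k => le_trans (mul_nonneg (by linarith) (hpos k)) (hall k), ?_⟩
  intro h
  have hyi : 0 < y i := by rcases h with h | h <;> linarith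
  rw [ei, ej]
  constructor
  · have := mul_pos (show 0 < 1 - η by linarith) hyi
    have := mul_nonneg h0.le hj
    linarith
  · have := mul_pos h0 hyi
    have := mul_nonneg (show 0 ≤ 1 - η by linarith) hj
    linarith

lemma step (hf : Dat f) {y : E3} (hy : y ∈ AA f) (hpos : ∀ k, 0 ≤ y k) {i j : Fin 3}
    (hij : i ≠ j) {η : ℝ} (h0 : 0 < η) (h1 : η < 1) :
    ∃ y' ∈ AA f, (∀ k, (1 - η) * y k ≤ y' k) ∧ (∀ k, 0 ≤ y' k) ∧
      (0 < y i ∨ 0 < y j → 0 < y' i ∧ 0 < y' j) := by
  rcases le_total (y j) (y i) with h | h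
  · exact step_aux hf hy hpos hij h0 h1 h
  · obtain ⟨y', h2, h3, h4, h5⟩ := step_aux hf hy hpos hij.symm h0 h1 h
    exact ⟨y', h2, h3, h4, fun h => (h5 h.symm).symm⟩

lemma star (hf : Dat f) {y : E3} (hy : y ∈ AA f) (hy0 : y ≠ 0) {t : ℝ} (ht0 : 0 ≤ t) (ht1 : t < 1) :
    t • y ∈ interior (AA f) := by
  set η := (1 - t) / 4 with hη
  have h0 : 0 < η := by rw [hη]; linarith
  have h1 : η < 1 := by rw [hη]; linarith
  have hη3 : t < (1 - η) * ((1 - η) * (1 - η)) := by
    rw [hη]; nlinarith [sq_nonneg (1 - t), mul_pos (show 0 < 1 - t by linarith) (show 0 < 1 - t by linarith)]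
  set a : E3 := WithLp.toLp 2 (fun k => |y k|) with ha
  have hak : ∀ k, a k = |y k| := fun k => rfl
  have haA : a ∈ AA f := lower hf hy fun k => by rw [hak, abs_abs]
  have hap : ∀ k, 0 ≤ a k := fun k => by rw [hak]; exact abs_nonneg _
  obtain ⟨b, hbA, hb1, hb2, hb3⟩ := step hf haA hap (show (0 : Fin 3) ≠ 1 by decide) h0 h1
  obtain ⟨c, hcA, hc1, hc2, hc3⟩ := step hf hbA hb2 (show (1 : Fin 3) ≠ 2 by decide) h0 h1
  obtain ⟨d, hdA, hd1, hd2, hd3⟩ := step hf hcA hc2 (show (0 : Fin 3) ≠ 2 by decide) h0 h1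
  have hη1 : 0 < 1 - η := by linarith
  have pb : ∀ k, 0 < a k → 0 < b k := fun k h => lt_of_lt_of_le (mul_pos hη1 h) (hb1 k)
  have pc : ∀ k, 0 < b k → 0 < c k := fun k h => lt_of_lt_of_le (mul_pos hη1 h) (hc1 k)
  have pd : ∀ k, 0 < c k → 0 < d k := fun k h => lt_of_lt_of_le (mul_pos hη1 h) (hd1 k)
  have hex : 0 < a 0 ∨ 0 < a 1 ∨ 0 < a 2 := by
    by_contra hcon
    push Not at hcon
    apply hy0
    have e : ∀ k, y k = 0 := by
      intro k
      have : |y k| ≤ 0 := by fin_cases k; exacts [hcon.1, hcon.2.1, hcon.2.2]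
      exact abs_eq_zero.1 (le_antisymm this (abs_nonneg _))
    ext k
    rw [e k]; rfl
  have hdpos : ∀ k, 0 < d k := by
    rcases hex with h | h | h
    · have b01 := hb3 (Or.inl h)
      have c12 := hc3 (Or.inl b01.2)
      intro k
      fin_cases k
      exacts [pd _ (pc _ b01.1), pd _ c12.1, pd _ c12.2]
    · have b01 := hb3 (Or.inr h)
      have c12 := hc3 (Or.inl b01.2)
      intro k
      fin_cases k
      exacts [pd _ (pc _ b01.1), pd _ c12.1, pd _ c12.2]
    · have c12 := hc3 (Or.inr (pb _ h))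
      have d02 := hd3 (Or.inr c12.2)
      intro k
      fin_cases k
      exacts [d02.1, pd _ c12.1, d02.2]
  have hdb : ∀ k, t * |y k| < d k := by
    intro k
    rcases (abs_nonneg (y k)).eq_or_lt with h | h
    · rw [← h, mul_zero]; exact hdpos k
    · have e1 : (1 - η) * ((1 - η) * (1 - η)) * |y k| ≤ d k := by
        calc (1 - η) * ((1 - η) * (1 - η)) * |y k| = (1 - η) * ((1 - η) * ((1 - η) * a k)) := by
              rw [hak]; ring
          _ ≤ (1 - η) * ((1 - η) * b k) := by gcongr; exact hb1 k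
          _ ≤ (1 - η) * c k := by gcongr; exact hc1 k
          _ ≤ d k := hd1 k
      have e2 := mul_lt_mul_of_pos_right hη3 h
      linarith
  rw [mem_interior]
  refine ⟨{z | ∀ k, |z k| < d k}, ?_, ?_, ?_⟩
  · intro z hz
    exact lower hf hdA fun k => (hz k).le.trans (le_abs_self _)
  · simp only [ofPred_forall]
    apply isOpen_iInter_of_finite
    intro i
    exact isOpen_lt (by fun_prop) continuous_const
  · intro k
    rw [PiLp.smul_apply, smul_eq_mul, abs_mul, abs_of_nonneg ht0]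
    exact hdb k

end Pool.Agent.H813R2.Pot
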