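import Mathlib
import Pool.Agent.H813R2.Pot6
set_option autoImplicit false
open MeasureTheory Metric Set Filter Topology
open scoped Real RealInnerProductSpace Pointwise

namespace Pool.Agent.H813R2.Pot

variable {f : E3 → ℝ}

lemma mem_AA {x : E3} (hx : x ∈ AA f) : P f x = 3 * π / 2 := hx

lemma AA_closed (hf : Dat f) : IsClosed (AA f) :=
  isClosed_eq hf.sol.nice.continuous_P continuous_const

lemma P_one_ball {r : ℝ} (hr : 0 < r) (x : E3) :
    P ((ball (0:E3) r).indicator fun _ => 1) x = Mr r x := by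
  have h := ball_pot' hr 0 x
  rw [sub_zero] at h
  rw [← h]
  unfold P
  rw [← integral_indicator measurableSet_ball]
  congr 1
  ext y
  by_cases hy : y ∈ ball (0:E3) r
  · rw [indicator_of_mem hy, indicator_of_mem hy, one_mul, norm_sub_rev]
  · rw [indicator_of_notMem hy, indicator_of_notMem hy, zero_mul]

lemma nice_one_ball {r : ℝ} (hr1 : r ≤ 1) : Nice 1 ((ball (0:E3) r).indicator fun _ => (1:ℝ)) := by
  refine ⟨measurable_const.indicator measurableSet_ball, ?_, ?_⟩
  · intro y
    by_cases hy : y ∈ ball (0:E3) r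
    · rw [indicator_of_mem hy]; simp
    · rw [indicator_of_notMem hy]; simp
  · intro y hy
    rw [indicator_of_notMem]
    rw [mem_ball_zero_iff]
    linarith

lemma P_mono {R : ℝ} {f g : E3 → ℝ} (hf : Nice R f) (hg : Nice R g) (h : ∀ᵐ y, f y ≤ g y) (x : E3) :
    P f x ≤ P g x := by
  unfold P
  apply integral_mono_ae (hf.integrable x) (hg.integrable x)
  filter_upwards [h] with y hy
  exact mul_le_mul_of_nonneg_right hy (by positivity)

lemma AA_sub (hf : Dat f) : AA f ⊆ UU := by
  intro x hx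
  by_contra hxU
  have hx1 : 9 / 10 ≤ ‖x‖ := by
    by_contra h
    push Not at h
    exact hxU (ball_sub_UU (by rw [mem_ball_zero_iff]; exact h))
  have h1 : P f x ≤ Mr 1 x := by
    rw [← P_one_ball one_pos]
    apply P_mono hf.sol.nice (nice_one_ball le_rfl)
    refine ae_of_all _ fun y => ?_
    by_cases hy : y ∈ ball (0:E3) 1
    · rw [indicator_of_mem hy]; exact hf.sol.le_one y
    · rw [indicator_of_notMem hy, hf.sol.supp y fun h => hy (UU_sub h)]
  have h2 : Mr 1 x < 3 * π / 2 := by
    have hπ := Real.pi_pos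
    unfold Mr
    split_ifs with h
    · have hx0 : 0 < ‖x‖ := by linarith
      rw [div_lt_iff₀ hx0]
      nlinarith
    · have h5 : 81 / 100 ≤ ‖x‖ ^ 2 := by nlinarith
      have h6 := mul_le_mul_of_nonneg_left h5 hπ.le
      nlinarith
  have h3 : P f x = 3 * π / 2 := hx
  linarith

lemma exists_ne (hf : Dat f) : ∃ x ∈ AA f, x ≠ 0 := by
  by_contra hcon
  push Not at hcon
  have h0 : ∀ᵐ y : E3, y ≠ 0 := by rw [ae_iff]; simp
  have h1 : ∀ᵐ y : E3, (ball (0:E3) (9/10)).indicator (fun _ => (1:ℝ)) y ≤ f y := by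
    filter_upwards [hf.sol.lt_one, h0] with y hy hy0
    by_cases hyb : y ∈ ball (0:E3) (9/10)
    · rw [indicator_of_mem hyb, hy (ball_sub_UU hyb)]
      refine lt_of_le_of_ne (hf.sol.P_le c_nonneg y) fun h => hy0 (hcon y h)
    · rw [indicator_of_notMem hyb]; exact hf.sol.nonneg y
  have h2 := P_mono (nice_one_ball (by norm_num)) hf.sol.nice h1 0
  rw [P_one_ball (by norm_num)] at h2
  have h3 := hf.sol.P_le c_nonneg 0
  have h4 : Mr (9/10) (0:E3) = 2 * π * (9/10) ^ 2 := by
    unfold Mr
    rw [norm_zero, if_neg (by norm_num)]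
    ring
  rw [h4] at h2
  nlinarith [Real.pi_pos]

lemma zero_mem (hf : Dat f) : (0:E3) ∈ interior (AA f) := by
  obtain ⟨x, hx, hx0⟩ := exists_ne hf
  have := star hf hx hx0 le_rfl one_pos
  rwa [zero_smul] at this

lemma star' (hf : Dat f) {y : E3} (hy : y ∈ AA f) {t : ℝ} (ht0 : 0 ≤ t) (ht1 : t < 1) :
    t • y ∈ interior (AA f) := by
  by_cases h : y = 0
  · rw [h, smul_zero]; exact zero_mem hf
  · exact star hf hy h ht0 ht1

lemma closure_T (hf : Dat f) : closure (interior (AA f)) = AA f := by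
  apply subset_antisymm
  · exact closure_minimal interior_subset (AA_closed hf)
  · intro x hx
    have h1 : Tendsto (fun t : ℝ => t • x) (𝓝[<] 1) (𝓝 ((1:ℝ) • x)) :=
      ((continuous_id.smul continuous_const).tendsto 1).mono_left nhdsWithin_le_nhds
    rw [one_smul] at h1
    apply mem_closure_of_tendsto h1
    have h2 : ∀ᶠ t : ℝ in 𝓝[<] 1, 0 ≤ t := by
      have : ∀ᶠ t : ℝ in 𝓝 1, 0 ≤ t := by
        filter_upwards [lt_mem_nhds (show (0:ℝ) < 1 by norm_num)] with t ht using ht.le
      exact this.filter_mono nhdsWithin_le_nhds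
    filter_upwards [h2, self_mem_nhdsWithin] with t ht0 ht1
    exact star' hf hx ht0 ht1

lemma frontier_T (hf : Dat f) : frontier (interior (AA f)) = AA f \ interior (AA f) := by
  rw [frontier, closure_T hf, interior_interior]

lemma frontier_null (hf : Dat f) : volume (AA f \ interior (AA f)) = 0 := by
  set F := AA f \ interior (AA f) with hF
  have hFm : MeasurableSet F := (AA_closed hf).measurableSet.diff isOpen_interior.measurableSet
  set s : ℕ → ℝ := fun n => 1 - 1 / ((n:ℝ) + 2) with hs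
  have hs2 : ∀ n, 1 / 2 ≤ s n := by
    intro n
    simp only [hs]
    have : 1 / ((n:ℝ) + 2) ≤ 1 / 2 := by
      apply one_div_le_one_div_of_le (by norm_num)
      have : (0:ℝ) ≤ n := Nat.cast_nonneg n
      linarith
    linarith
  have hs1 : ∀ n, s n < 1 := by
    intro n
    simp only [hs]
    have : 0 < 1 / ((n:ℝ) + 2) := by positivity
    linarith
  have hmono : StrictMono s := by
    apply strictMono_nat_of_lt_succ
    intro n
    simp only [hs]
    have : 1 / (((n + 1 : ℕ) : ℝ) + 2) < 1 / ((n:ℝ) + 2) := by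
      apply one_div_lt_one_div_of_lt (by positivity)
      push_cast; linarith
    linarith
  have hpos : ∀ n, 0 < s n := fun n => by have := hs2 n; linarith
  have hdis : Pairwise (Function.onFun Disjoint fun n => s n • F) := by
    have key : ∀ n m, n < m → Disjoint (s n • F) (s m • F) := by
      intro n m hnm
      rw [Set.disjoint_left]
      rintro z ⟨x, hx, rfl⟩ ⟨y, hy, hxy⟩
      have h1 : y = (s n / s m) • x := by
        have h2 : s m • y = s n • x := hxy
        rw [div_eq_inv_mul, mul_smul, ← h2, smul_smul, inv_mul_cancel₀ (hpos m).ne', one_smul]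
      apply hy.2
      rw [h1]
      exact star' hf hx.1 (div_nonneg (hpos n).le (hpos m).le) ((div_lt_one (hpos m)).2 (hmono hnm))
    intro n m hnm
    rcases lt_or_gt_of_ne hnm with h | h
    · exact key n m h
    · exact (key m n h).symm
  by_contra hne
  have hsub : ∀ n, s n • F ⊆ ball 0 1 := by
    intro n
    rintro z ⟨x, hx, rfl⟩
    have h1 := UU_sub (AA_sub hf hx.1)
    rw [mem_ball_zero_iff] at h1 ⊢
    simp only [norm_smul, Real.norm_eq_abs, abs_of_pos (hpos n)]
    nlinarith [hs1 n, hpos n, norm_nonneg x]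
  have hmeas : ∀ n, volume (s n • F) = ENNReal.ofReal (s n ^ 3) * volume F := by
    intro n
    rw [Measure.addHaar_smul]
    simp [abs_of_pos (hpos n)]
  have hfin := Measure.finite_const_le_meas_of_disjoint_iUnion (volume : Measure E3)
    (ε := ENNReal.ofReal (1/8) * volume F) (As := fun n => s n • F)
    (ENNReal.mul_pos (by simp) hne)
    (fun n => hFm.const_smul₀ _) hdis
    ((measure_mono (iUnion_subset hsub)).trans_lt measure_ball_lt_top).ne
  have huniv : {i : ℕ | ENNReal.ofReal (1/8) * volume F ≤ volume (s i • F)} = univ := by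
    ext n
    simp only [mem_univ, iff_true]
    rw [mem_ofPred_eq, hmeas]
    gcongr
    have := hs2 n
    have h2 : (1/2 : ℝ) ^ 3 ≤ s n ^ 3 := by gcongr
    linarith
  rw [huniv] at hfin
  exact infinite_univ hfin

lemma f_zero (hf : Dat f) : ∀ᵐ y, y ∈ interior (AA f) → f y = 0 := by
  rw [ae_iff]
  have e : {a | ¬(a ∈ interior (AA f) → f a = 0)} = {a | a ∈ interior (AA f) ∧ f a ≠ 0} := by
    ext a; simp
  rw [e]
  apply measure_null_of_locally_null
  intro x hx
  obtain ⟨r, hr, hball⟩ := Metric.isOpen_iff.1 isOpen_interior x hx.1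
  have hc : ∀ y ∈ ball x r, P f y = 3 * π / 2 := fun y hy => mem_AA (interior_subset (hball hy))
  have h1 := hf.sol.nice.zero_of_const hr (ae_of_all _ fun y _ => hf.sol.nonneg y)
    (fun y hy => by rw [hc y hy, hc x (mem_ball_self hr)])
  refine ⟨ball x r ∩ {a | a ∈ interior (AA f) ∧ f a ≠ 0}, ?_, ?_⟩
  · exact inter_mem (mem_nhdsWithin_of_mem_nhds (ball_mem_nhds x hr)) self_mem_nhdsWithin
  · rw [ae_iff] at h1
    apply measure_mono_null _ h1
    rintro y ⟨hy1, -, hy2⟩
    simp only [mem_ofPred_eq, Classical.not_imp]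
    exact ⟨hy1, hy2⟩

lemma f_ae (hf : Dat f) : f =ᵐ[volume] (UU \ AA f).indicator fun _ => 1 := by
  have h3 : ∀ᵐ y, y ∉ AA f \ interior (AA f) := by
    rw [ae_iff]
    have := frontier_null hf
    convert this using 2
    ext y; simp
  filter_upwards [hf.sol.lt_one, f_zero hf, h3] with y h1 h2 h3
  by_cases hyU : y ∈ UU
  · by_cases hyA : y ∈ AA f
    · rw [indicator_of_notMem (fun h => h.2 hyA)]
      apply h2
      by_contra h
      exact h3 ⟨hyA, h⟩
    · rw [indicator_of_mem (show y ∈ UU \ AA f from ⟨hyU, hyA⟩)]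
      exact h1 hyU (lt_of_le_of_ne (hf.sol.P_le c_nonneg y) hyA)
  · rw [indicator_of_notMem (fun h => hyU h.1)]
    exact hf.sol.supp y hyU

lemma pot_const (hf : Dat f) {x : E3} (hx : x ∈ interior (AA f)) :
    ∫ M in UU \ closure (interior (AA f)), (dist x M)⁻¹ = 3 * π / 2 := by
  have h1 : P f x = 3 * π / 2 := mem_AA (interior_subset hx)
  rw [← h1, closure_T hf]
  unfold P
  rw [← integral_indicator (UU_open.measurableSet.diff (AA_closed hf).measurableSet)]
  apply integral_congr_ae
  filter_upwards [f_ae hf] with y hy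
  rw [hy]
  by_cases h : y ∈ UU \ AA f
  · rw [indicator_of_mem h, indicator_of_mem h, one_mul, dist_eq_norm]
  · rw [indicator_of_notMem h, indicator_of_notMem h, zero_mul]

lemma T_connected (hf : Dat f) : IsConnected (interior (AA f)) := by
  have h : StarConvex ℝ (0:E3) (interior (AA f)) := by
    rw [starConvex_zero_iff]
    intro x hx t ht0 ht1
    rcases ht1.eq_or_lt with h | h
    · rw [h, one_smul]; exact hx
    · exact star' hf (interior_subset hx) ht0 h
  exact (h.isPathConnected (zero_mem hf)).isConnected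

lemma AA_compact (hf : Dat f) : IsCompact (AA f) :=
  isCompact_of_isClosed_isBounded (AA_closed hf) (isBounded_ball.subset ((AA_sub hf).trans UU_sub))

lemma frontier_homeo (hf : Dat f) :
    Nonempty (frontier (interior (AA f)) ≃ₜ sphere (0:E3) 1) := by
  rw [frontier_T hf]
  set F := AA f \ interior (AA f) with hF
  have hFc : IsCompact F := (AA_compact hf).diff isOpen_interior
  have hF0 : ∀ x ∈ F, x ≠ 0 := fun x hx h => hx.2 (h ▸ zero_mem hf)
  have : CompactSpace F := isCompact_iff_compactSpace.1 hFc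
  let φ : F → sphere (0:E3) 1 := fun x => ⟨‖x.1‖⁻¹ • x.1, by
    have := norm_pos_iff.2 (hF0 x.1 x.2)
    rw [mem_sphere_zero_iff_norm, norm_smul, norm_inv, norm_norm, inv_mul_cancel₀ this.ne']⟩
  have hφc : Continuous φ := by
    apply Continuous.subtype_mk
    have hc1 : Continuous (fun x : F => ‖x.1‖⁻¹) := by
      apply Continuous.inv₀ (by fun_prop)
      intro x
      exact (norm_pos_iff.2 (hF0 x.1 x.2)).ne'
    exact hc1.smul continuous_subtype_val
  have hinj : Function.Injective φ := by
    have key : ∀ x y : F, φ x = φ y → ‖x.1‖ < ‖y.1‖ → False := by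
      intro x y hxy hlt
      have h1 : ‖x.1‖⁻¹ • x.1 = ‖y.1‖⁻¹ • y.1 := congrArg Subtype.val hxy
      have hx0 := norm_pos_iff.2 (hF0 x.1 x.2)
      have hy0 := norm_pos_iff.2 (hF0 y.1 y.2)
      have h2 : x.1 = (‖x.1‖ / ‖y.1‖) • y.1 := by
        rw [div_eq_mul_inv, mul_smul, ← h1, smul_smul, mul_inv_cancel₀ hx0.ne', one_smul]
      apply x.2.2
      rw [h2]
      exact star' hf y.2.1 (by positivity) ((div_lt_one hy0).2 hlt)
    intro x y hxy
    rcases lt_trichotomy ‖x.1‖ ‖y.1‖ with h | h | h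
    · exact (key x y hxy h).elim
    · have h1 : ‖x.1‖⁻¹ • x.1 = ‖y.1‖⁻¹ • y.1 := congrArg Subtype.val hxy
      have hy0 := norm_pos_iff.2 (hF0 y.1 y.2)
      rw [h] at h1
      exact Subtype.ext (smul_right_injective _ (inv_ne_zero hy0.ne') h1)
    · exact (key y x hxy.symm h).elim
  have hsurj : Function.Surjective φ := by
    rintro ⟨v, hv⟩
    rw [mem_sphere_zero_iff_norm] at hv
    set S : Set ℝ := {t | 0 ≤ t ∧ t • v ∈ AA f} with hS
    have hSc : IsCompact S := by
      apply isCompact_of_isClosed_isBounded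
      · exact isClosed_Ici.inter ((AA_closed hf).preimage (by fun_prop))
      · apply (isBounded_Icc (0:ℝ) 1).subset
        rintro t ⟨ht0, ht⟩
        refine ⟨ht0, ?_⟩
        have := UU_sub (AA_sub hf ht)
        rw [mem_ball_zero_iff, norm_smul, hv, mul_one, Real.norm_eq_abs, abs_of_nonneg ht0] at this
        exact this.le
    have hSne : S.Nonempty := ⟨0, le_rfl, by rw [zero_smul]; exact interior_subset (zero_mem hf)⟩
    obtain ⟨t, ht, htmax⟩ := hSc.exists_isMaxOn hSne continuous_id.continuousOn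
    have hFt : t • v ∈ F := by
      refine ⟨ht.2, fun hint => ?_⟩
      have h2 : ∀ᶠ s : ℝ in 𝓝 t, s • v ∈ interior (AA f) :=
        (continuous_id.smul continuous_const).continuousAt.eventually
          (isOpen_interior.mem_nhds hint)
      have h3 : ∀ᶠ s : ℝ in 𝓝[>] t, s • v ∈ interior (AA f) := h2.filter_mono nhdsWithin_le_nhds
      obtain ⟨s, hs1, hs2⟩ := (h3.and self_mem_nhdsWithin).exists
      have h4 : s ∈ S := ⟨ht.1.trans (le_of_lt hs2), interior_subset hs1⟩
      have h5 : s ≤ t := htmax h4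
      exact absurd hs2 (not_lt.2 h5)
    have ht0 : 0 < t := by
      rcases ht.1.eq_or_lt with h | h
      · exfalso
        apply hF0 _ hFt
        rw [← h, zero_smul]
      · exact h
    refine ⟨⟨t • v, hFt⟩, ?_⟩
    apply Subtype.ext
    show ‖t • v‖⁻¹ • (t • v) = v
    rw [norm_smul, hv, mul_one, Real.norm_eq_abs, abs_of_pos ht0, smul_smul,
      inv_mul_cancel₀ ht0.ne', one_smul]
  exact ⟨hφc.homeoOfEquivCompactToT2 (f := Equiv.ofBijective φ ⟨hinj, hsurj⟩)⟩

lemma UU_homeo : Nonempty (frontier UU ≃ₜ sphere (0:E3) 1) := by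
  have hne : (interior UU).Nonempty := by
    rw [UU_open.interior_eq]
    exact ⟨0, ball_sub_UU (mem_ball_self (by norm_num))⟩
  obtain ⟨h, -, -, h3⟩ := exists_homeomorph_image_interior_closure_frontier_eq_unitBall UU_convex hne
    (isBounded_ball.subset UU_sub)
  rw [← h3]
  exact ⟨h.image (frontier UU)⟩

/-- the frontier of `UU` contains a segment -/
lemma UU_face {t : ℝ} (ht : |t| < 2 / 5) :
    (WithLp.toLp 2 ![9 / 10, t, 0] : E3) ∈ frontier UU := by
  have ht' := abs_lt.1 ht
  have hn : ∀ a : ℝ, ‖(WithLp.toLp 2 ![a, t, 0] : E3)‖ ^ 2 = a ^ 2 + t ^ 2 := by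
    intro a
    rw [EuclideanSpace.norm_sq_eq]
    simp [Fin.sum_univ_three]
  rw [UU_open.frontier_eq]
  constructor
  · -- closure
    have h1 : Tendsto (fun a : ℝ => (WithLp.toLp 2 ![a, t, 0] : E3)) (𝓝[<] (9/10))
        (𝓝 (WithLp.toLp 2 ![9/10, t, 0])) := by
      have : Continuous (fun a : ℝ => (WithLp.toLp 2 ![a, t, 0] : E3)) := by
        apply (PiLp.continuous_toLp 2 _).comp
        apply continuous_pi
        intro i
        fin_cases i
        · exact continuous_id
        · exact continuous_const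
        · exact continuous_const
      exact (this.tendsto _).mono_left nhdsWithin_le_nhds
    apply mem_closure_of_tendsto h1
    have h2 : ∀ᶠ a : ℝ in 𝓝[<] (9/10), 0 ≤ a := by
      have : ∀ᶠ a : ℝ in 𝓝 (9/10), 0 ≤ a := by
        filter_upwards [lt_mem_nhds (show (0:ℝ) < 9/10 by norm_num)] with a ha using ha.le
      exact this.filter_mono nhdsWithin_le_nhds
    filter_upwards [h2, self_mem_nhdsWithin] with a ha0 ha1
    have ha1' : a < 9 / 10 := ha1
    constructor
    · rw [mem_ball_zero_iff]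
      have h3 := hn a
      nlinarith [norm_nonneg (WithLp.toLp 2 ![a, t, 0] : E3)]
    · intro i
      fin_cases i
      · simpa [abs_of_nonneg ha0] using ha1'
      · simp; linarith
      · simp
  · rintro ⟨-, h2⟩
    have := h2 0
    simp at this
    rw [abs_of_pos (by norm_num)] at this
    exact lt_irrefl _ this

lemma not_affine (φ : E3 ≃ᵃ[ℝ] E3) : frontier UU ≠ φ '' sphere (0:E3) 1 := by
  intro h
  have hp : ∀ t : ℝ, |t| < 2 / 5 → ‖φ.symm (WithLp.toLp 2 ![9 / 10, t, 0] : E3)‖ = 1 := by
    intro t ht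
    have h1 := UU_face ht
    rw [h] at h1
    obtain ⟨x, hx, hxe⟩ := h1
    rw [← hxe, AffineEquiv.symm_apply_apply]
    simpa using hx
  have h1 := hp (1/5) (by rw [abs_lt]; constructor <;> norm_num)
  have h2 := hp (-(1/5)) (by rw [abs_lt]; constructor <;> norm_num)
  have h3 := hp 0 (by rw [abs_lt]; constructor <;> norm_num)
  set a := φ.symm (WithLp.toLp 2 ![9 / 10, 1/5, 0] : E3) with ha
  set b := φ.symm (WithLp.toLp 2 ![9 / 10, -(1/5), 0] : E3) with hb
  have hab : a ≠ b := by
    intro hab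
    have := φ.symm.injective hab
    have h5 := congrArg (fun x : E3 => x 1) this
    simp at h5
    norm_num at h5
  have hmid : φ.symm (WithLp.toLp 2 ![9 / 10, 0, 0] : E3) = midpoint ℝ a b := by
    rw [ha, hb, ← AffineEquiv.map_midpoint]
    congr 1
    ext i
    rw [midpoint_eq_smul_add]
    fin_cases i <;> simp
    norm_num
  rw [hmid] at h3
  have h4 : ‖midpoint ℝ a b‖ < 1 := by
    rw [midpoint_eq_smul_add]
    have h6 : ‖a + b‖ ^ 2 < 4 := by
      have h7 := parallelogram_law_with_norm ℝ a b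
      have h8 : 0 < ‖a - b‖ := norm_pos_iff.2 (sub_ne_zero.2 hab)
      rw [h1, h2] at h7
      nlinarith
    rw [norm_smul]
    simp only [invOf_eq_inv, norm_inv, Real.norm_ofNat]
    nlinarith [norm_nonneg (a + b)]
  linarith

end Pool.Agent.H813R2.Pot
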