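import Mathlib

/-!
Arc length parametrisations: unit speed curves, the unit circle, and the arm
`a ↦ a ^ 3 exp (i sin (π / a ^ 2) / 2)`.
-/

set_option autoImplicit false
open Set Filter Topology
open scoped ENNReal NNReal

namespace Pool.Agent.H813R2.Seam

/-- `f` has unit speed on `[a, b]`. -/
def US (f : ℝ → ℂ) (a b : ℝ) : Prop :=
  ∀ x y, a ≤ x → x ≤ y → y ≤ b → eVariationOn f (Icc x y) = ENNReal.ofReal (y - x)

lemma evar_add (f : ℝ → ℂ) {a b c : ℝ} (hab : a ≤ b) (hbc : b ≤ c) :
    eVariationOn f (Icc a b) + eVariationOn f (Icc b c) = eVariationOn f (Icc a c) := by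
  have := eVariationOn.Icc_add_Icc f (s := univ) hab hbc (mem_univ b)
  simpa using this

lemma US.concat {f : ℝ → ℂ} {a b c : ℝ} (h1 : US f a b) (h2 : US f b c) :
    US f a c := by
  intro x y hx hxy hy
  rcases le_total y b with hyb | hyb
  · exact h1 x y hx hxy hyb
  rcases le_total b x with hbx | hbx
  · exact h2 x y hbx hxy hy
  rw [← evar_add f hbx hyb, h1 x b hx hbx le_rfl, h2 b y le_rfl hyb hy,
    ← ENNReal.ofReal_add (by linarith) (by linarith)]
  congr 1; ring

lemma US.congr {f g : ℝ → ℂ} {a b : ℝ} (h : US f a b) (hfg : EqOn g f (Icc a b)) : US g a b := by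
  intro x y hx hxy hy
  rw [← h x y hx hxy hy]
  apply eVariationOn.congr
  intro z hz
  exact hfg ⟨hx.trans hz.1, hz.2.trans hy⟩

lemma evar_const_mul (c : ℂ) (hc : ‖c‖ = 1) (f : ℝ → ℂ) (s : Set ℝ) :
    eVariationOn (fun t => c * f t) s = eVariationOn f s := by
  unfold eVariationOn
  have : ∀ x y, edist (c * f x) (c * f y) = edist (f x) (f y) := by
    intro x y
    rw [edist_dist, edist_dist, dist_eq_norm, dist_eq_norm, ← mul_sub, norm_mul, hc, one_mul]
  simp_rw [this]

/-- translate and reflect -/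
lemma US.comp_sub {f : ℝ → ℂ} {a b : ℝ} (h : US f a b) (k : ℝ) :
    US (fun t => f (k - t)) (k - b) (k - a) := by
  intro x y hx hxy hy
  have h1 := eVariationOn.comp_eq_of_antitoneOn f (t := Icc x y) (fun t => k - t)
    (fun u _ v _ huv => by simp only; linarith)
  have h2 : (fun t : ℝ => k - t) '' Icc x y = Icc (k - y) (k - x) := by simp
  rw [h2] at h1
  have h3 := h (k - y) (k - x) (by linarith) (by linarith) (by linarith)
  rw [← h1] at h3
  refine Eq.trans h3 ?_
  congr 1; ring

lemma US.comp_add {f : ℝ → ℂ} {a b : ℝ} (h : US f a b) (k : ℝ) :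
    US (fun t => f (k + t)) (a - k) (b - k) := by
  intro x y hx hxy hy
  have h1 := eVariationOn.comp_eq_of_monotoneOn f (t := Icc x y) (fun t => k + t)
    (fun u _ v _ huv => by simp only; linarith)
  have h2 : (fun t : ℝ => k + t) '' Icc x y = Icc (k + x) (k + y) := by simp [add_comm]
  rw [h2] at h1
  have h3 := h (k + x) (k + y) (by linarith) (by linarith) (by linarith)
  rw [← h1] at h3
  refine Eq.trans h3 ?_
  congr 1; ring

lemma US.const_mul {f : ℝ → ℂ} {a b : ℝ} (h : US f a b) (c : ℂ) (hc : ‖c‖ = 1) :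
    US (fun t => c * f t) a b := by
  intro x y hx hxy hy
  rw [evar_const_mul c hc]
  exact h x y hx hxy hy

lemma evar_le_of_dist_le {f : ℝ → ℂ} {C : ℝ} (hC : 0 ≤ C) {x y : ℝ} (hxy : x ≤ y)
    (h : ∀ u v, x ≤ u → u ≤ v → v ≤ y → ‖f v - f u‖ ≤ C * (v - u)) :
    eVariationOn f (Icc x y) ≤ ENNReal.ofReal (C * (y - x)) := by
  have hL : LipschitzOnWith C.toNNReal f (Icc x y) := by
    apply LipschitzOnWith.of_dist_le_mul
    intro u hu v hv
    rw [Real.coe_toNNReal _ hC]
    rcases le_total u v with huv | huv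
    · rw [dist_comm, dist_eq_norm, Real.dist_eq, abs_sub_comm, abs_of_nonneg (by linarith)]
      exact h u v hu.1 huv hv.2
    · rw [dist_eq_norm, Real.dist_eq, abs_of_nonneg (by linarith)]
      exact h v u hv.1 huv hu.2
  have h1 := hL.comp_eVariationOn_le (g := (id : ℝ → ℝ)) (s := Icc x y) (fun z hz => hz)
  rw [eVariationOn_id_Icc] at h1
  rw [ENNReal.ofReal_mul hC]
  exact h1

/-- the unit circle -/
lemma US_circle (a b : ℝ) : US (fun s => Complex.exp (s * Complex.I)) a b := by
  intro x y _ hxy _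
  have hchord : ∀ u v : ℝ, ‖Complex.exp (v * Complex.I) - Complex.exp (u * Complex.I)‖
      = 2 * |Real.sin ((v - u) / 2)| := by
    intro u v
    have e1 : Complex.exp (v * Complex.I) - Complex.exp (u * Complex.I) =
        Complex.exp (((u + v) / 2 : ℝ) * Complex.I) *
          (2 * Complex.I * (Real.sin ((v - u) / 2) : ℝ)) := by
      rw [Complex.ofReal_sin, Complex.sin]
      have e2 : Complex.exp (v * Complex.I) = Complex.exp (((u + v) / 2 : ℝ) * Complex.I) *
          Complex.exp (((v - u) / 2 : ℝ) * Complex.I) := by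
        rw [← Complex.exp_add]; congr 1; push_cast; ring
      have e3 : Complex.exp (u * Complex.I) = Complex.exp (((u + v) / 2 : ℝ) * Complex.I) *
          Complex.exp (-((v - u) / 2 : ℝ) * Complex.I) := by
        rw [← Complex.exp_add]; congr 1; push_cast; ring
      rw [e2, e3]
      have hI : Complex.I * Complex.I = -1 := Complex.I_mul_I
      linear_combination (Complex.exp (((u + v) / 2 : ℝ) * Complex.I)) *
        (Complex.exp (((v - u) / 2 : ℝ) * Complex.I) -
          Complex.exp (-((v - u) / 2 : ℝ) * Complex.I)) * hI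
    rw [e1, norm_mul, Complex.norm_exp_ofReal_mul_I, one_mul, norm_mul, norm_mul, Complex.norm_I,
      Complex.norm_real, Real.norm_eq_abs]
    norm_num
  apply le_antisymm
  · have h1 := evar_le_of_dist_le (f := fun s : ℝ => Complex.exp (s * Complex.I)) zero_le_one hxy
      (by
        intro u v _ huv _
        rw [hchord, one_mul]
        have := Real.abs_sin_le_abs (x := (v - u) / 2)
        rw [abs_of_nonneg (by linarith : 0 ≤ (v - u) / 2)] at this
        linarith)
    rwa [one_mul] at h1
  · -- lower bound by equal partitions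
    have hlow : ∀ n : ℕ, 0 < n → ENNReal.ofReal (n * (2 * |Real.sin ((y - x) / n / 2)|)) ≤
        eVariationOn (fun s : ℝ => Complex.exp (s * Complex.I)) (Icc x y) := by
      intro n hn
      have hn' : (0 : ℝ) < n := by exact_mod_cast hn
      have h0 : 0 ≤ (y - x) / n := div_nonneg (by linarith) hn'.le
      have h1 := eVariationOn.sum_le_of_monotoneOn_Iic
        (f := fun s : ℝ => Complex.exp (s * Complex.I)) (s := Icc x y) (n := n)
        (u := fun i : ℕ => x + i * ((y - x) / n)) (by
          intro i _ j _ hij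
          have : (i : ℝ) ≤ j := by exact_mod_cast hij
          simp only
          nlinarith) (by
          intro i hi
          have : (i : ℝ) ≤ n := by exact_mod_cast hi
          constructor
          · have : 0 ≤ (i : ℝ) * ((y - x) / n) := by positivity
            linarith
          · have : (i : ℝ) * ((y - x) / n) ≤ n * ((y - x) / n) := by gcongr
            rw [mul_div_cancel₀ _ hn'.ne'] at this
            linarith)
      refine le_trans (le_of_eq ?_) h1
      have h2 : ∀ i ∈ Finset.range n, edist (Complex.exp (((x + (i + 1 : ℕ) * ((y - x) / n) : ℝ) : ℂ)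
          * Complex.I)) (Complex.exp (((x + (i : ℕ) * ((y - x) / n) : ℝ) : ℂ) * Complex.I)) =
          ENNReal.ofReal (2 * |Real.sin ((y - x) / n / 2)|) := by
        intro i _
        rw [edist_dist, dist_eq_norm, hchord]
        congr 4
        push_cast; ring
      rw [Finset.sum_congr rfl h2, Finset.sum_const, Finset.card_range, nsmul_eq_mul,
        ENNReal.ofReal_mul hn'.le, ENNReal.ofReal_natCast]
    have hlim : Tendsto (fun n : ℕ => (n : ℝ) * (2 * |Real.sin ((y - x) / n / 2)|)) atTop
        (𝓝 (y - x)) := by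
      have hlow2 : ∀ᶠ n : ℕ in atTop, (y - x) - ((y - x) ^ 3 / 16) / n ≤
          (n : ℝ) * (2 * |Real.sin ((y - x) / n / 2)|) := by
        filter_upwards [eventually_gt_atTop 0, eventually_ge_atTop ⌈(y - x) / 2⌉₊] with n hn hn2
        have hn' : (0 : ℝ) < n := by exact_mod_cast hn
        have hn1 : (1 : ℝ) ≤ n := by exact_mod_cast hn
        have hn2' : (y - x) / 2 ≤ n := (Nat.le_ceil _).trans (by exact_mod_cast hn2)
        set h := (y - x) / n / 2 with hh
        have hh0 : 0 ≤ h := by rw [hh]; exact div_nonneg (div_nonneg (by linarith) hn'.le) (by norm_num)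
        have hh1 : h ≤ 1 := by
          rw [hh, div_div, div_le_one (by positivity)]
          linarith
        have hyx : y - x = 2 * n * h := by rw [hh]; field_simp
        rcases hh0.eq_or_lt with h0 | h0
        · rw [← h0] at hyx ⊢
          rw [hyx]; simp
        · have hs := Real.sin_gt_sub_cube h0
          have hs2 : h - h ^ 3 / 4 ≤ |Real.sin h| := by
            have h3 : 0 ≤ h ^ 3 := by positivity
            have := le_abs_self (Real.sin h)
            linarith
          have e1 : (y - x) - ((y - x) ^ 3 / 16) / n = 2 * n * (h - h ^ 3 / 4 * n) := by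
            rw [hyx]; field_simp; ring
          rw [e1]
          have : h ^ 3 / 4 ≤ h ^ 3 / 4 * n := by
            have : 0 ≤ h ^ 3 / 4 := by positivity
            nlinarith
          nlinarith
      have hup : ∀ᶠ n : ℕ in atTop, (n : ℝ) * (2 * |Real.sin ((y - x) / n / 2)|) ≤ y - x := by
        filter_upwards [eventually_gt_atTop 0] with n hn
        have hn' : (0 : ℝ) < n := by exact_mod_cast hn
        have := Real.abs_sin_le_abs (x := (y - x) / n / 2)
        rw [abs_of_nonneg (div_nonneg (div_nonneg (by linarith) hn'.le) (by norm_num) :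
          0 ≤ (y - x) / n / 2)] at this
        calc (n : ℝ) * (2 * |Real.sin ((y - x) / n / 2)|) ≤ n * (2 * ((y - x) / n / 2)) := by gcongr
          _ = y - x := by field_simp
      refine tendsto_of_tendsto_of_tendsto_of_le_of_le' ?_ tendsto_const_nhds hlow2 hup
      have h5 : Tendsto (fun n : ℕ => ((y - x) ^ 3 / 16) / (n : ℝ)) atTop (𝓝 0) :=
        tendsto_const_div_atTop_nhds_zero_nat _
      simpa using (tendsto_const_nhds (x := y - x)).sub h5
    have h6 := (ENNReal.continuous_ofReal.tendsto _).comp hlim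
    refine le_of_tendsto h6 ?_
    filter_upwards [eventually_gt_atTop 0] with n hn
    exact hlow n hn

/-- The arm. -/
noncomputable def A (a : ℝ) : ℂ := (a ^ 3 : ℝ) * Complex.exp (((1 / 2) * Real.sin (Real.pi / a ^ 2) : ℝ) * Complex.I)

lemma norm_A {a : ℝ} (ha : 0 ≤ a) : ‖A a‖ = a ^ 3 := by
  unfold A
  rw [norm_mul, Complex.norm_exp_ofReal_mul_I, mul_one, Complex.norm_real, Real.norm_of_nonneg (by positivity)]

lemma A_zero : A 0 = 0 := by simp [A]

lemma A_one : A 1 = 1 := by simp [A]

lemma norm_exp_sub_le (u v : ℝ) :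
    ‖Complex.exp (v * Complex.I) - Complex.exp (u * Complex.I)‖ ≤ |v - u| := by
  have h1 : Complex.exp (v * Complex.I) - Complex.exp (u * Complex.I) =
      Complex.exp (u * Complex.I) * (Complex.exp (Complex.I * ((v - u : ℝ) : ℂ)) - 1) := by
    rw [mul_sub, ← Complex.exp_add, mul_one]
    congr 2; push_cast; ring
  rw [h1, norm_mul, Complex.norm_exp_ofReal_mul_I, one_mul]
  have := Real.norm_exp_I_mul_ofReal_sub_one_le (x := v - u)
  simpa using this

lemma A_lip {a b : ℝ} (ha : 0 ≤ a) (hab : a ≤ b) (hb : b ≤ 1) : ‖A b - A a‖ ≤ 7 * (b - a) := by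
  have hb0 : 0 ≤ b := ha.trans hab
  rcases ha.eq_or_lt with h0 | h0
  · rw [← h0, A_zero, sub_zero, norm_A hb0]
    nlinarith [mul_nonneg hb0 hb0, mul_nonneg hb0 (mul_nonneg hb0 hb0)]
  have hbp : 0 < b := h0.trans_le hab
  set κ : ℝ → ℝ := fun a => (1 / 2) * Real.sin (Real.pi / a ^ 2) with hκ
  have e1 : A b - A a = ((b ^ 3 - a ^ 3 : ℝ) : ℂ) * Complex.exp ((κ b : ℝ) * Complex.I) +
      ((a ^ 3 : ℝ) : ℂ) * (Complex.exp ((κ b : ℝ) * Complex.I) - Complex.exp ((κ a : ℝ) * Complex.I)) := by
    unfold A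
    simp only [hκ]
    push_cast
    ring
  have h1 : ‖((b ^ 3 - a ^ 3 : ℝ) : ℂ) * Complex.exp ((κ b : ℝ) * Complex.I)‖ ≤ 3 * (b - a) := by
    rw [norm_mul, Complex.norm_exp_ofReal_mul_I, mul_one, Complex.norm_real, Real.norm_eq_abs,
      abs_of_nonneg (by nlinarith [pow_le_pow_left₀ ha hab 3])]
    have : b ^ 3 - a ^ 3 = (b - a) * (b ^ 2 + a * b + a ^ 2) := by ring
    rw [this]
    have h2 : b ^ 2 + a * b + a ^ 2 ≤ 3 := by nlinarith
    nlinarith
  have h2 : |κ b - κ a| ≤ 1 / 2 * (Real.pi / a ^ 2 - Real.pi / b ^ 2) := by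
    simp only [hκ]
    rw [← mul_sub, abs_mul, abs_of_pos (by norm_num : (0 : ℝ) < 1 / 2)]
    have h3 : |Real.sin (Real.pi / b ^ 2) - Real.sin (Real.pi / a ^ 2)| ≤
        |Real.pi / b ^ 2 - Real.pi / a ^ 2| := by
      have := Real.abs_sin_sub_sin_le (Real.pi / b ^ 2) (Real.pi / a ^ 2)
      exact this
    have h4 : Real.pi / b ^ 2 ≤ Real.pi / a ^ 2 := by
      apply div_le_div_of_nonneg_left Real.pi_pos.le (by positivity)
      exact pow_le_pow_left₀ ha hab 2
    rw [abs_of_nonpos (by linarith : Real.pi / b ^ 2 - Real.pi / a ^ 2 ≤ 0)] at h3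
    linarith
  have h3 : ‖((a ^ 3 : ℝ) : ℂ) * (Complex.exp ((κ b : ℝ) * Complex.I) -
      Complex.exp ((κ a : ℝ) * Complex.I))‖ ≤ 4 * (b - a) := by
    rw [norm_mul, Complex.norm_real, Real.norm_of_nonneg (by positivity)]
    have h4 := (norm_exp_sub_le (κ a) (κ b)).trans h2
    have h5 : a ^ 3 * ‖Complex.exp ((κ b : ℝ) * Complex.I) - Complex.exp ((κ a : ℝ) * Complex.I)‖ ≤
        a ^ 3 * (1 / 2 * (Real.pi / a ^ 2 - Real.pi / b ^ 2)) := by gcongr
    refine h5.trans ?_
    have h6 : a ^ 3 * (1 / 2 * (Real.pi / a ^ 2 - Real.pi / b ^ 2)) =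
        Real.pi / 2 * (a * (b + a) / b ^ 2) * (b - a) := by
      field_simp
      ring
    rw [h6]
    have h7 : a * (b + a) / b ^ 2 ≤ 2 := by
      rw [div_le_iff₀ (by positivity)]
      nlinarith
    have h8 : 0 ≤ a * (b + a) / b ^ 2 := by positivity
    have h9 : Real.pi / 2 * (a * (b + a) / b ^ 2) ≤ 4 := by
      have := Real.pi_le_four
      have := Real.pi_pos
      nlinarith
    nlinarith
  rw [e1]
  calc _ ≤ 3 * (b - a) + 4 * (b - a) := (norm_add_le _ _).trans (add_le_add h1 h3)
    _ = _ := by ring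

end Pool.Agent.H813R2.Seam
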