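import Pool.Agent.H813R2.Seam1

/-!
The closed curve: two arms and a circular arc, parametrised by arc length.
-/

set_option autoImplicit false
open Set Filter Topology
open scoped ENNReal NNReal

namespace Pool.Agent.H813R2.Seam

noncomputable def vA (a : ℝ) : ℝ := (eVariationOn A (Icc 0 a)).toReal

lemma evarA_le {x y : ℝ} (hx : 0 ≤ x) (hxy : x ≤ y) (hy : y ≤ 1) :
    eVariationOn A (Icc x y) ≤ ENNReal.ofReal (7 * (y - x)) :=
  evar_le_of_dist_le (by norm_num) hxy fun _ _ hu huv hv =>
    A_lip (hx.trans hu) huv (hv.trans hy)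

lemma evarA_ne_top {x y : ℝ} (hx : 0 ≤ x) (hy : y ≤ 1) :
    eVariationOn A (Icc x y) ≠ ⊤ := by
  rcases le_total x y with h | h
  · exact ne_top_of_le_ne_top ENNReal.ofReal_ne_top (evarA_le hx h hy)
  · rw [eVariationOn.subsingleton]
    · simp
    · intro u hu v hv
      have := hu.1; have := hu.2; have := hv.1; have := hv.2
      linarith

lemma evarA {x y : ℝ} (hx : 0 ≤ x) (hxy : x ≤ y) (hy : y ≤ 1) :
    eVariationOn A (Icc x y) = ENNReal.ofReal (vA y - vA x) := by
  have h1 := evar_add A hx hxy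
  have h2 := evarA_ne_top (x := 0) (y := x) le_rfl (hxy.trans hy)
  have h3 := evarA_ne_top (x := x) (y := y) hx hy
  unfold vA
  rw [← h1, ENNReal.toReal_add h2 h3]
  rw [add_sub_cancel_left, ENNReal.ofReal_toReal h3]

lemma vA_zero : vA 0 = 0 := by
  unfold vA
  rw [Icc_self, eVariationOn.subsingleton]
  · rfl
  · exact subsingleton_singleton

lemma vA_sub_le {x y : ℝ} (hx : 0 ≤ x) (hxy : x ≤ y) (hy : y ≤ 1) : vA y - vA x ≤ 7 * (y - x) := by
  have h1 := evarA_le hx hxy hy
  rw [evarA hx hxy hy] at h1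
  exact (ENNReal.ofReal_le_ofReal_iff (by linarith)).1 h1

lemma vA_lt {x y : ℝ} (hx : 0 ≤ x) (hxy : x < y) (hy : y ≤ 1) : vA x < vA y := by
  have h1 : edist (A x) (A y) ≤ eVariationOn A (Icc x y) :=
    eVariationOn.edist_le A ⟨le_rfl, hxy.le⟩ ⟨hxy.le, le_rfl⟩
  rw [evarA hx hxy.le hy, edist_dist] at h1
  have h2 : 0 < dist (A x) (A y) := by
    rw [dist_pos]
    intro h
    have := congrArg norm h
    rw [norm_A hx, norm_A (hx.trans hxy.le)] at this
    have h3 := pow_lt_pow_left₀ hxy hx (n := 3) (by norm_num)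
    linarith
  have h3 : 0 < ENNReal.ofReal (vA y - vA x) := lt_of_lt_of_le (by simpa using h2) h1
  rw [ENNReal.ofReal_pos] at h3
  linarith

noncomputable def cl (t : ℝ) : ℝ := max 0 (min t 1)

lemma cl_mem (t : ℝ) : 0 ≤ cl t ∧ cl t ≤ 1 := by
  unfold cl
  exact ⟨le_max_left _ _, max_le (by norm_num) (min_le_right _ _)⟩

lemma cl_mono {s t : ℝ} (h : s ≤ t) : cl s ≤ cl t := by
  unfold cl; exact max_le_max_left _ (min_le_min_right _ h)

lemma cl_sub {s t : ℝ} (h : s ≤ t) : cl t - cl s ≤ t - s := by
  unfold cl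
  rcases max_cases 0 (min t 1) with ⟨h1, h2⟩ | ⟨h1, h2⟩ <;>
  rcases max_cases 0 (min s 1) with ⟨h3, h4⟩ | ⟨h3, h4⟩ <;>
  rcases min_cases t 1 with ⟨h5, h6⟩ | ⟨h5, h6⟩ <;>
  rcases min_cases s 1 with ⟨h7, h8⟩ | ⟨h7, h8⟩ <;>
  rw [h1, h3] <;> linarith

lemma cl_eq {t : ℝ} (h0 : 0 ≤ t) (h1 : t ≤ 1) : cl t = t := by
  unfold cl
  rw [min_eq_left h1, max_eq_right h0]

noncomputable def VV (t : ℝ) : ℝ := vA (cl t) + (t - cl t)

lemma VV_strictMono : StrictMono VV := by
  intro s t hst
  unfold VV
  have h1 := cl_mono hst.le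
  have h2 := cl_sub hst.le
  rcases h1.eq_or_lt with h3 | h3
  · rw [h3]; linarith
  · have := vA_lt (cl_mem s).1 h3 (cl_mem t).2
    linarith

lemma VV_continuous : Continuous VV := by
  have h : LipschitzWith 15 VV := by
    apply LipschitzWith.of_dist_le_mul
    have key : ∀ s t : ℝ, s ≤ t → VV t - VV s ≤ 15 * (t - s) := by
      intro s t hst
      unfold VV
      have h1 := cl_mono hst
      have h2 := cl_sub hst
      have h3 := vA_sub_le (cl_mem s).1 h1 (cl_mem t).2
      linarith
    intro s t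
    rcases le_total s t with hst | hst
    · have h1 := VV_strictMono.monotone hst
      rw [dist_comm, dist_comm s, Real.dist_eq, Real.dist_eq, abs_of_nonneg (by linarith),
        abs_of_nonneg (by linarith)]
      exact key s t hst
    · have h1 := VV_strictMono.monotone hst
      rw [Real.dist_eq, Real.dist_eq, abs_of_nonneg (by linarith), abs_of_nonneg (by linarith)]
      exact key t s hst
  exact h.continuous

lemma VV_surjective : Function.Surjective VV := by
  apply VV_continuous.surjective
  · refine tendsto_atTop_mono' _ (f₁ := fun t => t - 1) ?_ (tendsto_atTop_add_const_right _ _ tendsto_id)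
    filter_upwards with t
    unfold VV
    have h1 : 0 ≤ vA (cl t) := ENNReal.toReal_nonneg
    have := (cl_mem t).2
    linarith
  · have key : ∀ᶠ t : ℝ in atBot, VV t ≤ id t := by
      filter_upwards [eventually_le_atBot 0] with t ht
      have h1 : cl t = 0 := by
        unfold cl
        rw [max_eq_left ((min_le_left _ _).trans ht)]
      unfold VV
      rw [h1, vA_zero]; simp
    exact tendsto_atBot_mono' atBot key tendsto_id

noncomputable def V : ℝ ≃o ℝ := VV_strictMono.orderIsoOfSurjective _ VV_surjective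

lemma V_apply (t : ℝ) : V t = VV t := rfl

lemma V_eq {t : ℝ} (h0 : 0 ≤ t) (h1 : t ≤ 1) : V t = vA t := by
  rw [V_apply]; unfold VV; rw [cl_eq h0 h1]; ring

lemma V_zero : V 0 = 0 := by rw [V_eq le_rfl zero_le_one, vA_zero]

/-- the length of an arm -/
noncomputable def ell : ℝ := V 1

lemma ell_pos : 0 < ell := by
  have := V.strictMono (zero_lt_one (α := ℝ))
  rw [V_zero] at this
  exact this

/-- the arm, parametrised by arc length -/
noncomputable def B (s : ℝ) : ℂ := A (V.symm s)

lemma A_continuousOn : ContinuousOn A (Icc 0 1) := by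
  have : LipschitzOnWith 7 A (Icc 0 1) := by
    apply LipschitzOnWith.of_dist_le_mul
    intro u hu v hv
    rcases le_total u v with huv | huv
    · rw [dist_comm, dist_eq_norm, Real.dist_eq, abs_sub_comm, abs_of_nonneg (by linarith)]
      exact A_lip hu.1 huv hv.2
    · rw [dist_eq_norm, Real.dist_eq, abs_of_nonneg (by linarith)]
      exact A_lip hv.1 huv hu.2
  exact this.continuousOn

lemma Vsymm_mem {s : ℝ} (h0 : 0 ≤ s) (h1 : s ≤ ell) : 0 ≤ V.symm s ∧ V.symm s ≤ 1 := by
  constructor
  · rw [← V.symm_apply_apply 0, V_zero]; exact V.symm.monotone h0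
  · rw [← V.symm_apply_apply 1]; exact V.symm.monotone h1

lemma B_continuousOn : ContinuousOn B (Icc 0 ell) :=
  A_continuousOn.comp V.symm.continuous.continuousOn fun _ hs => Vsymm_mem hs.1 hs.2

lemma B_zero : B 0 = 0 := by
  unfold B
  have : V.symm 0 = 0 := by rw [← V_zero, V.symm_apply_apply, V_zero]
  rw [this, A_zero]

lemma B_ell : B ell = 1 := by
  unfold B ell
  rw [V.symm_apply_apply, A_one]

lemma US_B : US B 0 ell := by
  intro x y hx hxy hy
  have h1 := eVariationOn.comp_eq_of_monotoneOn A (t := Icc x y) V.symm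
    (V.symm.monotone.monotoneOn _)
  have h2 : V.symm '' Icc x y = Icc (V.symm x) (V.symm y) := V.symm.image_Icc x y
  rw [h2] at h1
  have hx' := Vsymm_mem hx (hxy.trans hy)
  have hy' := Vsymm_mem (hx.trans hxy) hy
  rw [evarA hx'.1 (V.symm.monotone hxy) hy'.2, ← V_eq hx'.1 hx'.2, ← V_eq hy'.1 hy'.2,
    V.apply_symm_apply, V.apply_symm_apply] at h1
  exact h1

/-- half of the angle of the sector -/
noncomputable def Th : ℝ := 3 * Real.pi / 4

lemma Th_pos : 0 < Th := by unfold Th; positivity

/-- half of the length of the curve -/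
noncomputable def hh : ℝ := ell + Th

lemma hh_pos : 0 < hh := add_pos ell_pos Th_pos

noncomputable def clT (s : ℝ) : ℝ := max (-Th) (min s Th)

noncomputable def Gc (s : ℝ) : ℂ := Complex.exp (clT s * Complex.I) * B (hh - max |s| Th)

lemma arg_mem {s : ℝ} (hs : |s| ≤ hh) : hh - max |s| Th ∈ Icc 0 ell := by
  constructor
  · have := max_le hs (by unfold hh; linarith [ell_pos] : Th ≤ hh)
    linarith
  · have := le_max_right |s| Th
    unfold hh; linarith

lemma Gc_right {s : ℝ} (hs : Th ≤ s) : Gc s = Complex.exp (Th * Complex.I) * B (hh - s) := by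
  unfold Gc clT
  rw [min_eq_right hs, max_eq_right (by linarith [Th_pos]), abs_of_nonneg (by linarith [Th_pos]),
    max_eq_left hs]

lemma Gc_left {s : ℝ} (hs : s ≤ -Th) : Gc s = Complex.exp (-Th * Complex.I) * B (hh + s) := by
  unfold Gc clT
  rw [min_eq_left (by linarith [Th_pos]), max_eq_left hs, abs_of_nonpos (by linarith [Th_pos]),
    max_eq_left (by linarith)]
  push_cast
  congr 2
  ring

lemma Gc_mid {s : ℝ} (hs : |s| ≤ Th) : Gc s = Complex.exp (s * Complex.I) := by
  unfold Gc clT
  rw [abs_le] at hs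
  rw [min_eq_left hs.2, max_eq_right hs.1, max_eq_right (abs_le.2 hs)]
  have : hh - Th = ell := by unfold hh; ring
  rw [this, B_ell, mul_one]

lemma Gc_continuousOn : ContinuousOn Gc (Icc (-hh) hh) := by
  unfold Gc
  apply ContinuousOn.mul
  · have : Continuous fun s : ℝ => Complex.exp (clT s * Complex.I) := by unfold clT; fun_prop
    exact this.continuousOn
  · have h1 : Continuous fun s : ℝ => hh - max |s| Th := by fun_prop
    exact B_continuousOn.comp h1.continuousOn fun s hs => arg_mem (abs_le.2 hs)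

lemma norm_exp_I (x : ℝ) : ‖Complex.exp (x * Complex.I)‖ = 1 := Complex.norm_exp_ofReal_mul_I x

lemma US_Gc : US Gc (-hh) hh := by
  have e1 : hh - ell = Th := by unfold hh; ring
  have h1 : US Gc Th hh := by
    have := (US_B.comp_sub hh).const_mul _ (norm_exp_I Th)
    rw [e1, sub_zero] at this
    exact this.congr fun s hs => Gc_right hs.1
  have h2 : US Gc (-Th) Th :=
    (US_circle (-Th) Th).congr fun s hs => Gc_mid (abs_le.2 hs)
  have h3 : US Gc (-hh) (-Th) := by
    have := (US_B.comp_add hh).const_mul _ (norm_exp_I (-Th))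
    have e2 : ell - hh = -Th := by unfold hh; ring
    rw [e2, zero_sub] at this
    refine this.congr fun s hs => ?_
    rw [Gc_left hs.2]
    push_cast
    rfl
  exact (h3.concat h2).concat h1

/-- the periodic curve, of unit speed -/
noncomputable def Gp (s : ℝ) : ℂ := Gc (2 * hh * Int.fract (s / (2 * hh)) - hh)

lemma Gc_hh : Gc hh = 0 := by
  rw [Gc_right (by unfold hh; linarith [ell_pos]), sub_self, B_zero, mul_zero]

lemma Gc_neg_hh : Gc (-hh) = 0 := by
  rw [Gc_left (by unfold hh; linarith [ell_pos]), add_neg_cancel, B_zero, mul_zero]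

lemma Gp_eq (k : ℤ) {s : ℝ} (h1 : k * (2 * hh) ≤ s) (h2 : s ≤ (k + 1) * (2 * hh)) :
    Gp s = Gc (s - k * (2 * hh) - hh) := by
  have hp : 0 < 2 * hh := by linarith [hh_pos]
  have hh0 : hh ≠ 0 := hh_pos.ne'
  rcases h2.eq_or_lt with h | h
  · unfold Gp
    have e : s / (2 * hh) = ((k + 1 : ℤ) : ℝ) := by rw [h]; push_cast; field_simp
    rw [e, Int.fract_intCast, h, mul_zero, zero_sub, Gc_neg_hh]
    have e2 : ((k : ℝ) + 1) * (2 * hh) - k * (2 * hh) - hh = hh := by ring
    rw [e2, Gc_hh]
  · unfold Gp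
    have hfl : ⌊s / (2 * hh)⌋ = k := by
      rw [Int.floor_eq_iff]
      constructor
      · rw [le_div_iff₀ hp]; exact h1
      · rw [div_lt_iff₀ hp]; exact h
    congr 1
    have : Int.fract (s / (2 * hh)) = s / (2 * hh) - k := by
      rw [← hfl]; rfl
    rw [this]
    field_simp

lemma US_Gp_int (m : ℤ) (n : ℕ) : US Gp (m * (2 * hh)) ((m + n) * (2 * hh)) := by
  induction n with
  | zero =>
    intro x y hx hxy hy
    have : x = y := by
      push_cast at hy
      linarith
    subst this
    rw [Icc_self, eVariationOn.subsingleton _ subsingleton_singleton]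
    simp
  | succ n ih =>
    refine ih.concat ?_
    have h1 := US_Gc.comp_add (-((m + n : ℤ) * (2 * hh)) - hh)
    have e1 : -hh - (-((m + n : ℤ) * (2 * hh)) - hh) = ((m : ℝ) + n) * (2 * hh) := by
      push_cast; ring
    have e2 : hh - (-((m + n : ℤ) * (2 * hh)) - hh) = ((m : ℝ) + (n + 1 : ℕ)) * (2 * hh) := by
      push_cast; ring
    rw [e1, e2] at h1
    refine h1.congr fun s hs => ?_
    rw [Gp_eq (m + n) (by push_cast; exact hs.1) (by
      refine hs.2.trans (le_of_eq ?_)
      push_cast; ring)]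
    congr 1
    ring

lemma US_Gp (a b : ℝ) : US Gp a b := by
  intro x y _ hxy _
  have hp : 0 < 2 * hh := by linarith [hh_pos]
  obtain ⟨m, hm⟩ : ∃ m : ℤ, m * (2 * hh) ≤ x := ⟨⌊x / (2 * hh)⌋, by
    rw [← le_div_iff₀ hp]; exact Int.floor_le _⟩
  obtain ⟨n, hn⟩ : ∃ n : ℕ, y ≤ (m + n) * (2 * hh) := by
    obtain ⟨n, hn⟩ := exists_nat_ge (y / (2 * hh) - m)
    refine ⟨n, ?_⟩
    rw [← div_le_iff₀ hp]
    linarith
  exact US_Gp_int m n x y hm hxy hn

/-- the curve -/
noncomputable def gam (t : ℝ) : ℂ := Gc (2 * hh * (Int.fract t - 1 / 2))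

lemma gam_eq (t : ℝ) : gam t = Gp (2 * hh * t) := by
  unfold gam Gp
  have hp : 0 < 2 * hh := by linarith [hh_pos]
  rw [mul_div_cancel_left₀ _ hp.ne']
  congr 1
  ring

lemma gam_speed (a b : ℝ) (hab : a ≤ b) :
    eVariationOn gam (Icc a b) = ENNReal.ofReal (2 * hh * (b - a)) := by
  have hp : 0 < 2 * hh := by linarith [hh_pos]
  have h1 := eVariationOn.comp_eq_of_monotoneOn Gp (t := Icc a b) (fun t => 2 * hh * t)
    (fun u _ v _ huv => by simp only; gcongr)
  have h2 : (fun t : ℝ => 2 * hh * t) '' Icc a b = Icc (2 * hh * a) (2 * hh * b) := by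
    rw [Set.image_mul_left_Icc' hp]
  rw [h2] at h1
  have h3 := US_Gp (2 * hh * a) (2 * hh * b) (2 * hh * a) (2 * hh * b) le_rfl (by gcongr) le_rfl
  rw [← h1] at h3
  have h4 : (Gp ∘ fun t => 2 * hh * t) = gam := by
    funext t; exact (gam_eq t).symm
  rw [h4] at h3
  rw [h3]
  congr 1; ring

lemma gam_continuous : Continuous gam := by
  have h1 : ContinuousOn (fun τ : ℝ => Gc (2 * hh * (τ - 1 / 2))) (Icc 0 1) := by
    have h2 : Continuous fun τ : ℝ => 2 * hh * (τ - 1 / 2) := by fun_prop
    refine Gc_continuousOn.comp h2.continuousOn fun τ hτ => ?_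
    have := hh_pos
    constructor <;> nlinarith [hτ.1, hτ.2]
  have := ContinuousOn.comp_fract'' h1 (by
    have e1 : 2 * hh * (0 - 1 / 2) = -hh := by ring
    have e2 : 2 * hh * (1 - 1 / 2) = hh := by ring
    rw [e1, e2, Gc_hh, Gc_neg_hh])
  exact this

lemma gam_periodic : Function.Periodic gam 1 := by
  intro t
  unfold gam
  rw [Int.fract_add_one]

lemma norm_Gc {s : ℝ} (hs : |s| ≤ hh) : ‖Gc s‖ = (V.symm (hh - max |s| Th)) ^ 3 := by
  unfold Gc
  rw [norm_mul, norm_exp_I, one_mul]
  unfold B
  exact norm_A (Vsymm_mem (arg_mem hs).1 (arg_mem hs).2).1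

lemma Gc_injOn : InjOn Gc (Ico (-hh) hh) := by
  intro s hs t ht hst
  have hs' : |s| ≤ hh := abs_le.2 ⟨hs.1, hs.2.le⟩
  have ht' : |t| ≤ hh := abs_le.2 ⟨ht.1, ht.2.le⟩
  have h1 := congrArg norm hst
  rw [norm_Gc hs', norm_Gc ht'] at h1
  have h3 : V.symm (hh - max |s| Th) = V.symm (hh - max |t| Th) := by
    refine (pow_left_inj₀ ?_ ?_ (by norm_num : (3 : ℕ) ≠ 0)).1 h1
    · exact (Vsymm_mem (arg_mem hs').1 (arg_mem hs').2).1
    · exact (Vsymm_mem (arg_mem ht').1 (arg_mem ht').2).1
  have h4 : max |s| Th = max |t| Th := by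
    have := V.symm.injective h3
    linarith
  rcases le_or_gt |s| Th with h5 | h5
  · have h6 : |t| ≤ Th := by
      rw [max_eq_right h5] at h4
      rw [h4]; exact le_max_left _ _
    rw [Gc_mid h5, Gc_mid h6, Complex.exp_eq_exp_iff_exists_int] at hst
    obtain ⟨n, hn⟩ := hst
    have h7 : s = t + n * (2 * Real.pi) := by
      have := congrArg Complex.im hn
      simpa using this
    have h8 : |s - t| < 2 * Real.pi := by
      have h9 : |s - t| ≤ Th + Th := (abs_sub _ _).trans (add_le_add h5 h6)
      have : Th + Th < 2 * Real.pi := by unfold Th; linarith [Real.pi_pos]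
      linarith
    have h9 : s - t = n * (2 * Real.pi) := by linarith
    rw [h9, abs_mul, abs_of_pos Real.two_pi_pos] at h8
    have h10 : |(n : ℝ)| < 1 := by
      by_contra hc
      push Not at hc
      nlinarith [Real.two_pi_pos]
    have h11 : n = 0 := by
      have : |n| < 1 := by exact_mod_cast h10
      exact Int.abs_lt_one_iff.1 this
    rw [h11] at h7
    simpa using h7
  · rw [max_eq_left h5.le] at h4
    have h6 : |s| = |t| := by
      rcases le_total |t| Th with h | h
      · rw [max_eq_right h] at h4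
        linarith
      · rwa [max_eq_left h] at h4
    rcases abs_eq_abs.1 h6 with h7 | h7
    · exact h7
    · exfalso
      have hlt : |s| < hh := by
        rcases abs_cases s with ⟨h8, _⟩ | ⟨h8, _⟩
        · rw [h8]; exact hs.2
        · rw [h8, h7, neg_neg]; exact ht.2
      -- reduce to a positive argument
      have key : ∀ u : ℝ, Th < u → u < hh → Gc u ≠ Gc (-u) := by
        intro u hu1 hu2 heq
        rw [Gc_right hu1.le, Gc_left (by linarith)] at heq
        have hB : B (hh - u) ≠ 0 := by
          intro h0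
          have h10 := congrArg norm h0
          have hm := Vsymm_mem (s := hh - u) (by linarith) (by unfold hh; linarith)
          unfold B at h10
          rw [norm_A hm.1, norm_zero] at h10
          have h11 : V.symm (hh - u) = 0 := by
            simpa using h10
          have h12 : hh - u = 0 := by
            have := congrArg V h11
            rwa [V.apply_symm_apply, V_zero] at this
          linarith
        have e1 : hh + -u = hh - u := by ring
        rw [e1] at heq
        have h13 := mul_right_cancel₀ hB heq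
        have h14 : (-Th : ℂ) * Complex.I = ((-Th : ℝ) : ℂ) * Complex.I := by push_cast; rfl
        rw [h14, Complex.exp_eq_exp_iff_exists_int] at h13
        obtain ⟨n, hn⟩ := h13
        have h15 : Th = -Th + n * (2 * Real.pi) := by
          have := congrArg Complex.im hn
          simpa using this
        have h16 : (3 : ℝ) = 4 * n := by
          unfold Th at h15
          have hpi := Real.pi_pos
          have : Real.pi * (3 - 4 * n) = 0 := by linarith
          rcases mul_eq_zero.1 this with h | h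
          · exact absurd h hpi.ne'
          · linarith
        have h17 : (3 : ℤ) = 4 * n := by exact_mod_cast h16
        omega
      rcases abs_cases s with ⟨h8, _⟩ | ⟨h8, _⟩
      · rw [h8] at h5 hlt
        have ht2 : t = -s := by linarith
        rw [ht2] at hst
        exact key s h5 hlt hst
      · rw [h8] at h5 hlt
        have ht2 : t = -s := by linarith
        have h9 := key (-s) h5 hlt
        rw [neg_neg, ← ht2] at h9
        exact h9 hst.symm

lemma gam_injOn : InjOn gam (Ico 0 1) := by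
  intro s hs t ht hst
  unfold gam at hst
  rw [Int.fract_eq_self.2 hs, Int.fract_eq_self.2 ht] at hst
  have hp := hh_pos
  have h1 := Gc_injOn (x₁ := 2 * hh * (s - 1 / 2)) (x₂ := 2 * hh * (t - 1 / 2))
    ⟨by nlinarith [hs.1], by nlinarith [hs.2]⟩ ⟨by nlinarith [ht.1], by nlinarith [ht.2]⟩ hst
  have h2 : 2 * hh ≠ 0 := by positivity
  have h3 := mul_left_cancel₀ h2 h1
  linarith

lemma gam_range : range gam = Gc '' Icc (-hh) hh := by
  have hp := hh_pos
  ext z
  constructor
  · rintro ⟨t, rfl⟩
    refine ⟨2 * hh * (Int.fract t - 1 / 2), ?_, rfl⟩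
    have h1 := Int.fract_nonneg t
    have h2 := Int.fract_lt_one t
    constructor <;> nlinarith
  · rintro ⟨s, hs, rfl⟩
    rcases hs.2.eq_or_lt with h | h
    · refine ⟨0, ?_⟩
      unfold gam
      rw [Int.fract_zero, h, Gc_hh]
      have : 2 * hh * (0 - 1 / 2) = -hh := by ring
      rw [this, Gc_neg_hh]
    · refine ⟨s / (2 * hh) + 1 / 2, ?_⟩
      unfold gam
      have h1 : Int.fract (s / (2 * hh) + 1 / 2) = s / (2 * hh) + 1 / 2 := by
        rw [Int.fract_eq_self]
        have e : s / (2 * hh) + 1 / 2 = (s + hh) / (2 * hh) := by field_simp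
        rw [e]
        constructor
        · apply div_nonneg <;> linarith [hs.1]
        · rw [div_lt_one (by linarith)]; linarith
      rw [h1]
      congr 1
      field_simp
      ring

/-- the involution of the curve -/
lemma gam_neg (t : ℝ) : ∃ s ∈ Icc (-hh) hh, gam t = Gc s ∧ gam (-t) = Gc (-s) := by
  have hp := hh_pos
  by_cases h : Int.fract t = 0
  · refine ⟨-hh, ⟨le_rfl, by linarith⟩, ?_, ?_⟩
    · unfold gam; rw [h]; congr 1; ring
    · unfold gam
      have : Int.fract (-t) = 0 := by
        rw [Int.fract_neg_eq_zero]; exact h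
      rw [this, neg_neg, Gc_hh]
      have : 2 * hh * (0 - 1 / 2) = -hh := by ring
      rw [this, Gc_neg_hh]
  · refine ⟨2 * hh * (Int.fract t - 1 / 2), ?_, rfl, ?_⟩
    · have h1 := Int.fract_nonneg t
      have h2 := Int.fract_lt_one t
      constructor <;> nlinarith
    · unfold gam
      rw [Int.fract_neg h]
      congr 1; ring

end Pool.Agent.H813R2.Seam
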