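import Pool.Agent.H813R2.Seam2

/-!
The domain `D`, the power map and the map `F`.
-/

set_option autoImplicit false
open Set Filter Topology
open scoped ENNReal NNReal

namespace Pool.Agent.H813R2.Seam

noncomputable def kap (ρ : ℝ) : ℝ := (1 / 2) * Real.sin (Real.pi * ρ ^ (-(2 / 3) : ℝ))

lemma abs_kap (ρ : ℝ) : |kap ρ| ≤ 1 / 2 := by
  unfold kap
  rw [abs_mul, abs_of_pos (by norm_num : (0 : ℝ) < 1 / 2)]
  have := Real.abs_sin_le_one (Real.pi * ρ ^ (-(2 / 3) : ℝ))
  linarith

lemma kap_cube {a : ℝ} (ha : 0 ≤ a) : kap (a ^ 3) = (1 / 2) * Real.sin (Real.pi / a ^ 2) := by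
  unfold kap
  have : (a ^ 3 : ℝ) ^ (-(2 / 3) : ℝ) = (a ^ 2)⁻¹ := by
    rw [← Real.rpow_natCast, ← Real.rpow_natCast, ← Real.rpow_mul ha, ← Real.rpow_neg ha]
    norm_num
  rw [this]
  rfl

lemma kap_one : kap 1 = 0 := by
  unfold kap
  rw [Real.one_rpow, mul_one, Real.sin_pi, mul_zero]

noncomputable def rotf (c : ℝ) (w : ℂ) : ℂ := w * Complex.exp ((c * kap ‖w‖ : ℝ) * Complex.I)

lemma norm_rotf (c : ℝ) (w : ℂ) : ‖rotf c w‖ = ‖w‖ := by
  unfold rotf
  rw [norm_mul, norm_exp_I, mul_one]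

lemma rotf_rotf (c d : ℝ) (h : c + d = 0) (w : ℂ) : rotf c (rotf d w) = w := by
  have h1 := norm_rotf d w
  unfold rotf at *
  rw [h1, mul_assoc, ← Complex.exp_add, ← add_mul, ← Complex.ofReal_add, ← add_mul, add_comm d c, h]
  simp

lemma rotf_continuous (c : ℝ) : Continuous (rotf c) := by
  rw [continuous_iff_continuousAt]
  intro w
  by_cases hw : w = 0
  · subst hw
    have h0 : rotf c 0 = 0 := by simp [rotf]
    rw [ContinuousAt, h0, tendsto_zero_iff_norm_tendsto_zero]
    simp_rw [norm_rotf]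
    exact tendsto_norm_zero
  · have h1 : 0 < ‖w‖ := norm_pos_iff.2 hw
    have h2 : ContinuousAt kap ‖w‖ := by
      unfold kap
      have : ContinuousAt (fun ρ : ℝ => ρ ^ (-(2 / 3) : ℝ)) ‖w‖ :=
        Real.continuousAt_rpow_const _ _ (Or.inl h1.ne')
      exact ((Real.continuous_sin.continuousAt).comp (this.const_mul _)).const_mul _
    have h3 : ContinuousAt (fun w : ℂ => kap ‖w‖) w := h2.comp continuous_norm.continuousAt
    unfold rotf
    refine continuousAt_id.mul ?_
    refine Complex.continuous_exp.continuousAt.comp ?_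
    exact (Complex.continuous_ofReal.continuousAt.comp (h3.const_mul c)).mul continuousAt_const

/-- the rotation shear -/
noncomputable def rot : ℂ ≃ₜ ℂ where
  toFun := rotf 1
  invFun := rotf (-1)
  left_inv w := rotf_rotf _ _ (by norm_num) w
  right_inv w := rotf_rotf _ _ (by norm_num) w
  continuous_toFun := rotf_continuous 1
  continuous_invFun := rotf_continuous (-1)

lemma rot_apply (w : ℂ) : rot w = w * Complex.exp ((kap ‖w‖ : ℝ) * Complex.I) := by
  show rotf 1 w = _
  unfold rotf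
  rw [one_mul]

lemma norm_rot (w : ℂ) : ‖rot w‖ = ‖w‖ := norm_rotf 1 w

/-- the sector -/
def S : Set ℂ := {w | ‖w‖ < 1 ∧ -|w.im| < w.re}
def Sc : Set ℂ := {w | ‖w‖ ≤ 1 ∧ -|w.im| ≤ w.re}

lemma S_open : IsOpen S := by
  have h1 : Continuous fun w : ℂ => ‖w‖ := continuous_norm
  have h2 : Continuous fun w : ℂ => -|w.im| := (continuous_abs.comp Complex.continuous_im).neg
  exact (isOpen_lt h1 continuous_const).inter (isOpen_lt h2 Complex.continuous_re)

lemma Sc_closed : IsClosed Sc := by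
  have h1 : Continuous fun w : ℂ => ‖w‖ := continuous_norm
  have h2 : Continuous fun w : ℂ => -|w.im| := (continuous_abs.comp Complex.continuous_im).neg
  exact (isClosed_le h1 continuous_const).inter (isClosed_le h2 Complex.continuous_re)

lemma S_sub : S ⊆ Sc := fun _ hw => ⟨hw.1.le, hw.2.le⟩

lemma mix_mem {w : ℂ} (hw : w ∈ Sc) {t : ℝ} (ht0 : 0 < t) (ht1 : t ≤ 1) :
    ((1 - t : ℝ) : ℂ) * w + ((t / 2 : ℝ) : ℂ) ∈ S := by
  constructor
  · calc _ ≤ ‖((1 - t : ℝ) : ℂ) * w‖ + ‖((t / 2 : ℝ) : ℂ)‖ := norm_add_le _ _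
      _ = (1 - t) * ‖w‖ + t / 2 := by
        rw [norm_mul, Complex.norm_real, Complex.norm_real, Real.norm_of_nonneg (by linarith),
          Real.norm_of_nonneg (by linarith)]
      _ ≤ (1 - t) * 1 + t / 2 := by
        have := mul_le_mul_of_nonneg_left hw.1 (by linarith : (0 : ℝ) ≤ 1 - t)
        linarith
      _ < 1 := by linarith
  · have h1 : (((1 - t : ℝ) : ℂ) * w + ((t / 2 : ℝ) : ℂ)).im = (1 - t) * w.im := by simp
    have h2 : (((1 - t : ℝ) : ℂ) * w + ((t / 2 : ℝ) : ℂ)).re = (1 - t) * w.re + t / 2 := by simp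
    rw [h1, h2, abs_mul, abs_of_nonneg (by linarith : 0 ≤ 1 - t)]
    have := mul_le_mul_of_nonneg_left hw.2 (by linarith : (0 : ℝ) ≤ 1 - t)
    linarith

lemma closure_S : closure S = Sc := by
  apply Subset.antisymm (closure_minimal S_sub Sc_closed)
  intro w hw
  have hc : Continuous fun t : ℝ => ((1 - t : ℝ) : ℂ) * w + ((t / 2 : ℝ) : ℂ) := by fun_prop
  have h1 : Tendsto (fun t : ℝ => ((1 - t : ℝ) : ℂ) * w + ((t / 2 : ℝ) : ℂ)) (𝓝[>] 0) (𝓝 w) := by
    have := hc.tendsto 0
    simp only [sub_zero, Complex.ofReal_one, one_mul, zero_div, Complex.ofReal_zero, add_zero] at this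
    exact this.mono_left nhdsWithin_le_nhds
  refine mem_closure_of_tendsto h1 ?_
  filter_upwards [Ioc_mem_nhdsGT (zero_lt_one (α := ℝ))] with t ht
  exact mix_mem hw ht.1 ht.2

lemma half_mem : ((1 / 2 : ℝ) : ℂ) ∈ S := by
  constructor
  · rw [Complex.norm_real]; norm_num
  · simp

lemma S_connected : IsConnected S := by
  have h : StarConvex ℝ (((1 / 2 : ℝ) : ℂ)) S := by
    rw [starConvex_iff_forall_pos half_mem]
    intro w hw a b ha hb hab
    have := mix_mem (S_sub hw) ha (by linarith)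
    have e : a • (((1 / 2 : ℝ) : ℂ)) + b • w = ((1 - a : ℝ) : ℂ) * w + ((a / 2 : ℝ) : ℂ) := by
      have hb' : b = 1 - a := by linarith
      rw [hb', Complex.real_smul, Complex.real_smul]
      push_cast
      ring
    rw [e]
    exact this
  exact (h.isPathConnected half_mem).isConnected

/-- the domain -/
def D : Set ℂ := rot '' S

lemma D_open : IsOpen D := rot.isOpenMap _ S_open
lemma D_connected : IsConnected D := S_connected.image _ rot.continuous.continuousOn
lemma closure_D : closure D = rot '' Sc := by unfold D; rw [← rot.image_closure, closure_S]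
lemma frontier_D : frontier D = rot '' (Sc \ S) := by
  rw [frontier, closure_D, D_open.interior_eq]
  unfold D
  rw [← image_sdiff rot.injective]
lemma D_bounded : Bornology.IsBounded D := by
  refine (Metric.isBounded_closedBall (x := (0 : ℂ)) (r := 1)).subset ?_
  rintro _ ⟨w, hw, rfl⟩
  rw [mem_closedBall_zero_iff, norm_rot]
  exact hw.1.le

/-! ### arguments -/

lemma cos_add_sin (θ : ℝ) : Real.cos θ + Real.sin θ = Real.sqrt 2 * Real.cos (θ - Real.pi / 4) := by
  rw [Real.cos_sub, Real.cos_pi_div_four, Real.sin_pi_div_four]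
  have : Real.sqrt 2 * Real.sqrt 2 = 2 := Real.mul_self_sqrt (by norm_num)
  linear_combination (-(Real.cos θ + Real.sin θ) / 2) * this

lemma abs_arg_of {w : ℂ} (hw : w ≠ 0) (h : -|w.im| ≤ w.re) : |Complex.arg w| ≤ Th := by
  by_contra hc
  push Not at hc
  have hn : 0 < ‖w‖ := norm_pos_iff.2 hw
  have h1 : w.re = ‖w‖ * Real.cos |Complex.arg w| := by
    rw [Real.cos_abs, Complex.norm_mul_cos_arg]
  have h2 : |w.im| = ‖w‖ * Real.sin |Complex.arg w| := by
    rw [← Complex.norm_mul_sin_arg, abs_mul, abs_of_pos hn]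
    congr 1
    have h3 : 0 ≤ Real.sin |Complex.arg w| :=
      Real.sin_nonneg_of_nonneg_of_le_pi (abs_nonneg _) (Complex.abs_arg_le_pi w)
    rcases abs_cases (Complex.arg w) with ⟨h4, _⟩ | ⟨h4, _⟩
    · rw [h4] at h3 ⊢; exact abs_of_nonneg h3
    · rw [h4] at h3 ⊢
      rw [Real.sin_neg] at h3 ⊢
      rw [abs_of_nonpos (by linarith)]
  have h3 : Real.cos |Complex.arg w| + Real.sin |Complex.arg w| < 0 := by
    rw [cos_add_sin]
    apply mul_neg_of_pos_of_neg (by positivity)
    apply Real.cos_neg_of_pi_div_two_lt_of_lt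
    · unfold Th at hc; linarith
    · have := Complex.abs_arg_le_pi w; linarith [Real.pi_pos]
  nlinarith

lemma abs_arg_lt {w : ℂ} (hw : w ≠ 0) (h : -|w.im| < w.re) : |Complex.arg w| < Th := by
  refine lt_of_le_of_ne (abs_arg_of hw h.le) fun heq => ?_
  have hn : 0 < ‖w‖ := norm_pos_iff.2 hw
  have h1 : w.re = ‖w‖ * Real.cos |Complex.arg w| := by
    rw [Real.cos_abs, Complex.norm_mul_cos_arg]
  have h2 : |w.im| ≥ 0 := abs_nonneg _
  have h3 : |w.im| = ‖w‖ * |Real.sin (Complex.arg w)| := by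
    rw [← Complex.norm_mul_sin_arg, abs_mul, abs_of_pos hn]
  have h4 : |Real.sin (Complex.arg w)| = Real.sin Th := by
    have h5 : 0 ≤ Real.sin Th := by
      unfold Th
      apply Real.sin_nonneg_of_nonneg_of_le_pi <;> linarith [Real.pi_pos]
    rcases abs_cases (Complex.arg w) with ⟨h6, _⟩ | ⟨h6, _⟩
    · rw [h6] at heq; rw [heq]; exact abs_of_nonneg h5
    · rw [h6] at heq
      have : Complex.arg w = -Th := by linarith
      rw [this, Real.sin_neg, abs_neg]
      exact abs_of_nonneg h5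
  rw [heq] at h1
  have h5 : Real.cos Th + Real.sin Th = 0 := by
    rw [cos_add_sin]
    have : Th - Real.pi / 4 = Real.pi / 2 := by unfold Th; ring
    rw [this, Real.cos_pi_div_two, mul_zero]
  rw [h1, h3, h4] at h
  nlinarith

lemma exp_mem_Sc {s : ℝ} (hs : |s| ≤ Th) : Complex.exp (s * Complex.I) ∈ Sc := by
  refine ⟨(norm_exp_I s).le, ?_⟩
  rw [Complex.exp_ofReal_mul_I_im, Complex.exp_ofReal_mul_I_re]
  have h1 : |Real.sin s| = Real.sin |s| := by
    have h3 : 0 ≤ Real.sin |s| := Real.sin_nonneg_of_nonneg_of_le_pi (abs_nonneg _)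
      (hs.trans (by unfold Th; linarith [Real.pi_pos]))
    rcases abs_cases s with ⟨h4, _⟩ | ⟨h4, _⟩
    · rw [h4] at h3 ⊢; exact abs_of_nonneg h3
    · rw [h4] at h3 ⊢
      rw [Real.sin_neg] at h3 ⊢
      rw [abs_of_nonpos (by linarith)]
  have h2 : 0 ≤ Real.cos |s| + Real.sin |s| := by
    rw [cos_add_sin]
    apply mul_nonneg (Real.sqrt_nonneg _)
    apply Real.cos_nonneg_of_neg_pi_div_two_le_of_le
    · linarith [abs_nonneg s, Real.pi_pos]
    · unfold Th at hs; linarith
  rw [h1, ← Real.cos_abs s]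
  linarith

/-! ### the frontier is the curve -/

lemma A_eq {a : ℝ} (ha : 0 ≤ a) : A a = (a ^ 3 : ℝ) * Complex.exp ((kap (a ^ 3) : ℝ) * Complex.I) := by
  unfold A
  rw [kap_cube ha]

lemma rot_mul {a : ℝ} (ha : 0 ≤ a) (θ : ℝ) :
    rot ((a ^ 3 : ℝ) * Complex.exp (θ * Complex.I)) = Complex.exp (θ * Complex.I) * A a := by
  rw [rot_apply, norm_mul, norm_exp_I, mul_one, Complex.norm_real,
    Real.norm_of_nonneg (by positivity), A_eq ha]
  ring

lemma cos_Th : Real.cos Th = -(Real.sqrt 2 / 2) := by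
  have : Th = Real.pi - Real.pi / 4 := by unfold Th; ring
  rw [this, Real.cos_pi_sub, Real.cos_pi_div_four]

lemma sin_Th : Real.sin Th = Real.sqrt 2 / 2 := by
  have : Th = Real.pi - Real.pi / 4 := by unfold Th; ring
  rw [this, Real.sin_pi_sub, Real.sin_pi_div_four]

lemma ray_mem {ρ : ℝ} (h0 : 0 ≤ ρ) (h1 : ρ ≤ 1) {θ : ℝ} (hθ : θ = Th ∨ θ = -Th) :
    (ρ : ℂ) * Complex.exp (θ * Complex.I) ∈ Sc \ S := by
  have hre : ((ρ : ℂ) * Complex.exp (θ * Complex.I)).re = -(ρ * (Real.sqrt 2 / 2)) := by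
    rw [Complex.re_ofReal_mul, Complex.exp_ofReal_mul_I_re]
    rcases hθ with h | h
    · rw [h, cos_Th]; ring
    · rw [h, Real.cos_neg, cos_Th]; ring
  have him : |((ρ : ℂ) * Complex.exp (θ * Complex.I)).im| = ρ * (Real.sqrt 2 / 2) := by
    rw [Complex.im_ofReal_mul, Complex.exp_ofReal_mul_I_im]
    rcases hθ with h | h
    · rw [h, sin_Th]; exact abs_of_nonneg (by positivity)
    · rw [h, Real.sin_neg, sin_Th, mul_neg, abs_neg]; exact abs_of_nonneg (by positivity)
  refine ⟨⟨?_, ?_⟩, fun h => ?_⟩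
  · rw [norm_mul, norm_exp_I, mul_one, Complex.norm_real, Real.norm_of_nonneg h0]
    exact h1
  · rw [hre, him]
  · have := h.2
    rw [hre, him] at this
    exact lt_irrefl _ this

lemma frontier_eq : frontier D = range gam := by
  rw [frontier_D, gam_range]
  apply Subset.antisymm
  · rintro _ ⟨w, ⟨hw1, hw2⟩, rfl⟩
    by_cases hn : ‖w‖ = 1
    · have hw0 : w ≠ 0 := by
        intro h; rw [h, norm_zero] at hn; norm_num at hn
      have harg := abs_arg_of hw0 hw1.2
      refine ⟨Complex.arg w, ?_, ?_⟩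
      · have h2 : Th ≤ hh := by unfold hh; linarith [ell_pos]
        exact abs_le.1 (harg.trans h2)
      · rw [Gc_mid harg, rot_apply, hn, kap_one]
        have := Complex.norm_mul_exp_arg_mul_I w
        rw [hn, Complex.ofReal_one, one_mul] at this
        rw [this]
        simp
    · have hn' : ‖w‖ < 1 := lt_of_le_of_ne hw1.1 hn
      have hre : w.re = -|w.im| := by
        apply le_antisymm _ hw1.2
        by_contra h
        push Not at h
        exact hw2 ⟨hn', h⟩
      -- choose the cube root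
      obtain ⟨a, ha0, ha⟩ : ∃ a : ℝ, 0 ≤ a ∧ a ^ 3 = ‖w‖ := by
        refine ⟨‖w‖ ^ ((1 : ℝ) / 3), by positivity, ?_⟩
        rw [← Real.rpow_natCast, ← Real.rpow_mul (norm_nonneg _)]
        norm_num
      have ha1 : a ≤ 1 := by
        by_contra hc
        push Not at hc
        have := one_lt_pow₀ hc (by norm_num : (3 : ℕ) ≠ 0)
        rw [ha] at this
        linarith
      have hVa : 0 ≤ V a ∧ V a ≤ ell := by
        constructor
        · rw [← V_zero]; exact V.monotone ha0
        · exact V.monotone ha1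
      have hBV : B (V a) = A a := by unfold B; rw [V.symm_apply_apply]
      have hsq : ‖w‖ = Real.sqrt 2 * |w.im| := by
        rw [Complex.norm_eq_sqrt_sq_add_sq, hre]
        have : (-|w.im|) ^ 2 + w.im ^ 2 = 2 * |w.im| ^ 2 := by
          rw [neg_sq, sq_abs]; ring
        rw [this, Real.sqrt_mul (by norm_num), Real.sqrt_sq (abs_nonneg _)]
      have h2 : Real.sqrt 2 * Real.sqrt 2 = 2 := Real.mul_self_sqrt (by norm_num)
      rcases le_total 0 w.im with him | him
      · refine ⟨hh - V a, ⟨by unfold hh; linarith [Th_pos], by linarith⟩, ?_⟩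
        rw [Gc_right (by unfold hh; linarith), sub_sub_cancel, hBV, ← rot_mul ha0, ha]
        congr 1
        apply Complex.ext
        · rw [Complex.re_ofReal_mul, Complex.exp_ofReal_mul_I_re, cos_Th, hsq, hre]
          linear_combination (-|w.im| / 2) * h2
        · rw [Complex.im_ofReal_mul, Complex.exp_ofReal_mul_I_im, sin_Th, hsq, abs_of_nonneg him]
          linear_combination (w.im / 2) * h2
      · refine ⟨-(hh - V a), ⟨by linarith, by unfold hh; linarith [Th_pos]⟩, ?_⟩
        have e3 : (-Th : ℂ) * Complex.I = ((-Th : ℝ) : ℂ) * Complex.I := by push_cast; rfl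
        rw [Gc_left (by unfold hh; linarith), show hh + -(hh - V a) = V a by ring, hBV, e3,
          ← rot_mul ha0, ha]
        congr 1
        apply Complex.ext
        · rw [Complex.re_ofReal_mul, Complex.exp_ofReal_mul_I_re, Real.cos_neg, cos_Th, hsq, hre]
          linear_combination (-|w.im| / 2) * h2
        · rw [Complex.im_ofReal_mul, Complex.exp_ofReal_mul_I_im, Real.sin_neg, sin_Th, hsq,
            abs_of_nonpos him]
          linear_combination (w.im / 2) * h2
  · rintro _ ⟨s, hs, rfl⟩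
    have hs' : |s| ≤ hh := abs_le.2 hs
    rcases le_or_gt |s| Th with h | h
    · refine ⟨Complex.exp (s * Complex.I), ⟨exp_mem_Sc h, fun h2 => ?_⟩, ?_⟩
      · have := h2.1
        rw [norm_exp_I] at this
        exact lt_irrefl _ this
      · rw [Gc_mid h, rot_apply, norm_exp_I, kap_one]
        simp
    · have hm := arg_mem hs'
      rw [max_eq_left h.le] at hm
      have hv := Vsymm_mem hm.1 hm.2
      have hv3 : (V.symm (hh - |s|)) ^ 3 ≤ 1 := pow_le_one₀ hv.1 hv.2
      rcases abs_cases s with ⟨h4, _⟩ | ⟨h4, _⟩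
      · rw [h4] at h hv hv3
        refine ⟨((V.symm (hh - s)) ^ 3 : ℝ) * Complex.exp (Th * Complex.I), ?_, ?_⟩
        · exact ray_mem (pow_nonneg hv.1 3) hv3 (Or.inl rfl)
        · rw [rot_mul hv.1, Gc_right h.le]; rfl
      · rw [h4] at h hv hv3
        have e3 : (-Th : ℂ) * Complex.I = ((-Th : ℝ) : ℂ) * Complex.I := by push_cast; rfl
        have e4 : hh - -s = hh + s := by ring
        rw [e4] at hv hv3
        refine ⟨((V.symm (hh + s)) ^ 3 : ℝ) * Complex.exp ((-Th : ℝ) * Complex.I), ?_, ?_⟩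
        · exact ray_mem (pow_nonneg hv.1 3) hv3 (Or.inr rfl)
        · rw [rot_mul hv.1, Gc_left (by linarith), e3]; rfl

end Pool.Agent.H813R2.Seam
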