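import Pool.Agent.H813R2.Seam3

/-!
The power map `W ↦ W ^ (2/3)` and the map `F`.
-/

set_option autoImplicit false
open Set Filter Topology
open scoped ENNReal NNReal

namespace Pool.Agent.H813R2.Seam

noncomputable def pw (W : ℂ) : ℂ := W ^ ((2 / 3 : ℝ) : ℂ)

lemma pw_zero : pw 0 = 0 := by
  unfold pw
  rw [Complex.zero_cpow]
  norm_num

lemma pw_of_ne {W : ℂ} (hW : W ≠ 0) :
    pw W = ((‖W‖ ^ (2 / 3 : ℝ) : ℝ) : ℂ) * Complex.exp (((2 / 3) * Complex.arg W : ℝ) * Complex.I) := by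
  unfold pw
  rw [Complex.cpow_def_of_ne_zero hW]
  have h1 : Complex.log W = (Real.log ‖W‖ : ℝ) + (Complex.arg W : ℝ) * Complex.I := by
    apply Complex.ext <;> simp [Complex.log_re, Complex.log_im]
  rw [h1, add_mul, Complex.exp_add]
  congr 1
  · rw [Real.rpow_def_of_pos (norm_pos_iff.2 hW), Complex.ofReal_exp]
    push_cast; rfl
  · congr 1
    push_cast; ring

lemma norm_pw (W : ℂ) : ‖pw W‖ = ‖W‖ ^ (2 / 3 : ℝ) := by
  by_cases hW : W = 0
  · rw [hW, pw_zero, norm_zero, Real.zero_rpow (by norm_num)]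
  · rw [pw_of_ne hW, norm_mul, norm_exp_I, mul_one, Complex.norm_real,
      Real.norm_of_nonneg (by positivity)]

lemma norm_pw_le {W : ℂ} (h : ‖W‖ ≤ 1) : ‖pw W‖ ≤ 1 := by
  rw [norm_pw]; exact Real.rpow_le_one (norm_nonneg _) h (by norm_num)

lemma norm_pw_lt {W : ℂ} (h : ‖W‖ < 1) : ‖pw W‖ < 1 := by
  rw [norm_pw]; exact Real.rpow_lt_one (norm_nonneg _) h (by norm_num)

/-- polar form of the power map -/
lemma pw_polar {a : ℝ} (ha : 0 ≤ a) {ψ : ℝ} (h1 : -Real.pi < ψ) (h2 : ψ ≤ Real.pi) :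
    pw ((a ^ 3 : ℝ) * Complex.exp (ψ * Complex.I)) =
      ((a ^ 2 : ℝ) : ℂ) * Complex.exp (((2 / 3) * ψ : ℝ) * Complex.I) := by
  rcases ha.eq_or_lt with h0 | h0
  · rw [← h0]; simp [pw_zero]
  · have hne : ((a ^ 3 : ℝ) : ℂ) * Complex.exp (ψ * Complex.I) ≠ 0 :=
      mul_ne_zero (by exact_mod_cast (pow_pos h0 3).ne') (Complex.exp_ne_zero _)
    rw [pw_of_ne hne, norm_mul, norm_exp_I, mul_one, Complex.norm_real,
      Real.norm_of_nonneg (by positivity)]
    have h3 : Complex.arg (((a ^ 3 : ℝ) : ℂ) * Complex.exp (ψ * Complex.I)) = ψ := by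
      rw [Complex.arg_real_mul _ (pow_pos h0 3), Complex.arg_exp_mul_I, toIocMod_eq_self]
      constructor
      · linarith
      · linarith
    rw [h3]
    congr 2
    rw [← Real.rpow_natCast, ← Real.rpow_natCast, ← Real.rpow_mul ha]
    norm_num

lemma pw_injective : Function.Injective pw := by
  intro W W' h
  have hn : ‖W‖ = ‖W'‖ := by
    have := congrArg norm h
    rw [norm_pw, norm_pw] at this
    exact (Real.rpow_left_inj (norm_nonneg _) (norm_nonneg _) (by norm_num)).1 this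
  by_cases hW : W = 0
  · rw [hW, norm_zero] at hn
    rw [hW, norm_eq_zero.1 hn.symm]
  have hW' : W' ≠ 0 := by
    intro h0; rw [h0, norm_zero, norm_eq_zero] at hn; exact hW hn
  rw [pw_of_ne hW, pw_of_ne hW', hn] at h
  have hne : (((‖W'‖ ^ (2 / 3 : ℝ) : ℝ)) : ℂ) ≠ 0 := by
    have : 0 < ‖W'‖ ^ (2 / 3 : ℝ) := Real.rpow_pos_of_pos (norm_pos_iff.2 hW') _
    exact_mod_cast this.ne'
  have h1 := mul_left_cancel₀ hne h
  rw [Complex.exp_eq_exp_iff_exists_int] at h1
  obtain ⟨n, hn1⟩ := h1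
  have h2 : (2 / 3) * Complex.arg W = (2 / 3) * Complex.arg W' + n * (2 * Real.pi) := by
    have := congrArg Complex.im hn1
    simpa using this
  have h3 : n = 0 := by
    have h4 : |(n : ℝ)| < 1 := by
      have h5 := Complex.abs_arg_le_pi W
      have h6 := Complex.abs_arg_le_pi W'
      have h7 : |Complex.arg W - Complex.arg W'| ≤ 2 * Real.pi :=
        (abs_sub _ _).trans (by linarith)
      have h8 : (n : ℝ) * (2 * Real.pi) = (2 / 3) * (Complex.arg W - Complex.arg W') := by linarith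
      have h9 : |(n : ℝ)| * (2 * Real.pi) ≤ (2 / 3) * (2 * Real.pi) := by
        rw [← abs_of_pos Real.two_pi_pos, ← abs_mul, h8, abs_mul,
          abs_of_pos (by norm_num : (0 : ℝ) < 2 / 3), abs_of_pos Real.two_pi_pos]
        gcongr
      have := Real.two_pi_pos
      nlinarith
    have : |n| < 1 := by exact_mod_cast h4
    exact Int.abs_lt_one_iff.1 this
  rw [h3] at h2
  have h4 : Complex.arg W = Complex.arg W' := by
    have : ((0 : ℤ) : ℝ) = 0 := by norm_num
    rw [this] at h2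
    linarith
  exact Complex.ext_norm_arg hn h4

lemma arg_pw (W : ℂ) (hW : W ≠ 0) : Complex.arg (pw W) = (2 / 3) * Complex.arg W := by
  rw [pw_of_ne hW, Complex.arg_real_mul _ (Real.rpow_pos_of_pos (norm_pos_iff.2 hW) _),
    Complex.arg_exp_mul_I, toIocMod_eq_self]
  have h1 := Complex.neg_pi_lt_arg W
  have h2 := Complex.arg_le_pi W
  have := Real.pi_pos
  constructor
  · linarith
  · linarith

/-! ### description of the domain -/

lemma arg_rot {w : ℂ} (hw : w ∈ Sc) (hw0 : w ≠ 0) :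
    Complex.arg (rot w) = Complex.arg w + kap ‖w‖ := by
  have h1 := abs_arg_of hw0 hw.2
  have h2 := abs_kap ‖w‖
  have hn : 0 < ‖w‖ := norm_pos_iff.2 hw0
  have e : rot w = (‖w‖ : ℝ) * Complex.exp ((Complex.arg w + kap ‖w‖ : ℝ) * Complex.I) := by
    rw [rot_apply]
    conv_lhs => rw [← Complex.norm_mul_exp_arg_mul_I w]
    rw [norm_mul, norm_exp_I, mul_one, Complex.norm_real, Real.norm_of_nonneg hn.le, mul_assoc,
      ← Complex.exp_add]
    congr 2
    push_cast; ring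
  rw [e, Complex.arg_real_mul _ hn, Complex.arg_exp_mul_I, toIocMod_eq_self]
  rw [abs_le] at h1 h2
  have h3 : Real.pi > 3 := Real.pi_gt_three
  unfold Th at h1
  constructor
  · linarith [h1.1, h2.1]
  · linarith [h1.2, h2.2]

lemma abs_arg_rot {w : ℂ} (hw : w ∈ Sc) (hw0 : w ≠ 0) : |Complex.arg (rot w)| < Real.pi := by
  rw [arg_rot hw hw0]
  have h1 := abs_arg_of hw0 hw.2
  have h2 := abs_kap ‖w‖
  have h3 : Real.pi > 3 := Real.pi_gt_three
  calc _ ≤ Th + 1 / 2 := (abs_add_le _ _).trans (add_le_add h1 h2)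
    _ < Real.pi := by unfold Th; linarith

lemma rot_slit {w : ℂ} (hw : w ∈ Sc) (hw0 : w ≠ 0) : rot w ∈ Complex.slitPlane := by
  rw [Complex.mem_slitPlane_iff_arg]
  refine ⟨fun h => ?_, fun h => ?_⟩
  · have := abs_arg_rot hw hw0
    rw [h, abs_of_pos Real.pi_pos] at this
    exact lt_irrefl _ this
  · have := norm_rot w
    rw [h, norm_zero] at this
    exact hw0 (norm_eq_zero.1 this.symm)

lemma S_ne_zero {w : ℂ} (hw : w ∈ S) : w ≠ 0 := by
  rintro rfl
  have := hw.2
  simp at this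

lemma pw_continuousOn : ContinuousOn pw (closure D) := by
  rw [closure_D]
  rintro _ ⟨w, hw, rfl⟩
  apply ContinuousAt.continuousWithinAt
  by_cases hw0 : w = 0
  · rw [hw0]
    have : rot 0 = 0 := by rw [rot_apply, zero_mul]
    rw [this]
    exact Complex.continuousAt_cpow_const_of_re_pos (Or.inl (by simp)) (by norm_num)
  · exact continuousAt_cpow_const (rot_slit hw hw0)

lemma pw_differentiableOn : DifferentiableOn ℂ pw D := by
  rintro _ ⟨w, hw, rfl⟩
  have hs := rot_slit (S_sub hw) (S_ne_zero hw)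
  exact (differentiableAt_id.cpow_const hs).differentiableWithinAt

lemma re_nonneg_of_norm_one {W : ℂ} (hW : W ∈ closure D) (h : ‖pw W‖ = 1) : 0 ≤ (pw W).re := by
  rw [closure_D] at hW
  obtain ⟨w, hw, rfl⟩ := hW
  rw [norm_pw] at h
  have hn : ‖rot w‖ = 1 := by
    rcases lt_or_eq_of_le ((norm_rot w).le.trans hw.1) with h1 | h1
    · have := Real.rpow_lt_one (norm_nonneg (rot w)) h1 (by norm_num : (0 : ℝ) < 2 / 3)
      linarith
    · exact h1
  have hn' : ‖w‖ = 1 := by rw [← norm_rot]; exact hn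
  have hw0 : w ≠ 0 := by intro h0; rw [h0, norm_zero] at hn'; norm_num at hn'
  have hr0 : rot w ≠ 0 := by intro h0; rw [h0, norm_zero] at hn; norm_num at hn
  rw [pw_of_ne hr0, Complex.re_ofReal_mul, Complex.exp_ofReal_mul_I_re, arg_rot hw hw0, hn', kap_one,
    add_zero, hn, Real.one_rpow, one_mul]
  have h1 := abs_le.1 (abs_arg_of hw0 hw.2)
  unfold Th at h1
  apply Real.cos_nonneg_of_neg_pi_div_two_le_of_le
  · linarith [h1.1]
  · linarith [h1.2]

lemma pw_ne_neg {W W' : ℂ} (hW : W ∈ D) (hW' : W' ∈ D) : pw W ≠ -pw W' := by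
  obtain ⟨w, hw, rfl⟩ := hW
  obtain ⟨w', hw', rfl⟩ := hW'
  intro h
  have hw0 := S_ne_zero hw
  have hw0' := S_ne_zero hw'
  have hn : ‖w‖ = ‖w'‖ := by
    have := congrArg norm h
    rw [norm_neg, norm_pw, norm_pw, norm_rot, norm_rot] at this
    exact (Real.rpow_left_inj (norm_nonneg _) (norm_nonneg _) (by norm_num)).1 this
  have hr0 : rot w ≠ 0 := by
    intro h0; have := norm_rot w; rw [h0, norm_zero] at this; exact hw0 (norm_eq_zero.1 this.symm)
  have hr0' : rot w' ≠ 0 := by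
    intro h0; have := norm_rot w'; rw [h0, norm_zero] at this; exact hw0' (norm_eq_zero.1 this.symm)
  rw [pw_of_ne hr0, pw_of_ne hr0', norm_rot, norm_rot, hn, arg_rot (S_sub hw) hw0,
    arg_rot (S_sub hw') hw0', hn, ← mul_neg] at h
  have hne : (((‖w'‖ ^ (2 / 3 : ℝ) : ℝ)) : ℂ) ≠ 0 := by
    have : 0 < ‖w'‖ ^ (2 / 3 : ℝ) := Real.rpow_pos_of_pos (norm_pos_iff.2 hw0') _
    exact_mod_cast this.ne'
  have h1 := mul_left_cancel₀ hne h
  have h2 : -Complex.exp (((2 / 3) * (Complex.arg w' + kap ‖w'‖) : ℝ) * Complex.I) =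
      Complex.exp (((2 / 3) * (Complex.arg w' + kap ‖w'‖) + Real.pi : ℝ) * Complex.I) := by
    rw [Complex.ofReal_add, add_mul, Complex.exp_add, Complex.exp_pi_mul_I]
    ring
  rw [h2, Complex.exp_eq_exp_iff_exists_int] at h1
  obtain ⟨n, hn1⟩ := h1
  have h3 : (2 / 3) * (Complex.arg w + kap ‖w'‖) =
      (2 / 3) * (Complex.arg w' + kap ‖w'‖) + Real.pi + n * (2 * Real.pi) := by
    have := congrArg Complex.im hn1
    simpa using this
  have h4 := abs_lt.1 (abs_arg_lt hw0 hw.2)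
  have h5 := abs_lt.1 (abs_arg_lt hw0' hw'.2)
  unfold Th at h4 h5
  have hpi := Real.pi_pos
  have h6 : (n : ℝ) < 0 := by
    by_contra hc
    push Not at hc
    have : 0 ≤ (n : ℝ) * (2 * Real.pi) := by positivity
    linarith [h4.2, h5.1]
  have h7 : (-1 : ℝ) < n := by
    by_contra hc
    push Not at hc
    have : (n : ℝ) * (2 * Real.pi) ≤ -1 * (2 * Real.pi) := by gcongr
    linarith [h4.1, h5.2]
  have h8 : n < 0 := by exact_mod_cast h6
  have h9 : -1 < n := by exact_mod_cast h7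
  omega

/-! ### the map `F` -/

noncomputable def den (ζ : ℂ) : ℂ := 1 + ζ - ζ ^ 2
noncomputable def nu (ζ : ℂ) : ℂ := ζ ^ 2 + ζ - 1
noncomputable def Fm (W : ℂ) : ℂ := nu (pw W) / den (pw W)

lemma den_ne {W : ℂ} (hW : ‖W‖ ≤ 1) : den (pw W) ≠ 0 := by
  intro h
  set ζ := pw W with hζ
  have hn : ‖ζ‖ ≤ 1 := norm_pw_le hW
  have h5 : ((Real.sqrt 5 : ℝ) : ℂ) ^ 2 = 5 := by
    rw [← Complex.ofReal_pow, Real.sq_sqrt (by norm_num)]; norm_num
  have h1 : (2 * ζ - 1 - (Real.sqrt 5 : ℝ)) * (2 * ζ - 1 + (Real.sqrt 5 : ℝ)) = 0 := by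
    unfold den at h
    linear_combination (-4) * h - h5
  have hs5 : 2 < Real.sqrt 5 := by
    rw [Real.lt_sqrt (by norm_num)]; norm_num
  rcases mul_eq_zero.1 h1 with h2 | h2
  · have h3 : ζ = (((1 + Real.sqrt 5) / 2 : ℝ) : ℂ) := by
      push_cast
      linear_combination h2 / 2
    rw [h3, Complex.norm_real, Real.norm_of_nonneg (by positivity)] at hn
    linarith
  · have h3 : ζ = (((1 - Real.sqrt 5) / 2 : ℝ) : ℂ) := by
      push_cast
      linear_combination h2 / 2
    have h4 : Complex.arg ζ = Real.pi := by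
      rw [h3]
      exact Complex.arg_ofReal_of_neg (by linarith)
    by_cases hW0 : W = 0
    · rw [hζ, hW0, pw_zero] at h4
      rw [Complex.arg_zero] at h4
      exact Real.pi_pos.ne h4
    · rw [hζ, arg_pw W hW0] at h4
      have := Complex.arg_le_pi W
      linarith [Real.pi_pos]

lemma norm_le_of_mem_closure {W : ℂ} (hW : W ∈ closure D) : ‖W‖ ≤ 1 := by
  rw [closure_D] at hW
  obtain ⟨w, hw, rfl⟩ := hW
  rw [norm_rot]; exact hw.1

lemma norm_lt_of_mem {W : ℂ} (hW : W ∈ D) : ‖W‖ < 1 := by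
  obtain ⟨w, hw, rfl⟩ := hW
  rw [norm_rot]; exact hw.1

lemma Fm_continuousOn : ContinuousOn Fm (closure D) := by
  unfold Fm
  have h1 : Continuous nu := by unfold nu; fun_prop
  have h2 : Continuous den := by unfold den; fun_prop
  exact (h1.comp_continuousOn pw_continuousOn).div (h2.comp_continuousOn pw_continuousOn)
    fun W hW => den_ne (norm_le_of_mem_closure hW)

lemma Fm_differentiableOn : DifferentiableOn ℂ Fm D := by
  unfold Fm
  have h1 : Differentiable ℂ nu := by unfold nu; fun_prop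
  have h2 : Differentiable ℂ den := by unfold den; fun_prop
  exact (h1.comp_differentiableOn pw_differentiableOn).div
    (h2.comp_differentiableOn pw_differentiableOn) fun W hW => den_ne (norm_lt_of_mem hW).le

lemma Fm_injOn : InjOn Fm (closure D) := by
  intro W hW W' hW' h
  have hd := den_ne (norm_le_of_mem_closure hW)
  have hd' := den_ne (norm_le_of_mem_closure hW')
  unfold Fm at h
  rw [div_eq_div_iff hd hd'] at h
  have hn := norm_pw_le (norm_le_of_mem_closure hW)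
  have hn' := norm_pw_le (norm_le_of_mem_closure hW')
  apply pw_injective
  set ζ := pw W with hζ
  set ω := pw W' with hω
  have h1 : (ζ - ω) * (ζ * ω + 1) = 0 := by
    unfold nu den at h
    linear_combination h / 2
  rcases mul_eq_zero.1 h1 with h2 | h2
  · exact sub_eq_zero.1 h2
  · have h3 : ζ * ω = -1 := by linear_combination h2
    have h4 : ‖ζ‖ * ‖ω‖ = 1 := by rw [← norm_mul, h3, norm_neg, norm_one]
    have hz1 : ‖ζ‖ = 1 := by nlinarith [norm_nonneg ζ, norm_nonneg ω]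
    have hw1 : ‖ω‖ = 1 := by nlinarith [norm_nonneg ζ, norm_nonneg ω]
    have hr1 := re_nonneg_of_norm_one hW hz1
    have hr2 := re_nonneg_of_norm_one hW' hw1
    have h5 : ζ * (starRingEnd ℂ) ζ = 1 := by
      rw [Complex.mul_conj, Complex.normSq_eq_norm_sq, hz1]; norm_num
    have hz0 : ζ ≠ 0 := by intro h0; rw [h0, norm_zero] at hz1; norm_num at hz1
    have h6 : ω = -(starRingEnd ℂ) ζ := by
      apply mul_left_cancel₀ hz0
      rw [h3, mul_neg, h5]
    have h7 : ω.re = -ζ.re := by rw [h6]; simp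
    have h8 : ω.im = ζ.im := by rw [h6]; simp
    have h9 : ζ.re = 0 := by linarith
    apply Complex.ext
    · rw [h7, h9]; simp
    · exact h8.symm

lemma Fm_mul {W W' : ℂ} (hW : W ∈ closure D) (hW' : W' ∈ closure D) :
    Fm W * Fm W' = 1 ↔ (pw W + pw W') * (pw W * pw W' - 1) = 0 := by
  have hd := den_ne (norm_le_of_mem_closure hW)
  have hd' := den_ne (norm_le_of_mem_closure hW')
  unfold Fm
  rw [div_mul_div_comm, div_eq_one_iff_eq (mul_ne_zero hd hd')]
  unfold nu den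
  constructor
  · intro h; linear_combination h / 2
  · intro h; linear_combination 2 * h

lemma Fm_mul_ne {W W' : ℂ} (hW : W ∈ D) (hW' : W' ∈ D) : Fm W * Fm W' ≠ 1 := by
  rw [Ne, Fm_mul (subset_closure hW) (subset_closure hW')]
  intro h
  rcases mul_eq_zero.1 h with h | h
  · exact pw_ne_neg hW hW' (eq_neg_of_add_eq_zero_left h)
  · have h1 : ‖pw W‖ * ‖pw W'‖ = 1 := by
      rw [← norm_mul, sub_eq_zero.1 h, norm_one]
    have h2 := norm_pw_lt (norm_lt_of_mem hW)
    have h3 := norm_pw_lt (norm_lt_of_mem hW')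
    nlinarith [norm_nonneg (pw W), norm_nonneg (pw W')]

lemma Fm_zero : ∃ p ∈ D, Fm p = 0 := by
  set g : ℝ := (Real.sqrt 5 - 1) / 2 with hg
  have h5 : Real.sqrt 5 ^ 2 = 5 := Real.sq_sqrt (by norm_num)
  have hs5 : 2 < Real.sqrt 5 := by
    rw [Real.lt_sqrt (by norm_num)]; norm_num
  have hs6 : Real.sqrt 5 < 3 := by
    rw [Real.sqrt_lt' (by norm_num)]; norm_num
  have hg0 : 0 < g := by rw [hg]; linarith
  have hg1 : g < 1 := by rw [hg]; linarith
  set a : ℝ := Real.sqrt g with ha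
  have ha0 : 0 < a := Real.sqrt_pos.2 hg0
  have ha1 : a < 1 := by rw [ha, Real.sqrt_lt' one_pos]; simpa using hg1
  have ha2 : a ^ 2 = g := Real.sq_sqrt hg0.le
  have ha3 : a ^ 3 < 1 := pow_lt_one₀ ha0.le ha1 (by norm_num)
  refine ⟨((a ^ 3 : ℝ) : ℂ), ?_, ?_⟩
  · refine ⟨rotf (-1) ((a ^ 3 : ℝ) : ℂ), ⟨?_, ?_⟩, rotf_rotf _ _ (by norm_num) _⟩
    · rw [norm_rotf, Complex.norm_real, Real.norm_of_nonneg (by positivity)]
      exact ha3
    · have h1 : 0 < (rotf (-1) ((a ^ 3 : ℝ) : ℂ)).re := by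
        unfold rotf
        rw [Complex.re_ofReal_mul, Complex.exp_ofReal_mul_I_re]
        apply mul_pos (by positivity)
        have h2 := abs_le.1 (abs_kap ‖((a ^ 3 : ℝ) : ℂ)‖)
        have h3 : Real.pi > 3 := Real.pi_gt_three
        apply Real.cos_pos_of_mem_Ioo
        constructor
        · linarith [h2.2]
        · linarith [h2.1]
      have h2 := abs_nonneg (rotf (-1) ((a ^ 3 : ℝ) : ℂ)).im
      linarith
  · have h1 := pw_polar ha0.le (ψ := 0) (by linarith [Real.pi_pos]) Real.pi_pos.le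
    simp only [Complex.ofReal_zero, zero_mul, Complex.exp_zero, mul_one, mul_zero] at h1
    unfold Fm nu
    rw [h1, ha2]
    have : ((g : ℝ) : ℂ) ^ 2 + g - 1 = 0 := by
      have h6 : g ^ 2 + g - 1 = 0 := by rw [hg]; nlinarith
      exact_mod_cast h6
    rw [this, zero_div]

/-! ### the curve -/

lemma pw_Gc_mid {s : ℝ} (hs : |s| ≤ Th) :
    pw (Gc s) = Complex.exp (((2 / 3) * s : ℝ) * Complex.I) := by
  rw [Gc_mid hs]
  have h := abs_le.1 hs
  unfold Th at h
  have := pw_polar (a := 1) zero_le_one (ψ := s) (by linarith [h.1, Real.pi_pos])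
    (by linarith [h.2, Real.pi_pos])
  simpa using this

lemma pw_arm {a : ℝ} (ha : 0 ≤ a) {θ : ℝ} (hθ : θ = Th ∨ θ = -Th) :
    pw (Complex.exp (θ * Complex.I) * A a) =
      ((a ^ 2 : ℝ) : ℂ) * Complex.exp (((2 / 3) * (θ + (1 / 2) * Real.sin (Real.pi / a ^ 2)) : ℝ)
        * Complex.I) := by
  have e : Complex.exp (θ * Complex.I) * A a = ((a ^ 3 : ℝ) : ℂ) *
      Complex.exp (((θ + (1 / 2) * Real.sin (Real.pi / a ^ 2)) : ℝ) * Complex.I) := by
    unfold A
    rw [Complex.ofReal_add, add_mul, Complex.exp_add]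
    ring
  have h1 := Real.abs_sin_le_one (Real.pi / a ^ 2)
  rw [abs_le] at h1
  have h3 : Real.pi > 3 := Real.pi_gt_three
  rw [e, pw_polar ha]
  · rcases hθ with h | h <;> rw [h] <;> unfold Th <;> linarith [h1.1]
  · rcases hθ with h | h <;> rw [h] <;> unfold Th <;> linarith [h1.2]

lemma pw_pair_arm {a : ℝ} (ha : 0 ≤ a) :
    pw (Complex.exp (Th * Complex.I) * A a) + pw (Complex.exp ((-Th : ℝ) * Complex.I) * A a) = 0 := by
  rw [pw_arm ha (Or.inl rfl), pw_arm ha (Or.inr rfl)]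
  have e : ((2 / 3) * (Th + (1 / 2) * Real.sin (Real.pi / a ^ 2)) : ℝ) =
      (2 / 3) * (-Th + (1 / 2) * Real.sin (Real.pi / a ^ 2)) + Real.pi := by unfold Th; ring
  rw [e, Complex.ofReal_add _ Real.pi, add_mul, Complex.exp_add, Complex.exp_pi_mul_I]
  ring

lemma Gc_mem {s : ℝ} (hs : s ∈ Icc (-hh) hh) : Gc s ∈ closure D := by
  apply frontier_subset_closure
  rw [frontier_eq, gam_range]
  exact ⟨s, hs, rfl⟩

lemma Fm_pair {s : ℝ} (hs : s ∈ Icc (-hh) hh) : Fm (Gc s) * Fm (Gc (-s)) = 1 := by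
  have hs2 : -s ∈ Icc (-hh) hh := ⟨by linarith [hs.2], by linarith [hs.1]⟩
  rw [Fm_mul (Gc_mem hs) (Gc_mem hs2)]
  rcases le_or_gt |s| Th with h | h
  · rw [pw_Gc_mid h, pw_Gc_mid (by rwa [abs_neg])]
    have : Complex.exp (((2 / 3) * s : ℝ) * Complex.I) * Complex.exp (((2 / 3) * (-s) : ℝ) * Complex.I)
        = 1 := by
      rw [← Complex.exp_add]
      have : ((((2 / 3) * s : ℝ) : ℂ) * Complex.I + (((2 / 3) * (-s) : ℝ) : ℂ) * Complex.I) = 0 := by
        push_cast; ring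
      rw [this, Complex.exp_zero]
    rw [this, sub_self, mul_zero]
  · have hm := arg_mem (abs_le.2 hs)
    rw [max_eq_left h.le] at hm
    have hv := Vsymm_mem hm.1 hm.2
    have e3 : (-Th : ℂ) * Complex.I = ((-Th : ℝ) : ℂ) * Complex.I := by push_cast; rfl
    have hp := pw_pair_arm hv.1
    rcases abs_cases s with ⟨h4, _⟩ | ⟨h4, _⟩
    · rw [h4] at h hp
      rw [Gc_right h.le, Gc_left (by linarith), e3]
      have : hh + -s = hh - s := by ring
      rw [this]
      unfold B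
      rw [hp, zero_mul]
    · rw [h4] at h hp
      rw [Gc_left (by linarith), Gc_right h.le, e3]
      have : hh - -s = hh + s := by ring
      rw [this] at hp ⊢
      unfold B
      rw [add_comm, hp, zero_mul]

lemma Fm_gam (t : ℝ) : Fm (gam t) * Fm (gam (-t)) = 1 := by
  obtain ⟨s, hs, h1, h2⟩ := gam_neg t
  rw [h1, h2]
  exact Fm_pair hs

end Pool.Agent.H813R2.Seam
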