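import Pool.Agent.H813R2.Seam4

/-!
The seam is not rectifiable.
-/

set_option autoImplicit false
open Set Filter Topology
open scoped ENNReal NNReal

namespace Pool.Agent.H813R2.Seam

noncomputable def rr (n : ℕ) : ℝ := 1 / ((n : ℝ) + 5 / 2)
noncomputable def aa (n : ℕ) : ℝ := Real.sqrt (rr n)

lemma rr_pos (n : ℕ) : 0 < rr n := by unfold rr; positivity
lemma rr_le (n : ℕ) : rr n ≤ 2 / 5 := by
  unfold rr
  rw [div_le_div_iff₀ (by positivity) (by norm_num)]
  have : (0 : ℝ) ≤ n := Nat.cast_nonneg n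
  linarith
lemma rr_anti (n : ℕ) : rr (n + 1) ≤ rr n := by
  unfold rr
  apply div_le_div_of_nonneg_left (by norm_num) (by positivity)
  push_cast
  linarith
lemma aa_sq (n : ℕ) : aa n ^ 2 = rr n := Real.sq_sqrt (rr_pos n).le
lemma aa_nonneg (n : ℕ) : 0 ≤ aa n := Real.sqrt_nonneg _
lemma aa_le (n : ℕ) : aa n ≤ 1 := by
  unfold aa
  rw [Real.sqrt_le_one]
  linarith [rr_le n]
lemma aa_anti : Antitone aa := antitone_nat_of_succ_le fun n => Real.sqrt_le_sqrt (rr_anti n)

lemma sin_aa (n : ℕ) : Real.sin (Real.pi / aa n ^ 2) = (-1) ^ n := by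
  rw [aa_sq]
  unfold rr
  have : Real.pi / (1 / ((n : ℝ) + 5 / 2)) = Real.pi / 2 + n * Real.pi + 2 * Real.pi := by
    field_simp; ring
  rw [this, Real.sin_add_two_pi, Real.sin_add_nat_mul_pi, Real.sin_pi_div_two, mul_one]

noncomputable def ss (n : ℕ) : ℝ := hh - V (aa n)

lemma V_mem {a : ℝ} (h0 : 0 ≤ a) (h1 : a ≤ 1) : 0 ≤ V a ∧ V a ≤ ell := by
  constructor
  · rw [← V_zero]; exact V.monotone h0
  · exact V.monotone h1

lemma ss_mem (n : ℕ) : Th ≤ ss n ∧ ss n ≤ hh := by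
  have := V_mem (aa_nonneg n) (aa_le n)
  unfold ss hh
  constructor <;> linarith

noncomputable def tt (n : ℕ) : ℝ := ss n / (2 * hh) + 1 / 2

lemma tt_mono : Monotone tt := by
  apply monotone_nat_of_le_succ
  intro n
  unfold tt ss
  have h1 := V.monotone (aa_anti (Nat.le_succ n))
  have := hh_pos
  gcongr

lemma tt_mem (n : ℕ) : tt n ∈ Icc (0 : ℝ) 1 := by
  have h1 := ss_mem n
  have h2 := hh_pos
  unfold tt
  constructor
  · have : 0 ≤ ss n / (2 * hh) := div_nonneg (by linarith [Th_pos, h1.1]) (by linarith)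
    linarith
  · have : ss n / (2 * hh) ≤ 1 / 2 := by
      rw [div_le_div_iff₀ (by linarith) (by norm_num)]
      linarith [h1.2]
    linarith

lemma gam_tt (n : ℕ) : gam (tt n) = Complex.exp (Th * Complex.I) * A (aa n) := by
  have h1 := ss_mem n
  have h2 := hh_pos
  have h3 : ss n < hh := by
    unfold ss
    have : 0 < V (aa n) := by
      rw [← V_zero]
      apply V.strictMono
      exact Real.sqrt_pos.2 (rr_pos n)
    linarith
  have h4 : Int.fract (tt n) = tt n := by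
    rw [Int.fract_eq_self]
    refine ⟨(tt_mem n).1, ?_⟩
    unfold tt
    have : ss n / (2 * hh) < 1 / 2 := by
      rw [div_lt_div_iff₀ (by linarith) (by norm_num)]
      linarith
    linarith
  unfold gam
  rw [h4]
  have h5 : 2 * hh * (tt n - 1 / 2) = ss n := by
    unfold tt; field_simp; ring
  rw [h5, Gc_right h1.1]
  congr 1
  unfold B ss
  rw [sub_sub_cancel, V.symm_apply_apply]

noncomputable def zz (n : ℕ) : ℂ := pw (gam (tt n))

lemma zz_eq (n : ℕ) : zz n = (rr n : ℂ) *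
    Complex.exp ((Real.pi / 2 + (1 / 3) * (-1) ^ n : ℝ) * Complex.I) := by
  unfold zz
  rw [gam_tt, pw_arm (aa_nonneg n) (Or.inl rfl), sin_aa, aa_sq]
  congr 3
  unfold Th
  push_cast
  ring

lemma norm_zz (n : ℕ) : ‖zz n‖ = rr n := by
  rw [zz_eq, norm_mul, norm_exp_I, mul_one, Complex.norm_real, Real.norm_of_nonneg (rr_pos n).le]

lemma re_zz (n : ℕ) : (zz n).re = -(rr n * ((-1) ^ n * Real.sin (1 / 3))) := by
  rw [zz_eq, Complex.re_ofReal_mul, Complex.exp_ofReal_mul_I_re, Real.cos_add, Real.cos_pi_div_two,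
    Real.sin_pi_div_two]
  rcases Nat.even_or_odd n with h | h
  · rw [h.neg_one_pow]; ring_nf
  · rw [h.neg_one_pow, mul_neg, mul_one, Real.sin_neg]; ring_nf

lemma sin_third : 1 / 4 ≤ Real.sin (1 / 3) := by
  have := Real.sin_gt_sub_cube (x := 1 / 3) (by norm_num)
  norm_num at this ⊢
  linarith

lemma zz_dist (n : ℕ) : rr (n + 1) / 2 ≤ ‖zz (n + 1) - zz n‖ := by
  refine le_trans ?_ (Complex.abs_re_le_norm _)
  rw [Complex.sub_re, re_zz, re_zz, pow_succ]
  have h1 := sin_third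
  have h2 := rr_pos n
  have h3 := rr_pos (n + 1)
  have h4 := rr_anti n
  rcases Nat.even_or_odd n with h | h
  · rw [h.neg_one_pow]
    refine le_trans ?_ (le_abs_self _)
    nlinarith
  · rw [h.neg_one_pow]
    refine le_trans ?_ (neg_abs_le _ |> fun h => neg_le.1 h)
    nlinarith

lemma gam_mem (t : ℝ) : gam t ∈ closure D := by
  apply frontier_subset_closure
  rw [frontier_eq]
  exact ⟨t, rfl⟩

lemma Fm_dist (n : ℕ) : rr (n + 1) / 50 ≤ ‖Fm (gam (tt (n + 1))) - Fm (gam (tt n))‖ := by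
  have hd := den_ne (norm_le_of_mem_closure (gam_mem (tt (n + 1))))
  have hd' := den_ne (norm_le_of_mem_closure (gam_mem (tt n)))
  unfold Fm
  rw [div_sub_div _ _ hd hd']
  change den (zz (n + 1)) ≠ 0 at hd
  change den (zz n) ≠ 0 at hd'
  change rr (n + 1) / 50 ≤ ‖(nu (zz (n + 1)) * den (zz n) - den (zz (n + 1)) * nu (zz n)) /
    (den (zz (n + 1)) * den (zz n))‖
  have e : nu (zz (n + 1)) * den (zz n) - den (zz (n + 1)) * nu (zz n) =
      2 * (zz (n + 1) - zz n) * (1 + zz (n + 1) * zz n) := by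
    unfold nu den; ring
  have hden : ∀ k, ‖den (zz k)‖ ≤ 2 := by
    intro k
    unfold den
    have h1 := norm_zz k
    have h2 := rr_le k
    have h3 := rr_pos k
    calc _ ≤ ‖(1 : ℂ)‖ + ‖zz k‖ + ‖zz k ^ 2‖ := (norm_sub_le _ _).trans (by
            gcongr; exact norm_add_le _ _)
      _ ≤ 2 := by
        rw [norm_one, norm_pow, h1]
        nlinarith
  have h1 : 1 / 2 ≤ ‖1 + zz (n + 1) * zz n‖ := by
    have h2 : ‖zz (n + 1) * zz n‖ ≤ 1 / 2 := by
      rw [norm_mul, norm_zz, norm_zz]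
      have := rr_le n; have := rr_le (n + 1); have := rr_pos n; have := rr_pos (n + 1)
      nlinarith
    have h3 : ‖(1 : ℂ)‖ ≤ ‖1 + zz (n + 1) * zz n‖ + ‖zz (n + 1) * zz n‖ := by
      have := norm_sub_le (1 + zz (n + 1) * zz n) (zz (n + 1) * zz n)
      simpa using this
    rw [norm_one] at h3
    linarith
  rw [e, norm_div, norm_mul, norm_mul, norm_mul]
  have h4 : 0 < ‖den (zz (n + 1))‖ * ‖den (zz n)‖ := by positivity
  rw [le_div_iff₀ h4]
  have h5 : ‖den (zz (n + 1))‖ * ‖den (zz n)‖ ≤ 2 * 2 :=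
    mul_le_mul (hden _) (hden _) (norm_nonneg _) (by norm_num)
  have h6 := zz_dist n
  have h7 := rr_pos (n + 1)
  have h8 : ‖(2 : ℂ)‖ = 2 := by norm_num
  rw [h8]
  have h9 : rr (n + 1) / 2 * (1 / 2) ≤ ‖zz (n + 1) - zz n‖ * ‖1 + zz (n + 1) * zz n‖ :=
    mul_le_mul h6 h1 (by norm_num) (norm_nonneg _)
  have h10 : rr (n + 1) / 50 * (‖den (zz (n + 1))‖ * ‖den (zz n)‖) ≤ rr (n + 1) / 50 * (2 * 2) := by
    gcongr
  nlinarith

lemma infinite_length : eVariationOn (Fm ∘ gam) (Icc 0 1) = ⊤ := by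
  by_contra hne
  have hsum : ∀ N : ℕ, ∑ i ∈ Finset.range N, 1 / ((i : ℝ) + 1) ≤
      500 * (eVariationOn (Fm ∘ gam) (Icc 0 1)).toReal := by
    intro N
    have h1 := eVariationOn.sum_le (f := Fm ∘ gam) (s := Icc (0 : ℝ) 1) (n := N) tt_mono tt_mem
    have h2 : ∑ i ∈ Finset.range N, ENNReal.ofReal (1 / ((i : ℝ) + 1) / 500) ≤
        ∑ i ∈ Finset.range N, edist ((Fm ∘ gam) (tt (i + 1))) ((Fm ∘ gam) (tt i)) := by
      apply Finset.sum_le_sum
      intro i _
      rw [edist_dist, dist_eq_norm]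
      apply ENNReal.ofReal_le_ofReal
      refine le_trans ?_ (Fm_dist i)
      unfold rr
      push_cast
      rw [div_div, div_div, div_le_div_iff₀ (by positivity) (by positivity)]
      have : (0 : ℝ) ≤ i := Nat.cast_nonneg i
      nlinarith
    have h3 := h2.trans h1
    rw [← ENNReal.ofReal_sum_of_nonneg (fun i _ => by positivity)] at h3
    have h4 := ENNReal.toReal_mono hne h3
    rw [ENNReal.toReal_ofReal (Finset.sum_nonneg fun i _ => by positivity), ← Finset.sum_div,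
      div_le_iff₀ (by norm_num)] at h4
    linarith
  have h5 := Real.tendsto_sum_range_one_div_nat_succ_atTop
  obtain ⟨N, hN⟩ := (h5.eventually_gt_atTop
    (500 * (eVariationOn (Fm ∘ gam) (Icc 0 1)).toReal)).exists
  exact absurd (hsum N) (not_le.2 hN)

end Pool.Agent.H813R2.Seam
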