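import Mathlib
set_option autoImplicit false
open MeasureTheory Set Filter Topology Complex
open scoped ENNReal Real

namespace Pool.Agent.H813R2.Sew

lemma enorm_sub_le_lintegral {g : ℝ → ℂ} {a b : ℝ} (hab : a ≤ b) (hc : ContinuousOn g (Icc a b))
    (hd : ∀ t ∈ Ioo a b, DifferentiableAt ℝ g t) :
    ‖g b - g a‖ₑ ≤ ∫⁻ t in Ioo a b, ‖deriv g t‖ₑ := by
  by_cases hfin : ∫⁻ t in Ioo a b, ‖deriv g t‖ₑ = ⊤
  · rw [hfin]; exact le_top
  · have hint : IntervalIntegrable (deriv g) volume a b := by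
      rw [intervalIntegrable_iff_integrableOn_Ioo_of_le hab]
      exact ⟨(measurable_deriv g).aestronglyMeasurable, lt_top_iff_ne_top.2 hfin⟩
    rw [← intervalIntegral.integral_eq_sub_of_hasDerivAt_of_le hab hc
      (fun t ht => (hd t ht).hasDerivAt) hint,
      intervalIntegral.integral_of_le hab, integral_Ioc_eq_integral_Ioo]
    exact enorm_integral_le_lintegral_enorm _

noncomputable def circ (θ : ℝ) : ℂ := (Real.cos θ : ℂ) + Real.sin θ * I

lemma circ_im (θ : ℝ) : (circ θ).im = Real.sin θ := by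
  unfold circ
  rw [add_im, ofReal_im, mul_I_im, ofReal_re, zero_add]
lemma circ_re (θ : ℝ) : (circ θ).re = Real.cos θ := by
  unfold circ
  rw [add_re, ofReal_re, mul_I_re, ofReal_im, neg_zero, add_zero]

lemma circ_norm (θ : ℝ) : ‖circ θ‖ = 1 := by
  rw [Complex.norm_def, Complex.normSq_apply, circ_im, circ_re, ← sq, ← sq, Real.cos_sq_add_sin_sq,
    Real.sqrt_one]

lemma circ_cont : Continuous circ := by unfold circ; fun_prop

lemma circ_deriv (θ : ℝ) : HasDerivAt circ (I * circ θ) θ := by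
  have h1 : HasDerivAt (fun θ : ℝ => ((Real.cos θ : ℝ) : ℂ)) ((-Real.sin θ : ℝ) : ℂ) θ :=
    (Real.hasDerivAt_cos θ).ofReal_comp
  have h2 : HasDerivAt (fun θ : ℝ => ((Real.sin θ : ℝ) : ℂ)) ((Real.cos θ : ℝ) : ℂ) θ :=
    (Real.hasDerivAt_sin θ).ofReal_comp
  have h3 := h1.add (h2.mul_const I)
  refine HasDerivAt.congr_deriv h3 ?_
  unfold circ
  push_cast
  ring_nf
  rw [I_sq]
  ring

/-- value of `|G'|` in polar coordinates around `p` -/
noncomputable def PH (G : ℂ → ℂ) (p R θ : ℝ) : ℝ≥0∞ := ‖deriv G (p + R * circ θ)‖ₑ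

structure HDisc (G : ℂ → ℂ) (p ρ : ℝ) : Prop where
  cont : ContinuousOn G {z | 0 ≤ z.im ∧ ‖z - p‖ ≤ ρ}
  diff : ∀ z : ℂ, 0 < z.im → ‖z - p‖ < ρ → DifferentiableAt ℂ G z

variable {G : ℂ → ℂ} {p ρ : ℝ}

lemma mem_im (R θ : ℝ) : ((p : ℂ) + R * circ θ).im = R * Real.sin θ := by
  simp [circ_im]

lemma mem_norm {R : ℝ} (hR : 0 ≤ R) (θ : ℝ) : ‖((p : ℂ) + R * circ θ) - p‖ = R := by
  rw [add_sub_cancel_left, norm_mul, circ_norm, mul_one, Complex.norm_real, Real.norm_eq_abs,
    abs_of_nonneg hR]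

lemma HDisc.arc (h : HDisc G p ρ) {R : ℝ} (hR : 0 < R) (hRρ : R < ρ) {θ₁ θ₂ : ℝ} (h0 : 0 ≤ θ₁)
    (h12 : θ₁ ≤ θ₂) (h2 : θ₂ ≤ π) :
    ‖G (p + R * circ θ₂) - G (p + R * circ θ₁)‖ₑ ≤
      ∫⁻ θ in Ioo 0 π, PH G p R θ * ENNReal.ofReal R := by
  have hc : ContinuousOn (fun θ => G (p + R * circ θ)) (Icc θ₁ θ₂) := by
    apply h.cont.comp (by have := circ_cont; fun_prop)
    intro θ hθ
    refine ⟨?_, ?_⟩
    · rw [mem_im]
      exact mul_nonneg hR.le (Real.sin_nonneg_of_nonneg_of_le_pi (h0.trans hθ.1) (hθ.2.trans h2))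
    · rw [mem_norm hR.le]; exact hRρ.le
  have hder : ∀ θ ∈ Ioo θ₁ θ₂, HasDerivAt (fun θ => G (p + R * circ θ))
      (deriv G (p + R * circ θ) * (R * (I * circ θ))) θ := by
    intro θ hθ
    have hpos : 0 < ((p : ℂ) + R * circ θ).im := by
      rw [mem_im]
      exact mul_pos hR (Real.sin_pos_of_pos_of_lt_pi (h0.trans_lt hθ.1) (hθ.2.trans_le h2))
    have h1 := (h.diff _ hpos (by rw [mem_norm hR.le]; exact hRρ)).hasDerivAt
    have h2 : HasDerivAt (fun θ : ℝ => (p : ℂ) + R * circ θ) (R * (I * circ θ)) θ :=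
      ((circ_deriv θ).const_mul (R : ℂ)).const_add _
    exact h1.comp θ h2
  refine (enorm_sub_le_lintegral h12 hc fun θ hθ => (hder θ hθ).differentiableAt).trans ?_
  calc ∫⁻ t in Ioo θ₁ θ₂, ‖deriv (fun θ => G (p + R * circ θ)) t‖ₑ
      = ∫⁻ t in Ioo θ₁ θ₂, PH G p R t * ENNReal.ofReal R := by
        apply setLIntegral_congr_fun measurableSet_Ioo
        intro t ht
        simp only
        rw [(hder t ht).deriv, enorm_mul]
        unfold PH
        congr 1
        rw [← ofReal_norm, norm_mul, norm_mul, circ_norm, Complex.norm_real, Complex.norm_I,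
          Real.norm_eq_abs, abs_of_pos hR, mul_one, mul_one]
    _ ≤ _ := by
        apply lintegral_mono_set
        exact Ioo_subset_Ioo h0 h2

lemma HDisc.rad (h : HDisc G p ρ) {r R θ : ℝ} (hr : 0 < r) (hrR : r ≤ R) (hRρ : R ≤ ρ) (hθ0 : 0 < θ)
    (hθ : θ < π) :
    ‖G (p + ρ * circ θ) - G (p + R * circ θ)‖ₑ ≤ ∫⁻ u in Ioo r ρ, PH G p u θ := by
  have hs := Real.sin_pos_of_pos_of_lt_pi hθ0 hθ
  have hR0 : 0 < R := hr.trans_le hrR
  have hc : ContinuousOn (fun u : ℝ => G (p + u * circ θ)) (Icc R ρ) := by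
    apply h.cont.comp (by fun_prop)
    intro u hu
    have hu0 : 0 ≤ u := hR0.le.trans hu.1
    refine ⟨?_, ?_⟩
    · rw [mem_im]; exact mul_nonneg hu0 hs.le
    · rw [mem_norm hu0]; exact hu.2
  have hder : ∀ u ∈ Ioo R ρ, HasDerivAt (fun u : ℝ => G (p + u * circ θ))
      (deriv G (p + u * circ θ) * circ θ) u := by
    intro u hu
    have hu0 : 0 < u := hR0.trans hu.1
    have h1 := (h.diff (p + u * circ θ) (by rw [mem_im]; exact mul_pos hu0 hs)
      (by rw [mem_norm hu0.le]; exact hu.2)).hasDerivAt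
    have h2 : HasDerivAt (fun u : ℝ => (p : ℂ) + u * circ θ) (1 * circ θ) u :=
      ((hasDerivAt_id u).ofReal_comp.mul_const _).const_add _
    rw [one_mul] at h2
    exact h1.comp u h2
  refine (enorm_sub_le_lintegral hRρ hc fun u hu => (hder u hu).differentiableAt).trans ?_
  calc ∫⁻ t in Ioo R ρ, ‖deriv (fun u : ℝ => G (p + u * circ θ)) t‖ₑ
      = ∫⁻ t in Ioo R ρ, PH G p t θ := by
        apply setLIntegral_congr_fun measurableSet_Ioo
        intro t ht
        simp only
        rw [(hder t ht).deriv, enorm_mul]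
        unfold PH
        rw [← ofReal_norm (circ θ), circ_norm, ENNReal.ofReal_one, mul_one]
    _ ≤ _ := by
        apply lintegral_mono_set
        exact Ioo_subset_Ioo hrR le_rfl

def HD (p ρ : ℝ) : Set ℂ := {z | 0 < z.im ∧ ‖z - p‖ < ρ}

lemma HD_meas (p ρ : ℝ) : MeasurableSet (HD p ρ) := by
  apply IsOpen.measurableSet
  have h1 : IsOpen {z : ℂ | 0 < z.im} := isOpen_lt continuous_const Complex.continuous_im
  have h2 : IsOpen {z : ℂ | ‖z - p‖ < ρ} :=
    isOpen_lt (continuous_id.sub continuous_const).norm continuous_const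
  exact h1.inter h2

lemma PH_meas (G : ℂ → ℂ) (p : ℝ) : Measurable (fun x : ℝ × ℝ => PH G p x.1 x.2) := by
  unfold PH
  apply Measurable.enorm
  apply (measurable_deriv G).comp
  have := circ_cont
  exact Continuous.measurable (by fun_prop)

lemma energy_polar (G : ℂ → ℂ) (p : ℝ) {r ρ : ℝ} (hr : 0 < r) :
    ∫⁻ x in Ioo r ρ ×ˢ Ioo 0 π, PH G p x.1 x.2 ^ 2 * ENNReal.ofReal x.1 ≤
      ∫⁻ z in HD p ρ, ‖deriv G z‖ₑ ^ 2 := by
  have h1 : ∫⁻ z in HD p ρ, ‖deriv G z‖ₑ ^ 2 =
      ∫⁻ z, (HD 0 ρ).indicator (fun z => ‖deriv G (p + z)‖ₑ ^ 2) z := by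
    rw [← lintegral_indicator (HD_meas p ρ),
      ← lintegral_add_left_eq_self _ (p : ℂ)]
    congr 1
    ext z
    by_cases hz : z ∈ HD 0 ρ
    · rw [indicator_of_mem hz, indicator_of_mem]
      refine ⟨?_, ?_⟩
      · simpa using hz.1
      · have := hz.2; simpa using this
    · rw [indicator_of_notMem hz, indicator_of_notMem]
      intro h
      apply hz
      refine ⟨?_, ?_⟩
      · simpa using h.1
      · have := h.2; simpa using this
  rw [h1, ← Complex.lintegral_comp_polarCoord_symm]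
  calc ∫⁻ x in Ioo r ρ ×ˢ Ioo 0 π, PH G p x.1 x.2 ^ 2 * ENNReal.ofReal x.1
      = ∫⁻ x in Ioo r ρ ×ˢ Ioo 0 π, ENNReal.ofReal x.1 •
        (HD 0 ρ).indicator (fun z => ‖deriv G (p + z)‖ₑ ^ 2) (Complex.polarCoord.symm x) := by
        apply setLIntegral_congr_fun (measurableSet_Ioo.prod measurableSet_Ioo)
        rintro ⟨R, θ⟩ ⟨hR, hθ⟩
        simp only at hR hθ ⊢
        have hR0 : 0 < R := hr.trans hR.1
        have e : Complex.polarCoord.symm (R, θ) = R * circ θ := by
          rw [Complex.polarCoord_symm_apply]; rfl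
        rw [e, indicator_of_mem, smul_eq_mul, mul_comm]
        · rfl
        · refine ⟨?_, ?_⟩
          · have := mem_im (p := 0) R θ
            simp only [ofReal_zero, zero_add] at this
            rw [this]
            exact mul_pos hR0 (Real.sin_pos_of_pos_of_lt_pi hθ.1 hθ.2)
          · have := mem_norm (p := 0) hR0.le θ
            simp only [ofReal_zero, zero_add, sub_zero] at this ⊢
            rw [this]; exact hR.2
    _ ≤ _ := by
        apply lintegral_mono_set
        rintro ⟨R, θ⟩ ⟨hR, hθ⟩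
        refine ⟨hr.trans hR.1, ⟨?_, hθ.2⟩⟩
        have := hθ.1
        simp only at this ⊢
        linarith [Real.pi_pos]

/-- arithmetic-geometric mean inequality in `ℝ≥0∞` -/
lemma ennreal_amgm (x : ℝ≥0∞) {l R : ℝ} (hl : 0 < l) (hR : 0 < R) :
    x ≤ ENNReal.ofReal (l / 2) * (x ^ 2 * ENNReal.ofReal R) + ENNReal.ofReal (1 / (2 * l * R)) := by
  by_cases hx : x = ⊤
  · subst hx
    have : ENNReal.ofReal (l / 2) * (⊤ ^ 2 * ENNReal.ofReal R) = ⊤ := by
      rw [ENNReal.top_pow (by norm_num), ENNReal.top_mul (by simpa using hR),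
        ENNReal.mul_top (by simpa using hl)]
    rw [this]; simp
  · obtain ⟨t, rfl⟩ : ∃ t : NNReal, x = t := ⟨x.toNNReal, (ENNReal.coe_toNNReal hx).symm⟩
    have h1 : ((t : NNReal) : ℝ≥0∞) = ENNReal.ofReal t := by simp
    have h5 : ENNReal.ofReal (t:ℝ) ^ 2 = ENNReal.ofReal ((t:ℝ) ^ 2) := by
      rw [ENNReal.ofReal_pow (NNReal.coe_nonneg t)]
    rw [h1, h5, ← ENNReal.ofReal_mul (by positivity),
      ← ENNReal.ofReal_mul (by positivity), ← ENNReal.ofReal_add (by positivity) (by positivity)]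
    apply ENNReal.ofReal_le_ofReal
    have h2 : 0 ≤ (l * R * t - 1) ^ 2 := sq_nonneg _
    have h3 : l / 2 * ((t:ℝ) ^ 2 * R) + 1 / (2 * l * R) - t = (l * R * t - 1) ^ 2 / (2 * l * R) := by
      field_simp
      ring
    have h4 : 0 ≤ (l * R * t - 1) ^ 2 / (2 * l * R) := by positivity
    linarith

lemma polar_bound (G : ℂ → ℂ) (p : ℝ) {r ρ l : ℝ} (hr : 0 < r) (hrρ : r < ρ) (hl : 0 < l) :
    ∫⁻ x in Ioo r ρ ×ˢ Ioo 0 π, PH G p x.1 x.2 ≤
      ENNReal.ofReal (l / 2) * (∫⁻ z in HD p ρ, ‖deriv G z‖ₑ ^ 2) +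
        ENNReal.ofReal (π * Real.log (ρ / r) / (2 * l)) := by
  calc ∫⁻ x in Ioo r ρ ×ˢ Ioo 0 π, PH G p x.1 x.2
      ≤ ∫⁻ x in Ioo r ρ ×ˢ Ioo 0 π, (ENNReal.ofReal (l / 2) * (PH G p x.1 x.2 ^ 2 *
          ENNReal.ofReal x.1) + ENNReal.ofReal (1 / (2 * l * x.1))) := by
        apply setLIntegral_mono_ae' (measurableSet_Ioo.prod measurableSet_Ioo)
        refine ae_of_all _ fun x hx => ?_
        exact ennreal_amgm _ hl (hr.trans hx.1.1)
    _ = ENNReal.ofReal (l / 2) * (∫⁻ x in Ioo r ρ ×ˢ Ioo 0 π, (PH G p x.1 x.2 ^ 2 *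
          ENNReal.ofReal x.1)) + ∫⁻ x in Ioo r ρ ×ˢ Ioo 0 π, ENNReal.ofReal (1 / (2 * l * x.1)) := by
        have hm : Measurable (fun x : ℝ × ℝ => PH G p x.1 x.2 ^ 2 * ENNReal.ofReal x.1) :=
          ((PH_meas G p).pow_const 2).mul measurable_fst.ennreal_ofReal
        rw [lintegral_add_left (hm.const_mul _), lintegral_const_mul _ hm]
    _ ≤ _ := by
        gcongr
        · exact energy_polar G p hr
        · have hv : (volume : Measure (ℝ × ℝ)) = (volume : Measure ℝ).prod volume := rfl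
          rw [hv, ← Measure.prod_restrict, lintegral_prod]
          · simp only [lintegral_const, Measure.restrict_apply MeasurableSet.univ, univ_inter,
              Real.volume_Ioo, sub_zero]
            rw [lintegral_mul_const']
            · have h1 : ∫⁻ x in Ioo r ρ, ENNReal.ofReal (1 / (2 * l * x)) =
                  ENNReal.ofReal (Real.log (ρ / r) / (2 * l)) := by
                rw [← ofReal_integral_eq_lintegral_ofReal]
                · congr 1
                  rw [← integral_Ioc_eq_integral_Ioo, ← intervalIntegral.integral_of_le hrρ.le]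
                  have h2 : ∀ x : ℝ, 1 / (2 * l * x) = (1 / (2 * l)) * x⁻¹ := by
                    intro x; rw [one_div, mul_inv, one_div]
                  simp_rw [h2]
                  rw [intervalIntegral.integral_const_mul, integral_inv_of_pos hr (hr.trans hrρ)]
                  ring
                · have : IntegrableOn (fun x : ℝ => 1 / (2 * l * x)) (Icc r ρ) := by
                    apply ContinuousOn.integrableOn_Icc
                    apply ContinuousOn.div continuousOn_const (by fun_prop)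
                    intro x hx
                    have : 0 < x := hr.trans_le hx.1
                    positivity
                  exact this.mono_set Ioo_subset_Icc_self
                · filter_upwards [ae_restrict_mem measurableSet_Ioo] with x hx
                  have : 0 < x := hr.trans hx.1
                  simp only [Pi.zero_apply]
                  positivity
              rw [h1, ← ENNReal.ofReal_mul]
              · apply ENNReal.ofReal_le_ofReal
                apply le_of_eq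
                ring
              · apply div_nonneg _ (by positivity)
                apply Real.log_nonneg
                rw [le_div_iff₀ hr]; linarith
            · simp
          · apply Measurable.aemeasurable
            exact (measurable_const.div (measurable_const.mul measurable_fst)).ennreal_ofReal

end Pool.Agent.H813R2.Sew
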