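import Mathlib
set_option autoImplicit false
open MeasureTheory Set Filter Topology Complex Metric
open scoped ENNReal Real ComplexConjugate Interval

namespace Pool.Agent.H813R2.Sew

lemma vert_int {f : ℂ → ℂ} {x a b : ℝ} {U : Set ℂ} (hc : ContinuousOn f U)
    (h : ∀ y ∈ [[a, b]], (⟨x, y⟩ : ℂ) ∈ U) : IntervalIntegrable (fun y : ℝ => f (x + y * I)) volume a b := by
  apply ContinuousOn.intervalIntegrable
  apply hc.comp (by fun_prop)
  intro y hy
  have := h y hy
  have e : ((x:ℂ) + y * I) = ⟨x, y⟩ := by apply Complex.ext <;> simp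
  show ((x:ℂ) + y * I) ∈ U
  rw [e]; exact this

/-- removability of the real line -/
theorem lemmaR {f : ℂ → ℂ} {U : Set ℂ} (hU : IsOpen U) (hc : ContinuousOn f U)
    (hd : ∀ z ∈ U, z.im ≠ 0 → DifferentiableAt ℂ f z) : DifferentiableOn ℂ f U := by
  rw [← isConservativeOn_and_continuousOn_iff_isDifferentiableOn hU]
  refine ⟨?_, hc⟩
  intro z w hzw
  rw [← add_eq_zero_iff_eq_neg, wedgeIntegral_add_wedgeIntegral_eq]
  have key : ∀ a b : ℝ, [[a, b]] ⊆ [[z.im, w.im]] → (0 ∉ Ioo (min a b) (max a b)) →
      (∫ x : ℝ in z.re..w.re, f (x + a * I)) - (∫ x : ℝ in z.re..w.re, f (x + b * I)) +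
      I • (∫ y : ℝ in a..b, f (w.re + y * I)) - I • (∫ y : ℝ in a..b, f (z.re + y * I)) = 0 := by
    intro a b hab h0
    have := integral_boundary_rect_eq_zero_of_continuousOn_of_differentiableOn f ⟨z.re, a⟩ ⟨w.re, b⟩ ?_ ?_
    · simpa using this
    · apply hc.mono
      refine Subset.trans ?_ hzw
      intro u hu
      exact ⟨hu.1, hab hu.2⟩
    · intro u hu
      apply DifferentiableAt.differentiableWithinAt
      have hu2 : u.im ∈ Ioo (min a b) (max a b) := hu.2
      apply hd
      · apply hzw
        refine ⟨?_, hab ?_⟩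
        · have := hu.1
          simp only [mem_preimage] at this
          exact Ioo_subset_Icc_self this
        · exact Ioo_subset_Icc_self hu2
      · intro h; rw [h] at hu2; exact h0 hu2
  by_cases h0 : (0:ℝ) ∈ [[z.im, w.im]]
  · have k1 := key z.im 0 (uIcc_subset_uIcc left_mem_uIcc h0) (by
      intro h
      rcases le_total z.im 0 with h1 | h1
      · rw [max_eq_right h1] at h; exact lt_irrefl _ h.2
      · rw [min_eq_right h1] at h; exact lt_irrefl _ h.1)
    have k2 := key 0 w.im (uIcc_subset_uIcc h0 right_mem_uIcc) (by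
      intro h
      rcases le_total w.im 0 with h1 | h1
      · rw [max_eq_left h1] at h; exact lt_irrefl _ h.2
      · rw [min_eq_left h1] at h; exact lt_irrefl _ h.1)
    have i1 : ∀ x ∈ [[z.re, w.re]], ∫ y : ℝ in z.im..w.im, f (x + y * I) =
        (∫ y : ℝ in z.im..0, f (x + y * I)) + ∫ y : ℝ in (0:ℝ)..w.im, f (x + y * I) := by
      intro x hx
      rw [intervalIntegral.integral_add_adjacent_intervals]
      · apply vert_int hc
        intro y hy
        exact hzw ⟨hx, uIcc_subset_uIcc left_mem_uIcc h0 hy⟩
      · apply vert_int hc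
        intro y hy
        exact hzw ⟨hx, uIcc_subset_uIcc h0 right_mem_uIcc hy⟩
    rw [i1 _ right_mem_uIcc, i1 _ left_mem_uIcc]
    have := congrArg₂ (· + ·) k1 k2
    simp only [add_zero] at this
    rw [← this]
    simp only [smul_add]
    ring
  · apply key z.im w.im Subset.rfl
    intro h
    exact h0 (Ioo_subset_Icc_self h)

/-- isolated points of non-differentiability of a continuous function are removable -/
lemma removable {f : ℂ → ℂ} {c : ℂ} (hc : ContinuousAt f c)
    (hd : ∀ᶠ z in 𝓝[≠] c, DifferentiableAt ℂ f z) : DifferentiableAt ℂ f c := by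
  rw [eventually_nhdsWithin_iff] at hd
  have h := (Complex.differentiableOn_compl_singleton_and_continuousAt_iff (f := f) (s := {z | z ∈ ({c}ᶜ : Set ℂ) → DifferentiableAt ℂ f z}) hd).1
    ⟨fun z hz => (hz.1 hz.2).differentiableWithinAt, hc⟩
  exact h.differentiableAt hd

/-- the inverse of an injective holomorphic map is holomorphic -/
theorem inv_holo (e : OpenPartialHomeomorph ℂ ℂ) (he : DifferentiableOn ℂ e e.source) :
    DifferentiableOn ℂ e.symm e.target := by
  have main : ∀ w ∈ e.target, deriv e (e.symm w) ≠ 0 → DifferentiableAt ℂ e.symm w := by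
    intro w hw h
    have h1 : HasDerivAt e (deriv e (e.symm w)) (e.symm w) :=
      (he.differentiableAt (e.open_source.mem_nhds (e.map_target hw))).hasDerivAt
    exact (e.hasDerivAt_symm hw h h1).differentiableAt
  intro w hw
  apply DifferentiableAt.differentiableWithinAt
  by_cases h : deriv e (e.symm w) = 0
  · have hz : e.symm w ∈ e.source := e.map_target hw
    have han : AnalyticAt ℂ e (e.symm w) := he.analyticAt (e.open_source.mem_nhds hz)
    rcases han.deriv.eventually_eq_zero_or_eventually_ne_zero with h1 | h1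
    · exfalso
      -- `e` locally constant
      obtain ⟨r, hr, hb⟩ := Metric.eventually_nhds_iff_ball.1 (h1.and (e.open_source.mem_nhds hz))
      have hconst : ∀ z ∈ ball (e.symm w) r, e z = e (e.symm w) := by
        intro z hz'
        have := Convex.norm_image_sub_le_of_norm_deriv_le (𝕜 := ℂ) (f := e) (C := 0) (s := ball (e.symm w) r)
          (fun x hx => he.differentiableAt (e.open_source.mem_nhds (hb x hx).2))
          (fun x hx => by rw [(hb x hx).1]; simp) (convex_ball _ _) (mem_ball_self hr) hz'
        simpa [sub_eq_zero] using this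
      have hz2 : e.symm w + (r / 2 : ℝ) ∈ ball (e.symm w) r := by
        rw [mem_ball, dist_eq_norm, add_sub_cancel_left, Complex.norm_real, Real.norm_eq_abs, abs_of_pos (by positivity)]
        linarith
      have := e.injOn (hb _ hz2).2 hz (hconst _ hz2)
      have h3 : ((r / 2 : ℝ) : ℂ) = 0 := by simpa using this
      rw [Complex.ofReal_eq_zero] at h3
      linarith
    · apply removable
      · exact (e.continuousOn_symm.continuousAt (e.open_target.mem_nhds hw))
      · have h2 : Tendsto e.symm (𝓝[≠] w) (𝓝[≠] (e.symm w)) := by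
          apply tendsto_nhdsWithin_of_tendsto_nhds_of_eventually_within
          · exact (e.continuousOn_symm.continuousAt (e.open_target.mem_nhds hw)).tendsto.mono_left nhdsWithin_le_nhds
          · have : ∀ᶠ z in 𝓝[≠] w, z ∈ e.target := eventually_nhdsWithin_of_eventually_nhds (e.open_target.mem_nhds hw)
            filter_upwards [this, self_mem_nhdsWithin] with z hz1 hz2
            intro h3
            exact hz2 (e.symm.injOn hz1 hw h3)
        have h3 : ∀ᶠ z in 𝓝[≠] w, z ∈ e.target := eventually_nhdsWithin_of_eventually_nhds (e.open_target.mem_nhds hw)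
        filter_upwards [h2.eventually h1, h3] with z hz1 hz2
        exact main z hz2 hz1
  · exact main w hw h

end Pool.Agent.H813R2.Sew
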