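import Mathlib
import Pool.Agent.H813R2.Sew8
set_option autoImplicit false
open MeasureTheory Set Filter Topology Complex Metric
open scoped ENNReal Real ComplexConjugate Interval Manifold ContDiff

namespace Pool.Agent.H813R2.Sew

variable {X : Type} [TopologicalSpace X]

/-- `f` is continuous on `O` and holomorphic in the interior chart `u0` -/
def Hol (u0 : OpenPartialHomeomorph X ℂ) (f : X → ℂ) (O : Set X) : Prop :=
  ContinuousOn f O ∧ DifferentiableOn ℂ (f ∘ u0.symm) (u0.target ∩ u0.symm ⁻¹' O)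

/-- charts holomorphic off the seam -/
def OSH (u0 φ : OpenPartialHomeomorph X ℂ) : Prop :=
  DifferentiableOn ℂ (φ ∘ u0.symm) (u0.target ∩ u0.symm ⁻¹' φ.source)

lemma OSH.hol {u0 φ : OpenPartialHomeomorph X ℂ} (h : OSH u0 φ) : Hol u0 φ φ.source :=
  ⟨φ.continuousOn, h⟩

def Straight (u0 u : OpenPartialHomeomorph X ℂ) : Prop :=
  OSH u0 u ∧ ∀ x ∈ u.source, x ∉ u0.source → (u x).im = 0

def Good (u0 : OpenPartialHomeomorph X ℂ) : Set X :=
  {x | ∃ u : OpenPartialHomeomorph X ℂ, (u = u0 ∨ Straight u0 u) ∧ x ∈ u.source}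

lemma OSH_self (u0 : OpenPartialHomeomorph X ℂ) : OSH u0 u0 := by
  unfold OSH
  have : DifferentiableOn ℂ (fun z : ℂ => z) (u0.target ∩ u0.symm ⁻¹' u0.source) := differentiableOn_id
  exact this.congr (fun z hz => u0.right_inv hz.1)

lemma isOpen_good (u0 : OpenPartialHomeomorph X ℂ) : IsOpen (Good u0) := by
  rw [isOpen_iff_mem_nhds]
  rintro x ⟨u, hu, hx⟩
  filter_upwards [u.open_source.mem_nhds hx] with y hy
  exact ⟨u, hu, hy⟩

lemma chain {u φ : OpenPartialHomeomorph X ℂ}
    (hφ : DifferentiableOn ℂ (φ ∘ u.symm) (u.target ∩ u.symm ⁻¹' φ.source)) {f : X → ℂ} {x : X}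
    (hxu : x ∈ u.source) (hxφ : x ∈ φ.source) (hf : DifferentiableAt ℂ (f ∘ u.symm) (u x)) :
    DifferentiableAt ℂ (f ∘ φ.symm) (φ x) := by
  set e : OpenPartialHomeomorph ℂ ℂ := u.symm.trans φ with he
  have h1 : DifferentiableOn ℂ e e.source := by
    rw [he, OpenPartialHomeomorph.trans_source]
    exact hφ
  have h2 := inv_holo e h1
  have hsrc : u x ∈ e.source := by
    rw [he, OpenPartialHomeomorph.trans_source]
    refine ⟨?_, ?_⟩
    · exact u.map_source hxu
    · simp only [mem_preimage, u.left_inv hxu]; exact hxφ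
  have heux : e (u x) = φ x := by
    rw [he, OpenPartialHomeomorph.coe_trans, Function.comp_apply, u.left_inv hxu]
  have htgt : φ x ∈ e.target := by
    rw [← heux]; exact e.map_source hsrc
  have h3 : DifferentiableAt ℂ e.symm (φ x) := h2.differentiableAt (e.open_target.mem_nhds htgt)
  have h4 : e.symm (φ x) = u x := by rw [← heux]; exact e.left_inv hsrc
  have h5 : DifferentiableAt ℂ ((f ∘ u.symm) ∘ e.symm) (φ x) := by
    apply DifferentiableAt.comp
    · rw [h4]; exact hf
    · exact h3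
  apply h5.congr_of_eventuallyEq
  filter_upwards [e.open_target.mem_nhds htgt] with w hw
  have hsymm : ∀ w, e.symm w = u (φ.symm w) := fun w => by
    rw [he]; rfl
  simp only [Function.comp_apply, hsymm]
  congr 1
  rw [he, OpenPartialHomeomorph.trans_target] at hw
  exact (u.left_inv hw.2).symm

lemma straight_diff {u0 u : OpenPartialHomeomorph X ℂ} (hu : Straight u0 u) {f : X → ℂ} {O : Set X}
    (hO : IsOpen O) (hf : Hol u0 f O) : DifferentiableOn ℂ (f ∘ u.symm) (u.target ∩ u.symm ⁻¹' O) := by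
  apply lemmaR
  · exact u.symm.isOpen_inter_preimage hO
  · apply hf.1.comp (u.continuousOn_symm.mono inter_subset_left)
    intro z hz; exact hz.2
  · intro w hw hw0
    have hx : u.symm w ∈ u.source := u.map_target hw.1
    have hx0 : u.symm w ∈ u0.source := by
      by_contra h
      have := hu.2 _ hx h
      rw [u.right_inv hw.1] at this
      exact hw0 this
    have := chain (u := u0) (φ := u) (f := f) hu.1 hx0 hx ?_
    · rwa [u.right_inv hw.1] at this
    · apply hf.2.differentiableAt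
      apply (u0.symm.isOpen_inter_preimage hO).mem_nhds
      refine ⟨u0.map_source hx0, ?_⟩
      simp only [mem_preimage, u0.left_inv hx0]
      exact hw.2

lemma good_diff_aux {u0 u : OpenPartialHomeomorph X ℂ} (hu : u = u0 ∨ Straight u0 u) {f : X → ℂ} {O : Set X}
    (hO : IsOpen O) (hf : Hol u0 f O) : DifferentiableOn ℂ (f ∘ u.symm) (u.target ∩ u.symm ⁻¹' O) := by
  rcases hu with rfl | hu
  · exact hf.2
  · exact straight_diff hu hO hf

lemma good_diff {u0 φ : OpenPartialHomeomorph X ℂ} {f : X → ℂ} {O : Set X} (hO : IsOpen O)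
    (hf : Hol u0 f O) (hφ : OSH u0 φ) {x : X} (hx : x ∈ Good u0) (hxO : x ∈ O) (hxφ : x ∈ φ.source) :
    DifferentiableAt ℂ (f ∘ φ.symm) (φ x) := by
  obtain ⟨u, hu, hxu⟩ := hx
  apply chain (good_diff_aux hu φ.open_source hφ.hol) hxu hxφ
  apply (good_diff_aux hu hO hf).differentiableAt
  apply (u.symm.isOpen_inter_preimage hO).mem_nhds
  refine ⟨u.map_source hxu, ?_⟩
  simp only [mem_preimage, u.left_inv hxu]
  exact hxO

lemma nhds_le_of_inj {F : ℂ → ℂ} {z : ℂ} {s : Set ℂ} (hs : s ∈ 𝓝 z) (hF : AnalyticAt ℂ F z) (hinj : InjOn F s) :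
    𝓝 (F z) ≤ map F (𝓝 z) := by
  rcases hF.eventually_constant_or_nhds_le_map_nhds with h | h
  · exfalso
    obtain ⟨r, hr, hb⟩ := Metric.eventually_nhds_iff_ball.1 (h.and hs)
    have hz2 : z + (r / 2 : ℝ) ∈ ball z r := by
      rw [mem_ball, dist_eq_norm, add_sub_cancel_left, Complex.norm_real, Real.norm_eq_abs, abs_of_pos (by positivity)]
      linarith
    have h1 := hinj (hb _ hz2).2 (hb _ (mem_ball_self hr)).2 (hb _ hz2).1
    have h3 : ((r / 2 : ℝ) : ℂ) = 0 := by simpa using h1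
    rw [Complex.ofReal_eq_zero] at h3
    linarith
  · exact h

lemma open_at_good {u0 : OpenPartialHomeomorph X ℂ} {f : X → ℂ} {O : Set X} (hO : IsOpen O)
    (hf : Hol u0 f O) (hinj : InjOn f O) {x : X} (hx : x ∈ Good u0) (hxO : x ∈ O) :
    𝓝 (f x) ≤ map f (𝓝 x) := by
  obtain ⟨u, hu, hxu⟩ := hx
  have hd := good_diff_aux hu hO hf
  have hn : u.target ∩ u.symm ⁻¹' O ∈ 𝓝 (u x) := by
    apply (u.symm.isOpen_inter_preimage hO).mem_nhds
    refine ⟨u.map_source hxu, ?_⟩
    simp only [mem_preimage, u.left_inv hxu]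
    exact hxO
  have h1 := nhds_le_of_inj hn (hd.analyticAt hn) (fun a ha b hb hab => by
    have := hinj ha.2 hb.2 hab
    exact u.symm.injOn ha.1 hb.1 this)
  have h2 : map (f ∘ u.symm) (𝓝 (u x)) = map f (𝓝 x) := by
    rw [← Filter.map_map]
    congr 1
    have := u.symm.map_nhds_eq (x := u x) (u.map_source hxu)
    rw [this, u.left_inv hxu]
  rw [h2, Function.comp_apply, u.left_inv hxu] at h1
  exact h1

theorem transition {u0 : OpenPartialHomeomorph X ℂ} (hiso : ∀ x : X, ∀ᶠ y in 𝓝[≠] x, y ∈ Good u0)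
    {φ : OpenPartialHomeomorph X ℂ} (hφ : OSH u0 φ) {f : X → ℂ} {O : Set X} (hO : IsOpen O) (hf : Hol u0 f O) :
    DifferentiableOn ℂ (f ∘ φ.symm) (φ.target ∩ φ.symm ⁻¹' O) := by
  intro w hw
  apply DifferentiableAt.differentiableWithinAt
  have hxφ : φ.symm w ∈ φ.source := φ.map_target hw.1
  have hpt : ∀ w' ∈ φ.target ∩ φ.symm ⁻¹' O, φ.symm w' ∈ Good u0 → DifferentiableAt ℂ (f ∘ φ.symm) w' := by
    intro w' hw' hg
    have := good_diff hO hf hφ hg hw'.2 (φ.map_target hw'.1)
    rwa [φ.right_inv hw'.1] at this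
  have hnb := (φ.symm.isOpen_inter_preimage hO).mem_nhds hw
  apply removable
  · have : ContinuousOn (f ∘ φ.symm) (φ.target ∩ φ.symm ⁻¹' O) := by
      apply hf.1.comp (φ.continuousOn_symm.mono inter_subset_left)
      intro z hz; exact hz.2
    exact this.continuousAt hnb
  · have h2 : Tendsto φ.symm (𝓝[≠] w) (𝓝[≠] (φ.symm w)) := by
      apply tendsto_nhdsWithin_of_tendsto_nhds_of_eventually_within
      · exact (φ.continuousOn_symm.continuousAt (φ.open_target.mem_nhds hw.1)).tendsto.mono_left nhdsWithin_le_nhds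
      · have : ∀ᶠ z in 𝓝[≠] w, z ∈ φ.target :=
          eventually_nhdsWithin_of_eventually_nhds (φ.open_target.mem_nhds hw.1)
        filter_upwards [this, self_mem_nhdsWithin] with z hz1 hz2
        intro h3
        exact hz2 (φ.symm.injOn hz1 hw.1 h3)
    have h3 : ∀ᶠ z in 𝓝[≠] w, z ∈ φ.target ∩ φ.symm ⁻¹' O := eventually_nhdsWithin_of_eventually_nhds hnb
    filter_upwards [h2.eventually (hiso (φ.symm w)), h3] with z hz1 hz2
    exact hpt z hz2 hz1

/-- the atlas of all charts holomorphic off the seam -/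
noncomputable abbrev mkCharted (u0 : OpenPartialHomeomorph X ℂ) (hcov : ∀ x, ∃ φ, OSH u0 φ ∧ x ∈ φ.source) :
    ChartedSpace ℂ X where
  atlas := {φ | OSH u0 φ}
  chartAt x := (hcov x).choose
  mem_chart_source x := (hcov x).choose_spec.2
  chart_mem_atlas x := (hcov x).choose_spec.1

theorem mkManifold (u0 : OpenPartialHomeomorph X ℂ) (hcov : ∀ x, ∃ φ, OSH u0 φ ∧ x ∈ φ.source)
    (hiso : ∀ x : X, ∀ᶠ y in 𝓝[≠] x, y ∈ Good u0) :
    @IsManifold ℂ _ ℂ _ _ ℂ _ (modelWithCornersSelf ℂ ℂ) ω X _ (mkCharted u0 hcov) := by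
  letI := mkCharted u0 hcov
  apply isManifold_of_contDiffOn
  intro e e' he he'
  have h1 : OSH u0 e := he
  have h2 : OSH u0 e' := he'
  have h3 := transition hiso h1 e'.open_source h2.hol
  have h4 : IsOpen (e.target ∩ e.symm ⁻¹' e'.source) := e.symm.isOpen_inter_preimage e'.open_source
  have h5 : ContDiffOn ℂ ω (e' ∘ e.symm) (e.target ∩ e.symm ⁻¹' e'.source) :=
    (h3.analyticOnNhd h4).contDiffOn h4.uniqueDiffOn
  simpa using h5

end Pool.Agent.H813R2.Sew
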