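import Mathlib
set_option autoImplicit false
open Set Filter Topology Complex
open scoped Manifold ContDiff

/-!
# Conformal sewings of the half-strip: definitions
-/

namespace Pool.Agent.H813R2.Sew

/-- The closed half-strip `0 < Re z`, `0 ≤ Im z ≤ 1`, with only the sewn part of the top edge:
a top edge point `x' + i` is kept iff `x' = α x` for some `x > 0`.
(If `α(0) = 0`, this is the whole closed half-strip.) -/
def Strip (α : ℝ → ℝ) : Set ℂ :=
  {z | 0 < z.re ∧ 0 ≤ z.im ∧ z.im ≤ 1 ∧ (z.im = 1 → ∃ x, 0 < x ∧ α x = z.re)}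

/-- The open half-strip (the interior of `H`). -/
def openStrip : Set ℂ := {z | 0 < z.re ∧ 0 < z.im ∧ z.im < 1}

/-- The sewing `x ↦ α x + i` as an equivalence relation: `x` on the bottom edge is glued to
`α x + i` on the top edge, and nothing else is glued. -/
def Glue (α : ℝ → ℝ) (z w : ℂ) : Prop :=
  z = w ∨ (z.im = 0 ∧ w = (α z.re : ℂ) + I) ∨ (w.im = 0 ∧ z = (α w.re : ℂ) + I)

/-- `α` is an increasing homeomorphism of `(0, ∞)` onto `(a, ∞)` for some `a ≥ 0`. -/
def IsSewing (α : ℝ → ℝ) : Prop :=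
  StrictMonoOn α (Ioi 0) ∧ ContinuousOn α (Ioi 0) ∧ ∃ a, 0 ≤ a ∧ α '' Ioi 0 = Ioi a

/-- `X`, with the projection `π`, is the Riemann surface generated by `α`: it is a Hausdorff
one-dimensional complex manifold, `π` restricted to the strip is a topological quotient map whose
fibres are exactly the classes of the sewing, and `π` is holomorphic (hence, being injective there,
conformal) on the interior of the half-strip. -/
structure Generates (α : ℝ → ℝ) (X : Type) [TopologicalSpace X] [ChartedSpace ℂ X] (π : ℂ → X) :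
    Prop where
  t2 : T2Space X
  manifold : IsManifold 𝓘(ℂ) ω X
  quotient : IsQuotientMap (fun z : Strip α => π z)
  fibers : ∀ z ∈ Strip α, ∀ w ∈ Strip α, (π z = π w ↔ Glue α z w)
  holo : MDifferentiableOn 𝓘(ℂ) 𝓘(ℂ) π openStrip

/-- `x ↦ α x + i` is a conformal sewing. -/
def ConformalSewing (α : ℝ → ℝ) : Prop :=
  IsSewing α ∧ ∃ (X : Type) (_ : TopologicalSpace X) (_ : ChartedSpace ℂ X) (π : ℂ → X),
    Generates α X π

/-- The end at `∞` of the surface `X` (projection `π`) is hyperbolic: some neighbourhood `V` of the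
end (`V` contains the projections of all points of the strip with large real part), bounded by a
simple closed curve, is mapped conformally by `e` onto a ring `1 < |w| < ρ`, `ρ < ∞`. -/
def HyperbolicEnd (α : ℝ → ℝ) (X : Type) [TopologicalSpace X] [ChartedSpace ℂ X] (π : ℂ → X) :
    Prop :=
  ∃ (ρ : ℝ) (e : OpenPartialHomeomorph X ℂ), 1 < ρ ∧
    e ∈ IsManifold.maximalAtlas 𝓘(ℂ) ω X ∧
    e.target = {w : ℂ | 1 < ‖w‖ ∧ ‖w‖ < ρ} ∧
    (∃ R : ℝ, ∀ z ∈ Strip α, R < z.re → π z ∈ e.source) ∧
    (∃ γ : Circle → X, Continuous γ ∧ Function.Injective γ ∧ range γ = frontier e.source)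

/-- `α` is a hyperbolic sewing: the surface it generates has a hyperbolic end at `∞`. -/
def HyperbolicSewing (α : ℝ → ℝ) : Prop :=
  ∃ (X : Type) (_ : TopologicalSpace X) (_ : ChartedSpace ℂ X) (π : ℂ → X),
    Generates α X π ∧ HyperbolicEnd α X π

end Pool.Agent.H813R2.Sew
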