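import Mathlib
import Pool.Agent.H813R2.SewDef
import Pool.Agent.H813R2.Sew9
set_option autoImplicit false
open MeasureTheory Set Filter Topology Complex Metric
open scoped ENNReal Real ComplexConjugate Interval Manifold ContDiff

namespace Pool.Agent.H813R2.Sew

variable {β : ℝ → ℝ}

/-- normal form of a point of the strip -/
noncomputable def nf (β : ℝ → ℝ) (z : ℂ) : ℂ := if z.im = 0 then (β z.re : ℂ) + I else z

/-- the glued space -/
abbrev XX (β : ℝ → ℝ) : Type := Quotient (Setoid.ker (fun z : Strip β => nf β z))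

noncomputable def pt0 (β : ℝ → ℝ) : Strip β := ⟨⟨1, 1 / 2⟩, by
  refine ⟨by norm_num, by norm_num, by norm_num, ?_⟩
  intro h; norm_num at h⟩

open Classical in
/-- the projection -/
noncomputable def pj (β : ℝ → ℝ) (z : ℂ) : XX β :=
  if h : z ∈ Strip β then Quotient.mk _ ⟨z, h⟩ else Quotient.mk _ (pt0 β)

lemma pj_mem {z : ℂ} (h : z ∈ Strip β) : pj β z = Quotient.mk _ ⟨z, h⟩ := by
  unfold pj; rw [dif_pos h]

lemma pj_eq {z w : ℂ} (hz : z ∈ Strip β) (hw : w ∈ Strip β) : pj β z = pj β w ↔ nf β z = nf β w := by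
  rw [pj_mem hz, pj_mem hw, Quotient.eq]
  exact Iff.rfl

lemma pj_quot : IsQuotientMap (fun z : Strip β => pj β z) := by
  have : (fun z : Strip β => pj β z) = Quotient.mk (Setoid.ker (fun z : Strip β => nf β z)) := by
    funext z
    exact pj_mem z.2
  rw [this]
  exact isQuotientMap_quotient_mk'

lemma pj_surj (x : XX β) : ∃ z ∈ Strip β, pj β z = x := by
  obtain ⟨z, hz⟩ := pj_quot.surjective x
  exact ⟨z, z.2, hz⟩

lemma pj_contOn : ContinuousOn (pj β) (Strip β) := by
  rw [continuousOn_iff_continuous_domRestrict]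
  exact pj_quot.continuous

lemma nf_eq_iff (hβ : StrictMonoOn β (Ioi 0)) {z w : ℂ} (hz : z ∈ Strip β) (hw : w ∈ Strip β) :
    nf β z = nf β w ↔ Glue β z w := by
  unfold nf Glue
  by_cases h1 : z.im = 0
  · rw [if_pos h1]
    by_cases h2 : w.im = 0
    · rw [if_pos h2]
      constructor
      · intro h
        left
        have h3 : (β z.re : ℂ) = β w.re := add_right_cancel h
        rw [Complex.ofReal_inj] at h3
        exact Complex.ext (hβ.injOn hz.1 hw.1 h3) (h1.trans h2.symm)
      · rintro (h | h | h)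
        · rw [h]
        · exfalso
          have := congrArg Complex.im h.2
          simp [h2] at this
        · exfalso
          have := congrArg Complex.im h.2
          simp [h1] at this
    · rw [if_neg h2]
      constructor
      · intro h; right; left; exact ⟨h1, h.symm⟩
      · rintro (h | h | h)
        · exfalso; rw [h] at h1; exact h2 h1
        · exact h.2.symm
        · exact absurd h.1 h2
  · rw [if_neg h1]
    by_cases h2 : w.im = 0
    · rw [if_pos h2]
      constructor
      · intro h; right; right; exact ⟨h2, h⟩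
      · rintro (h | h | h)
        · exfalso; rw [← h] at h2; exact h1 h2
        · exact absurd h.1 h1
        · exact h.2
    · rw [if_neg h2]
      constructor
      · intro h; left; exact h
      · rintro (h | h | h)
        · exact h
        · exact absurd h.1 h1
        · exact absurd h.1 h2

lemma openStrip_sub : openStrip ⊆ Strip β := by
  rintro z ⟨h1, h2, h3⟩
  exact ⟨h1, h2.le, h3.le, fun h => absurd h h3.ne⟩

lemma isOpen_openStrip : IsOpen openStrip := by
  have : openStrip = Complex.re ⁻¹' (Ioi 0) ∩ Complex.im ⁻¹' (Ioo 0 1) := by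
    ext z; simp [openStrip]
  rw [this]
  exact (isOpen_Ioi.preimage Complex.continuous_re).inter (isOpen_Ioo.preimage Complex.continuous_im)

lemma nf_open {z w : ℂ} (hz : z ∈ openStrip) (hw : w ∈ Strip β) (h : nf β z = nf β w) : z = w := by
  unfold nf at h
  rw [if_neg hz.2.1.ne'] at h
  by_cases h2 : w.im = 0
  · rw [if_pos h2] at h
    exfalso
    have := congrArg Complex.im h
    have := hz.2.2
    simp_all
  · rwa [if_neg h2] at h

/-- saturated relatively open sets have open images -/
lemma image_open {W O : Set ℂ} (hW : W = O ∩ Strip β) (hO : IsOpen O)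
    (hsat : ∀ z ∈ W, ∀ w ∈ Strip β, nf β z = nf β w → w ∈ W) :
    IsOpen (pj β '' W) ∧ ∀ z ∈ Strip β, (pj β z ∈ pj β '' W ↔ z ∈ W) := by
  have h1 : ∀ z ∈ Strip β, (pj β z ∈ pj β '' W ↔ z ∈ W) := by
    intro z hz
    constructor
    · rintro ⟨w, hw, hwz⟩
      have hw' : w ∈ Strip β := by rw [hW] at hw; exact hw.2
      exact hsat w hw z hz ((pj_eq hw' hz).1 hwz)
    · intro h; exact ⟨z, h, rfl⟩
  refine ⟨?_, h1⟩
  rw [← pj_quot.isOpen_preimage]
  have : (fun z : Strip β => pj β z) ⁻¹' (pj β '' W) = Subtype.val ⁻¹' O := by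
    ext z
    simp only [mem_preimage]
    rw [h1 z z.2, hW]
    simp [z.2]
  rw [this]
  exact hO.preimage continuous_subtype_val

/-- the inverse of the interior chart -/
noncomputable def v0 (β : ℝ → ℝ) : OpenPartialHomeomorph ℂ (XX β) :=
  OpenPartialHomeomorph.ofContinuousOpenRestrict
    ((show InjOn (pj β) openStrip from fun _ hz _ hw h =>
      nf_open hz (openStrip_sub hw) ((pj_eq (openStrip_sub hz) (openStrip_sub hw)).1 h)).toPartialEquiv)
    (pj_contOn.mono openStrip_sub)
    (by
      intro U hU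
      obtain ⟨O, hO, rfl⟩ := isOpen_induced_iff.1 hU
      have e : (openStrip.domRestrict (pj β)) '' (Subtype.val ⁻¹' O) = pj β '' (O ∩ openStrip) := by
        ext x
        constructor
        · rintro ⟨z, hz, rfl⟩; exact ⟨z, ⟨hz, z.2⟩, rfl⟩
        · rintro ⟨z, hz, rfl⟩; exact ⟨⟨z, hz.2⟩, hz.1, rfl⟩
      have := (image_open (β := β) (W := O ∩ openStrip) (O := O ∩ openStrip)
        (by rw [inter_assoc, inter_eq_left.2 (openStrip_sub (β := β))]) (hO.inter isOpen_openStrip)
        (fun z hz w hw h => by rw [← nf_open hz.2 hw h]; exact hz)).1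
      rw [← e] at this
      exact this)
    isOpen_openStrip

lemma v0_source : (v0 β).source = openStrip := rfl
lemma v0_coe : ⇑(v0 β) = pj β := rfl

/-- the interior chart -/
noncomputable def u0 (β : ℝ → ℝ) : OpenPartialHomeomorph (XX β) ℂ := (v0 β).symm

lemma u0_target : (u0 β).target = openStrip := rfl
lemma u0_symm : ⇑(u0 β).symm = pj β := rfl
lemma u0_source : (u0 β).source = pj β '' openStrip := by
  rw [← u0_symm, ← u0_target]
  exact (u0 β).symm_image_target_eq_source.symm

lemma v0_symm_pj {z : ℂ} (hz : z ∈ openStrip) : u0 β (pj β z) = z := (v0 β).left_inv hz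

/-- general construction of a chart -/
theorem mkChart {W O : Set ℂ} {C : ℂ → ℂ} (hW : W = O ∩ Strip β) (hO : IsOpen O)
    (hsat : ∀ z ∈ W, ∀ w ∈ Strip β, nf β z = nf β w → w ∈ W)
    (hC : ContinuousOn C W) (hinj : ∀ z ∈ W, ∀ w ∈ W, (C z = C w ↔ nf β z = nf β w))
    (hopen : ∀ z ∈ W, 𝓝 (C z) ≤ map C (⨆ w ∈ {w | w ∈ W ∧ nf β w = nf β z}, 𝓝[Strip β] w)) :
    ∃ φ : OpenPartialHomeomorph (XX β) ℂ, φ.source = pj β '' W ∧ ∀ z ∈ W, φ (pj β z) = C z := by
  obtain ⟨hUo, hU⟩ := image_open hW hO hsat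
  have hWS : W ⊆ Strip β := by rw [hW]; exact inter_subset_right
  set f : XX β → ℂ := fun x => C (Quotient.out x : Strip β) with hf
  have hfpj : ∀ z ∈ W, f (pj β z) = C z := by
    intro z hz
    have h1 : pj β ((Quotient.out (pj β z) : Strip β) : ℂ) = pj β z := by
      rw [pj_mem (Quotient.out (pj β z)).2]
      exact Quotient.out_eq _
    have h2 : ((Quotient.out (pj β z) : Strip β) : ℂ) ∈ W := by
      rw [← hU _ (Quotient.out (pj β z)).2, h1]
      exact ⟨z, hz, rfl⟩
    exact (hinj _ h2 _ hz).2 ((pj_eq (hWS h2) (hWS hz)).1 h1)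
  have hfinj : InjOn f (pj β '' W) := by
    rintro _ ⟨z, hz, rfl⟩ _ ⟨w, hw, rfl⟩ h
    rw [hfpj z hz, hfpj w hw, hinj z hz w hw] at h
    exact (pj_eq (hWS hz) (hWS hw)).2 h
  have hfc : ContinuousOn f (pj β '' W) := by
    rw [pj_quot.continuousOn_isOpen_iff hUo]
    have e : (fun z : Strip β => pj β z) ⁻¹' (pj β '' W) = Subtype.val ⁻¹' W := by
      ext z; exact hU z z.2
    rw [e]
    have : ContinuousOn (C ∘ (Subtype.val : Strip β → ℂ)) (Subtype.val ⁻¹' W) :=
      hC.comp continuous_subtype_val.continuousOn (fun z hz => hz)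
    exact this.congr (fun z hz => hfpj z hz)
  haveI : Nonempty (XX β) := ⟨pj β 1⟩
  have hopen' : ∀ x ∈ pj β '' W, 𝓝 (f x) ≤ map f (𝓝 x) := by
    rintro _ ⟨z, hz, rfl⟩
    rw [hfpj z hz]
    refine (hopen z hz).trans ?_
    rw [Filter.map_iSup]
    apply iSup_le
    intro w
    rw [Filter.map_iSup]
    apply iSup_le
    rintro ⟨hwW, hwz⟩
    have hpw : pj β w = pj β z := (pj_eq (hWS hwW) (hWS hz)).2 hwz
    have hcw : Tendsto (pj β) (𝓝[Strip β] w) (𝓝 (pj β z)) := by
      have := pj_contOn w (hWS hwW)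
      unfold ContinuousWithinAt at this
      rwa [hpw] at this
    have hev : C =ᶠ[𝓝[Strip β] w] f ∘ pj β := by
      have : W ∈ 𝓝[Strip β] w := by
        rw [hW, inter_comm]
        exact inter_mem_nhdsWithin _ (hO.mem_nhds (by rw [hW] at hwW; exact hwW.1))
      filter_upwards [this] with v hv
      exact (hfpj v hv).symm
    rw [Filter.map_congr hev, ← Filter.map_map]
    exact Filter.map_mono hcw
  have hom : IsOpenMap ((pj β '' W).domRestrict f) := by
    rw [isOpenMap_iff_nhds_le]
    rintro ⟨x, hx⟩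
    have h1 : map ((pj β '' W).domRestrict f) (𝓝 ⟨x, hx⟩) = map f (𝓝 x) := by
      have : (pj β '' W).domRestrict f = f ∘ Subtype.val := rfl
      rw [this, ← Filter.map_map, map_nhds_subtype_coe_eq_nhds hx (hUo.mem_nhds hx)]
    have h2 := hopen' x hx
    rw [← h1] at h2
    exact h2
  exact ⟨OpenPartialHomeomorph.ofContinuousOpenRestrict hfinj.toPartialEquiv hfc hom hUo, rfl, hfpj⟩

end Pool.Agent.H813R2.Sew
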