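import Mathlib
import Pool.Agent.H813R2.Sew10
set_option autoImplicit false
open MeasureTheory Set Filter Topology Complex Metric
open scoped ENNReal Real ComplexConjugate Interval Manifold ContDiff

namespace Pool.Agent.H813R2.Sew

structure Model (g : ℝ → ℝ) (Ep Em : ℂ → ℂ) : Prop where
  contP : ContinuousOn Ep {T | 0 ≤ T.im}
  contM : ContinuousOn Em {T | T.im ≤ 0}
  diffP : ∀ T : ℂ, 0 < T.im → DifferentiableAt ℂ Ep T
  diffM : ∀ T : ℂ, T.im < 0 → DifferentiableAt ℂ Em T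
  glue : ∀ t : ℝ, Ep t = Em (g t)
  injP : InjOn Ep {T | 0 ≤ T.im}
  injM : InjOn Em {T | T.im ≤ 0}
  cross : ∀ T M : ℂ, 0 ≤ T.im → M.im ≤ 0 → Ep T = Em M → T.im = 0 ∧ M = g T.re
  nb : ∀ t : ℝ, 𝓝 (Ep t) ≤ map Ep (𝓝[{T | 0 ≤ T.im}] (t : ℂ)) ⊔ map Em (𝓝[{T | T.im ≤ 0}] (g t : ℂ))

lemma model_id : Model id id id where
  contP := continuousOn_id
  contM := continuousOn_id
  diffP _ _ := differentiableAt_id
  diffM _ _ := differentiableAt_id
  glue _ := rfl
  injP := injOn_id _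
  injM := injOn_id _
  cross T M h1 h2 h := by
    simp only [id] at h
    rw [← h] at h2
    have : T.im = 0 := le_antisymm h2 h1
    refine ⟨this, ?_⟩
    rw [← h]
    apply Complex.ext <;> simp [this]
  nb t := by
    show 𝓝 (t:ℂ) ≤ map id (𝓝[{T | 0 ≤ T.im}] (t : ℂ)) ⊔ map id (𝓝[{T | T.im ≤ 0}] (t : ℂ))
    rw [Filter.map_id, Filter.map_id, ← nhdsWithin_union]
    have : {T : ℂ | 0 ≤ T.im} ∪ {T | T.im ≤ 0} = univ := by
      ext T; simp [le_total]
    rw [this, nhdsWithin_univ]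

structure Coord (L : ℂ → ℂ) (a b η : ℝ) : Prop where
  diff : ∀ z : ℂ, a < z.re → z.re < b → |z.im| < η → DifferentiableAt ℂ L z
  real : ∀ x : ℝ, a < x → x < b → (L x).im = 0
  pos : ∀ z : ℂ, a < z.re → z.re < b → |z.im| < η → 0 < z.im → 0 < (L z).im
  neg : ∀ z : ℂ, a < z.re → z.re < b → |z.im| < η → z.im < 0 → (L z).im < 0
  inj : ∀ z w : ℂ, a < z.re → z.re < b → |z.im| < η → a < w.re → w.re < b → |w.im| < η → L z = L w → z = w

variable {L : ℂ → ℂ} {a b η : ℝ}

def RR (a b η : ℝ) : Set ℂ := {z | a < z.re ∧ z.re < b ∧ |z.im| < η}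

lemma isOpen_RR : IsOpen (RR a b η) := by
  have : RR a b η = Complex.re ⁻¹' (Ioo a b) ∩ (fun z : ℂ => |z.im|) ⁻¹' (Iio η) := by
    ext z; simp [RR, and_assoc]
  rw [this]
  exact (isOpen_Ioo.preimage Complex.continuous_re).inter
    (isOpen_Iio.preimage (Complex.continuous_im.abs))

lemma Coord.real' (h : Coord L a b η) {z : ℂ} (h1 : a < z.re) (h2 : z.re < b) (h3 : z.im = 0) :
    (L z).im = 0 := by
  have : z = (z.re : ℂ) := by apply Complex.ext <;> simp [h3]
  rw [this]; exact h.real _ h1 h2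

lemma Coord.nonneg (h : Coord L a b η) {z : ℂ} (h1 : a < z.re) (h2 : z.re < b) (h3 : |z.im| < η)
    (h4 : 0 ≤ z.im) : 0 ≤ (L z).im := by
  rcases h4.eq_or_lt with h5 | h5
  · exact (h.real' h1 h2 h5.symm).ge
  · exact (h.pos z h1 h2 h3 h5).le

lemma Coord.nonpos (h : Coord L a b η) {z : ℂ} (h1 : a < z.re) (h2 : z.re < b) (h3 : |z.im| < η)
    (h4 : z.im ≤ 0) : (L z).im ≤ 0 := by
  rcases h4.eq_or_lt with h5 | h5
  · exact (h.real' h1 h2 h5).le
  · exact (h.neg z h1 h2 h3 h5).le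

lemma Coord.an (h : Coord L a b η) {z : ℂ} (hz : z ∈ RR a b η) : AnalyticAt ℂ L z := by
  have : DifferentiableOn ℂ L (RR a b η) := fun w hw => (h.diff w hw.1 hw.2.1 hw.2.2).differentiableWithinAt
  exact this.analyticAt (isOpen_RR.mem_nhds hz)

lemma Coord.injOn (h : Coord L a b η) : InjOn L (RR a b η) :=
  fun z hz w hw hzw => h.inj z w hz.1 hz.2.1 hz.2.2 hw.1 hw.2.1 hw.2.2 hzw

lemma Coord.open' (h : Coord L a b η) {z : ℂ} (hz : z ∈ RR a b η) : 𝓝 (L z) ≤ map L (𝓝 z) :=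
  nhds_le_of_inj (isOpen_RR.mem_nhds hz) (h.an hz) h.injOn

lemma Coord.halfP (h : Coord L a b η) {z : ℂ} (hz : z ∈ RR a b η) :
    𝓝[{T | 0 ≤ T.im}] (L z) ≤ map L (𝓝[{T | 0 ≤ T.im}] z) := by
  intro A hA
  rw [mem_map, mem_nhdsWithin_iff_exists_mem_nhds_inter] at hA
  obtain ⟨B, hB, hBA⟩ := hA
  have h1 : L '' (B ∩ RR a b η) ∈ 𝓝 (L z) :=
    h.open' hz (image_mem_map (inter_mem hB (isOpen_RR.mem_nhds hz)))
  rw [mem_nhdsWithin_iff_exists_mem_nhds_inter]
  refine ⟨_, h1, ?_⟩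
  rintro _ ⟨⟨w, ⟨hwB, hw⟩, rfl⟩, hw2⟩
  apply hBA
  refine ⟨hwB, ?_⟩
  by_contra h3
  simp only [mem_setOf_eq, not_le] at h3
  exact absurd hw2 (not_le.2 (h.neg w hw.1 hw.2.1 hw.2.2 h3))

lemma Coord.halfM (h : Coord L a b η) {z : ℂ} (hz : z ∈ RR a b η) :
    𝓝[{T | T.im ≤ 0}] (L z) ≤ map L (𝓝[{T | T.im ≤ 0}] z) := by
  intro A hA
  rw [mem_map, mem_nhdsWithin_iff_exists_mem_nhds_inter] at hA
  obtain ⟨B, hB, hBA⟩ := hA
  have h1 : L '' (B ∩ RR a b η) ∈ 𝓝 (L z) :=
    h.open' hz (image_mem_map (inter_mem hB (isOpen_RR.mem_nhds hz)))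
  rw [mem_nhdsWithin_iff_exists_mem_nhds_inter]
  refine ⟨_, h1, ?_⟩
  rintro _ ⟨⟨w, ⟨hwB, hw⟩, rfl⟩, hw2⟩
  apply hBA
  refine ⟨hwB, ?_⟩
  by_contra h3
  simp only [mem_setOf_eq, not_le] at h3
  exact absurd hw2 (not_le.2 (h.pos w hw.1 hw.2.1 hw.2.2 h3))

/-- local coordinates exist near points with positive derivative -/
lemma coord_of_deriv {L : ℂ → ℂ} {p r a b η : ℝ}
    (hd : ∀ z ∈ ball (p : ℂ) r, DifferentiableAt ℂ L z ∧ 0 < (deriv L z).re)
    (hreal : ∀ x : ℝ, (x : ℂ) ∈ ball (p : ℂ) r → (L x).im = 0)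
    (hR : RR a b η ⊆ ball (p : ℂ) r) (hη : 0 < η) : Coord L a b η := by
  -- monotonicity along segments
  have mono : ∀ z ∈ ball (p : ℂ) r, ∀ w ∈ ball (p : ℂ) r, z ≠ w → 0 < ((L w - L z) * conj (w - z)).re := by
    intro z hz w hw hzw
    set G : ℝ → ℝ := fun t => ((L (z + t * (w - z))) * conj (w - z)).re with hG
    have hseg : ∀ t ∈ Icc (0:ℝ) 1, z + t * (w - z) ∈ ball (p : ℂ) r := by
      intro t ht
      have := (convex_ball (p:ℂ) r) hz hw (sub_nonneg.2 ht.2) ht.1 (by ring)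
      convert this using 1
      simp only [Complex.real_smul]; push_cast; ring
    have hder : ∀ t ∈ Icc (0:ℝ) 1, HasDerivAt G ((deriv L (z + t * (w - z)) * (w - z) * conj (w - z)).re) t := by
      intro t ht
      have h1 := (hd _ (hseg t ht)).1.hasDerivAt
      have h2 : HasDerivAt (fun t : ℝ => z + (t:ℂ) * (w - z)) (w - z) t := by
        have := ((Complex.ofRealCLM.hasDerivAt (x := t)).mul_const (w - z)).const_add z
        simpa using this
      have h3 : HasDerivAt (fun t : ℝ => L (z + (t:ℂ) * (w - z))) (deriv L (z + t * (w - z)) * (w - z)) t :=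
        h1.comp t h2
      have h4 := h3.mul_const (conj (w - z))
      exact Complex.reCLM.hasFDerivAt.comp_hasDerivAt t h4
    have hpos : ∀ t ∈ Icc (0:ℝ) 1, 0 < (deriv L (z + t * (w - z)) * (w - z) * conj (w - z)).re := by
      intro t ht
      rw [mul_assoc, Complex.mul_conj, Complex.re_mul_ofReal]
      have : 0 < Complex.normSq (w - z) := Complex.normSq_pos.2 (sub_ne_zero.2 (Ne.symm hzw))
      exact mul_pos (hd _ (hseg t ht)).2 this
    have hmono : StrictMonoOn G (Icc 0 1) := by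
      apply strictMonoOn_of_deriv_pos (convex_Icc 0 1)
      · exact fun t ht => (hder t ht).continuousAt.continuousWithinAt
      · intro t ht
        rw [interior_Icc] at ht
        have ht' := Ioo_subset_Icc_self ht
        rw [(hder t ht').deriv]
        exact hpos t ht'
    have := hmono (left_mem_Icc.2 zero_le_one) (right_mem_Icc.2 zero_le_one) zero_lt_one
    simp only [hG, Complex.ofReal_zero, zero_mul, add_zero, Complex.ofReal_one, one_mul, add_sub_cancel] at this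
    rw [sub_mul, Complex.sub_re]
    linarith
  have key : ∀ z ∈ RR a b η, z.im ≠ 0 → 0 < (L z).im * z.im := by
    intro z hz hz0
    have hz1 : z ∈ ball (p:ℂ) r := hR hz
    have hz2 : ((z.re : ℝ) : ℂ) ∈ ball (p:ℂ) r := by
      apply hR
      exact ⟨by simpa using hz.1, by simpa using hz.2.1, by simpa using hη⟩
    have := mono _ hz2 _ hz1 (by
      intro h
      have := congrArg Complex.im h
      simp at this
      exact hz0 this.symm)
    have e1 : z - (z.re : ℂ) = (z.im : ℂ) * I := by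
      apply Complex.ext <;> simp
    rw [e1] at this
    simp only [map_mul, Complex.conj_ofReal, Complex.conj_I, mul_neg, Complex.neg_re, Complex.mul_re,
      Complex.mul_im, Complex.ofReal_re, Complex.ofReal_im, Complex.I_re, Complex.I_im, Complex.sub_re, Complex.sub_im] at this
    rw [hreal _ hz2] at this
    linarith
  constructor
  · intro z h1 h2 h3
    exact (hd z (hR ⟨h1, h2, h3⟩)).1
  · intro x h1 h2
    apply hreal
    apply hR
    exact ⟨by simpa using h1, by simpa using h2, by simpa using hη⟩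
  · intro z h1 h2 h3 h4
    have := key z ⟨h1, h2, h3⟩ h4.ne'
    exact pos_of_mul_pos_left this h4.le
  · intro z h1 h2 h3 h4
    have := key z ⟨h1, h2, h3⟩ h4.ne
    by_contra h5
    push Not at h5
    nlinarith
  · intro z w h1 h2 h3 h4 h5 h6 h7
    by_contra h
    have := mono z (hR ⟨h1, h2, h3⟩) w (hR ⟨h4, h5, h6⟩) h
    rw [h7] at this
    simp at this

end Pool.Agent.H813R2.Sew
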