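import Mathlib
import Pool.Agent.H813R2.Sew11
set_option autoImplicit false
open MeasureTheory Set Filter Topology Complex Metric
open scoped ENNReal Real ComplexConjugate Interval Manifold ContDiff

namespace Pool.Agent.H813R2.Sew

variable {β : ℝ → ℝ} {a b η : ℝ} {L M : ℂ → ℂ} {g : ℝ → ℝ} {Ep Em : ℂ → ℂ}

structure Sewn (β : ℝ → ℝ) : Prop where
  mono : StrictMonoOn β (Ioi 0)
  cont : ContinuousOn β (Ioi 0)
  img : β '' Ioi 0 = Ioi 0

lemma Sewn.pos (h : Sewn β) {x : ℝ} (hx : 0 < x) : 0 < β x := by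
  have : β x ∈ β '' Ioi 0 := ⟨x, hx, rfl⟩
  rw [h.img] at this; exact this

lemma Sewn.surj (h : Sewn β) {y : ℝ} (hy : 0 < y) : ∃ x, 0 < x ∧ β x = y := by
  have : y ∈ β '' Ioi 0 := by rw [h.img]; exact hy
  obtain ⟨x, hx, h1⟩ := this
  exact ⟨x, hx, h1⟩

lemma Sewn.strip (h : Sewn β) : Strip β = {z : ℂ | 0 < z.re ∧ 0 ≤ z.im ∧ z.im ≤ 1} := by
  ext z
  constructor
  · rintro ⟨h1, h2, h3, _⟩; exact ⟨h1, h2, h3⟩
  · rintro ⟨h1, h2, h3⟩; exact ⟨h1, h2, h3, fun _ => h.surj h1⟩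

structure SeamIn (β : ℝ → ℝ) (a b η : ℝ) (L M : ℂ → ℂ) (g : ℝ → ℝ) (Ep Em : ℂ → ℂ) : Prop where
  ha : 0 < a
  hab : a < b
  hη : 0 < η
  hη2 : η ≤ 1 / 2
  cL : Coord L a b η
  cM : Coord M (β a) (β b) η
  rel : ∀ x : ℝ, a < x → x < b → M (β x) = g (L x).re
  model : Model g Ep Em

/-- chart function -/
noncomputable def CC (L M Ep Em : ℂ → ℂ) (z : ℂ) : ℂ := if z.im < 1 / 2 then Ep (L z) else Em (M (z - I))

/-- chart domain -/
def WW (β : ℝ → ℝ) (a b η : ℝ) : Set ℂ :=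
  {z | (a < z.re ∧ z.re < b ∧ z.im < η) ∨ (β a < z.re ∧ z.re < β b ∧ 1 - η < z.im)}

lemma isOpen_WW : IsOpen (WW β a b η) := by
  have : WW β a b η = (Complex.re ⁻¹' (Ioo a b) ∩ Complex.im ⁻¹' (Iio η)) ∪
      (Complex.re ⁻¹' (Ioo (β a) (β b)) ∩ Complex.im ⁻¹' (Ioi (1 - η))) := by
    ext z; simp [WW, and_assoc]
  rw [this]
  exact ((isOpen_Ioo.preimage Complex.continuous_re).inter (isOpen_Iio.preimage Complex.continuous_im)).union
    ((isOpen_Ioo.preimage Complex.continuous_re).inter (isOpen_Ioi.preimage Complex.continuous_im))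

variable (hs : Sewn β) (h : SeamIn β a b η L M g Ep Em)

include h in
lemma SeamIn.low {z : ℂ} (hz : z ∈ WW β a b η ∩ Strip β) (hi : z.im < 1 / 2) : z ∈ RR a b η ∧ 0 ≤ z.im := by
  have h0 : 0 ≤ z.im := hz.2.2.1
  refine ⟨?_, h0⟩
  rcases hz.1 with h1 | h1
  · exact ⟨h1.1, h1.2.1, by rw [abs_of_nonneg h0]; exact h1.2.2⟩
  · exfalso; have := h.hη2; linarith [h1.2.2]

include h in
lemma SeamIn.high {z : ℂ} (hz : z ∈ WW β a b η ∩ Strip β) (hi : ¬ z.im < 1 / 2) :
    z - I ∈ RR (β a) (β b) η ∧ (z - I).im ≤ 0 := by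
  have h0 : z.im ≤ 1 := hz.2.2.2.1
  have h0' : (z - I).im ≤ 0 := by simp; linarith
  refine ⟨?_, h0'⟩
  rcases hz.1 with h1 | h1
  · exfalso; have := h.hη2; exact hi (lt_of_lt_of_le h1.2.2 this)
  · refine ⟨by simpa using h1.1, by simpa using h1.2.1, ?_⟩
    rw [abs_of_nonpos h0']
    simp; linarith [h1.2.2]

lemma CC_low {z : ℂ} (hi : z.im < 1 / 2) : CC L M Ep Em z = Ep (L z) := if_pos hi
lemma CC_high {z : ℂ} (hi : ¬ z.im < 1 / 2) : CC L M Ep Em z = Em (M (z - I)) := if_neg hi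

include h in
lemma SeamIn.cont : ContinuousOn (CC L M Ep Em) (WW β a b η ∩ Strip β) := by
  intro z hz
  by_cases hi : z.im < 1 / 2
  · obtain ⟨h1, h2⟩ := h.low hz hi
    have hn : {w : ℂ | w.im < 1 / 2} ∈ 𝓝 z := (isOpen_Iio.preimage Complex.continuous_im).mem_nhds hi
    have hc : ContinuousWithinAt (Ep ∘ L) ((WW β a b η ∩ Strip β) ∩ {w : ℂ | w.im < 1 / 2}) z := by
      apply ContinuousWithinAt.comp (t := {T | 0 ≤ T.im})
      · exact h.model.contP _ (h.cL.nonneg h1.1 h1.2.1 h1.2.2 h2)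
      · exact (h.cL.diff z h1.1 h1.2.1 h1.2.2).continuousAt.continuousWithinAt
      · rintro w ⟨hw, hw2⟩
        obtain ⟨h3, h4⟩ := h.low hw hw2
        exact h.cL.nonneg h3.1 h3.2.1 h3.2.2 h4
    have hc2 := (continuousWithinAt_inter hn).1 hc
    apply hc2.congr_of_eventuallyEq
    · filter_upwards [mem_nhdsWithin_of_mem_nhds hn] with w hw
      exact CC_low hw
    · exact CC_low hi
  · obtain ⟨h1, h2⟩ := h.high hz hi
    have hlt : 1 / 2 < z.im := by
      rcases hz.1 with h3 | h3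
      · exfalso; have := h.hη2; exact hi (lt_of_lt_of_le h3.2.2 this)
      · have := h.hη2; linarith [h3.2.2]
    have hn : {w : ℂ | 1 / 2 < w.im} ∈ 𝓝 z := (isOpen_Ioi.preimage Complex.continuous_im).mem_nhds hlt
    have hc : ContinuousWithinAt (Em ∘ (fun w => M (w - I))) ((WW β a b η ∩ Strip β) ∩ {w : ℂ | 1 / 2 < w.im}) z := by
      apply ContinuousWithinAt.comp (t := {T | T.im ≤ 0})
      · exact h.model.contM _ (h.cM.nonpos h1.1 h1.2.1 h1.2.2 h2)
      · have h5 := (h.cM.diff _ h1.1 h1.2.1 h1.2.2).continuousAt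
        have h6 : ContinuousAt (fun w : ℂ => w - I) z := by fun_prop
        exact (ContinuousAt.comp (f := fun w : ℂ => w - I) (g := M) h5 h6).continuousWithinAt
      · rintro w ⟨hw, hw2⟩
        obtain ⟨h3, h4⟩ := h.high hw (not_lt.2 (le_of_lt hw2))
        exact h.cM.nonpos h3.1 h3.2.1 h3.2.2 h4
    have hc2 := (continuousWithinAt_inter hn).1 hc
    apply hc2.congr_of_eventuallyEq
    · filter_upwards [mem_nhdsWithin_of_mem_nhds hn] with w hw
      exact CC_high (not_lt.2 (le_of_lt hw))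
    · exact CC_high hi

include hs h in
lemma SeamIn.mixed {z w : ℂ} (hz : z ∈ WW β a b η ∩ Strip β) (hw : w ∈ WW β a b η ∩ Strip β)
    (hi : z.im < 1 / 2) (hj : ¬ w.im < 1 / 2) : CC L M Ep Em z = CC L M Ep Em w ↔ nf β z = nf β w := by
  rw [nf_eq_iff hs.mono hz.2 hw.2, CC_low hi, CC_high hj]
  obtain ⟨h1, h2⟩ := h.low hz hi
  obtain ⟨h3, h4⟩ := h.high hw hj
  constructor
  · intro heq
    obtain ⟨h5, h6⟩ := h.model.cross _ _ (h.cL.nonneg h1.1 h1.2.1 h1.2.2 h2) (h.cM.nonpos h3.1 h3.2.1 h3.2.2 h4) heq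
    have h7 : z.im = 0 := by
      by_contra h8
      have h9 : 0 < z.im := lt_of_le_of_ne h2 (Ne.symm h8)
      exact absurd h5 (h.cL.pos z h1.1 h1.2.1 h1.2.2 h9).ne'
    have hzr : z = (z.re : ℂ) := by apply Complex.ext <;> simp [h7]
    have h8 := h.rel z.re h1.1 h1.2.1
    rw [← hzr] at h8
    rw [← h8] at h6
    have hb : (β z.re : ℂ) ∈ RR (β a) (β b) η := by
      refine ⟨?_, ?_, by simpa using h.hη⟩
      · simpa using hs.mono h.ha (h.ha.trans h1.1) h1.1
      · simpa using hs.mono (h.ha.trans h1.1) (h.ha.trans (h1.1.trans h1.2.1)) h1.2.1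
    have h9 := h.cM.injOn h3 hb h6
    right; left
    refine ⟨h7, ?_⟩
    rw [← h9]; ring
  · rintro (h5 | h5 | h5)
    · rw [h5] at hi; exact absurd hi hj
    · have hzr : z = (z.re : ℂ) := by apply Complex.ext <;> simp [h5.1]
      rw [h5.2, add_sub_cancel_right, h.rel z.re h1.1 h1.2.1, ← h.model.glue, ← hzr]
      congr 1
      apply Complex.ext
      · simp
      · simp only [Complex.ofReal_im]; exact h.cL.real' h1.1 h1.2.1 h5.1
    · exfalso; rw [h5.1] at hj; norm_num at hj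

include hs h in
lemma SeamIn.injj : ∀ z ∈ WW β a b η ∩ Strip β, ∀ w ∈ WW β a b η ∩ Strip β,
    (CC L M Ep Em z = CC L M Ep Em w ↔ nf β z = nf β w) := by
  intro z hz w hw
  by_cases hi : z.im < 1 / 2
  · by_cases hj : w.im < 1 / 2
    · rw [nf_eq_iff hs.mono hz.2 hw.2, CC_low hi, CC_low hj]
      obtain ⟨h1, h2⟩ := h.low hz hi
      obtain ⟨h3, h4⟩ := h.low hw hj
      constructor
      · intro heq
        have := h.model.injP (h.cL.nonneg h1.1 h1.2.1 h1.2.2 h2) (h.cL.nonneg h3.1 h3.2.1 h3.2.2 h4) heq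
        left
        exact h.cL.injOn h1 h3 this
      · rintro (h5 | h5 | h5)
        · rw [h5]
        · exfalso
          have := congrArg Complex.im h5.2
          simp at this
          rw [this] at hj; norm_num at hj
        · exfalso
          have := congrArg Complex.im h5.2
          simp at this
          rw [this] at hi; norm_num at hi
    · exact h.mixed hs hz hw hi hj
  · by_cases hj : w.im < 1 / 2
    · have := h.mixed hs hw hz hj hi
      rw [eq_comm, this, eq_comm]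
    · rw [nf_eq_iff hs.mono hz.2 hw.2, CC_high hi, CC_high hj]
      obtain ⟨h1, h2⟩ := h.high hz hi
      obtain ⟨h3, h4⟩ := h.high hw hj
      constructor
      · intro heq
        have := h.model.injM (h.cM.nonpos h1.1 h1.2.1 h1.2.2 h2) (h.cM.nonpos h3.1 h3.2.1 h3.2.2 h4) heq
        left
        have h5 := h.cM.injOn h1 h3 this
        exact sub_left_injective h5
      · rintro (h5 | h5 | h5)
        · rw [h5]
        · exfalso
          rw [h5.1] at hi; norm_num at hi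
        · exfalso
          rw [h5.1] at hj; norm_num at hj

include h in
lemma SeamIn.dlow {z : ℂ} (hz : z ∈ RR a b η) (h2 : 0 < z.im) : DifferentiableAt ℂ (Ep ∘ L) z := by
  apply DifferentiableAt.comp
  · exact h.model.diffP _ (h.cL.pos z hz.1 hz.2.1 hz.2.2 h2)
  · exact h.cL.diff z hz.1 hz.2.1 hz.2.2

include h in
lemma SeamIn.dhigh {z : ℂ} (hz : z - I ∈ RR (β a) (β b) η) (h2 : (z - I).im < 0) :
    DifferentiableAt ℂ (fun w => Em (M (w - I))) z := by
  have e : (fun w => Em (M (w - I))) = Em ∘ (M ∘ (fun w : ℂ => w - I)) := rfl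
  rw [e]
  apply DifferentiableAt.comp
  · exact h.model.diffM _ (h.cM.neg _ hz.1 hz.2.1 hz.2.2 h2)
  · apply DifferentiableAt.comp
    · exact h.cM.diff _ hz.1 hz.2.1 hz.2.2
    · fun_prop

include hs h in
lemma SeamIn.open0 {s : ℝ} (h1 : a < s) (h2 : s < b) :
    𝓝 (Ep (L s)) ≤ map (CC L M Ep Em) (𝓝[Strip β] (s : ℂ)) ⊔ map (CC L M Ep Em) (𝓝[Strip β] ((β s : ℂ) + I)) := by
  have hs0 : 0 < s := h.ha.trans h1
  have hR : (s : ℂ) ∈ RR a b η := ⟨by simpa using h1, by simpa using h2, by simpa using h.hη⟩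
  have hR2 : (β s : ℂ) ∈ RR (β a) (β b) η := by
    refine ⟨?_, ?_, by simpa using h.hη⟩
    · simpa using hs.mono h.ha hs0 h1
    · simpa using hs.mono hs0 (hs0.trans h2) h2
  have hreal : L s = ((L s).re : ℂ) := by
    apply Complex.ext
    · simp
    · simp only [Complex.ofReal_im]; exact h.cL.real _ h1 h2
  have hnb := h.model.nb (L s).re
  rw [← hreal, ← h.rel s h1 h2] at hnb
  refine hnb.trans (sup_le_sup ?_ ?_)
  · refine (Filter.map_mono (h.cL.halfP hR)).trans ?_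
    rw [Filter.map_map]
    have hle : 𝓝[{T : ℂ | 0 ≤ T.im}] (s : ℂ) ≤ 𝓝[Strip β] (s : ℂ) := by
      rw [hs.strip]
      have : {T : ℂ | 0 ≤ T.im} ∩ {T : ℂ | 0 < T.re ∧ T.im < 1} ⊆ {z : ℂ | 0 < z.re ∧ 0 ≤ z.im ∧ z.im ≤ 1} := by
        rintro T ⟨h3, h4, h5⟩; exact ⟨h4, h3, h5.le⟩
      refine le_trans ?_ (nhdsWithin_mono _ this)
      rw [nhdsWithin_inter']
      apply le_inf le_rfl
      rw [le_principal_iff]
      apply mem_nhdsWithin_of_mem_nhds
      have : {T : ℂ | 0 < T.re ∧ T.im < 1} = Complex.re ⁻¹' (Ioi 0) ∩ Complex.im ⁻¹' (Iio 1) := by ext; simp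
      rw [this]
      apply ((isOpen_Ioi.preimage Complex.continuous_re).inter (isOpen_Iio.preimage Complex.continuous_im)).mem_nhds
      exact ⟨by simpa using hs0, by simp⟩
    refine le_trans (le_of_eq ?_) (Filter.map_mono hle)
    apply Filter.map_congr
    apply eventually_nhdsWithin_of_eventually_nhds
    have hn : {w : ℂ | w.im < 1 / 2} ∈ 𝓝 (s:ℂ) := (isOpen_Iio.preimage Complex.continuous_im).mem_nhds (by simp)
    filter_upwards [hn] with w hw
    exact (CC_low hw).symm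
  · refine (Filter.map_mono (h.cM.halfM hR2)).trans ?_
    have hsh : 𝓝[{T : ℂ | T.im ≤ 0}] (β s : ℂ) ≤ map (fun w : ℂ => w - I) (𝓝[{T : ℂ | T.im ≤ 1}] ((β s : ℂ) + I)) := by
      intro A hA
      rw [mem_map, mem_nhdsWithin_iff_exists_mem_nhds_inter] at hA
      obtain ⟨B, hB, hBA⟩ := hA
      rw [mem_nhdsWithin_iff_exists_mem_nhds_inter]
      refine ⟨(fun w : ℂ => w + I) ⁻¹' B, ?_, ?_⟩
      · have : ContinuousAt (fun w : ℂ => w + I) (β s : ℂ) := by fun_prop
        exact this hB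
      · rintro w ⟨hw1, hw2⟩
        have := hBA (show w + I ∈ B ∩ {T : ℂ | T.im ≤ 1} from ⟨hw1, by simp at hw2 ⊢; exact hw2⟩)
        simpa using this
    refine (Filter.map_mono (Filter.map_mono hsh)).trans ?_
    rw [Filter.map_map, Filter.map_map]
    have hle : 𝓝[{T : ℂ | T.im ≤ 1}] ((β s : ℂ) + I) ≤ 𝓝[Strip β] ((β s : ℂ) + I) := by
      rw [hs.strip]
      have : {T : ℂ | T.im ≤ 1} ∩ {T : ℂ | 0 < T.re ∧ 0 < T.im} ⊆ {z : ℂ | 0 < z.re ∧ 0 ≤ z.im ∧ z.im ≤ 1} := by
        rintro T ⟨h3, h4, h5⟩; exact ⟨h4, h5.le, h3⟩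
      refine le_trans ?_ (nhdsWithin_mono _ this)
      rw [nhdsWithin_inter']
      apply le_inf le_rfl
      rw [le_principal_iff]
      apply mem_nhdsWithin_of_mem_nhds
      have : {T : ℂ | 0 < T.re ∧ 0 < T.im} = Complex.re ⁻¹' (Ioi 0) ∩ Complex.im ⁻¹' (Ioi 0) := by ext; simp
      rw [this]
      apply ((isOpen_Ioi.preimage Complex.continuous_re).inter (isOpen_Ioi.preimage Complex.continuous_im)).mem_nhds
      exact ⟨by simpa using hs.pos hs0, by simp⟩
    refine le_trans (le_of_eq ?_) (Filter.map_mono hle)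
    apply Filter.map_congr
    apply eventually_nhdsWithin_of_eventually_nhds
    have hn : {w : ℂ | 1 / 2 < w.im} ∈ 𝓝 ((β s : ℂ) + I) :=
      (isOpen_Ioi.preimage Complex.continuous_im).mem_nhds (by simp; norm_num)
    filter_upwards [hn] with w hw
    exact (CC_high (not_lt.2 (le_of_lt hw))).symm

lemma map_le_iSup {C : ℂ → ℂ} {P : ℂ → Prop} {w : ℂ} (hw : P w) {S : Set ℂ} :
    map C (𝓝[S] w) ≤ map C (⨆ w ∈ {w | P w}, 𝓝[S] w) :=
  Filter.map_mono (le_iSup₂ (f := fun (w : ℂ) (_ : w ∈ {w | P w}) => 𝓝[S] w) w hw)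

include hs h in
lemma SeamIn.openn : ∀ z ∈ WW β a b η ∩ Strip β, 𝓝 (CC L M Ep Em z) ≤
    map (CC L M Ep Em) (⨆ w ∈ {w | w ∈ WW β a b η ∩ Strip β ∧ nf β w = nf β z}, 𝓝[Strip β] w) := by
  -- the seam case
  have seam : ∀ s : ℝ, a < s → s < b → 𝓝 (Ep (L s)) ≤
      map (CC L M Ep Em) (⨆ w ∈ {w | w ∈ WW β a b η ∩ Strip β ∧ nf β w = nf β (s:ℂ)}, 𝓝[Strip β] w) := by
    intro s h1 h2
    have hs0 : 0 < s := h.ha.trans h1
    refine (h.open0 hs h1 h2).trans (sup_le ?_ ?_)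
    · apply map_le_iSup (P := fun w => w ∈ WW β a b η ∩ Strip β ∧ nf β w = nf β (s:ℂ))
      refine ⟨⟨Or.inl ⟨by simpa using h1, by simpa using h2, by simpa using h.hη⟩, ?_⟩, rfl⟩
      rw [hs.strip]; exact ⟨by simpa using hs0, by simp, by simp⟩
    · apply map_le_iSup (P := fun w => w ∈ WW β a b η ∩ Strip β ∧ nf β w = nf β (s:ℂ))
      refine ⟨⟨Or.inr ⟨?_, ?_, ?_⟩, ?_⟩, ?_⟩
      · simpa using hs.mono h.ha hs0 h1
      · simpa using hs.mono hs0 (hs0.trans h2) h2
      · simp [h.hη]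
      · rw [hs.strip]; exact ⟨by simpa using hs.pos hs0, by simp, by simp⟩
      · simp [nf]
  intro z hz
  by_cases hi : z.im < 1 / 2
  · obtain ⟨h1, h2⟩ := h.low hz hi
    rcases h2.eq_or_lt with h3 | h3
    · have hzr : z = (z.re : ℂ) := by apply Complex.ext <;> simp [← h3]
      have := seam z.re h1.1 h1.2.1
      rw [← hzr] at this
      rw [CC_low hi]
      exact this
    · refine le_trans ?_ (map_le_iSup (P := fun w => w ∈ WW β a b η ∩ Strip β ∧ nf β w = nf β z) ⟨hz, rfl⟩)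
      have hopen : IsOpen (RR a b η ∩ {w : ℂ | 0 < w.im}) :=
        isOpen_RR.inter (isOpen_Ioi.preimage Complex.continuous_im)
      have hst : Strip β ∈ 𝓝 z := mem_of_superset (isOpen_openStrip.mem_nhds ⟨hz.2.1, h3, by linarith⟩) openStrip_sub
      rw [nhdsWithin_eq_nhds.2 hst, CC_low hi]
      have hn : {w : ℂ | w.im < 1 / 2} ∈ 𝓝 z := (isOpen_Iio.preimage Complex.continuous_im).mem_nhds hi
      have hev : CC L M Ep Em =ᶠ[𝓝 z] Ep ∘ L := by
        filter_upwards [hn] with w hw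
        exact CC_low hw
      rw [Filter.map_congr hev]
      have hd : DifferentiableOn ℂ (Ep ∘ L) (RR a b η ∩ {w : ℂ | 0 < w.im}) :=
        fun w hw => (h.dlow hw.1 hw.2).differentiableWithinAt
      refine nhds_le_of_inj (F := Ep ∘ L) (hopen.mem_nhds ⟨h1, h3⟩) (hd.analyticAt (hopen.mem_nhds ⟨h1, h3⟩)) ?_
      intro u hu v hv huv
      have := h.model.injP (h.cL.nonneg hu.1.1 hu.1.2.1 hu.1.2.2 (le_of_lt hu.2))
        (h.cL.nonneg hv.1.1 hv.1.2.1 hv.1.2.2 (le_of_lt hv.2)) huv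
      exact h.cL.injOn hu.1 hv.1 this
  · obtain ⟨h1, h2⟩ := h.high hz hi
    rcases h2.eq_or_lt with h3 | h3
    · have him : z.im = 1 := by simp at h3; linarith
      obtain ⟨x, hx, hxz⟩ := hs.surj hz.2.1
      have hx1 : a < x := by
        have h4 : β a < β x := by rw [hxz]; simpa using h1.1
        exact (hs.mono.lt_iff_lt h.ha hx).1 h4
      have hx2 : x < b := by
        have h4 : β x < β b := by rw [hxz]; simpa using h1.2.1
        exact (hs.mono.lt_iff_lt hx (h.ha.trans h.hab)).1 h4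
      have hzx : z = (β x : ℂ) + I := by
        apply Complex.ext
        · simp [hxz]
        · simp [him]
      have hnf : nf β z = nf β (x : ℂ) := by
        rw [hzx]; simp [nf]
      have := seam x hx1 hx2
      rw [← hnf] at this
      have hC : CC L M Ep Em z = Ep (L x) := by
        have hxr : (L x) = ((L x).re : ℂ) := by
          apply Complex.ext
          · simp
          · simp only [Complex.ofReal_im]; exact h.cL.real _ hx1 hx2
        rw [CC_high hi, hzx, add_sub_cancel_right, h.rel x hx1 hx2, ← h.model.glue, ← hxr]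
      rw [hC]; exact this
    · refine le_trans ?_ (map_le_iSup (P := fun w => w ∈ WW β a b η ∩ Strip β ∧ nf β w = nf β z) ⟨hz, rfl⟩)
      have hopen : IsOpen ((fun w : ℂ => w - I) ⁻¹' (RR (β a) (β b) η ∩ {w : ℂ | w.im < 0})) :=
        (isOpen_RR.inter (isOpen_Iio.preimage Complex.continuous_im)).preimage (by fun_prop)
      have him0 : 0 < z.im := by push Not at hi; linarith
      have him1 : z.im < 1 := by simp at h3; linarith
      have hst : Strip β ∈ 𝓝 z := mem_of_superset (isOpen_openStrip.mem_nhds ⟨hz.2.1, him0, him1⟩) openStrip_sub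
      rw [nhdsWithin_eq_nhds.2 hst, CC_high hi]
      have hlt : 1 / 2 < z.im := by
        rcases hz.1 with h3 | h3
        · exfalso; have := h.hη2; exact hi (lt_of_lt_of_le h3.2.2 this)
        · have := h.hη2; linarith [h3.2.2]
      have hn : {w : ℂ | 1 / 2 < w.im} ∈ 𝓝 z := (isOpen_Ioi.preimage Complex.continuous_im).mem_nhds hlt
      have hev : CC L M Ep Em =ᶠ[𝓝 z] (fun w => Em (M (w - I))) := by
        filter_upwards [hn] with w hw
        exact CC_high (not_lt.2 (le_of_lt hw))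
      rw [Filter.map_congr hev]
      have hd : DifferentiableOn ℂ (fun w => Em (M (w - I))) ((fun w : ℂ => w - I) ⁻¹' (RR (β a) (β b) η ∩ {w : ℂ | w.im < 0})) :=
        fun w hw => (h.dhigh hw.1 hw.2).differentiableWithinAt
      refine nhds_le_of_inj (F := fun w => Em (M (w - I))) (hopen.mem_nhds ⟨h1, h3⟩) (hd.analyticAt (hopen.mem_nhds ⟨h1, h3⟩)) ?_
      intro u hu v hv huv
      have := h.model.injM (h.cM.nonpos hu.1.1 hu.1.2.1 hu.1.2.2 (le_of_lt hu.2))
        (h.cM.nonpos hv.1.1 hv.1.2.1 hv.1.2.2 (le_of_lt hv.2)) huv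
      have := h.cM.injOn hu.1 hv.1 this
      exact sub_left_injective this

include hs h in
lemma SeamIn.sat : ∀ z ∈ WW β a b η ∩ Strip β, ∀ w ∈ Strip β, nf β z = nf β w → w ∈ WW β a b η ∩ Strip β := by
  intro z hz w hw hzw
  refine ⟨?_, hw⟩
  rw [nf_eq_iff hs.mono hz.2 hw] at hzw
  have hη := h.hη
  have hη2 := h.hη2
  rcases hzw with h1 | h1 | h1
  · rw [← h1]; exact hz.1
  · rcases hz.1 with h2 | h2
    · right
      rw [h1.2]
      have hz0 : 0 < z.re := hz.2.1
      refine ⟨?_, ?_, ?_⟩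
      · simpa using hs.mono h.ha hz0 h2.1
      · simpa using hs.mono hz0 (h.ha.trans h.hab) h2.2.1
      · simp [hη]
    · exfalso; rw [h1.1] at h2; linarith [h2.2.2]
  · rcases hz.1 with h2 | h2
    · exfalso
      rw [h1.2] at h2
      have := h2.2.2
      simp at this
      linarith
    · left
      have hw0 : 0 < w.re := hw.1
      rw [h1.2] at h2
      simp only [Complex.add_re, Complex.ofReal_re, Complex.I_re, add_zero] at h2
      refine ⟨?_, ?_, ?_⟩
      · exact (hs.mono.lt_iff_lt h.ha hw0).1 h2.1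
      · exact (hs.mono.lt_iff_lt hw0 (h.ha.trans h.hab)).1 h2.2.1
      · rw [h1.1]; exact hη

include hs h in
theorem SeamIn.chart : ∃ φ : OpenPartialHomeomorph (XX β) ℂ, φ.source = pj β '' (WW β a b η ∩ Strip β) ∧
    (∀ z ∈ WW β a b η ∩ Strip β, φ (pj β z) = CC L M Ep Em z) ∧ OSH (u0 β) φ := by
  obtain ⟨φ, h1, h2⟩ := mkChart (β := β) (C := CC L M Ep Em) rfl (isOpen_WW (β := β) (a := a) (b := b) (η := η))
    (h.sat hs) h.cont (h.injj hs) (h.openn hs)
  refine ⟨φ, h1, h2, ?_⟩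
  unfold OSH
  rw [u0_target, u0_symm, h1]
  have hsat := (image_open (β := β) rfl (isOpen_WW (β := β) (a := a) (b := b) (η := η)) (h.sat hs)).2
  intro z hz
  have hzW : z ∈ WW β a b η ∩ Strip β := (hsat z (openStrip_sub hz.1)).1 hz.2
  apply DifferentiableAt.differentiableWithinAt
  have hev : (φ ∘ pj β) =ᶠ[𝓝 z] CC L M Ep Em := by
    filter_upwards [isOpen_openStrip.mem_nhds hz.1, isOpen_WW.mem_nhds hzW.1] with w hw1 hw2
    exact h2 w ⟨hw2, openStrip_sub hw1⟩
  apply DifferentiableAt.congr_of_eventuallyEq _ hev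
  by_cases hi : z.im < 1 / 2
  · obtain ⟨h3, h4⟩ := h.low hzW hi
    have hn : {w : ℂ | w.im < 1 / 2} ∈ 𝓝 z := (isOpen_Iio.preimage Complex.continuous_im).mem_nhds hi
    have hev : CC L M Ep Em =ᶠ[𝓝 z] Ep ∘ L := by
      filter_upwards [hn] with w hw
      exact CC_low hw
    exact (h.dlow h3 hz.1.2.1).congr_of_eventuallyEq hev
  · obtain ⟨h3, h4⟩ := h.high hzW hi
    have hlt : 1 / 2 < z.im := by
      rcases hzW.1 with h3 | h3
      · exfalso; have := h.hη2; exact hi (lt_of_lt_of_le h3.2.2 this)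
      · have := h.hη2; linarith [h3.2.2]
    have hn : {w : ℂ | 1 / 2 < w.im} ∈ 𝓝 z := (isOpen_Ioi.preimage Complex.continuous_im).mem_nhds hlt
    have hev : CC L M Ep Em =ᶠ[𝓝 z] (fun w => Em (M (w - I))) := by
      filter_upwards [hn] with w hw
      exact CC_high (not_lt.2 (le_of_lt hw))
    exact (h.dhigh h3 (by simp; exact hz.1.2.2)).congr_of_eventuallyEq hev

end Pool.Agent.H813R2.Sew
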