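import Mathlib
import Pool.Agent.H813R2.Sew12
set_option autoImplicit false
open MeasureTheory Set Filter Topology Complex Metric
open scoped ENNReal Real ComplexConjugate Interval Manifold ContDiff

namespace Pool.Agent.H813R2.Sew

variable {β : ℝ → ℝ} {a b η : ℝ} {L M : ℂ → ℂ} {g : ℝ → ℝ} {Ep Em : ℂ → ℂ}

/-- local coordinate germs: analytic, real on the reals, with positive derivative -/
structure RC (L : ℂ → ℂ) (p : ℝ) : Prop where
  an : AnalyticAt ℂ L p
  real : ∀ᶠ x : ℝ in 𝓝 p, (L x).im = 0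
  pos : 0 < (deriv L p).re

lemma RC.ball {p : ℝ} (h : RC L p) : ∃ r > 0, (∀ z ∈ ball (p : ℂ) r, DifferentiableAt ℂ L z ∧ 0 < (deriv L z).re) ∧
    (∀ x : ℝ, (x : ℂ) ∈ Metric.ball (p : ℂ) r → (L x).im = 0) := by
  have h1 : ∀ᶠ z in 𝓝 (p:ℂ), DifferentiableAt ℂ L z := h.an.eventually_analyticAt.mono (fun z hz => hz.differentiableAt)
  have h2 : ∀ᶠ z in 𝓝 (p:ℂ), 0 < (deriv L z).re := by
    have hc : ContinuousAt (fun z => (deriv L z).re) (p:ℂ) :=
      Complex.continuous_re.continuousAt.comp h.an.deriv.continuousAt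
    exact hc.eventually (lt_mem_nhds h.pos)
  obtain ⟨r1, hr1, hb1⟩ := Metric.eventually_nhds_iff_ball.1 (h1.and h2)
  obtain ⟨r2, hr2, hb2⟩ := Metric.eventually_nhds_iff_ball.1 h.real
  refine ⟨min r1 r2, lt_min hr1 hr2, ?_, ?_⟩
  · intro z hz
    exact hb1 z (ball_subset_ball (min_le_left _ _) hz)
  · intro x hx
    apply hb2
    rw [mem_ball, dist_eq_norm] at hx ⊢
    rw [← Complex.ofReal_sub, Complex.norm_real] at hx
    exact lt_of_lt_of_le hx (min_le_right _ _)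

lemma RR_sub {p r : ℝ} (ha : p - r / 2 ≤ a) (hb : b ≤ p + r / 2) (hη : η ≤ r / 2) :
    RR a b η ⊆ Metric.ball (p : ℂ) r := by
  intro z hz
  rw [mem_ball, dist_eq_norm]
  have h1 := Complex.norm_le_abs_re_add_abs_im (z - p)
  have h2 : |(z - p).re| < r / 2 := by
    rw [abs_lt]; simp; constructor <;> linarith [hz.1, hz.2.1]
  have h3 : |(z - p).im| < r / 2 := by
    simp; exact lt_of_lt_of_le hz.2.2 hη
  linarith

theorem exists_seam (hs : Sewn β) {p : ℝ} (hp : 0 < p) (hL : RC L p) (hM : RC M (β p))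
    (hrel : ∀ᶠ x : ℝ in 𝓝 p, M (β x) = g (L x).re) (hm : Model g Ep Em) :
    ∃ a b η, a < p ∧ p < b ∧ SeamIn β a b η L M g Ep Em := by
  obtain ⟨r, hr, h1, h2⟩ := hL.ball
  obtain ⟨r', hr', h3, h4⟩ := hM.ball
  have hc : ContinuousAt β p := hs.cont.continuousAt (Ioi_mem_nhds hp)
  have h5 : ∀ᶠ x in 𝓝 p, |β x - β p| < r' / 2 := by
    have := Metric.continuousAt_iff'.1 hc (r' / 2) (by positivity)
    simpa [Real.dist_eq] using this
  have h6 : ∀ᶠ x in 𝓝 p, |x - p| < r / 2 := by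
    have := Metric.ball_mem_nhds p (show 0 < r / 2 by positivity)
    filter_upwards [this] with x hx
    simpa [Real.dist_eq] using hx
  obtain ⟨ε, hε, hb⟩ := Metric.eventually_nhds_iff_ball.1 (((h5.and h6).and hrel).and (Ioi_mem_nhds hp))
  have hin : ∀ x, p - ε / 2 ≤ x → x ≤ p + ε / 2 → x ∈ Metric.ball p ε := by
    intro x hx1 hx2
    rw [mem_ball, Real.dist_eq, abs_lt]; constructor <;> linarith
  have ha := hb _ (hin (p - ε / 2) le_rfl (by linarith))
  have hb' := hb _ (hin (p + ε / 2) (by linarith) le_rfl)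
  refine ⟨p - ε / 2, p + ε / 2, min (min (r / 2) (r' / 2)) (1 / 2), by linarith, by linarith, ?_⟩
  have hη : 0 < min (min (r / 2) (r' / 2)) (1 / 2) := by
    apply lt_min (lt_min (by positivity) (by positivity)) (by norm_num)
  refine ⟨ha.2, by linarith, hη, min_le_right _ _, ?_, ?_, ?_, hm⟩
  · apply coord_of_deriv h1 h2 _ hη
    have e1 := ha.1.1.2
    have e2 := hb'.1.1.2
    rw [abs_lt] at e1 e2
    exact RR_sub (by linarith) (by linarith) ((min_le_left _ _).trans (min_le_left _ _))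
  · apply coord_of_deriv h3 h4 _ hη
    have e1 := ha.1.1.1
    have e2 := hb'.1.1.1
    rw [abs_lt] at e1 e2
    exact RR_sub (by linarith) (by linarith) ((min_le_left _ _).trans (min_le_right _ _))
  · intro x hx1 hx2
    exact (hb x (hin x hx1.le hx2.le)).1.2

/-- straight charts -/
theorem SeamIn.straight (hs : Sewn β) (h : SeamIn β a b η L M id id id) :
    ∃ φ : OpenPartialHomeomorph (XX β) ℂ, φ.source = pj β '' (WW β a b η ∩ Strip β) ∧ Straight (u0 β) φ := by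
  obtain ⟨φ, h1, h2, h3⟩ := h.chart hs
  refine ⟨φ, h1, h3, ?_⟩
  intro x hx hx0
  rw [h1] at hx
  obtain ⟨z, hz, rfl⟩ := hx
  rw [h2 z hz]
  have hno : z ∉ openStrip := by
    intro h; apply hx0; rw [u0_source]; exact ⟨z, h, rfl⟩
  by_cases hi : z.im < 1 / 2
  · obtain ⟨h4, h5⟩ := h.low hz hi
    rw [CC_low hi]
    have : z.im = 0 := by
      by_contra h6
      exact hno ⟨hz.2.1, lt_of_le_of_ne h5 (Ne.symm h6), by linarith⟩
    exact h.cL.real' h4.1 h4.2.1 this
  · obtain ⟨h4, h5⟩ := h.high hz hi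
    rw [CC_high hi]
    have : (z - I).im = 0 := by
      by_contra h6
      have h7 : (z - I).im < 0 := lt_of_le_of_ne h5 h6
      push Not at hi
      exact hno ⟨hz.2.1, by linarith, by simpa using h7⟩
    exact h.cM.real' h4.1 h4.2.1 this

/-- the height function -/
noncomputable def hh (β : ℝ → ℝ) (z : ℂ) : ℝ := (1 - z.im) * β z.re + z.im * z.re

lemma hh_cont (hs : Sewn β) : ContinuousOn (hh β) (Strip β) := by
  unfold hh
  apply ContinuousOn.add
  · apply ContinuousOn.mul (by fun_prop)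
    exact hs.cont.comp Complex.continuous_re.continuousOn (fun z hz => hz.1)
  · fun_prop

lemma hh_glue {z w : ℂ} (h : Glue β z w) : hh β z = hh β w := by
  rcases h with h | h | h
  · rw [h]
  · rw [h.2]; simp [hh, h.1]
  · rw [h.2]; simp [hh, h.1]

/-- the separating map -/
noncomputable def sepm (β : ℝ → ℝ) (z : ℂ) : ℝ × ℂ := (hh β z, Complex.exp (2 * π * z.im * I))

lemma sepm_glue {z w : ℂ} (h : Glue β z w) : sepm β z = sepm β w := by
  unfold sepm
  rw [hh_glue h]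
  congr 1
  rcases h with h | h | h
  · rw [h]
  · rw [h.2, h.1]; simp [Complex.exp_two_pi_mul_I]
  · rw [h.2, h.1]; simp [Complex.exp_two_pi_mul_I]

lemma hh_mono (hs : Sewn β) {x x' y : ℝ} (hx : 0 < x) (hxx : x < x') (h0 : 0 ≤ y) (h1 : y ≤ 1) :
    (1 - y) * β x + y * x < (1 - y) * β x' + y * x' := by
  have h2 : β x < β x' := hs.mono hx (hx.trans hxx) hxx
  rcases h1.eq_or_lt with h | h
  · rw [h]; linarith
  · have : 0 < 1 - y := by linarith
    nlinarith

lemma sepm_inj (hs : Sewn β) {z w : ℂ} (hz : z ∈ Strip β) (hw : w ∈ Strip β) (h : sepm β z = sepm β w) :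
    Glue β z w := by
  unfold sepm at h
  rw [Prod.mk.injEq] at h
  obtain ⟨h1, h2⟩ := h
  rw [Complex.exp_eq_exp_iff_exists_int] at h2
  obtain ⟨n, hn⟩ := h2
  have h3 : z.im = w.im + n := by
    have h4 : (2 * π * I : ℂ) * (z.im - w.im - n) = 0 := by linear_combination hn
    rcases mul_eq_zero.1 h4 with h5 | h5
    · exfalso; exact Complex.two_pi_I_ne_zero h5
    · have h6 : ((z.im - w.im - n : ℝ) : ℂ) = 0 := by push_cast; exact h5
      rw [Complex.ofReal_eq_zero] at h6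
      linarith
  have b1 := hz.2.1; have b2 := hz.2.2.1; have b3 := hw.2.1; have b4 := hw.2.2.1
  have hn1 : (n:ℝ) ≤ 1 := by linarith
  have hn2 : (-1:ℝ) ≤ n := by linarith
  have hn1' : n ≤ 1 := by exact_mod_cast hn1
  have hn2' : -1 ≤ n := by exact_mod_cast hn2
  unfold hh at h1
  interval_cases n
  · -- z.im = 0, w.im = 1
    have hz0 : z.im = 0 := by push_cast at h3; linarith
    have hw1 : w.im = 1 := by push_cast at h3; linarith
    right; left
    refine ⟨hz0, ?_⟩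
    rw [hz0, hw1] at h1
    apply Complex.ext
    · simp; linarith
    · simp [hw1]
  · left
    have him : z.im = w.im := by push_cast at h3; linarith
    apply Complex.ext _ him
    rw [him] at h1
    rcases lt_trichotomy z.re w.re with h4 | h4 | h4
    · exact absurd h1 (hh_mono hs hz.1 h4 b3 b4).ne
    · exact h4
    · exact absurd h1 (hh_mono hs hw.1 h4 b3 b4).ne'
  · have hz0 : w.im = 0 := by push_cast at h3; linarith
    have hw1 : z.im = 1 := by push_cast at h3; linarith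
    right; right
    refine ⟨hz0, ?_⟩
    rw [hz0, hw1] at h1
    apply Complex.ext
    · simp; linarith
    · simp [hw1]

lemma sepm_cont (hs : Sewn β) : ContinuousOn (sepm β) (Strip β) := by
  unfold sepm
  apply (hh_cont hs).prodMk
  fun_prop

/-- functions on the surface -/
noncomputable def lift {Y : Type} (β : ℝ → ℝ) (f : ℂ → Y) (x : XX β) : Y := f (Quotient.out x : Strip β)

lemma out_glue (hs : Sewn β) {z : ℂ} (hz : z ∈ Strip β) : Glue β ((Quotient.out (pj β z) : Strip β) : ℂ) z := by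
  have h1 : pj β ((Quotient.out (pj β z) : Strip β) : ℂ) = pj β z := by
    rw [pj_mem (Quotient.out (pj β z)).2]
    exact Quotient.out_eq _
  rw [← nf_eq_iff hs.mono (Quotient.out (pj β z)).2 hz]
  exact (pj_eq (Quotient.out (pj β z)).2 hz).1 h1

lemma lift_pj (hs : Sewn β) {Y : Type} {f : ℂ → Y}
    (hf : ∀ z w, z ∈ Strip β → w ∈ Strip β → Glue β z w → f z = f w) {z : ℂ} (hz : z ∈ Strip β) :
    lift β f (pj β z) = f z := hf _ _ (Quotient.out (pj β z)).2 hz (out_glue hs hz)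

lemma lift_cont (hs : Sewn β) {Y : Type} [TopologicalSpace Y] {f : ℂ → Y}
    (hf : ∀ z w, z ∈ Strip β → w ∈ Strip β → Glue β z w → f z = f w) (hc : ContinuousOn f (Strip β)) :
    Continuous (lift β f) := by
  rw [pj_quot.continuous_iff]
  have : (lift β f ∘ fun z : Strip β => pj β z) = (Strip β).domRestrict f := by
    funext z
    exact lift_pj hs hf z.2
  rw [this]
  exact continuousOn_iff_continuous_domRestrict.1 hc

lemma t2 (hs : Sewn β) : T2Space (XX β) := by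
  have hc := lift_cont hs (f := sepm β) (fun z w _ _ h => sepm_glue h) (sepm_cont hs)
  apply T2Space.of_injective_continuous _ hc
  intro x y hxy
  obtain ⟨z, hz, rfl⟩ := pj_surj x
  obtain ⟨w, hw, rfl⟩ := pj_surj y
  rw [lift_pj hs (fun z w _ _ h => sepm_glue h) hz, lift_pj hs (fun z w _ _ h => sepm_glue h) hw] at hxy
  rw [pj_eq hz hw, nf_eq_iff hs.mono hz hw]
  exact sepm_inj hs hz hw hxy

/-- data giving the complex structure -/
structure SurfIn (β : ℝ → ℝ) (B : Set ℝ) : Prop where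
  sewn : Sewn β
  fin : ∀ R : ℝ, (B ∩ Iic R).Finite
  pos : ∀ p ∈ B, 0 < p
  ord : ∀ p, 0 < p → p ∉ B → ∃ L M : ℂ → ℂ, RC L p ∧ RC M (β p) ∧ ∀ᶠ x : ℝ in 𝓝 p, M (β x) = L x
  bad : ∀ p ∈ B, ∃ (L M : ℂ → ℂ) (g : ℝ → ℝ) (Ep Em : ℂ → ℂ), RC L p ∧ RC M (β p) ∧ Model g Ep Em ∧
    ∀ᶠ x : ℝ in 𝓝 p, M (β x) = g (L x).re

variable {B : Set ℝ}

lemma mem_WW_of {p : ℝ} (hp : 0 < p) (h : SeamIn β a b η L M g Ep Em) (h1 : a < p) (h2 : p < b) :
    (p : ℂ) ∈ WW β a b η ∩ Strip β := by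
  refine ⟨Or.inl ⟨by simpa using h1, by simpa using h2, by simpa using h.hη⟩, by simpa using hp, by simp, by simp, ?_⟩
  intro h; simp at h

lemma SurfIn.good_ord (h : SurfIn β B) {p : ℝ} (hp : 0 < p) (hpB : p ∉ B) : pj β (p : ℂ) ∈ Good (u0 β) := by
  obtain ⟨L, M, hL, hM, hrel⟩ := h.ord p hp hpB
  have hrel' : ∀ᶠ x : ℝ in 𝓝 p, M (β x) = (id (L x).re : ℝ) := by
    filter_upwards [hrel, hL.real] with x hx hx2
    rw [hx]
    apply Complex.ext
    · simp
    · simpa using hx2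
  obtain ⟨a, b, η, h1, h2, h3⟩ := exists_seam h.sewn hp hL hM hrel' model_id
  obtain ⟨φ, h4, h5⟩ := h3.straight h.sewn
  exact ⟨φ, Or.inr h5, by rw [h4]; exact ⟨p, mem_WW_of hp h3 h1 h2, rfl⟩⟩

lemma good_int {z : ℂ} (hz : z ∈ openStrip) : pj β z ∈ Good (u0 β) :=
  ⟨u0 β, Or.inl rfl, by rw [u0_source]; exact ⟨z, hz, rfl⟩⟩

/-- every point is interior or on the seam -/
lemma cases_pt (hs : Sewn β) (x : XX β) : (∃ z ∈ openStrip, pj β z = x) ∨ ∃ p : ℝ, 0 < p ∧ pj β (p : ℂ) = x := by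
  obtain ⟨z, hz, rfl⟩ := pj_surj x
  by_cases h0 : z.im = 0
  · right
    refine ⟨z.re, hz.1, ?_⟩
    congr 1
    apply Complex.ext <;> simp [h0]
  · by_cases h1 : z.im = 1
    · right
      obtain ⟨p, hp, hpz⟩ := hz.2.2.2 h1
      refine ⟨p, hp, ?_⟩
      have hpS : (p : ℂ) ∈ Strip β := ⟨by simpa using hp, by simp, by simp, fun h => by simp at h⟩
      rw [pj_eq hpS hz, nf_eq_iff hs.mono hpS hz]
      right; left
      refine ⟨by simp, ?_⟩
      apply Complex.ext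
      · simp [hpz]
      · simp [h1]
    · left
      exact ⟨z, ⟨hz.1, lt_of_le_of_ne hz.2.1 (Ne.symm h0), lt_of_le_of_ne hz.2.2.1 h1⟩, rfl⟩

lemma SurfIn.bad_pt (h : SurfIn β B) {x : XX β} (hx : x ∉ Good (u0 β)) : ∃ p ∈ B, pj β (p : ℂ) = x := by
  rcases cases_pt h.sewn x with ⟨z, hz, rfl⟩ | ⟨p, hp, rfl⟩
  · exact absurd (good_int hz) hx
  · by_cases hpB : p ∈ B
    · exact ⟨p, hpB, rfl⟩
    · exact absurd (h.good_ord hp hpB) hx

lemma SurfIn.cov (h : SurfIn β B) : ∀ x : XX β, ∃ φ, OSH (u0 β) φ ∧ x ∈ φ.source := by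
  intro x
  by_cases hx : x ∈ Good (u0 β)
  · obtain ⟨u, hu | hu, hxu⟩ := hx
    · exact ⟨u, by rw [hu]; exact OSH_self _, hxu⟩
    · exact ⟨u, hu.1, hxu⟩
  · obtain ⟨p, hp, rfl⟩ := h.bad_pt hx
    obtain ⟨L, M, g, Ep, Em, hL, hM, hm, hrel⟩ := h.bad p hp
    obtain ⟨a, b, η, h1, h2, h3⟩ := exists_seam h.sewn (h.pos p hp) hL hM hrel hm
    obtain ⟨φ, h4, _, h5⟩ := h3.chart h.sewn
    exact ⟨φ, h5, by rw [h4]; exact ⟨p, mem_WW_of (h.pos p hp) h3 h1 h2, rfl⟩⟩

lemma SurfIn.iso (h : SurfIn β B) : ∀ x : XX β, ∀ᶠ y in 𝓝[≠] x, y ∈ Good (u0 β) := by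
  intro x
  haveI := t2 h.sewn
  have hHc : Continuous (lift β (hh β)) := lift_cont h.sewn (fun z w _ _ h => hh_glue h) (hh_cont h.sewn)
  set t := lift β (hh β) x with ht
  -- bad points of bounded height
  obtain ⟨R, hR⟩ : ∃ R, 0 < R ∧ t + 1 < β R := by
    obtain ⟨R, hR, hRt⟩ := h.sewn.surj (show 0 < max (t + 2) 1 by positivity)
    exact ⟨R, hR, by rw [hRt]; linarith [le_max_left (t + 2) 1]⟩
  have hfin : ((fun p : ℝ => pj β (p : ℂ)) '' (B ∩ Iic R) \ {x}).Finite := ((h.fin R).image _).sdiff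
  have h1 : ((fun p : ℝ => pj β (p : ℂ)) '' (B ∩ Iic R) \ {x})ᶜ ∈ 𝓝 x :=
    hfin.isClosed.isOpen_compl.mem_nhds (by simp)
  have h2 : ∀ᶠ y in 𝓝 x, lift β (hh β) y < t + 1 := hHc.continuousAt.eventually (gt_mem_nhds (by rw [← ht]; linarith))
  rw [eventually_nhdsWithin_iff]
  filter_upwards [h1, h2] with y hy1 hy2 hyx
  by_contra hbad
  obtain ⟨p, hp, rfl⟩ := h.bad_pt hbad
  apply hy1
  refine ⟨⟨p, ⟨hp, ?_⟩, rfl⟩, hyx⟩
  have hp0 := h.pos p hp
  have hpS : (p : ℂ) ∈ Strip β := ⟨by simpa using hp0, by simp, by simp, fun h => by simp at h⟩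
  rw [lift_pj h.sewn (fun z w _ _ h => hh_glue h) hpS] at hy2
  have : β p < β R := by
    have : hh β (p:ℂ) = β p := by simp [hh]
    linarith [hR.2]
  exact ((h.sewn.mono.lt_iff_lt hp0 hR.1).1 this).le

noncomputable abbrev SurfIn.charted (h : SurfIn β B) : ChartedSpace ℂ (XX β) := mkCharted (u0 β) h.cov

theorem SurfIn.generates (h : SurfIn β B) :
    @Generates β (XX β) _ h.charted (pj β) := by
  letI := h.charted
  haveI hman : IsManifold 𝓘(ℂ) ω (XX β) := mkManifold (u0 β) h.cov h.iso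
  refine ⟨t2 h.sewn, hman, pj_quot, ?_, ?_⟩
  · intro z hz w hw
    rw [pj_eq hz hw, nf_eq_iff h.sewn.mono hz hw]
  · have h1 : u0 β ∈ IsManifold.maximalAtlas 𝓘(ℂ) ω (XX β) :=
      IsManifold.subset_maximalAtlas (OSH_self (u0 β))
    have h2 := contMDiffOn_symm_of_mem_maximalAtlas h1
    have h3 := h2.mdifferentiableOn (by simp)
    exact h3

end Pool.Agent.H813R2.Sew
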