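import Mathlib
import Pool.Agent.H813R2.Sew11
set_option autoImplicit false
open MeasureTheory Set Filter Topology Complex Metric
open scoped ENNReal Real ComplexConjugate Interval Manifold ContDiff

namespace Pool.Agent.H813R2.Sew

noncomputable def kap (l : ℝ) : ℂ := 2 * π * I / (2 * π * I + l)

lemma den_ne (l : ℝ) : (2 * π * I + l : ℂ) ≠ 0 := by
  intro h
  have := congrArg Complex.im h
  simp at this

lemma kap_mul (l : ℝ) : kap l * (2 * π * I + l) = 2 * π * I := by
  unfold kap; exact div_mul_cancel₀ _ (den_ne l)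

lemma kap_ne (l : ℝ) : kap l ≠ 0 := by
  intro h
  have := kap_mul l
  rw [h, zero_mul] at this
  exact Complex.two_pi_I_ne_zero this.symm

lemma kap_re (l : ℝ) : 0 < (kap l).re := by
  have h : kap l * ((4 * π ^ 2 + l ^ 2 : ℝ) : ℂ) = ((4 * π ^ 2 : ℝ) : ℂ) + ((2 * π * l : ℝ) : ℂ) * I := by
    have := kap_mul l
    push_cast
    linear_combination (l - 2 * π * I) * this + (4 * kap l * π ^ 2 - 4 * π ^ 2) * Complex.I_sq
  have h1 := congrArg Complex.re h
  rw [Complex.re_mul_ofReal] at h1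
  simp only [Complex.add_re, Complex.ofReal_re, Complex.mul_re, Complex.ofReal_im, Complex.I_re, Complex.I_im] at h1
  have h2 : 0 < 4 * π ^ 2 + l ^ 2 := by positivity
  have h3 : 0 < (kap l).re * (4 * π ^ 2 + l ^ 2) := by
    rw [h1]
    have : 0 < 4 * π ^ 2 := by positivity
    linarith
  exact pos_of_mul_pos_left h3 h2.le

noncomputable def Ep (l : ℝ) (T : ℂ) : ℂ := T ^ kap l
noncomputable def Em (l : ℝ) (M : ℂ) : ℂ := Complex.exp (π * I * kap l) * (-M) ^ kap l

lemma Ep_ne {l : ℝ} {T : ℂ} (hT : T ≠ 0) : Ep l T = Complex.exp (kap l * Complex.log T) := by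
  unfold Ep; rw [Complex.cpow_def_of_ne_zero hT, mul_comm]

lemma Em_ne {l : ℝ} {M : ℂ} (hM : M ≠ 0) : Em l M = Complex.exp (kap l * (π * I + Complex.log (-M))) := by
  unfold Em; rw [Complex.cpow_def_of_ne_zero (neg_ne_zero.2 hM), ← Complex.exp_add]
  congr 1; ring

lemma Ep_zero {l : ℝ} : Ep l 0 = 0 := by unfold Ep; rw [Complex.zero_cpow (kap_ne l)]
lemma Em_zero {l : ℝ} : Em l 0 = 0 := by unfold Em; rw [neg_zero, Complex.zero_cpow (kap_ne l), mul_zero]

lemma Em_eq {l : ℝ} (M : ℂ) : Em l M = Complex.exp (π * I * kap l) * Ep l (-M) := rfl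

lemma Ep_cont (l : ℝ) : ContinuousOn (Ep l) {T | 0 ≤ T.im} := by
  intro T hT
  by_cases h : 0 ≤ T.re ∨ T.im ≠ 0
  · exact (Complex.continuousAt_cpow_const_of_re_pos h (kap_re l)).continuousWithinAt
  · push Not at h
    have hT0 : T ≠ 0 := by intro h0; rw [h0] at h; simp at h
    have h1 := Complex.continuousWithinAt_log_of_re_neg_of_im_zero h.1 h.2
    have h2 : ContinuousWithinAt (fun T => Complex.exp (kap l * Complex.log T)) {T | 0 ≤ T.im} T :=
      (continuousWithinAt_const.mul h1).cexp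
    apply h2.congr_of_eventuallyEq
    · apply eventually_nhdsWithin_of_eventually_nhds
      filter_upwards [isOpen_ne.mem_nhds hT0] with z hz
      exact Ep_ne hz
    · exact Ep_ne hT0

lemma Em_cont (l : ℝ) : ContinuousOn (Em l) {T | T.im ≤ 0} := by
  have : Em l = fun M => Complex.exp (π * I * kap l) * Ep l (-M) := rfl
  rw [this]
  apply ContinuousOn.mul continuousOn_const
  apply (Ep_cont l).comp (by fun_prop)
  intro z hz; simpa using hz

lemma Ep_diff (l : ℝ) (T : ℂ) (hT : 0 < T.im) : DifferentiableAt ℂ (Ep l) T := by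
  unfold Ep
  exact differentiableAt_id.cpow_const (Or.inr hT.ne')

lemma Em_diff (l : ℝ) (T : ℂ) (hT : T.im < 0) : DifferentiableAt ℂ (Em l) T := by
  have : Em l = fun M => Complex.exp (π * I * kap l) * Ep l (-M) := rfl
  rw [this]
  apply DifferentiableAt.const_mul
  apply DifferentiableAt.comp (f := fun M : ℂ => -M) (g := Ep l)
  · exact Ep_diff l _ (by simpa using hT)
  · fun_prop

noncomputable def gg (l : ℝ) (t : ℝ) : ℝ := if t < 0 then t else Real.exp l * t

lemma log_negr {t : ℝ} (ht : 0 < t) : Complex.log (-(t:ℂ)) = Real.log t + π * I := by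
  rw [← Complex.ofReal_neg]
  apply Complex.ext
  · simp [Complex.log_re]
  · rw [Complex.log_im, Complex.arg_ofReal_of_neg (by linarith)]; simp

lemma glue_sp (l : ℝ) (t : ℝ) : Ep l t = Em l (gg l t) := by
  unfold gg
  split_ifs with h
  · have ht : (t:ℂ) ≠ 0 := by rw [Complex.ofReal_ne_zero]; exact h.ne
    rw [Ep_ne ht, Em_ne ht]
    congr 2
    have h1 : (t:ℂ) = -((-t : ℝ) : ℂ) := by simp
    have h2 : -(t:ℂ) = ((-t : ℝ) : ℂ) := by simp
    rw [h2]
    conv_lhs => rw [h1]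
    rw [log_negr (by linarith), ← Complex.ofReal_log (by linarith)]
    ring
  · rcases (not_lt.1 h).eq_or_lt with h0 | h0
    · rw [← h0]; simp [Ep_zero, Em_zero]
    · have ht : (t:ℂ) ≠ 0 := by rw [Complex.ofReal_ne_zero]; exact h0.ne'
      have hs : 0 < Real.exp l * t := by positivity
      have ht2 : ((Real.exp l * t : ℝ) : ℂ) ≠ 0 := by rw [Complex.ofReal_ne_zero]; exact hs.ne'
      rw [Ep_ne ht, Em_ne ht2, log_negr hs, Real.log_mul (Real.exp_pos l).ne' h0.ne', Real.log_exp,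
        ← Complex.ofReal_log h0.le]
      have e : kap l * (π * I + (((l + Real.log t : ℝ) : ℂ) + π * I)) = kap l * (Real.log t : ℂ) + 2 * π * I := by
        rw [← kap_mul l]; push_cast; ring
      rw [e, Complex.exp_add, Complex.exp_two_pi_mul_I, mul_one]

lemma Ep_eq_zero {l : ℝ} {T : ℂ} (h : Ep l T = 0) : T = 0 := by
  by_contra hT
  rw [Ep_ne hT] at h
  exact Complex.exp_ne_zero _ h

lemma Em_eq_zero {l : ℝ} {T : ℂ} (h : Em l T = 0) : T = 0 := by
  by_contra hT
  rw [Em_ne hT] at h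
  exact Complex.exp_ne_zero _ h

/-- comparing exponentials -/
lemma exp_kap {l : ℝ} {u v : ℂ} (h : Complex.exp (kap l * u) = Complex.exp (kap l * v)) :
    ∃ m : ℤ, u = v + m * (2 * π * I + l) := by
  rw [Complex.exp_eq_exp_iff_exists_int] at h
  obtain ⟨m, hm⟩ := h
  refine ⟨m, ?_⟩
  have h1 : kap l * (u - v - m * (2 * π * I + l)) = 0 := by
    have := kap_mul l
    linear_combination hm - m * this
  rcases mul_eq_zero.1 h1 with h2 | h2
  · exact absurd h2 (kap_ne l)
  · linear_combination h2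

lemma Ep_inj (l : ℝ) : InjOn (Ep l) {T | 0 ≤ T.im} := by
  intro T hT S hS h
  by_cases hT0 : T = 0
  · rw [hT0, Ep_zero] at h
    rw [hT0, Ep_eq_zero h.symm]
  by_cases hS0 : S = 0
  · rw [hS0, Ep_zero] at h
    rw [hS0, Ep_eq_zero h]
  rw [Ep_ne hT0, Ep_ne hS0] at h
  obtain ⟨m, hm⟩ := exp_kap h
  have him := congrArg Complex.im hm
  simp at him
  have a1 := Complex.arg_nonneg_iff.2 hT
  have a2 := Complex.arg_nonneg_iff.2 hS
  have a3 := Complex.arg_le_pi T
  have a4 := Complex.arg_le_pi S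
  have hπ := Real.pi_pos
  rw [Complex.log_im, Complex.log_im] at him
  have hm0 : m = 0 := by
    have h1 : (m:ℝ) * (2 * π) ≤ π := by linarith
    have h2 : -π ≤ (m:ℝ) * (2 * π) := by linarith
    have h3 : (m:ℝ) < 1 := by nlinarith
    have h4 : (-1:ℝ) < m := by nlinarith
    have h5 : m < 1 := by exact_mod_cast h3
    have h6 : -1 < m := by exact_mod_cast h4
    omega
  rw [hm0] at hm
  simp only [Int.cast_zero, zero_mul, add_zero] at hm
  rw [← Complex.exp_log hT0, ← Complex.exp_log hS0, hm]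

lemma Em_inj (l : ℝ) : InjOn (Em l) {T | T.im ≤ 0} := by
  intro T hT S hS h
  rw [Em_eq, Em_eq] at h
  have h1 := mul_left_cancel₀ (Complex.exp_ne_zero _) h
  have := Ep_inj l (show 0 ≤ (-T).im by simpa using hT) (show 0 ≤ (-S).im by simpa using hS) h1
  exact neg_injective this

lemma cross_sp (l : ℝ) (T M : ℂ) (hT : 0 ≤ T.im) (hM : M.im ≤ 0) (h : Ep l T = Em l M) :
    T.im = 0 ∧ M = gg l T.re := by
  by_cases hT0 : T = 0
  · rw [hT0, Ep_zero] at h
    have := Em_eq_zero h.symm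
    rw [hT0, this]; simp [gg]
  by_cases hM0 : M = 0
  · rw [hM0, Em_zero] at h
    exact absurd (Ep_eq_zero h) hT0
  rw [Ep_ne hT0, Em_ne hM0] at h
  obtain ⟨m, hm⟩ := exp_kap h
  have him := congrArg Complex.im hm
  have hre := congrArg Complex.re hm
  simp at him hre
  have hM' : 0 ≤ (-M).im := by simpa using hM
  have a1 := Complex.arg_nonneg_iff.2 hT
  have a2 := Complex.arg_nonneg_iff.2 hM'
  have a3 := Complex.arg_le_pi T
  have a4 := Complex.arg_le_pi (-M)
  have hπ := Real.pi_pos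
  rw [Complex.log_im, Complex.log_im] at him
  rw [Complex.log_re, Complex.log_re, norm_neg] at hre
  have h1 : (m:ℝ) * (2 * π) ≤ 0 := by linarith
  have h2 : -(2 * π) ≤ (m:ℝ) * (2 * π) := by linarith
  have h3 : (m:ℝ) ≤ 0 := by nlinarith
  have h4 : (-1:ℝ) ≤ m := by nlinarith
  have h5 : m ≤ 0 := by exact_mod_cast h3
  have h6 : -1 ≤ m := by exact_mod_cast h4
  have hcases : m = 0 ∨ m = -1 := by omega
  rcases hcases with rfl | rfl
  · -- `T < 0`
    have e1 : Complex.arg T = π := by simp at him; linarith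
    have e2 : Complex.arg (-M) = 0 := by simp at him; linarith
    rw [Complex.arg_eq_pi_iff] at e1
    refine ⟨e1.2, ?_⟩
    rw [Complex.arg_eq_zero_iff] at e2
    unfold gg
    rw [if_pos e1.1]
    simp at hre
    have hnT := norm_pos_iff.2 hT0
    have hnM := norm_pos_iff.2 hM0
    have e3 : ‖T‖ = ‖M‖ := Real.log_injOn_pos hnT hnM hre
    have hM2 : M.im = 0 := by simpa using e2.2
    have hM3 : M.re ≤ 0 := by simpa using e2.1
    have t1 : T = (T.re : ℂ) := by apply Complex.ext <;> simp [e1.2]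
    have t2 : M = (M.re : ℂ) := by apply Complex.ext <;> simp [hM2]
    rw [t1, t2, Complex.norm_real, Complex.norm_real, Real.norm_eq_abs, Real.norm_eq_abs,
      abs_of_neg e1.1, abs_of_nonpos hM3] at e3
    rw [t2]
    congr 1
    linarith
  · have e1 : Complex.arg T = 0 := by simp at him; linarith
    have e2 : Complex.arg (-M) = π := by simp at him; linarith
    rw [Complex.arg_eq_pi_iff] at e2
    rw [Complex.arg_eq_zero_iff] at e1
    refine ⟨e1.2, ?_⟩
    unfold gg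
    rw [if_neg (not_lt.2 e1.1)]
    simp at hre
    have hnT := norm_pos_iff.2 hT0
    have hnM := norm_pos_iff.2 hM0
    have e3 : ‖M‖ = Real.exp l * ‖T‖ := by
      have : Real.log ‖M‖ = Real.log (Real.exp l * ‖T‖) := by
        rw [Real.log_mul (Real.exp_pos l).ne' hnT.ne', Real.log_exp]; linarith
      exact Real.log_injOn_pos hnM (by positivity : 0 < Real.exp l * ‖T‖) this
    have hM2 : M.im = 0 := by simpa using e2.2
    have hM3 : 0 < M.re := by simpa using e2.1
    have t1 : T = (T.re : ℂ) := by apply Complex.ext <;> simp [e1.2]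
    have t2 : M = (M.re : ℂ) := by apply Complex.ext <;> simp [hM2]
    rw [t1, t2, Complex.norm_real, Complex.norm_real, Real.norm_eq_abs, Real.norm_eq_abs,
      abs_of_nonneg e1.1, abs_of_pos hM3] at e3
    rw [t2, e3]

lemma surj_sp (l : ℝ) (w : ℂ) : (∃ T : ℂ, 0 ≤ T.im ∧ Ep l T = w) ∨ (∃ M : ℂ, M.im ≤ 0 ∧ Em l M = w) := by
  by_cases hw : w = 0
  · left; exact ⟨0, by simp, by rw [hw, Ep_zero]⟩
  have hπ := Real.pi_pos
  set om : ℂ := Complex.log w / kap l with hom
  obtain ⟨m, hm1, hm2⟩ : ∃ m : ℤ, 0 ≤ om.im + m * (2 * π) ∧ om.im + m * (2 * π) < 2 * π := by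
    refine ⟨⌈-om.im / (2 * π)⌉, ?_, ?_⟩
    · have := Int.le_ceil (-om.im / (2 * π))
      rw [div_le_iff₀ (by positivity)] at this
      linarith
    · have := Int.ceil_lt_add_one (-om.im / (2 * π))
      have h2 : (⌈-om.im / (2 * π)⌉ : ℝ) * (2 * π) < (-om.im / (2 * π) + 1) * (2 * π) := by
        apply mul_lt_mul_of_pos_right this; positivity
      have h3 : (-om.im / (2 * π) + 1) * (2 * π) = -om.im + 2 * π := by field_simp
      linarith
  set lam : ℂ := om + m * (2 * π * I + l) with hlam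
  have him : lam.im = om.im + m * (2 * π) := by rw [hlam]; simp
  have hexp : Complex.exp (kap l * lam) = w := by
    have : kap l * lam = Complex.log w + m * (2 * π * I) := by
      have e1 : kap l * lam = kap l * om + m * (kap l * (2 * π * I + l)) := by rw [hlam]; ring
      rw [e1, kap_mul, hom, mul_div_cancel₀ _ (kap_ne l)]
    rw [this, Complex.exp_add, Complex.exp_int_mul_two_pi_mul_I, mul_one, Complex.exp_log hw]
  rw [← him] at hm1 hm2
  by_cases h : lam.im ≤ π
  · left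
    refine ⟨Complex.exp lam, ?_, ?_⟩
    · rw [Complex.exp_im]
      exact mul_nonneg (Real.exp_pos _).le (Real.sin_nonneg_of_nonneg_of_le_pi hm1 h)
    · rw [Ep_ne (Complex.exp_ne_zero _), Complex.log_exp (by linarith) h, hexp]
  · right
    push Not at h
    refine ⟨-Complex.exp (lam - π * I), ?_, ?_⟩
    · rw [Complex.neg_im, Complex.exp_im]
      have h1 : (lam - π * I).im = lam.im - π := by simp
      rw [h1]
      have := mul_nonneg (Real.exp_pos (lam - π * I).re).le (Real.sin_nonneg_of_nonneg_of_le_pi (x := lam.im - π) (by linarith) (by linarith))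
      linarith
    · rw [Em_ne (neg_ne_zero.2 (Complex.exp_ne_zero _)), neg_neg, Complex.log_exp]
      · rw [← hexp]; congr 2; ring
      · simp; linarith
      · simp; linarith

lemma bound_sp (l : ℝ) (B : ℝ) : ∃ R : ℝ, ∀ T : ℂ, ‖Ep l T‖ ≤ B → ‖T‖ ≤ R := by
  refine ⟨max 0 (Real.exp ((Real.log B + |(kap l).im| * π) / (kap l).re)), ?_⟩
  intro T hT
  by_cases hT0 : T = 0
  · rw [hT0]; simp
  apply le_max_of_le_right
  have hn := norm_pos_iff.2 hT0
  rw [← Real.log_le_iff_le_exp hn, le_div_iff₀ (kap_re l)]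
  have h1 : ‖Ep l T‖ = Real.exp ((kap l * Complex.log T).re) := by rw [Ep_ne hT0, Complex.norm_exp]
  have h2 : 0 < ‖Ep l T‖ := by rw [h1]; positivity
  have h3 : (kap l * Complex.log T).re ≤ Real.log B := by
    rw [Real.le_log_iff_exp_le (lt_of_lt_of_le h2 hT), ← h1]; exact hT
  rw [Complex.mul_re, Complex.log_re, Complex.log_im] at h3
  have h4 : (kap l).im * Complex.arg T ≤ |(kap l).im| * π := by
    calc (kap l).im * Complex.arg T ≤ |(kap l).im * Complex.arg T| := le_abs_self _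
      _ = |(kap l).im| * |Complex.arg T| := abs_mul _ _
      _ ≤ _ := by gcongr; exact Complex.abs_arg_le_pi T
  linarith

lemma bound_sm (l : ℝ) (B : ℝ) : ∃ R : ℝ, ∀ T : ℂ, ‖Em l T‖ ≤ B → ‖T‖ ≤ R := by
  obtain ⟨R, hR⟩ := bound_sp l (‖Complex.exp (π * I * kap l)‖⁻¹ * B)
  refine ⟨R, fun T hT => ?_⟩
  have h0 : 0 < ‖Complex.exp (π * I * kap l)‖ := norm_pos_iff.2 (Complex.exp_ne_zero _)
  rw [Em_eq, norm_mul] at hT
  have := hR (-T) (by rw [inv_mul_eq_div, le_div_iff₀ h0, mul_comm]; exact hT)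
  simpa using this

lemma nb_sp (l t : ℝ) : 𝓝 (Ep l t) ≤ map (Ep l) (𝓝[{T | 0 ≤ T.im}] (t : ℂ)) ⊔ map (Em l) (𝓝[{T | T.im ≤ 0}] (gg l t : ℂ)) := by
  intro A hA
  obtain ⟨hA1, hA2⟩ := hA
  rw [mem_map, Metric.mem_nhdsWithin_iff] at hA1 hA2
  obtain ⟨d1, hd1, hb1⟩ := hA1
  obtain ⟨d2, hd2, hb2⟩ := hA2
  obtain ⟨R1, hR1⟩ := bound_sp l (‖Ep l t‖ + 1)
  obtain ⟨R2, hR2⟩ := bound_sm l (‖Ep l t‖ + 1)
  have c1 : IsClosed {T : ℂ | 0 ≤ T.im} := isClosed_le continuous_const Complex.continuous_im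
  have c2 : IsClosed {T : ℂ | T.im ≤ 0} := isClosed_le Complex.continuous_im continuous_const
  have k1 : IsCompact (closedBall (0:ℂ) R1 ∩ ({T : ℂ | 0 ≤ T.im} ∩ (ball (t:ℂ) d1)ᶜ)) :=
    (isCompact_closedBall _ _).inter_right (c1.inter isOpen_ball.isClosed_compl)
  have k2 : IsCompact (closedBall (0:ℂ) R2 ∩ ({T : ℂ | T.im ≤ 0} ∩ (ball (gg l t:ℂ) d2)ᶜ)) :=
    (isCompact_closedBall _ _).inter_right (c2.inter isOpen_ball.isClosed_compl)
  have e1 := (k1.image_of_continuousOn ((Ep_cont l).mono (fun z hz => hz.2.1))).isClosed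
  have e2 := (k2.image_of_continuousOn ((Em_cont l).mono (fun z hz => hz.2.1))).isClosed
  have n1 : Ep l t ∉ Ep l '' (closedBall (0:ℂ) R1 ∩ ({T : ℂ | 0 ≤ T.im} ∩ (ball (t:ℂ) d1)ᶜ)) := by
    rintro ⟨T, hT, hTt⟩
    have := Ep_inj l hT.2.1 (show 0 ≤ ((t:ℂ)).im by simp) hTt
    rw [this] at hT
    exact hT.2.2 (mem_ball_self hd1)
  have n2 : Ep l t ∉ Em l '' (closedBall (0:ℂ) R2 ∩ ({T : ℂ | T.im ≤ 0} ∩ (ball (gg l t:ℂ) d2)ᶜ)) := by
    rintro ⟨T, hT, hTt⟩
    rw [glue_sp] at hTt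
    have := Em_inj l hT.2.1 (show ((gg l t:ℝ):ℂ).im ≤ 0 by simp) hTt
    rw [this] at hT
    exact hT.2.2 (mem_ball_self hd2)
  filter_upwards [e1.isOpen_compl.mem_nhds n1, e2.isOpen_compl.mem_nhds n2, ball_mem_nhds (Ep l t) one_pos] with w h1 h2 h3
  have hwn : ‖w‖ ≤ ‖Ep l t‖ + 1 := by
    rw [mem_ball, dist_eq_norm] at h3
    have := norm_le_norm_add_norm_sub (Ep l t) w
    rw [norm_sub_rev] at this
    linarith
  rcases surj_sp l w with ⟨T, hT, hTw⟩ | ⟨T, hT, hTw⟩
  · have hTR : T ∈ closedBall (0:ℂ) R1 := by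
      rw [mem_closedBall_zero_iff]; exact hR1 T (by rw [hTw]; exact hwn)
    have hTb : T ∈ ball (t:ℂ) d1 := by
      by_contra hh
      exact h1 ⟨T, ⟨hTR, hT, hh⟩, hTw⟩
    have := hb1 ⟨hTb, hT⟩
    rw [mem_preimage, hTw] at this
    exact this
  · have hTR : T ∈ closedBall (0:ℂ) R2 := by
      rw [mem_closedBall_zero_iff]; exact hR2 T (by rw [hTw]; exact hwn)
    have hTb : T ∈ ball (gg l t:ℂ) d2 := by
      by_contra hh
      exact h2 ⟨T, ⟨hTR, hT, hh⟩, hTw⟩
    have := hb2 ⟨hTb, hT⟩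
    rw [mem_preimage, hTw] at this
    exact this

theorem model_sp (l : ℝ) : Model (gg l) (Ep l) (Em l) where
  contP := Ep_cont l
  contM := Em_cont l
  diffP := Ep_diff l
  diffM := Em_diff l
  glue := glue_sp l
  injP := Ep_inj l
  injM := Em_inj l
  cross := cross_sp l
  nb := nb_sp l

end Pool.Agent.H813R2.Sew
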