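import Mathlib
import Pool.Agent.H813R2.Sew1
set_option autoImplicit false
open MeasureTheory Set Filter Topology Complex
open scoped ENNReal Real ComplexConjugate

namespace Pool.Agent.H813R2.Sew

/-- one dimensional change of variables inequality -/
lemma cov {v v' w : ℝ → ℝ} {a b r ρ K : ℝ} (hK : 0 ≤ K)
    (hd : ∀ τ ∈ Ioo a b, HasDerivAt v (v' τ) τ) (hinj : InjOn v (Ioo a b))
    (hmaps : ∀ τ ∈ Ioo a b, v τ ∈ Ioo r ρ) (hv : ∀ τ ∈ Ioo a b, w τ ≤ K * |v' τ|)
    {g : ℝ → ℝ≥0∞} :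
    ∫⁻ τ in Ioo a b, ENNReal.ofReal (w τ) * g (v τ) ≤
      ENNReal.ofReal K * ∫⁻ R in Ioo r ρ, g R := by
  have h1 := lintegral_image_eq_lintegral_abs_deriv_mul measurableSet_Ioo
    (fun τ hτ => (hd τ hτ).hasDerivWithinAt) hinj g
  calc ∫⁻ τ in Ioo a b, ENNReal.ofReal (w τ) * g (v τ)
      ≤ ∫⁻ τ in Ioo a b, ENNReal.ofReal K * (ENNReal.ofReal |v' τ| * g (v τ)) := by
        apply setLIntegral_mono_ae' measurableSet_Ioo
        refine ae_of_all _ fun τ hτ => ?_
        rw [← mul_assoc, ← ENNReal.ofReal_mul hK]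
        gcongr
        exact hv τ hτ
    _ = ENNReal.ofReal K * ∫⁻ τ in Ioo a b, (ENNReal.ofReal |v' τ| * g (v τ)) := by
        rw [lintegral_const_mul' _ _ ENNReal.ofReal_ne_top]
    _ = ENNReal.ofReal K * ∫⁻ R in v '' Ioo a b, g R := by rw [h1]
    _ ≤ _ := by
        gcongr
        rintro _ ⟨τ, hτ, rfl⟩
        exact hmaps τ hτ

/-- radius function -/
noncomputable def vr (τ : ℝ) : ℝ := Real.arctan (Real.exp (-τ)) / π

lemma vr_pos (τ : ℝ) : 0 < vr τ := by
  unfold vr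
  apply div_pos _ Real.pi_pos
  exact Real.arctan_pos.2 (Real.exp_pos _)

lemma vr_anti : StrictAnti vr := by
  intro a b hab
  unfold vr
  apply div_lt_div_of_pos_right _ Real.pi_pos
  apply Real.arctan_strictMono
  apply Real.exp_lt_exp.2
  linarith

noncomputable def vrd (τ : ℝ) : ℝ := -(Real.exp (-τ) / (1 + Real.exp (-τ) ^ 2)) / π

lemma vr_deriv (τ : ℝ) : HasDerivAt vr (vrd τ) τ := by
  have h1 : HasDerivAt (fun τ : ℝ => Real.exp (-τ)) (-Real.exp (-τ)) τ := by
    have := (Real.hasDerivAt_exp (-τ)).comp τ (hasDerivAt_neg τ)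
    simpa [Function.comp_def] using this
  have h2 := (h1.arctan).div_const π
  refine HasDerivAt.congr_deriv h2 ?_
  unfold vrd
  field_simp

lemma arctan_le_self {x : ℝ} (hx : 0 ≤ x) : Real.arctan x ≤ x := by
  have h := Real.le_tan (Real.arctan_nonneg.2 hx) (Real.arctan_lt_pi_div_two x)
  rwa [Real.tan_arctan] at h

lemma vr_le (τ : ℝ) : vr τ ≤ Real.exp (-τ) / π := by
  unfold vr
  apply div_le_div_of_nonneg_right _ Real.pi_pos.le
  exact arctan_le_self (Real.exp_pos _).le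

lemma vr_le_deriv {τ : ℝ} (hτ : 0 ≤ τ) : vr τ ≤ 2 * |vrd τ| := by
  refine (vr_le τ).trans ?_
  unfold vrd
  have h1 : 0 < Real.exp (-τ) := Real.exp_pos _
  have h2 : Real.exp (-τ) ≤ 1 := Real.exp_le_one_iff.2 (by linarith)
  rw [neg_div, abs_neg, abs_of_pos (by have := Real.pi_pos; positivity), ← mul_div_assoc]
  apply div_le_div_of_nonneg_right _ Real.pi_pos.le
  rw [← mul_div_assoc, le_div_iff₀ (by positivity)]
  nlinarith

lemma vr_small {τ : ℝ} (hτ : 2 ≤ τ) : vr τ < 1 / 8 := by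
  refine lt_of_le_of_lt (vr_le τ) ?_
  rw [div_lt_iff₀ Real.pi_pos]
  have h1 : Real.exp (-τ) ≤ Real.exp (-2) := Real.exp_le_exp.2 (by linarith)
  have h2 : Real.exp (-2) < 1 / 4 := by
    rw [Real.exp_neg, inv_lt_comm₀ (Real.exp_pos _) (by norm_num)]
    have h3 : Real.exp 2 = Real.exp 1 * Real.exp 1 := by rw [← Real.exp_add]; norm_num
    have h4 := Real.exp_one_gt_d9
    rw [h3]; norm_num; nlinarith
  have := Real.pi_gt_three
  linarith

lemma vr_lower {L : ℝ} (hL : 0 ≤ L) : Real.exp (-L) / (2 * π) ≤ vr L := by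
  unfold vr
  rw [div_le_div_iff₀ (by positivity) Real.pi_pos]
  have h1 : 0 < Real.exp (-L) := Real.exp_pos _
  have h2 : Real.exp (-L) ≤ 1 := Real.exp_le_one_iff.2 (by linarith)
  have h3 : Real.exp (-L) / 2 ≤ Real.arctan (Real.exp (-L)) := by
    have h4 : ∀ x ∈ Icc (0:ℝ) 1, x / 2 ≤ Real.arctan x := by
      have h5 : MonotoneOn (fun x => Real.arctan x - x / 2) (Icc 0 1) := by
        apply monotoneOn_of_deriv_nonneg (convex_Icc 0 1)
        · fun_prop
        · intro x _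
          exact ((Real.hasDerivAt_arctan x).sub
            ((hasDerivAt_id x).div_const 2)).differentiableAt.differentiableWithinAt
        · intro x hx
          rw [interior_Icc] at hx
          have : HasDerivAt (fun x => Real.arctan x - x / 2) (1 / (1 + x ^ 2) - 1 / 2) x :=
            (Real.hasDerivAt_arctan x).sub ((hasDerivAt_id x).div_const 2)
          rw [this.deriv, sub_nonneg]
          apply one_div_le_one_div_of_le (by positivity)
          nlinarith [hx.1, hx.2]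
      intro x hx
      have := h5 (left_mem_Icc.2 zero_le_one) hx hx.1
      simp at this
      linarith
    exact h4 _ ⟨h1.le, h2⟩
  nlinarith [Real.pi_pos]

/-- bound on the logarithm of ratios of radii -/
lemma log_bound {L : ℝ} (hL : 6 ≤ L) : Real.log ((1 / 4) / vr L) ≤ 2 * L := by
  have h1 := vr_lower (by linarith : 0 ≤ L)
  have h2 : (1 / 4) / vr L ≤ Real.exp (2 * L) := by
    rw [div_le_iff₀ (vr_pos L)]
    calc (1 / 4 : ℝ) ≤ Real.exp (2 * L) * (Real.exp (-L) / (2 * π)) := by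
          rw [← mul_div_assoc, ← Real.exp_add, le_div_iff₀ (by positivity)]
          have h3 : 2 * L + -L = L := by ring
          rw [h3]
          have h4 : L + 1 ≤ Real.exp L := Real.add_one_le_exp L
          have := Real.pi_lt_four
          linarith
      _ ≤ _ := by gcongr
  calc Real.log ((1 / 4) / vr L) ≤ Real.log (Real.exp (2 * L)) :=
        Real.log_le_log (div_pos (by norm_num) (vr_pos L)) h2
    _ = 2 * L := Real.log_exp _

/-- circle integral function `∫_0^π |G'(p+R e^{iθ})| dθ` -/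
noncomputable def CI (G : ℂ → ℂ) (p R : ℝ) : ℝ≥0∞ := ∫⁻ θ in Ioo 0 π, PH G p R θ

/-- radial integral function -/
noncomputable def RI (G : ℂ → ℂ) (p r ρ θ : ℝ) : ℝ≥0∞ := ∫⁻ u in Ioo r ρ, PH G p u θ

/-- total -/
noncomputable def TI (G : ℂ → ℂ) (p r ρ : ℝ) : ℝ≥0∞ := ∫⁻ x in Ioo r ρ ×ˢ Ioo 0 π, PH G p x.1 x.2

lemma CI_int (G : ℂ → ℂ) (p r ρ : ℝ) : ∫⁻ R in Ioo r ρ, CI G p R = TI G p r ρ := by
  unfold CI TI
  have hv : (volume : Measure (ℝ × ℝ)) = (volume : Measure ℝ).prod volume := rfl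
  rw [hv, ← Measure.prod_restrict, lintegral_prod _ (PH_meas G p).aemeasurable]

lemma RI_int (G : ℂ → ℂ) (p r ρ : ℝ) : ∫⁻ θ in Ioo 0 π, RI G p r ρ θ = TI G p r ρ := by
  unfold RI TI
  have hv : (volume : Measure (ℝ × ℝ)) = (volume : Measure ℝ).prod volume := rfl
  rw [hv, ← Measure.prod_restrict, lintegral_prod_symm _ (PH_meas G p).aemeasurable]

end Pool.Agent.H813R2.Sew
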