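import Mathlib
import Pool.Agent.H813R2.Sew2
set_option autoImplicit false
open MeasureTheory Set Filter Topology Complex Metric
open scoped ENNReal Real ComplexConjugate Interval

namespace Pool.Agent.H813R2.Sew

/-- the Blaschke-type distortion of the line commuting with integer translations -/
noncomputable def bb (a u : ℝ) : ℝ := u - Complex.arg (1 - a * Complex.exp (2 * π * u * I)) / π

lemma exp_cs (u : ℝ) : Complex.exp (2 * π * u * I) = ⟨Real.cos (2 * π * u), Real.sin (2 * π * u)⟩ := by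
  have : (2 * π * u * I : ℂ) = ((2 * π * u : ℝ) : ℂ) * I := by push_cast; ring
  rw [this]
  apply Complex.ext
  · exact Complex.exp_ofReal_mul_I_re _
  · exact Complex.exp_ofReal_mul_I_im _

variable {a : ℝ}

noncomputable def zz (a u : ℝ) : ℂ := 1 - a * Complex.exp (2 * π * u * I)

lemma zz_re (u : ℝ) : (zz a u).re = 1 - a * Real.cos (2 * π * u) := by
  unfold zz; rw [exp_cs]; simp
lemma zz_im (u : ℝ) : (zz a u).im = - (a * Real.sin (2 * π * u)) := by
  unfold zz; rw [exp_cs]; simp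

lemma zz_pos (h0 : 0 ≤ a) (h1 : a < 1) (u : ℝ) : 0 < (zz a u).re := by
  rw [zz_re]
  have := Real.cos_le_one (2 * π * u)
  nlinarith

lemma bb_eq (a u : ℝ) : bb a u = u - Complex.arg (zz a u) / π := rfl

lemma bb_cont (h0 : 0 ≤ a) (h1 : a < 1) : Continuous (bb a) := by
  rw [continuous_iff_continuousAt]
  intro u
  have h2 : ContinuousAt Complex.arg (zz a u) := Complex.continuousAt_arg (Or.inl (zz_pos h0 h1 u))
  have h3 : Continuous (zz a) := by unfold zz; fun_prop
  have h4 : ContinuousAt (fun u => Complex.arg (zz a u)) u := ContinuousAt.comp h2 h3.continuousAt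
  have : bb a = fun u => u - Complex.arg (zz a u) / π := rfl
  rw [this]
  exact continuousAt_id.sub (h4.div_const _)

lemma bb_close (h0 : 0 ≤ a) (h1 : a < 1) (u : ℝ) : |bb a u - u| < 1 / 2 := by
  rw [bb_eq]
  have h2 : |Complex.arg (zz a u)| < π / 2 := Complex.abs_arg_lt_pi_div_two_iff.2 (Or.inl (zz_pos h0 h1 u))
  rw [show u - Complex.arg (zz a u) / π - u = -(Complex.arg (zz a u) / π) by ring, abs_neg, abs_div, abs_of_pos Real.pi_pos,
    div_lt_iff₀ Real.pi_pos]
  linarith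

lemma bb_add_int (u : ℝ) (n : ℤ) : bb a (u + n) = bb a u + n := by
  rw [bb_eq, bb_eq]
  have : zz a (u + n) = zz a u := by
    unfold zz
    have : (2 * π * ((u + n : ℝ) : ℂ) * I : ℂ) = 2 * π * u * I + n * (2 * π * I) := by push_cast; ring
    rw [this, Complex.exp_add, Complex.exp_int_mul_two_pi_mul_I, mul_one]
  rw [this]; ring

lemma bb_neg (h0 : 0 ≤ a) (h1 : a < 1) (u : ℝ) : bb a (-u) = - bb a u := by
  rw [bb_eq, bb_eq]
  have : zz a (-u) = conj (zz a u) := by
    apply Complex.ext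
    · rw [Complex.conj_re, zz_re, zz_re, show 2 * π * -u = -(2 * π * u) by ring, Real.cos_neg]
    · rw [Complex.conj_im, zz_im, zz_im, show 2 * π * -u = -(2 * π * u) by ring, Real.sin_neg]; ring
  rw [this, Complex.arg_conj, if_neg]
  · ring
  · intro h
    rw [Complex.arg_eq_pi_iff] at h
    linarith [zz_pos h0 h1 u, h.1]

lemma bb_zero (h0 : 0 ≤ a) (h1 : a < 1) : bb a 0 = 0 := by
  have := bb_neg h0 h1 0
  rw [neg_zero] at this
  linarith

lemma bb_int (h0 : 0 ≤ a) (h1 : a < 1) (n : ℤ) : bb a n = n := by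
  have := bb_add_int (a := a) 0 n
  rw [zero_add, bb_zero h0 h1, zero_add] at this
  exact this

lemma bb_half (h0 : 0 ≤ a) (h1 : a < 1) : bb a (1 / 2) = 1 / 2 := by
  have h2 := bb_neg h0 h1 (1 / 2)
  have h3 := bb_add_int (a := a) (-(1 / 2)) 1
  have : (-(1 / 2) + ((1:ℤ):ℝ) : ℝ) = 1 / 2 := by norm_num
  rw [this, h2] at h3
  push_cast at h3
  linarith

/-- the trigonometric form -/
lemma bb_trig (h0 : 0 ≤ a) (h1 : a < 1) (u : ℝ) : ∃ D : ℝ, 0 < D ∧
    Real.cos (π * bb a u) * D = (1 - a) * Real.cos (π * u) ∧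
    Real.sin (π * bb a u) * D = (1 + a) * Real.sin (π * u) := by
  have hz : zz a u ≠ 0 := by intro h; have := zz_pos h0 h1 u; rw [h] at this; simp at this
  refine ⟨‖zz a u‖, norm_pos_iff.2 hz, ?_, ?_⟩
  all_goals
    have e1 : π * bb a u = π * u - Complex.arg (zz a u) := by
      rw [bb_eq]; field_simp
    have ec : ‖zz a u‖ * Real.cos (Complex.arg (zz a u)) = (zz a u).re := by
      rw [mul_comm, Complex.cos_arg hz]; exact div_mul_cancel₀ _ (norm_ne_zero_iff.2 hz)
    have es : ‖zz a u‖ * Real.sin (Complex.arg (zz a u)) = (zz a u).im := by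
      rw [mul_comm, Complex.sin_arg]; exact div_mul_cancel₀ _ (norm_ne_zero_iff.2 hz)
    rw [zz_re, show 2 * π * u = 2 * (π * u) by ring, Real.cos_two_mul] at ec
    rw [zz_im, show 2 * π * u = 2 * (π * u) by ring, Real.sin_two_mul] at es
    have hsc := Real.sin_sq_add_cos_sq (π * u)
    rw [e1]
  · rw [Real.cos_sub]
    linear_combination Real.cos (π * u) * ec + Real.sin (π * u) * es + (-2 * a * Real.cos (π * u)) * hsc
  · rw [Real.sin_sub]
    linear_combination Real.sin (π * u) * ec - Real.cos (π * u) * es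

lemma bb_mono (h0 : 0 ≤ a) (h1 : a < 1) : StrictMono (bb a) := by
  intro u v huv
  have hπ := Real.pi_pos
  have c1 := abs_lt.1 (bb_close h0 h1 u)
  have c2 := abs_lt.1 (bb_close h0 h1 v)
  by_cases h : v - u < 1
  · obtain ⟨D, hD, hc, hs⟩ := bb_trig h0 h1 u
    obtain ⟨D', hD', hc', hs'⟩ := bb_trig h0 h1 v
    have e1 : Real.sin (π * (bb a v - bb a u)) * (D * D') = (1 - a ^ 2) * Real.sin (π * (v - u)) := by
      rw [mul_sub, mul_sub, Real.sin_sub, Real.sin_sub]
      linear_combination (Real.cos (π * bb a u) * D) * hs' + ((1 + a) * Real.sin (π * v)) * hc -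
        (Real.sin (π * bb a u) * D) * hc' - ((1 - a) * Real.cos (π * v)) * hs
    have e2 : 0 < Real.sin (π * (v - u)) := Real.sin_pos_of_pos_of_lt_pi (by nlinarith) (by nlinarith)
    have e3 : 0 < Real.sin (π * (bb a v - bb a u)) := by
      have h3 : 0 < Real.sin (π * (bb a v - bb a u)) * (D * D') := by
        rw [e1]; apply mul_pos _ e2; nlinarith
      exact pos_of_mul_pos_left h3 (by positivity)
    by_contra h4
    push Not at h4
    have h5 : -1 < bb a v - bb a u := by linarith [c1.1, c1.2, c2.1, c2.2]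
    have h6 : Real.sin (π * (bb a v - bb a u)) ≤ 0 := by
      apply Real.sin_nonpos_of_nonpos_of_neg_pi_le
      · nlinarith
      · nlinarith
    linarith
  · push Not at h
    linarith [c1.1, c1.2, c2.1, c2.2]

/-- the parameter `a` with `(1 + a) / (1 - a) = e ^ Λ` -/
noncomputable def aa (Λ : ℝ) : ℝ := (Real.exp Λ - 1) / (Real.exp Λ + 1)

lemma aa_nonneg {Λ : ℝ} (h : 0 ≤ Λ) : 0 ≤ aa Λ := by
  unfold aa
  have := Real.one_le_exp h
  apply div_nonneg <;> linarith

lemma aa_lt (Λ : ℝ) : aa Λ < 1 := by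
  unfold aa
  have := Real.exp_pos Λ
  rw [div_lt_one (by linarith)]; linarith

lemma aa_K (Λ : ℝ) : 1 + aa Λ = Real.exp Λ * (1 - aa Λ) := by
  unfold aa
  have := Real.exp_pos Λ
  have : Real.exp Λ + 1 ≠ 0 := by positivity
  field_simp
  ring

/-- trigonometric form with `K = e ^ Λ` -/
lemma bb_trigK {Λ : ℝ} (h : 0 ≤ Λ) (u : ℝ) : ∃ D : ℝ, 0 < D ∧
    Real.cos (π * bb (aa Λ) u) * D = Real.cos (π * u) ∧
    Real.sin (π * bb (aa Λ) u) * D = Real.exp Λ * Real.sin (π * u) := by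
  obtain ⟨D, hD, hc, hs⟩ := bb_trig (aa_nonneg h) (aa_lt Λ) u
  have h1 : 0 < 1 - aa Λ := by have := aa_lt Λ; linarith
  refine ⟨D / (1 - aa Λ), by positivity, ?_, ?_⟩
  · rw [← mul_div_assoc, hc]; field_simp
  · rw [← mul_div_assoc, hs, aa_K]; field_simp

lemma bb_seam0 {Λ : ℝ} (h : 0 ≤ Λ) (τ : ℝ) : bb (aa Λ) (vr τ) = 1 / 2 - vr (Λ - τ) := by
  have hπ := Real.pi_pos
  have hv0 := vr_pos τ
  have hv1 : vr τ < 1 / 2 := by
    unfold vr
    rw [div_lt_iff₀ hπ]
    have := Real.arctan_lt_pi_div_two (Real.exp (-τ))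
    linarith
  have m := bb_mono (aa_nonneg h) (aa_lt Λ)
  have b0 := m hv0
  have b1 := m hv1
  rw [bb_zero (aa_nonneg h) (aa_lt Λ)] at b0
  rw [bb_half (aa_nonneg h) (aa_lt Λ)] at b1
  obtain ⟨D, hD, hc, hs⟩ := bb_trigK h (vr τ)
  have e1 : π * vr τ = Real.arctan (Real.exp (-τ)) := by unfold vr; field_simp
  rw [e1] at hc hs
  have hcos : 0 < Real.cos (Real.arctan (Real.exp (-τ))) := Real.cos_arctan_pos _
  have hcos2 : 0 < Real.cos (π * bb (aa Λ) (vr τ)) := by
    apply Real.cos_pos_of_mem_Ioo; constructor <;> nlinarith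
  have htan : Real.tan (π * bb (aa Λ) (vr τ)) = Real.exp (Λ - τ) := by
    rw [Real.tan_eq_sin_div_cos, div_eq_iff hcos2.ne']
    have h3 : Real.sin (Real.arctan (Real.exp (-τ))) = Real.exp (-τ) * Real.cos (Real.arctan (Real.exp (-τ))) := by
      have := Real.tan_arctan (Real.exp (-τ))
      rw [Real.tan_eq_sin_div_cos, div_eq_iff hcos.ne'] at this
      exact this
    rw [h3] at hs
    have h4 : (Real.sin (π * bb (aa Λ) (vr τ)) - Real.exp (Λ - τ) * Real.cos (π * bb (aa Λ) (vr τ))) * D = 0 := by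
      have : Real.exp (Λ - τ) = Real.exp Λ * Real.exp (-τ) := by rw [← Real.exp_add]; ring_nf
      rw [this]
      linear_combination hs - Real.exp Λ * Real.exp (-τ) * hc
    rcases mul_eq_zero.1 h4 with h5 | h5
    · linarith
    · exact absurd h5 hD.ne'
  have harc : π * bb (aa Λ) (vr τ) = Real.arctan (Real.exp (Λ - τ)) := by
    rw [← htan, Real.arctan_tan] <;> nlinarith
  have hinv : Real.arctan (Real.exp (-(Λ - τ))) = π / 2 - Real.arctan (Real.exp (Λ - τ)) := by
    rw [Real.exp_neg, Real.arctan_inv_of_pos (Real.exp_pos _)]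
  have : vr (Λ - τ) = (π / 2 - π * bb (aa Λ) (vr τ)) / π := by
    rw [harc, ← hinv]; rfl
  rw [this]; field_simp; ring

lemma bb_seamP {Λ : ℝ} (h : 0 ≤ Λ) (j : ℤ) (τ : ℝ) : bb (aa Λ) (j + vr τ) = j + 1 / 2 - vr (Λ - τ) := by
  rw [add_comm, bb_add_int, bb_seam0 h]; ring

lemma bb_seamM {Λ : ℝ} (h : 0 ≤ Λ) (j : ℤ) (τ : ℝ) : bb (aa Λ) (j - vr τ) = j - 1 / 2 + vr (Λ - τ) := by
  rw [sub_eq_add_neg, add_comm, bb_add_int, bb_neg (aa_nonneg h) (aa_lt Λ), bb_seam0 h]; ring

end Pool.Agent.H813R2.Sew
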