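import Mathlib
import Pool.Agent.H813R2.Sew2
set_option autoImplicit false
open MeasureTheory Set Filter Topology Complex
open scoped ENNReal Real ComplexConjugate

namespace Pool.Agent.H813R2.Sew

noncomputable def Ed (G : ℂ → ℂ) (p ρ : ℝ) : ℝ≥0∞ := ∫⁻ z in HD p ρ, ‖deriv G z‖ₑ ^ 2

/-- data of a barrier -/
structure Par (N n : ℕ) : Prop where
  hN : 1 ≤ N
  hn : 1 ≤ n
  h6 : 6 ≤ N * n

variable {N n : ℕ}

/-- the parameter `Λ` -/
noncomputable def LL (N n : ℕ) : ℝ := (N : ℝ) * n

lemma Par.L6 (h : Par N n) : 6 ≤ LL N n := by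
  unfold LL; exact_mod_cast h.h6

lemma Par.N0 (h : Par N n) : 0 < (N : ℝ) := by exact_mod_cast h.hN

lemma Par.n1 (h : Par N n) : 1 ≤ (n : ℝ) := by exact_mod_cast h.hn

/-- outer radius -/
noncomputable def ro (N : ℕ) : ℝ := (1 / 4) / N
/-- inner radius -/
noncomputable def ri (N n : ℕ) : ℝ := vr (LL N n) / N

lemma Par.ro_pos (h : Par N n) : 0 < ro N := by have := h.N0; unfold ro; positivity
lemma Par.ri_pos (h : Par N n) : 0 < ri N n := by
  have := h.N0; have := vr_pos (LL N n); unfold ri; positivity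

lemma Par.ri_lt (h : Par N n) : ri N n < ro N := by
  unfold ri ro
  apply div_lt_div_of_pos_right _ h.N0
  have := vr_small (show 2 ≤ LL N n by have := h.L6; linarith)
  linarith

lemma Par.TI_le (h : Par N n) (G : ℂ → ℂ) (p : ℝ) {l : ℝ} (hl : 0 < l) :
    TI G p (ri N n) (ro N) ≤ ENNReal.ofReal (l / 2) * Ed G p (ro N) +
      ENNReal.ofReal (π * LL N n / l) := by
  refine (polar_bound G p h.ri_pos h.ri_lt hl).trans ?_
  unfold Ed
  refine add_le_add le_rfl (ENNReal.ofReal_le_ofReal ?_)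
  have h1 : ro N / ri N n = (1 / 4) / vr (LL N n) := by
    unfold ro ri
    have := h.N0.ne'
    have := (vr_pos (LL N n)).ne'
    field_simp
  rw [h1, div_le_div_iff₀ (by positivity) hl]
  have h2 := log_bound h.L6
  have h3 : 0 < π * l := by positivity
  nlinarith [mul_le_mul_of_nonneg_left h2 h3.le]

/-- bottom radii -/
noncomputable def rb (N : ℕ) (τ : ℝ) : ℝ := vr τ / N
/-- top radii -/
noncomputable def rt (N n : ℕ) (τ : ℝ) : ℝ := 2 * vr (LL N n - τ) / N

/-- middle third -/
def mid (N n : ℕ) : Set ℝ := Ioo (LL N n / 3) (2 * LL N n / 3)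

lemma Par.rb_mem (h : Par N n) {τ : ℝ} (hτ : τ ∈ mid N n) : rb N τ ∈ Ioo (ri N n) (ro N) := by
  have h6 := h.L6
  unfold rb ri ro
  constructor
  · apply div_lt_div_of_pos_right _ h.N0
    apply vr_anti
    have := hτ.2
    linarith
  · apply div_lt_div_of_pos_right _ h.N0
    have := vr_small (show 2 ≤ τ by have := hτ.1; linarith)
    linarith

lemma Par.rt_mem (h : Par N n) {τ : ℝ} (hτ : τ ∈ mid N n) : rt N n τ ∈ Ioo (ri N n) (ro N) := by
  have h6 := h.L6
  unfold rt ri ro
  constructor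
  · apply div_lt_div_of_pos_right _ h.N0
    have h1 : vr (LL N n) < vr (LL N n - τ) := by
      apply vr_anti
      have := hτ.1
      linarith
    have := vr_pos (LL N n)
    linarith
  · apply div_lt_div_of_pos_right _ h.N0
    have := vr_small (show 2 ≤ LL N n - τ by have := hτ.2; linarith)
    linarith

lemma Par.tau_b (h : Par N n) (G : ℂ → ℂ) (p : ℝ) :
    ∫⁻ τ in mid N n, ENNReal.ofReal (rb N τ) * CI G p (rb N τ) ≤
      ENNReal.ofReal 2 * TI G p (ri N n) (ro N) := by
  rw [← CI_int]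
  apply cov (v' := fun τ => vrd τ / N) (by norm_num)
  · intro τ _
    exact (vr_deriv τ).div_const _
  · have : StrictAnti (rb N) := fun a b hab => div_lt_div_of_pos_right (vr_anti hab) h.N0
    exact this.injective.injOn
  · intro τ hτ; exact h.rb_mem hτ
  · intro τ hτ
    have h1 := vr_le_deriv (τ := τ) (by have := hτ.1; have := h.L6; linarith)
    unfold rb
    rw [abs_div, abs_of_pos h.N0, ← mul_div_assoc]
    exact div_le_div_of_nonneg_right h1 h.N0.le

lemma Par.tau_t (h : Par N n) (G : ℂ → ℂ) (p : ℝ) :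
    ∫⁻ τ in mid N n, ENNReal.ofReal (rt N n τ) * CI G p (rt N n τ) ≤
      ENNReal.ofReal 2 * TI G p (ri N n) (ro N) := by
  rw [← CI_int]
  apply cov (v' := fun τ => 2 * (vrd (LL N n - τ) * (-1)) / N) (by norm_num)
  · intro τ _
    have h1 : HasDerivAt (fun τ : ℝ => LL N n - τ) (-1) τ := by
      simpa using (hasDerivAt_id τ).const_sub (LL N n)
    exact (((vr_deriv (LL N n - τ)).comp τ h1).const_mul 2).div_const _
  · have : StrictMono (rt N n) := by
      intro a b hab
      unfold rt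
      apply div_lt_div_of_pos_right _ h.N0
      have := vr_anti (show LL N n - b < LL N n - a by linarith)
      linarith
    exact this.injective.injOn
  · intro τ hτ; exact h.rt_mem hτ
  · intro τ hτ
    have h1 := vr_le_deriv (τ := LL N n - τ) (by have := hτ.2; have := h.L6; linarith)
    unfold rt
    rw [abs_div, abs_of_pos h.N0, ← mul_div_assoc]
    apply div_le_div_of_nonneg_right _ h.N0.le
    rw [abs_mul, abs_mul, abs_neg, abs_one, mul_one, abs_of_pos (by norm_num : (0:ℝ) < 2)]
    linarith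

/-- reflected function -/
noncomputable def tp (F : ℂ → ℂ) : ℂ → ℂ := conj ∘ (fun w => F (I + w)) ∘ conj

lemma tp_deriv (F : ℂ → ℂ) (z : ℂ) : ‖deriv (tp F) z‖ₑ = ‖deriv F (I + conj z)‖ₑ := by
  unfold tp
  rw [deriv_conj_conj]
  simp only [Function.comp_apply]
  rw [deriv_comp_const_add, ← ofReal_norm, ← ofReal_norm, RCLike.norm_conj]

/-- half disc under the top edge -/
def HDt (p ρ : ℝ) : Set ℂ := {z | z.im < 1 ∧ ‖z - (I + p)‖ < ρ}

lemma HDt_meas (p ρ : ℝ) : MeasurableSet (HDt p ρ) := by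
  apply IsOpen.measurableSet
  have h1 : IsOpen {z : ℂ | z.im < 1} := isOpen_lt Complex.continuous_im continuous_const
  have h2 : IsOpen {z : ℂ | ‖z - (I + p)‖ < ρ} :=
    isOpen_lt (continuous_id.sub continuous_const).norm continuous_const
  exact h1.inter h2

lemma conj_mp : MeasurePreserving (fun z : ℂ => conj z) volume volume :=
  (Complex.conjLIE.toHomeomorph.toMeasurableEquiv |> fun _ => Complex.conjLIE.measurePreserving)

lemma Ed_tp (F : ℂ → ℂ) (p ρ : ℝ) : Ed (tp F) p ρ = ∫⁻ z in HDt p ρ, ‖deriv F z‖ₑ ^ 2 := by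
  unfold Ed
  simp_rw [tp_deriv]
  have h1 : MeasurePreserving (fun z : ℂ => I + conj z) volume volume :=
    (measurePreserving_add_left volume I).comp conj_mp
  have hemb : MeasurableEmbedding (fun z : ℂ => I + conj z) := by
    have : MeasurableEmbedding (fun z : ℂ => conj z) :=
      Complex.conjLIE.toHomeomorph.measurableEmbedding
    exact (measurableEmbedding_addLeft I).comp this
  have h2 := h1.setLIntegral_comp_preimage_emb hemb (fun z => ‖deriv F z‖ₑ ^ 2) (HDt p ρ)
  rw [← h2]
  congr 2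
  ext z
  simp only [mem_preimage, HDt, HD, mem_ofPred_eq]
  have e1 : (I + conj z).im = 1 - z.im := by simp; ring
  have e2 : ‖I + conj z - (I + p)‖ = ‖z - p‖ := by
    have : I + conj z - (I + p) = conj (z - p) := by simp
    rw [this, RCLike.norm_conj]
  rw [e1, e2]
  constructor
  · rintro ⟨a, b⟩; exact ⟨by linarith, b⟩
  · rintro ⟨a, b⟩; exact ⟨by linarith, b⟩

end Pool.Agent.H813R2.Sew
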