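import Mathlib
import Pool.Agent.H813R2.Sew3
import Pool.Agent.H813R2.Sew13
import Pool.Agent.H813R2.Sew14
import Pool.Agent.H813R2.Sew15
set_option autoImplicit false
open MeasureTheory Set Filter Topology Complex Metric
open scoped ENNReal Real ComplexConjugate Interval

namespace Pool.Agent.H813R2.Sew

def nn (k : ℕ) : ℕ := 16 ^ (k + 1)

lemma nn_ge (k : ℕ) : 16 ≤ nn k := by
  unfold nn
  calc 16 = 16 ^ 1 := by norm_num
    _ ≤ 16 ^ (k + 1) := Nat.pow_le_pow_right (by norm_num) (by omega)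

lemma nn_lt {k m : ℕ} (h : k < m) : 16 * nn k ≤ nn m := by
  unfold nn
  calc 16 * 16 ^ (k + 1) = 16 ^ (k + 1 + 1) := by ring
    _ ≤ 16 ^ (m + 1) := Nat.pow_le_pow_right (by norm_num) (by omega)

lemma nn_le {k m : ℕ} (h : k ≤ m) : nn k ≤ nn m := by
  unfold nn; exact Nat.pow_le_pow_right (by norm_num) (by omega)

lemma k_lt_nn (k : ℕ) : k < nn k := by
  unfold nn
  calc k < k + 1 := by omega
    _ < 16 ^ (k + 1) := Nat.lt_pow_self (by norm_num)

lemma nn_geR (k : ℕ) : (16:ℝ) ≤ nn k := by exact_mod_cast nn_ge k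
lemma nn_ltR {k m : ℕ} (h : k < m) : 16 * (nn k : ℝ) ≤ nn m := by exact_mod_cast nn_lt h
lemma nn_leR {k m : ℕ} (h : k ≤ m) : (nn k : ℝ) ≤ nn m := by exact_mod_cast nn_le h

def bar (k : ℕ) : Set ℝ := Icc (nn k : ℝ) (4 * nn k)

lemma bar_disj {k m : ℕ} {x : ℝ} (hk : x ∈ bar k) (hm : x ∈ bar m) : k = m := by
  rcases lt_trichotomy k m with h | h | h
  · exfalso
    have := nn_ltR h
    have := nn_geR k
    linarith [hk.2, hm.1]
  · exact h
  · exfalso
    have := nn_ltR h
    have := nn_geR m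
    linarith [hm.2, hk.1]

variable {N : ℕ → ℕ}

noncomputable def Lam (N : ℕ → ℕ) (k : ℕ) : ℝ := LL (N k) (nn k)

noncomputable def cl (k : ℕ) (x : ℝ) : ℝ := max (nn k : ℝ) (min x (4 * nn k))

noncomputable def ps (N : ℕ → ℕ) (k : ℕ) (x : ℝ) : ℝ :=
  (2 / N k) * (bb (aa (Lam N k)) (N k * cl k x) - N k * cl k x)

noncomputable def be (N : ℕ → ℕ) (x : ℝ) : ℝ := 2 * x + ∑ᶠ k, ps N k x

lemma Lam_nonneg (k : ℕ) : 0 ≤ Lam N k := by unfold Lam LL; positivity

lemma ps_cont (k : ℕ) : Continuous (ps N k) := by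
  unfold ps cl
  have h1 := bb_cont (aa_nonneg (Lam_nonneg (N := N) k)) (aa_lt (Lam N k))
  have h2 : Continuous (fun x : ℝ => (N k : ℝ) * max (nn k : ℝ) (min x (4 * nn k))) := by fun_prop
  exact continuous_const.mul ((h1.comp h2).sub h2)

lemma ps_zero {k : ℕ} {x : ℝ} (hx : x ∉ Ioo (nn k : ℝ) (4 * nn k)) : ps N k x = 0 := by
  unfold ps
  have hn := nn_geR k
  have : ∃ j : ℤ, (N k : ℝ) * cl k x = j := by
    by_cases h : x ≤ nn k
    · refine ⟨N k * nn k, ?_⟩
      unfold cl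
      rw [min_eq_left (by linarith), max_eq_left h]; push_cast; ring
    · push Not at h
      have h2 : 4 * (nn k : ℝ) ≤ x := by
        by_contra h3; push Not at h3; exact hx ⟨h, h3⟩
      refine ⟨N k * (4 * nn k), ?_⟩
      unfold cl
      rw [min_eq_right h2, max_eq_right (by linarith)]; push_cast; ring
  obtain ⟨j, hj⟩ := this
  rw [hj, bb_int (aa_nonneg (Lam_nonneg k)) (aa_lt _)]
  ring

lemma cl_mem {k : ℕ} {x : ℝ} (hx : x ∈ bar k) : cl k x = x := by
  unfold cl
  rw [min_eq_left hx.2, max_eq_right hx.1]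

lemma be_in (hN : ∀ k, 1 ≤ N k) {k : ℕ} {x : ℝ} (hx : x ∈ bar k) :
    be N x = (2 / N k) * bb (aa (Lam N k)) (N k * x) := by
  unfold be
  rw [finsum_eq_single _ k]
  · unfold ps
    rw [cl_mem hx]
    have : (N k : ℝ) ≠ 0 := by have := hN k; positivity
    field_simp
    ring
  · intro m hm
    apply ps_zero
    intro h
    exact hm (bar_disj hx ⟨h.1.le, h.2.le⟩).symm

lemma be_out {x : ℝ} (hx : ∀ k, x ∉ Ioo (nn k : ℝ) (4 * nn k)) : be N x = 2 * x := by
  unfold be
  have : ∀ k, ps N k x = 0 := fun k => ps_zero (hx k)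
  simp [this]

lemma be_out' {x : ℝ} (hx : ∀ k, x ∉ bar k) : be N x = 2 * x :=
  be_out (fun k h => hx k ⟨h.1.le, h.2.le⟩)

lemma lf_bar : LocallyFinite bar := by
  intro x
  refine ⟨Iio (x + 1), Iio_mem_nhds (by linarith), ?_⟩
  apply (Set.finite_Iic ⌈x + 1⌉₊).subset
  rintro k ⟨y, hy1, hy2⟩
  have h1 : (k : ℝ) < nn k := by exact_mod_cast k_lt_nn k
  have h2 : (k : ℝ) < x + 1 := by
    have h3 : y < x + 1 := hy2
    linarith [hy1.1]
  rw [mem_Iic]
  have := h2.trans_le (Nat.le_ceil (x + 1))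
  exact_mod_cast this.le

lemma be_cont : Continuous (be N) := by
  unfold be
  apply (continuous_const.mul continuous_id).add
  apply continuous_finsum ps_cont
  apply lf_bar.subset
  intro k x hx
  by_contra h
  apply hx
  exact ps_zero (fun h2 => h ⟨h2.1.le, h2.2.le⟩)

lemma be_bd (hN : ∀ k, 1 ≤ N k) {k : ℕ} {x : ℝ} (hx : x ∈ bar k) : 2 * (nn k : ℝ) ≤ be N x ∧ be N x ≤ 8 * nn k := by
  rw [be_in hN hx]
  have hN0 : (0:ℝ) < N k := by have := hN k; positivity
  have m := (bb_mono (aa_nonneg (Lam_nonneg (N := N) k)) (aa_lt (Lam N k))).monotone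
  have i1 := bb_int (aa_nonneg (Lam_nonneg (N := N) k)) (aa_lt (Lam N k)) (N k * nn k)
  have i2 := bb_int (aa_nonneg (Lam_nonneg (N := N) k)) (aa_lt (Lam N k)) (N k * (4 * nn k))
  push_cast at i1 i2
  have h1 : bb (aa (Lam N k)) (N k * nn k) ≤ bb (aa (Lam N k)) (N k * x) := m (by have := hx.1; gcongr)
  have h2 : bb (aa (Lam N k)) (N k * x) ≤ bb (aa (Lam N k)) (N k * (4 * nn k)) := m (by have := hx.2; gcongr)
  rw [i1] at h1
  rw [i2] at h2
  constructor
  · calc 2 * (nn k : ℝ) = (2 / N k) * (N k * nn k) := by field_simp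
      _ ≤ _ := by gcongr
  · calc (2 / N k) * bb (aa (Lam N k)) (N k * x) ≤ (2 / N k) * (N k * (4 * nn k)) := by gcongr
      _ = _ := by field_simp; ring

lemma be_mono (hN : ∀ k, 1 ≤ N k) : StrictMono (be N) := by
  intro x y hxy
  by_cases hx : ∃ k, x ∈ bar k
  · obtain ⟨k, hk⟩ := hx
    by_cases hyk : y ∈ bar k
    · rw [be_in hN hk, be_in hN hyk]
      have hN0 : (0:ℝ) < N k := by have := hN k; positivity
      have m := bb_mono (aa_nonneg (Lam_nonneg (N := N) k)) (aa_lt (Lam N k))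
      have : bb (aa (Lam N k)) (N k * x) < bb (aa (Lam N k)) (N k * y) := m (by gcongr)
      gcongr
    · have hy : 4 * (nn k : ℝ) < y := by
        by_contra h; push Not at h
        exact hyk ⟨hk.1.trans hxy.le, h⟩
      have h1 := (be_bd hN hk).2
      by_cases hym : ∃ m, y ∈ bar m
      · obtain ⟨m, hm⟩ := hym
        have hkm : k < m := by
          by_contra h; push Not at h
          have := nn_leR h
          linarith [hm.2]
        have := (be_bd hN hm).1
        have := nn_ltR hkm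
        have := nn_geR k
        linarith
      · push Not at hym
        rw [be_out' (x := y) hym]
        linarith
  · push Not at hx
    rw [be_out' (x := x) hx]
    by_cases hym : ∃ m, y ∈ bar m
    · obtain ⟨m, hm⟩ := hym
      have h1 : x < nn m := by
        by_contra h; push Not at h
        exact hx m ⟨h, hxy.le.trans hm.2⟩
      have := (be_bd hN hm).1
      linarith
    · push Not at hym
      rw [be_out' (x := y) hym]
      linarith

lemma be_close (hN : ∀ k, 1 ≤ N k) {k : ℕ} {x : ℝ} (hx : x ∈ bar k) : |be N x - 2 * x| < 1 / N k := by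
  rw [be_in hN hx]
  have hN0 : (0:ℝ) < N k := by have := hN k; positivity
  have h := bb_close (aa_nonneg (Lam_nonneg (N := N) k)) (aa_lt (Lam N k)) (N k * x)
  have e : 2 / (N k : ℝ) * bb (aa (Lam N k)) (N k * x) - 2 * x = (2 / N k) * (bb (aa (Lam N k)) (N k * x) - N k * x) := by
    field_simp
  rw [e, abs_mul, abs_of_pos (by positivity)]
  calc 2 / (N k : ℝ) * |bb (aa (Lam N k)) (N k * x) - N k * x| < 2 / (N k : ℝ) * (1 / 2) := by gcongr
    _ = 1 / N k := by field_simp

lemma be_close1 (hN : ∀ k, 1 ≤ N k) (x : ℝ) : |be N x - 2 * x| ≤ 1 := by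
  by_cases hx : ∃ k, x ∈ bar k
  · obtain ⟨k, hk⟩ := hx
    refine (be_close hN hk).le.trans ?_
    have : (1:ℝ) ≤ N k := by exact_mod_cast hN k
    rw [div_le_one (by linarith)]; exact this
  · push Not at hx
    rw [be_out' hx]; simp

lemma be_small {x : ℝ} (hx : x < 16) : be N x = 2 * x := by
  apply be_out'
  intro k h
  have := nn_geR k
  linarith [h.1]

lemma be_sewn (hN : ∀ k, 1 ≤ N k) : Sewn (be N) where
  mono := (be_mono hN).strictMonoOn _
  cont := be_cont.continuousOn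
  img := by
    apply Subset.antisymm
    · rintro _ ⟨x, hx, rfl⟩
      have h0 : be N 0 = 0 := by rw [be_small (by norm_num)]; ring
      have := be_mono hN (show (0:ℝ) < x from hx)
      rw [h0] at this
      exact this
    · intro y hy
      have hy0 : 0 < y := hy
      have h1 : be N 0 = 0 := by rw [be_small (by norm_num)]; ring
      have h2 : y ≤ be N ((y + 1) / 2) := by
        have := abs_le.1 (be_close1 hN ((y + 1) / 2))
        linarith [this.1]
      have := intermediate_value_Icc (show (0:ℝ) ≤ (y + 1) / 2 by linarith) (be_cont (N := N)).continuousOn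
      obtain ⟨x, hx, hxy⟩ := this (⟨by rw [h1]; exact hy0.le, h2⟩ : y ∈ Icc (be N 0) (be N ((y + 1) / 2)))
      refine ⟨x, ?_, hxy⟩
      rcases hx.1.eq_or_lt with h | h
      · exfalso; rw [← h, h1] at hxy; linarith
      · exact h

/-- tangent coordinates -/
noncomputable def TC (C A θ : ℝ) (z : ℂ) : ℂ := C * Complex.tan (A * z + θ)

lemma TC_real (C A θ x : ℝ) : TC C A θ x = ((C * Real.tan (A * x + θ) : ℝ) : ℂ) := by
  unfold TC; push_cast; rfl

lemma RC_TC {C A θ p : ℝ} (hC : 0 < C) (hA : 0 < A) (hp : Real.cos (A * p + θ) ≠ 0) : RC (TC C A θ) p := by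
  have hc : Complex.cos (A * (p:ℂ) + θ) ≠ 0 := by
    have : (A * (p:ℂ) + θ) = ((A * p + θ : ℝ) : ℂ) := by push_cast; ring
    rw [this, ← Complex.ofReal_cos, Complex.ofReal_ne_zero]; exact hp
  have hd : HasDerivAt (TC C A θ) (C * (1 / Complex.cos (A * (p:ℂ) + θ) ^ 2 * A)) p := by
    unfold TC
    have h1 : HasDerivAt (fun z : ℂ => (A:ℂ) * z + θ) A (p:ℂ) := by
      simpa using ((hasDerivAt_id (p:ℂ)).const_mul (A:ℂ)).add_const (θ:ℂ)
    exact ((Complex.hasDerivAt_tan hc).comp (p:ℂ) h1).const_mul (C:ℂ)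
  constructor
  · have : TC C A θ = fun z => (C:ℂ) * (Complex.sin (A * z + θ) / Complex.cos (A * z + θ)) := by
      funext z; unfold TC; rw [Complex.tan]
    rw [this]
    have hA : AnalyticAt ℂ (fun z : ℂ => (A:ℂ) * z + θ) (p:ℂ) := by fun_prop
    apply AnalyticAt.mul analyticAt_const
    apply AnalyticAt.div
    · exact (Complex.differentiable_sin.analyticAt _).comp hA
    · exact (Complex.differentiable_cos.analyticAt _).comp hA
    · exact hc
  · filter_upwards with x
    rw [TC_real]; exact Complex.ofReal_im _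
  · rw [hd.deriv]
    have : (C * (1 / Complex.cos (A * (p:ℂ) + θ) ^ 2 * A) : ℂ) = ((C * (1 / Real.cos (A * p + θ) ^ 2 * A) : ℝ) : ℂ) := by
      push_cast; rfl
    rw [this, Complex.ofReal_re]
    have : 0 < Real.cos (A * p + θ) ^ 2 := by positivity
    positivity

lemma tanK {Λ : ℝ} (h : 0 ≤ Λ) (u : ℝ) : Real.tan (π * bb (aa Λ) u) = Real.exp Λ * Real.tan (π * u) := by
  obtain ⟨D, hD, hc, hs⟩ := bb_trigK h u
  rw [Real.tan_eq_sin_div_cos, Real.tan_eq_sin_div_cos, ← hc, ← mul_div_assoc, ← hs]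
  rw [mul_div_mul_right _ _ hD.ne']

lemma cotK {Λ : ℝ} (h : 0 ≤ Λ) (u : ℝ) : Real.tan (π * bb (aa Λ) u + π / 2) = Real.exp (-Λ) * Real.tan (π * u + π / 2) := by
  obtain ⟨D, hD, hc, hs⟩ := bb_trigK h u
  have e : ∀ x : ℝ, Real.tan (x + π / 2) = - (Real.cos x / Real.sin x) := by
    intro x
    rw [Real.tan_eq_sin_div_cos, Real.sin_add_pi_div_two, Real.cos_add_pi_div_two, div_neg]
  rw [e, e, ← hc]
  have hsin : Real.sin (π * u) = Real.exp (-Λ) * (Real.sin (π * bb (aa Λ) u) * D) := by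
    rw [hs, ← mul_assoc, ← Real.exp_add]; simp
  rw [hsin]
  have hE := Real.exp_pos (-Λ)
  by_cases h0 : Real.sin (π * bb (aa Λ) u) = 0
  · rw [h0]; simp
  · field_simp

end Pool.Agent.H813R2.Sew
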