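import Mathlib
import Pool.Agent.H813R2.Sew16
set_option autoImplicit false
open MeasureTheory Set Filter Topology Complex Metric
open scoped ENNReal Real ComplexConjugate Interval

namespace Pool.Agent.H813R2.Sew

lemma RC_lin {c p : ℝ} (hc : 0 < c) : RC (fun z => (c:ℂ) * z) p where
  an := by fun_prop
  real := by filter_upwards with x; simp
  pos := by
    have : HasDerivAt (fun z : ℂ => (c:ℂ) * z) c (p:ℂ) := by simpa using (hasDerivAt_id (p:ℂ)).const_mul (c:ℂ)
    rw [this.deriv]; simpa using hc

/-- the data for `x ↦ 2 x` -/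
theorem surf_two : SurfIn (fun x : ℝ => 2 * x) ∅ where
  sewn := {
    mono := fun x _ y _ h => by simp only; linarith
    cont := by fun_prop
    img := by
      apply Subset.antisymm
      · rintro _ ⟨x, hx, rfl⟩
        have : 0 < x := hx
        simp only [mem_Ioi]; linarith
      · intro y hy
        have : 0 < y := hy
        exact ⟨y / 2, by simp only [mem_Ioi]; linarith, by ring⟩ }
  fin := fun R => by simp
  pos := fun p hp => hp.elim
  ord := fun p _ _ => ⟨fun z => ((2:ℝ):ℂ) * z, fun z => ((1:ℝ):ℂ) * z, RC_lin (by norm_num), RC_lin (by norm_num),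
    by filter_upwards with x; push_cast; ring⟩
  bad := fun p hp => hp.elim

variable {N : ℕ → ℕ}

def BB' : Set ℝ := {p | ∃ k, p = nn k ∨ p = 4 * nn k}

lemma BB'_fin (R : ℝ) : (BB' ∩ Iic R).Finite := by
  have h1 : ((fun k : ℕ => (nn k : ℝ)) '' (Set.Iic ⌈R⌉₊)).Finite := (Set.finite_Iic _).image _
  have h2 : ((fun k : ℕ => 4 * (nn k : ℝ)) '' (Set.Iic ⌈R⌉₊)).Finite := (Set.finite_Iic _).image _
  apply (h1.union h2).subset
  rintro p ⟨⟨k, hk⟩, hp⟩
  have hp' : p ≤ R := hp
  have hkn : (k:ℝ) < nn k := by exact_mod_cast k_lt_nn k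
  have hkR : k ≤ ⌈R⌉₊ := by
    have h3 : (k:ℝ) ≤ R := by
      rcases hk with hk | hk
      · rw [hk] at hp'; linarith
      · rw [hk] at hp'
        have := nn_geR k
        linarith
    exact_mod_cast h3.trans (Nat.le_ceil R)
  rcases hk with hk | hk
  · left; exact ⟨k, hkR, hk.symm⟩
  · right; exact ⟨k, hkR, hk.symm⟩

lemma gapL {k : ℕ} {x : ℝ} (h1 : (nn k : ℝ) / 2 < x) (h2 : x < nn k) : ∀ m, x ∉ bar m := by
  intro m hm
  rcases lt_or_ge m k with h | h
  · have := nn_ltR h
    have := nn_geR m
    linarith [hm.2]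
  · have := nn_leR h
    linarith [hm.1]

lemma gapR {k : ℕ} {x : ℝ} (h1 : 4 * (nn k : ℝ) < x) (h2 : x < 5 * nn k) : ∀ m, x ∉ bar m := by
  intro m hm
  rcases le_or_gt m k with h | h
  · have := nn_leR h
    linarith [hm.2]
  · have := nn_ltR h
    have := nn_geR k
    linarith [hm.1]

lemma tan_near {N : ℝ} (hN : 0 < N) {p : ℝ} {j : ℤ} (hp : N * p = j) :
    (∀ᶠ x in 𝓝 p, x < p → Real.tan (π * N * x + 0) < 0) ∧ (∀ᶠ x in 𝓝 p, p ≤ x → 0 ≤ Real.tan (π * N * x + 0)) := by
  have hπ := Real.pi_pos
  have hmem : ∀ᶠ x in 𝓝 p, |x - p| < 1 / (2 * N) := by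
    have := Metric.ball_mem_nhds p (show 0 < 1 / (2 * N) by positivity)
    filter_upwards [this] with x hx
    simpa [Real.dist_eq] using hx
  have e : ∀ x, Real.tan (π * N * x + 0) = Real.tan (π * (N * (x - p))) := by
    intro x
    have : π * N * x + 0 = π * (N * (x - p)) + j * π := by rw [← hp]; ring
    rw [this, Real.tan_add_int_mul_pi]
  have hb : ∀ x, |x - p| < 1 / (2 * N) → |N * (x - p)| < 1 / 2 := by
    intro x hx
    rw [abs_mul, abs_of_pos hN]
    calc N * |x - p| < N * (1 / (2 * N)) := by gcongr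
      _ = 1 / 2 := by field_simp
  constructor
  · filter_upwards [hmem] with x hx hxp
    have h1 := abs_lt.1 (hb x hx)
    rw [e]
    have h2 : N * (x - p) < 0 := mul_neg_of_pos_of_neg hN (by linarith)
    apply Real.tan_neg_of_neg_of_pi_div_two_lt
    · exact mul_neg_of_pos_of_neg hπ h2
    · nlinarith [h1.1]
  · filter_upwards [hmem] with x hx hxp
    have h1 := abs_lt.1 (hb x hx)
    rw [e]
    have h2 : 0 ≤ N * (x - p) := mul_nonneg hN.le (by linarith)
    apply Real.tan_nonneg_of_nonneg_of_le_pi_div_two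
    · positivity
    · nlinarith [h1.2]

theorem surf_be (hN : ∀ k, 1 ≤ N k) : SurfIn (be N) BB' where
  sewn := be_sewn hN
  fin := BB'_fin
  pos := by
    rintro p ⟨k, hk | hk⟩
    · rw [hk]; have := nn_geR k; linarith
    · rw [hk]; have := nn_geR k; linarith
  ord := by
    intro p hp hpB
    have hπ := Real.pi_pos
    by_cases hbar : ∃ k, p ∈ bar k
    · obtain ⟨k, hk⟩ := hbar
      have hN0 : (0:ℝ) < N k := by have := hN k; positivity
      have h1 : (nn k : ℝ) < p := lt_of_le_of_ne hk.1 (fun h => hpB ⟨k, Or.inl h.symm⟩)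
      have h2 : p < 4 * nn k := lt_of_le_of_ne hk.2 (fun h => hpB ⟨k, Or.inr h⟩)
      have hΛ := Lam_nonneg (N := N) k
      have hev : ∀ᶠ x in 𝓝 p, x ∈ bar k := by
        filter_upwards [Ioo_mem_nhds h1 h2] with x hx
        exact ⟨hx.1.le, hx.2.le⟩
      obtain ⟨D, hD, hc, hs⟩ := bb_trigK hΛ (N k * p)
      by_cases hcos : Real.cos (π * (N k * p)) ≠ 0
      · refine ⟨TC (Real.exp (Lam N k)) (π * N k) 0, TC 1 (π * N k / 2) 0, ?_, ?_, ?_⟩
        · apply RC_TC (Real.exp_pos _) (by positivity)
          rw [add_zero, mul_assoc]; exact hcos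
        · apply RC_TC one_pos (by positivity)
          rw [be_in hN hk, add_zero]
          have e : π * N k / 2 * (2 / N k * bb (aa (Lam N k)) (N k * p)) = π * bb (aa (Lam N k)) (N k * p) := by
            field_simp
          rw [e]
          intro h; rw [h, zero_mul] at hc; exact hcos hc.symm
        · filter_upwards [hev] with x hx
          rw [TC_real, TC_real]
          congr 1
          rw [be_in hN hx, add_zero, add_zero, one_mul]
          have e : π * N k / 2 * (2 / N k * bb (aa (Lam N k)) (N k * x)) = π * bb (aa (Lam N k)) (N k * x) := by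
            field_simp
          rw [e, tanK hΛ, mul_assoc π]
      · push Not at hcos
        have hsin : Real.sin (π * (N k * p)) ≠ 0 := by
          intro h
          have := Real.sin_sq_add_cos_sq (π * (N k * p))
          rw [h, hcos] at this
          norm_num at this
        refine ⟨TC (Real.exp (-Lam N k)) (π * N k) (π / 2), TC 1 (π * N k / 2) (π / 2), ?_, ?_, ?_⟩
        · apply RC_TC (Real.exp_pos _) (by positivity)
          rw [Real.cos_add_pi_div_two, mul_assoc]; exact neg_ne_zero.2 hsin
        · apply RC_TC one_pos (by positivity)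
          rw [be_in hN hk]
          have e : π * N k / 2 * (2 / N k * bb (aa (Lam N k)) (N k * p)) = π * bb (aa (Lam N k)) (N k * p) := by
            field_simp
          rw [e, Real.cos_add_pi_div_two]
          apply neg_ne_zero.2
          intro h; rw [h, zero_mul] at hs
          have := mul_ne_zero (Real.exp_pos (Lam N k)).ne' hsin
          exact this hs.symm
        · filter_upwards [hev] with x hx
          rw [TC_real, TC_real]
          congr 1
          rw [be_in hN hx, one_mul]
          have e : π * N k / 2 * (2 / N k * bb (aa (Lam N k)) (N k * x)) = π * bb (aa (Lam N k)) (N k * x) := by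
            field_simp
          rw [e, cotK hΛ, mul_assoc π]
    · push Not at hbar
      refine ⟨fun z => ((2:ℝ):ℂ) * z, fun z => ((1:ℝ):ℂ) * z, RC_lin (by norm_num), RC_lin (by norm_num), ?_⟩
      have hcl : IsClosed (⋃ k, bar k) := lf_bar.isClosed_iUnion (fun k => isClosed_Icc)
      filter_upwards [hcl.isOpen_compl.mem_nhds (show p ∈ (⋃ k, bar k)ᶜ by simpa using hbar)] with x hx
      have hx' : ∀ k, x ∉ bar k := by simpa using hx
      rw [be_out' hx']
      push_cast; ring
  bad := by
    have hπ := Real.pi_pos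
    rintro p ⟨k, hk | hk⟩
    · have hN0 : (0:ℝ) < N k := by have := hN k; positivity
      have hn := nn_geR k
      have hΛ := Lam_nonneg (N := N) k
      have hpk : p ∈ bar k := by rw [hk]; exact ⟨le_rfl, by linarith⟩
      have hint : (N k : ℝ) * p = ((N k * nn k : ℤ) : ℝ) := by rw [hk]; push_cast; ring
      have hbe : be N p = 2 * p := by
        rw [be_in hN hpk, hint, bb_int (aa_nonneg hΛ) (aa_lt _), ← hint]; field_simp
      have hcos : Real.cos (π * N k * p + 0) ≠ 0 := by
        rw [add_zero, mul_assoc, hint, mul_comm, Real.cos_int_mul_pi]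
        exact zpow_ne_zero _ (by norm_num)
      refine ⟨TC 1 (π * N k) 0, TC 1 (π * N k / 2) 0, gg (Lam N k), Ep (Lam N k), Em (Lam N k), ?_, ?_, model_sp _, ?_⟩
      · exact RC_TC one_pos (by positivity) hcos
      · apply RC_TC one_pos (by positivity)
        rw [hbe, show π * N k / 2 * (2 * p) + 0 = π * N k * p + 0 by ring]
        exact hcos
      · obtain ⟨t1, t2⟩ := tan_near hN0 hint
        filter_upwards [t1, t2, Ioo_mem_nhds (show (nn k : ℝ) / 2 < p by rw [hk]; linarith) (show p < 4 * nn k by rw [hk]; linarith)] with x h1 h2 h3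
        rw [TC_real, TC_real, Complex.ofReal_re]
        congr 1
        unfold gg
        rw [one_mul, one_mul]
        by_cases hx : x < p
        · rw [if_pos (h1 hx), be_out' (gapL h3.1 (by rw [← hk]; exact hx))]
          congr 1; ring
        · push Not at hx
          rw [if_neg (not_lt.2 (h2 hx)), be_in hN (show x ∈ bar k from ⟨by rw [← hk]; exact hx, h3.2.le⟩)]
          have e : π * N k / 2 * (2 / N k * bb (aa (Lam N k)) (N k * x)) + 0 = π * bb (aa (Lam N k)) (N k * x) := by
            field_simp; ring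
          rw [e, tanK hΛ, add_zero, mul_assoc π]
    · have hN0 : (0:ℝ) < N k := by have := hN k; positivity
      have hn := nn_geR k
      have hΛ := Lam_nonneg (N := N) k
      have hpk : p ∈ bar k := by rw [hk]; exact ⟨by linarith, le_rfl⟩
      have hint : (N k : ℝ) * p = ((N k * (4 * nn k) : ℤ) : ℝ) := by rw [hk]; push_cast; ring
      have hbe : be N p = 2 * p := by
        rw [be_in hN hpk, hint, bb_int (aa_nonneg hΛ) (aa_lt _), ← hint]; field_simp
      have hcos : Real.cos (π * N k * p + 0) ≠ 0 := by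
        rw [add_zero, mul_assoc, hint, mul_comm, Real.cos_int_mul_pi]
        exact zpow_ne_zero _ (by norm_num)
      refine ⟨TC 1 (π * N k) 0, TC (Real.exp (-Lam N k)) (π * N k / 2) 0, gg (-Lam N k), Ep (-Lam N k), Em (-Lam N k), ?_, ?_, model_sp _, ?_⟩
      · exact RC_TC one_pos (by positivity) hcos
      · apply RC_TC (Real.exp_pos _) (by positivity)
        rw [hbe, show π * N k / 2 * (2 * p) + 0 = π * N k * p + 0 by ring]
        exact hcos
      · obtain ⟨t1, t2⟩ := tan_near hN0 hint
        filter_upwards [t1, t2, Ioo_mem_nhds (show (nn k : ℝ) < p by rw [hk]; linarith) (show p < 5 * nn k by rw [hk]; linarith)] with x h1 h2 h3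
        rw [TC_real, TC_real, Complex.ofReal_re]
        congr 1
        unfold gg
        rw [one_mul]
        by_cases hx : x < p
        · rw [if_pos (h1 hx), be_in hN (show x ∈ bar k from ⟨h3.1.le, by rw [← hk]; exact hx.le⟩)]
          have e : π * N k / 2 * (2 / N k * bb (aa (Lam N k)) (N k * x)) + 0 = π * bb (aa (Lam N k)) (N k * x) := by
            field_simp; ring
          rw [e, tanK hΛ, ← mul_assoc, ← Real.exp_add]
          simp [mul_assoc]
        · push Not at hx
          rw [if_neg (not_lt.2 (h2 hx))]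
          have hbx : be N x = 2 * x := by
            rcases hx.eq_or_lt with h | h
            · rw [← h]; exact hbe
            · exact be_out' (gapR (by rw [← hk]; exact h) h3.2)
          rw [hbx]
          congr 2; ring

/-- the seam relations in a barrier -/
lemma be_seamP (hN : ∀ k, 1 ≤ N k) {k j : ℕ} (h1 : N k * nn k ≤ j) (h2 : j < 4 * (N k * nn k)) (τ : ℝ) :
    be N (j / N k + rb (N k) τ) = (2 * j + 1) / N k - rt (N k) (nn k) τ := by
  have hN0 : (0:ℝ) < N k := by have := hN k; positivity
  have hv0 := vr_pos τ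
  have hv1 : vr τ < 1 / 2 := by
    unfold vr
    rw [div_lt_iff₀ Real.pi_pos]
    have := Real.arctan_lt_pi_div_two (Real.exp (-τ))
    linarith
  have e1 : ((N k * nn k : ℕ) : ℝ) ≤ j := by exact_mod_cast h1
  have e2 : (j:ℝ) + 1 ≤ ((4 * (N k * nn k) : ℕ) : ℝ) := by exact_mod_cast h2
  push_cast at e1 e2
  have hmem : (j / N k + rb (N k) τ : ℝ) ∈ bar k := by
    unfold rb
    rw [← add_div]
    constructor
    · rw [le_div_iff₀ hN0]; linarith
    · rw [div_le_iff₀ hN0]; linarith
  rw [be_in hN hmem]
  have e3 : (N k : ℝ) * (j / N k + rb (N k) τ) = ((j:ℤ):ℝ) + vr τ := by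
    unfold rb; push_cast; field_simp
  rw [e3, bb_seamP (Lam_nonneg k)]
  unfold rt Lam
  push_cast
  field_simp

lemma be_seamM (hN : ∀ k, 1 ≤ N k) {k j : ℕ} (h1 : N k * nn k ≤ j) (h2 : j < 4 * (N k * nn k)) (τ : ℝ) :
    be N (((j + 1 : ℕ) : ℝ) / N k - rb (N k) τ) = (2 * j + 1) / N k + rt (N k) (nn k) τ := by
  have hN0 : (0:ℝ) < N k := by have := hN k; positivity
  have hv0 := vr_pos τ
  have hv1 : vr τ < 1 / 2 := by
    unfold vr
    rw [div_lt_iff₀ Real.pi_pos]
    have := Real.arctan_lt_pi_div_two (Real.exp (-τ))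
    linarith
  have e1 : ((N k * nn k : ℕ) : ℝ) ≤ j := by exact_mod_cast h1
  have e2 : (j:ℝ) + 1 ≤ ((4 * (N k * nn k) : ℕ) : ℝ) := by exact_mod_cast h2
  push_cast at e1 e2
  have hmem : (((j + 1 : ℕ) : ℝ) / N k - rb (N k) τ : ℝ) ∈ bar k := by
    unfold rb
    push_cast
    rw [← sub_div]
    constructor
    · rw [le_div_iff₀ hN0]; linarith
    · rw [div_le_iff₀ hN0]; linarith
  rw [be_in hN hmem]
  have e3 : (N k : ℝ) * (((j + 1 : ℕ) : ℝ) / N k - rb (N k) τ) = ((j + 1:ℤ):ℝ) - vr τ := by
    unfold rb; push_cast; field_simp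
  rw [e3, bb_seamM (Lam_nonneg k)]
  unfold rt Lam
  push_cast
  field_simp
  ring

end Pool.Agent.H813R2.Sew
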