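import Mathlib
import Pool.Agent.H813R2.Sew17
set_option autoImplicit false
open MeasureTheory Set Filter Topology Complex Metric
open scoped ENNReal Real ComplexConjugate Interval Manifold ContDiff

namespace Pool.Agent.H813R2.Sew

noncomputable def al : ℝ → ℝ := fun x => 2 * x

/-- the constant `2 π / log 2` -/
noncomputable def cc : ℝ := 2 * π / Real.log 2

lemma log2_pos : 0 < Real.log 2 := Real.log_pos (by norm_num)
lemma cc_pos : 0 < cc := by have := log2_pos; have := Real.pi_pos; unfold cc; positivity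
lemma cc_mul : cc * Real.log 2 = 2 * π := by unfold cc; have := log2_pos; field_simp

/-- the uniformizing function of the surface generated by `x ↦ 2 x` -/
noncomputable def ff (z : ℂ) : ℂ := Complex.exp (I * cc * Complex.log (z + I) + ((cc * π / 4 : ℝ) : ℂ))

lemma strip_al : Strip al = {z : ℂ | 0 < z.re ∧ 0 ≤ z.im ∧ z.im ≤ 1} := surf_two.sewn.strip

lemma zI_ne {z : ℂ} (hz : z ∈ Strip al) : z + I ≠ 0 := by
  intro h
  have := congrArg Complex.im h
  have := hz.2.1
  simp at *
  linarith

lemma zI_slit {z : ℂ} (hz : z ∈ Strip al) : z + I ∈ Complex.slitPlane := by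
  left; simpa using hz.1

lemma ff_norm {z : ℂ} : ‖ff z‖ = Real.exp (cc * (π / 4 - Complex.arg (z + I))) := by
  unfold ff
  rw [Complex.norm_exp]
  congr 1
  have : (I * cc * Complex.log (z + I) : ℂ) = I * ((cc:ℂ) * Complex.log (z + I)) := by ring
  rw [Complex.add_re, this, Complex.I_mul_re, Complex.ofReal_re, Complex.im_ofReal_mul, Complex.log_im]
  ring

lemma arg_bounds {z : ℂ} (hz : z ∈ Strip al) : 0 < Complex.arg (z + I) ∧ Complex.arg (z + I) < π / 2 := by
  have h1 : 0 < (z + I).re := by simpa using hz.1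
  have h2 : 0 < (z + I).im := by have := hz.2.1; simp; linarith
  constructor
  · have h3 : 0 ≤ Complex.arg (z + I) := Complex.arg_nonneg_iff.2 h2.le
    rcases h3.eq_or_lt with h | h
    · exfalso
      have := (Complex.arg_eq_zero_iff.1 h.symm).2
      linarith
    · exact h
  · exact (abs_lt.1 (Complex.abs_arg_lt_pi_div_two_iff.2 (Or.inl h1))).2

lemma log_two_mul {z : ℂ} (hz : z ≠ 0) : Complex.log ((2:ℝ) * z) = Real.log 2 + Complex.log z := by
  rw [Complex.log_ofReal_mul (by norm_num) hz]

lemma ff_glue' {x : ℝ} (hx : 0 < x) : ff (x : ℂ) = ff ((al x : ℂ) + I) := by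
  unfold ff
  have hx0 : (x : ℂ) + I ≠ 0 := by
    intro h
    have := congrArg Complex.im h
    simp at this
  have e : (al x : ℂ) + I + I = ((2:ℝ) : ℂ) * ((x:ℂ) + I) := by unfold al; push_cast; ring
  rw [e, log_two_mul hx0]
  have e2 : I * cc * ((Real.log 2 : ℂ) + Complex.log ((x:ℂ) + I)) + ((cc * π / 4 : ℝ) : ℂ) =
      (I * cc * Complex.log ((x:ℂ) + I) + ((cc * π / 4 : ℝ) : ℂ)) + 2 * π * I := by
    have h := cc_mul
    have h' : (cc:ℂ) * (Real.log 2 : ℂ) = 2 * π := by rw [← Complex.ofReal_mul, h]; push_cast; ring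
    linear_combination I * h'
  rw [e2, Complex.exp_add _ (2 * π * I), Complex.exp_two_pi_mul_I, mul_one]

lemma ff_glue : ∀ z w, z ∈ Strip al → w ∈ Strip al → Glue al z w → ff z = ff w := by
  rintro z w hz hw (h | h | h)
  · rw [h]
  · have e : z = (z.re : ℂ) := by apply Complex.ext <;> simp [h.1]
    have := ff_glue' hz.1
    rw [← e] at this
    rw [this, h.2]
  · have e : w = (w.re : ℂ) := by apply Complex.ext <;> simp [h.1]
    have := ff_glue' hw.1
    rw [← e] at this
    rw [this, h.2]

lemma ff_inj {z w : ℂ} (hz : z ∈ Strip al) (hw : w ∈ Strip al) (h : ff z = ff w) : Glue al z w := by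
  unfold ff at h
  rw [Complex.exp_eq_exp_iff_exists_int] at h
  obtain ⟨m, hm⟩ := h
  have hcc := cc_pos
  have hl2 := log2_pos
  have h1 : (I * cc : ℂ) * (Complex.log (z + I) - (Complex.log (w + I) + m * (Real.log 2 : ℂ))) = 0 := by
    have h' : (cc:ℂ) * (Real.log 2 : ℂ) = 2 * π := by rw [← Complex.ofReal_mul, cc_mul]; push_cast; ring
    linear_combination hm - I * m * h'
  have h2 : Complex.log (z + I) = Complex.log (w + I) + ((m * Real.log 2 : ℝ) : ℂ) := by
    rcases mul_eq_zero.1 h1 with h3 | h3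
    · exfalso
      rcases mul_eq_zero.1 h3 with h4 | h4
      · exact Complex.I_ne_zero h4
      · rw [Complex.ofReal_eq_zero] at h4; linarith
    · push_cast; linear_combination h3
  have h3 : z + I = (w + I) * ((Real.exp (m * Real.log 2) : ℝ) : ℂ) := by
    rw [← Complex.exp_log (zI_ne hz), h2, Complex.exp_add, Complex.exp_log (zI_ne hw), Complex.ofReal_exp]
  have h4 : Real.exp (m * Real.log 2) = (2:ℝ) ^ m := by
    rw [mul_comm, ← Real.rpow_def_of_pos (by norm_num), Real.rpow_intCast]
  rw [h4] at h3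
  have him := congrArg Complex.im h3
  have hre := congrArg Complex.re h3
  rw [Complex.im_mul_ofReal] at him
  rw [Complex.re_mul_ofReal] at hre
  simp only [Complex.add_im, Complex.I_im, Complex.add_re, Complex.I_re, add_zero] at him hre
  have b1 := hz.2.1; have b2 := hz.2.2.1; have b3 := hw.2.1; have b4 := hw.2.2.1
  have hm1 : m ≤ 1 := by
    by_contra h5
    push Not at h5
    have : (2:ℝ) ^ (2:ℤ) ≤ (2:ℝ) ^ m := zpow_le_zpow_right₀ (by norm_num) (by omega)
    norm_num at this
    nlinarith
  have hm2 : -1 ≤ m := by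
    by_contra h5
    push Not at h5
    have : (2:ℝ) ^ m ≤ (2:ℝ) ^ (-2:ℤ) := zpow_le_zpow_right₀ (by norm_num) (by omega)
    norm_num at this
    nlinarith
  interval_cases m
  · -- 2^(-1)
    rw [zpow_neg_one] at him hre
    have hz0 : z.im = 0 := by linarith
    have hw1 : w.im = 1 := by linarith
    right; left
    refine ⟨hz0, ?_⟩
    apply Complex.ext
    · simp [al]; linarith
    · simp [hw1]
  · simp only [zpow_zero, mul_one] at him hre
    left
    exact Complex.ext hre (by linarith)
  · simp only [zpow_one] at him hre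
    have hz0 : w.im = 0 := by linarith
    have hw1 : z.im = 1 := by linarith
    right; right
    refine ⟨hz0, ?_⟩
    apply Complex.ext
    · simp [al]; linarith
    · simp [hw1]

lemma ff_contOn : ContinuousOn ff (Strip al) := by
  unfold ff
  apply ContinuousOn.cexp
  apply ContinuousOn.add _ continuousOn_const
  apply ContinuousOn.mul continuousOn_const
  apply ContinuousOn.clog (by fun_prop)
  intro z hz; exact zI_slit hz

lemma ff_diff {z : ℂ} (hz : z ∈ openStrip) : DifferentiableAt ℂ ff z := by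
  unfold ff
  have := zI_slit (openStrip_sub hz)
  apply DifferentiableAt.cexp
  apply DifferentiableAt.add_const
  apply DifferentiableAt.const_mul
  exact DifferentiableAt.clog (f := fun y : ℂ => y + I) (by fun_prop) this

noncomputable def FF : XX al → ℂ := lift al ff

lemma sew_al : Sewn al := surf_two.sewn

lemma FF_pj {z : ℂ} (hz : z ∈ Strip al) : FF (pj al z) = ff z := lift_pj sew_al ff_glue hz

lemma FF_cont : Continuous FF := lift_cont sew_al ff_glue ff_contOn

lemma FF_inj : Function.Injective FF := by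
  intro x y hxy
  obtain ⟨z, hz, rfl⟩ := pj_surj x
  obtain ⟨w, hw, rfl⟩ := pj_surj y
  rw [FF_pj hz, FF_pj hw] at hxy
  rw [pj_eq hz hw, nf_eq_iff sew_al.mono hz hw]
  exact ff_inj hz hw hxy

lemma FF_hol : Hol (u0 al) FF univ := by
  refine ⟨FF_cont.continuousOn, ?_⟩
  intro z hz
  apply DifferentiableAt.differentiableWithinAt
  have hz1 : z ∈ openStrip := hz.1
  have hev : (FF ∘ (u0 al).symm) =ᶠ[𝓝 z] ff := by
    filter_upwards [isOpen_openStrip.mem_nhds hz1] with w hw
    exact FF_pj (openStrip_sub hw)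
  exact (ff_diff hz1).congr_of_eventuallyEq hev

lemma all_good (x : XX al) : x ∈ Good (u0 al) := by
  by_contra h
  obtain ⟨p, hp, _⟩ := surf_two.bad_pt h
  exact hp

lemma FF_open : IsOpenEmbedding FF := by
  apply IsOpenEmbedding.of_continuous_injective_isOpenMap FF_cont FF_inj
  rw [isOpenMap_iff_nhds_le]
  intro x
  exact open_at_good isOpen_univ FF_hol FF_inj.injOn (all_good x) (mem_univ _)

lemma FF_range : range FF = {w : ℂ | Real.exp (-(cc * π / 4)) < ‖w‖ ∧ ‖w‖ < Real.exp (cc * π / 4)} := by
  have hcc := cc_pos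
  have hπ := Real.pi_pos
  have hl2 := log2_pos
  ext w
  constructor
  · rintro ⟨x, rfl⟩
    obtain ⟨z, hz, rfl⟩ := pj_surj x
    rw [FF_pj hz]
    obtain ⟨h1, h2⟩ := arg_bounds hz
    simp only [mem_setOf_eq]
    rw [ff_norm]
    constructor
    · apply Real.exp_lt_exp.2; nlinarith
    · apply Real.exp_lt_exp.2; nlinarith
  · rintro ⟨h1, h2⟩
    have hw0 : 0 < ‖w‖ := lt_trans (Real.exp_pos _) h1
    have hwne : w ≠ 0 := norm_pos_iff.1 hw0
    rw [← Real.lt_log_iff_exp_lt hw0] at h1
    rw [← Real.log_lt_iff_lt_exp hw0] at h2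
    set θ : ℝ := π / 4 - Real.log ‖w‖ / cc with hθ
    have hθ1 : 0 < θ := by
      have : Real.log ‖w‖ / cc < π / 4 := by rw [div_lt_iff₀ hcc]; linarith
      linarith
    have hθ2 : θ < π / 2 := by
      have : -(π / 4) < Real.log ‖w‖ / cc := by rw [lt_div_iff₀ hcc]; linarith
      linarith
    have hsin : 0 < Real.sin θ := Real.sin_pos_of_pos_of_lt_pi hθ1 (by linarith)
    have hcos : 0 < Real.cos θ := Real.cos_pos_of_mem_Ioo ⟨by linarith, hθ2⟩
    set s0 : ℝ := Complex.arg w / cc with hs0
    obtain ⟨m, hm1, hm2⟩ : ∃ m : ℤ, 0 ≤ (s0 + Real.log (Real.sin θ)) + m * Real.log 2 ∧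
        (s0 + Real.log (Real.sin θ)) + m * Real.log 2 < Real.log 2 := by
      refine ⟨⌈-(s0 + Real.log (Real.sin θ)) / Real.log 2⌉, ?_, ?_⟩
      · have := Int.le_ceil (-(s0 + Real.log (Real.sin θ)) / Real.log 2)
        rw [div_le_iff₀ hl2] at this
        linarith
      · have := Int.ceil_lt_add_one (-(s0 + Real.log (Real.sin θ)) / Real.log 2)
        have h3 := mul_lt_mul_of_pos_right this hl2
        have h4 : (-(s0 + Real.log (Real.sin θ)) / Real.log 2 + 1) * Real.log 2 = -(s0 + Real.log (Real.sin θ)) + Real.log 2 := by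
          field_simp
        linarith
    set s : ℝ := s0 + m * Real.log 2 with hs
    have hes : 1 ≤ Real.exp s * Real.sin θ ∧ Real.exp s * Real.sin θ < 2 := by
      have e : Real.exp s * Real.sin θ = Real.exp (s + Real.log (Real.sin θ)) := by
        rw [Real.exp_add s (Real.log (Real.sin θ)), Real.exp_log hsin]
      rw [e]
      constructor
      · rw [← Real.exp_zero]; apply Real.exp_le_exp.2; linarith
      · rw [← Real.exp_log (show (0:ℝ) < 2 by norm_num)]; apply Real.exp_lt_exp.2; linarith
    set z : ℂ := Complex.exp ((s:ℂ) + θ * I) - I with hz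
    have hzre : z.re = Real.exp s * Real.cos θ := by
      rw [hz, Complex.sub_re, Complex.exp_re]; simp
    have hzim : z.im = Real.exp s * Real.sin θ - 1 := by
      rw [hz, Complex.sub_im, Complex.exp_im]; simp
    have hzS : z ∈ Strip al := by
      rw [strip_al]
      refine ⟨?_, ?_, ?_⟩
      · rw [hzre]; positivity
      · rw [hzim]; linarith [hes.1]
      · rw [hzim]; linarith [hes.2]
    refine ⟨pj al z, ?_⟩
    rw [FF_pj hzS]
    unfold ff
    have hzI : z + I = Complex.exp ((s:ℂ) + θ * I) := by rw [hz]; ring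
    have hlog : Complex.log (z + I) = (s:ℂ) + θ * I := by
      rw [hzI, Complex.log_exp]
      · simp; linarith
      · simp; linarith
    rw [hlog]
    have hlw : Complex.log w = Real.log ‖w‖ + Complex.arg w * I := by
      apply Complex.ext
      · simp [Complex.log_re]
      · simp [Complex.log_im]
    have e : I * cc * ((s:ℂ) + θ * I) + ((cc * π / 4 : ℝ) : ℂ) = Complex.log w + m * (2 * π * I) := by
      have h' : (cc:ℂ) * (Real.log 2 : ℂ) = 2 * π := by rw [← Complex.ofReal_mul, cc_mul]; push_cast; ring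
      have hccne : (cc:ℂ) ≠ 0 := by rw [Complex.ofReal_ne_zero]; exact hcc.ne'
      rw [hlw, hs, hs0, hθ]
      push_cast
      field_simp
      linear_combination (4 * I * m) * h' + (cc * π - 4 * (Real.log ‖w‖ : ℂ)) * Complex.I_sq
    rw [e, Complex.exp_add, Complex.exp_int_mul_two_pi_mul_I, mul_one, Complex.exp_log hwne]

end Pool.Agent.H813R2.Sew
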