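import Mathlib
import Pool.Agent.H813R2.Sew18
set_option autoImplicit false
open MeasureTheory Set Filter Topology Complex Metric
open scoped ENNReal Real ComplexConjugate Interval Manifold ContDiff

namespace Pool.Agent.H813R2.Sew

def outer : Set ℂ := {w : ℂ | 1 < ‖w‖}

lemma isOpen_outer : IsOpen outer := isOpen_lt continuous_const continuous_norm

lemma frontier_outer : frontier outer = sphere (0:ℂ) 1 := by
  have : outer = (closedBall (0:ℂ) 1)ᶜ := by ext w; simp [outer]
  rw [this, frontier_compl, frontier_closedBall _ one_ne_zero]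

instance : Nonempty (XX al) := ⟨pj al 1⟩

noncomputable def EE : OpenPartialHomeomorph (XX al) ℂ := FF_open.toOpenPartialHomeomorph FF

lemma EE_coe : ⇑EE = FF := rfl
lemma EE_source : EE.source = univ := rfl
lemma EE_target : EE.target = {w : ℂ | Real.exp (-(cc * π / 4)) < ‖w‖ ∧ ‖w‖ < Real.exp (cc * π / 4)} := by
  rw [← FF_range]
  have := EE.image_source_eq_target
  rw [EE_source, image_univ, EE_coe] at this
  exact this.symm

noncomputable def ee : OpenPartialHomeomorph (XX al) ℂ := EE.trans (OpenPartialHomeomorph.ofSet outer isOpen_outer)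

lemma ee_coe : ⇑ee = FF := by
  unfold ee
  rw [OpenPartialHomeomorph.coe_trans]
  rfl

lemma ee_source : ee.source = FF ⁻¹' outer := by
  unfold ee
  rw [OpenPartialHomeomorph.trans_source, EE_source, univ_inter, EE_coe]
  rfl

lemma ee_target : ee.target = {w : ℂ | 1 < ‖w‖ ∧ ‖w‖ < Real.exp (cc * π / 4)} := by
  unfold ee
  rw [OpenPartialHomeomorph.trans_target]
  ext w
  have h1 : Real.exp (-(cc * π / 4)) < 1 := by
    rw [← Real.exp_zero]; apply Real.exp_lt_exp.2
    have := cc_pos; have := Real.pi_pos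
    have : 0 < cc * π / 4 := by positivity
    linarith
  have e : w ∈ (OpenPartialHomeomorph.ofSet outer isOpen_outer).target ∩
      (OpenPartialHomeomorph.ofSet outer isOpen_outer).symm ⁻¹' EE.target ↔ w ∈ outer ∧ w ∈ EE.target := Iff.rfl
  rw [e, EE_target]
  constructor
  · rintro ⟨h2, h3⟩; exact ⟨h2, h3.2⟩
  · rintro ⟨h2, h3⟩; exact ⟨h2, h1.trans h2, h3⟩

lemma arg_lt_pi4 {w : ℂ} (h1 : 0 < w.re) (h2 : w.im < w.re) : Complex.arg w < π / 4 := by
  have h3 : |Complex.arg w| < π / 2 := Complex.abs_arg_lt_pi_div_two_iff.2 (Or.inl h1)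
  have h4 := abs_lt.1 h3
  have h5 : Complex.arg w = Real.arctan (w.im / w.re) := by
    rw [← Complex.tan_arg, Real.arctan_tan (by linarith) h4.2]
  rw [h5, ← Real.arctan_one]
  apply Real.arctan_strictMono
  rw [div_lt_one h1]; exact h2

theorem surf_al : SurfIn al ∅ := surf_two

theorem hyp_al : HyperbolicSewing al := by
  refine ⟨XX al, inferInstance, surf_al.charted, pj al, surf_al.generates, ?_⟩
  letI := surf_al.charted
  haveI hman : IsManifold 𝓘(ℂ) ω (XX al) := surf_al.generates.manifold
  have hcc := cc_pos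
  have hπ := Real.pi_pos
  refine ⟨Real.exp (cc * π / 4), ee, ?_, ?_, ee_target, ⟨2, ?_⟩, ?_⟩
  · rw [← Real.exp_zero]; apply Real.exp_lt_exp.2; positivity
  · apply IsManifold.subset_maximalAtlas
    show OSH (u0 al) ee
    have h := FF_hol.2
    unfold OSH
    rw [ee_coe]
    exact h.mono (fun z hz => ⟨hz.1, mem_univ _⟩)
  · intro z hz hz2
    rw [ee_source]
    show 1 < ‖FF (pj al z)‖
    rw [FF_pj hz, ff_norm, ← Real.exp_zero]
    apply Real.exp_lt_exp.2
    have h1 : 0 < (z + I).re := by simpa using hz.1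
    have h2 : (z + I).im < (z + I).re := by
      have := hz.2.2.1
      simp; linarith
    have := arg_lt_pi4 h1 h2
    apply mul_pos hcc; linarith
  · have htgt : ∀ w : ℂ, ‖w‖ = 1 → w ∈ EE.target := by
      intro w hw
      rw [EE_target]
      simp only [mem_setOf_eq]
      rw [hw, ← Real.exp_zero]
      constructor
      · apply Real.exp_lt_exp.2
        have : 0 < cc * π / 4 := by positivity
        linarith
      · apply Real.exp_lt_exp.2; positivity
    have hfr : frontier ee.source = FF ⁻¹' (sphere (0:ℂ) 1) := by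
      have := EE.preimage_frontier outer
      rw [EE_source, univ_inter, univ_inter, frontier_outer, EE_coe] at this
      rw [ee_source, ← this]
    rw [hfr]
    refine ⟨fun ζ : Circle => EE.symm (ζ : ℂ), ?_, ?_, ?_⟩
    · have h1 : ContinuousOn EE.symm EE.target := EE.continuousOn_symm
      exact h1.comp_continuous continuous_subtype_val (fun ζ => htgt _ (Circle.norm_coe ζ))
    · intro ζ ξ h
      exact Subtype.ext (EE.symm.injOn (htgt _ (Circle.norm_coe ζ)) (htgt _ (Circle.norm_coe ξ)) h)
    · ext x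
      constructor
      · rintro ⟨ζ, rfl⟩
        show FF (EE.symm ζ) ∈ sphere (0:ℂ) 1
        rw [← EE_coe, EE.right_inv (htgt _ (Circle.norm_coe ζ))]
        exact mem_sphere_zero_iff_norm.2 (Circle.norm_coe ζ)
      · intro hx
        have hx1 : ‖FF x‖ = 1 := by simpa using hx
        refine ⟨⟨FF x, mem_sphere_zero_iff_norm.2 hx1⟩, ?_⟩
        show EE.symm (FF x) = x
        exact EE.left_inv (mem_univ _)

end Pool.Agent.H813R2.Sew
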