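import Mathlib
import Pool.Agent.H813R2.Sew13
set_option autoImplicit false
open MeasureTheory Set Filter Topology Complex Metric
open scoped ENNReal Real ComplexConjugate Interval Manifold ContDiff

namespace Pool.Agent.H813R2.Sew

/-- a continuous function with `exp f = 1` on an interval is constant -/
lemma const_of_exp {f : ℝ → ℂ} {s : Set ℝ} (hs : s.OrdConnected) (hc : ContinuousOn f s)
    (h : ∀ x ∈ s, Complex.exp (f x) = 1) {x y : ℝ} (hx : x ∈ s) (hy : y ∈ s) : f x = f y := by
  have hint : ∀ x ∈ s, ∃ k : ℤ, f x = k * (2 * π * I) := by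
    intro x hx
    obtain ⟨k, hk⟩ := Complex.exp_eq_one_iff.1 (h x hx)
    exact ⟨k, hk⟩
  -- real valued integer function
  set g : ℝ → ℝ := fun x => (f x).im / (2 * π) with hg
  have hgc : ContinuousOn g s := (Complex.continuous_im.comp_continuousOn hc).div_const _
  have hπ := Real.pi_pos
  have hgi : ∀ x ∈ s, ∃ k : ℤ, g x = k ∧ f x = k * (2 * π * I) := by
    intro x hx
    obtain ⟨k, hk⟩ := hint x hx
    refine ⟨k, ?_, hk⟩
    simp only [hg]
    rw [hk]
    have : ((k:ℂ) * (2 * π * I)).im = k * (2 * π) := by simp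
    rw [this]; field_simp
  have key : ∀ x ∈ s, ∀ y ∈ s, ¬ g x < g y := by
    intro x hx y hy hlt
    obtain ⟨k, hk, _⟩ := hgi x hx
    obtain ⟨l, hl, _⟩ := hgi y hy
    have hkl : (k:ℝ) + 1 ≤ l := by
      rw [hk, hl] at hlt
      have : k < l := by exact_mod_cast hlt
      exact_mod_cast this
    have hsub : uIcc x y ⊆ s := hs.uIcc_subset hx hy
    have hiv := intermediate_value_uIcc (hgc.mono hsub)
    have hmem : (k:ℝ) + 1 / 2 ∈ uIcc (g x) (g y) := by
      rw [uIcc_of_le hlt.le, hk, hl]; constructor <;> linarith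
    obtain ⟨t, ht, htk⟩ := hiv hmem
    obtain ⟨m, hm, _⟩ := hgi t (hsub ht)
    rw [hm] at htk
    have h1 : (2 * m : ℤ) = 2 * k + 1 := by
      have : (2:ℝ) * m = 2 * k + 1 := by linarith
      exact_mod_cast this
    omega
  have heq : g x = g y := le_antisymm (not_lt.1 (key y hy x hx)) (not_lt.1 (key x hx y hy))
  obtain ⟨k, hk, hk2⟩ := hgi x hx
  obtain ⟨l, hl, hl2⟩ := hgi y hy
  rw [hk, hl] at heq
  have : k = l := by exact_mod_cast heq
  rw [hk2, hl2, this]

/-- the closed half strip beyond `R` -/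
def TT' (R : ℝ) : Set ℂ := {z | R < z.re ∧ 0 ≤ z.im ∧ z.im ≤ 1}
def TO (R : ℝ) : Set ℂ := {z | R < z.re ∧ 0 < z.im ∧ z.im < 1}

structure EndMap (β : ℝ → ℝ) (G : ℂ → ℂ) (R ρ : ℝ) : Prop where
  hR : 0 < R
  cont : ContinuousOn G (TT' R)
  ring : ∀ z ∈ TT' R, 1 < ‖G z‖ ∧ ‖G z‖ < ρ
  diff : ∀ z ∈ TO R, DifferentiableAt ℂ G z
  glue : ∀ x : ℝ, R < x → G x = G (β x + I)
  inj : InjOn G (TO R)
  nolog : ¬ ∃ (R' : ℝ) (F : ℂ → ℂ), R ≤ R' ∧ ContinuousOn F (TT' R') ∧ (∀ z ∈ TT' R', Complex.exp (F z) = G z) ∧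
    (∀ x : ℝ, R' < x → F x = F (β x + I))

variable {β : ℝ → ℝ} {X : Type} [TopologicalSpace X] [ChartedSpace ℂ X] {π' : ℂ → X}

lemma hh_ge (hβ : ∀ x, 0 < x → x ≤ β x) {z : ℂ} (hz : z ∈ Strip β) : z.re ≤ hh β z := by
  unfold hh
  have h1 := hβ z.re hz.1
  have h2 := hz.2.1
  have h3 := hz.2.2.1
  nlinarith

lemma hh_le (hβ : ∀ x, 0 < x → x ≤ β x) {z : ℂ} (hz : z ∈ Strip β) : hh β z ≤ β z.re := by
  unfold hh
  have h1 := hβ z.re hz.1
  have h2 := hz.2.1
  have h3 := hz.2.2.1
  nlinarith

theorem endMap (hs : Sewn β) (hβ : ∀ x, 0 < x → x ≤ β x) (hG : Generates β X π') (hE : HyperbolicEnd β X π') :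
    ∃ (G : ℂ → ℂ) (R ρ : ℝ), EndMap β G R ρ := by
  obtain ⟨ρ, e, hρ, heA, htgt, ⟨R0, hR0⟩, -⟩ := hE
  haveI := hG.manifold
  set R : ℝ := max R0 1 with hRdef
  have hR : 0 < R := lt_of_lt_of_le one_pos (le_max_right _ _)
  have hTS : ∀ z ∈ TT' R, z ∈ Strip β := by
    intro z hz
    rw [hs.strip]; exact ⟨hR.trans hz.1, hz.2.1, hz.2.2⟩
  have hsrc : ∀ z ∈ TT' R, π' z ∈ e.source := fun z hz => hR0 z (hTS z hz) (lt_of_le_of_lt (le_max_left _ _) hz.1)
  have hπc : ContinuousOn π' (Strip β) := by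
    rw [continuousOn_iff_continuous_domRestrict]; exact hG.quotient.continuous
  -- section and height
  have hsurj : ∀ x : X, ∃ z ∈ Strip β, π' z = x := by
    intro x; obtain ⟨z, hz⟩ := hG.quotient.surjective x; exact ⟨z, z.2, hz⟩
  choose σ hσ hσ2 using hsurj
  have hglue : ∀ z ∈ Strip β, Glue β (σ (π' z)) z := fun z hz => (hG.fibers _ (hσ _) _ hz).1 (hσ2 _)
  set H : X → ℝ := fun x => hh β (σ x) with hH
  have hHπ : ∀ z ∈ Strip β, H (π' z) = hh β z := fun z hz => hh_glue (hglue z hz)
  have hHc : Continuous H := by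
    rw [hG.quotient.continuous_iff]
    have : (H ∘ fun z : Strip β => π' z) = (Strip β).domRestrict (hh β) := by
      funext z; exact hHπ z z.2
    rw [this]
    exact continuousOn_iff_continuous_domRestrict.1 (hh_cont hs)
  refine ⟨fun z => e (π' z), R, ρ, hR, ?_, ?_, ?_, ?_, ?_, ?_⟩
  · exact e.continuousOn.comp (hπc.mono hTS) hsrc
  · intro z hz
    have := e.map_source (hsrc z hz)
    rw [htgt] at this
    exact this
  · intro z hz
    have hzo : z ∈ openStrip := ⟨hR.trans hz.1, hz.2.1, hz.2.2⟩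
    have h1 : MDifferentiableAt 𝓘(ℂ) 𝓘(ℂ) π' z :=
      (hG.holo z hzo).mdifferentiableAt (isOpen_openStrip.mem_nhds hzo)
    have h2 : ContMDiffOn 𝓘(ℂ) 𝓘(ℂ) ω e e.source := contMDiffOn_of_mem_maximalAtlas heA
    have hzs := hsrc z ⟨hz.1, hz.2.1.le, hz.2.2.le⟩
    have h3 : MDifferentiableAt 𝓘(ℂ) 𝓘(ℂ) e (π' z) :=
      (h2.mdifferentiableOn (by simp) _ hzs).mdifferentiableAt (e.open_source.mem_nhds hzs)
    have h4 := h3.comp z h1
    exact mdifferentiableAt_iff_differentiableAt.1 h4
  · intro x hx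
    have h1 : (x : ℂ) ∈ Strip β := hTS _ ⟨by simpa using hx, by simp, by simp⟩
    have h2 : (β x : ℂ) + I ∈ Strip β := by
      rw [hs.strip]; exact ⟨by simpa using hs.pos (hR.trans hx), by simp, by simp⟩
    have : π' (x:ℂ) = π' ((β x : ℂ) + I) := (hG.fibers _ h1 _ h2).2 (Or.inr (Or.inl ⟨by simp, by simp⟩))
    simp only [this]
  · intro z hz w hw h
    have hz' : z ∈ TT' R := ⟨hz.1, hz.2.1.le, hz.2.2.le⟩
    have hw' : w ∈ TT' R := ⟨hw.1, hw.2.1.le, hw.2.2.le⟩
    have h1 := e.injOn (hsrc z hz') (hsrc w hw') h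
    rcases (hG.fibers z (hTS z hz') w (hTS w hw')).1 h1 with h2 | h2 | h2
    · exact h2
    · exact absurd h2.1 hz.2.1.ne'
    · exact absurd h2.1 hw.2.1.ne'
  · rintro ⟨R', F, hRR, hFc, hFexp, hFg⟩
    have hR' : 0 < R' := lt_of_lt_of_le hR hRR
    set M : ℝ := β R' + 1 with hM
    have hMR : β R' < M := by linarith
    have hMpos : 0 < M := by have := hs.pos hR'; linarith
    -- high points
    have hhigh : ∀ z ∈ Strip β, M ≤ hh β z → R' < z.re := by
      intro z hz hzM
      by_contra h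
      push Not at h
      have h1 := hh_le hβ hz
      have h2 : β z.re ≤ β R' := hs.mono.monotoneOn hz.1 hR' h
      linarith
    have hTT : ∀ z ∈ Strip β, M ≤ hh β z → z ∈ TT' R' := fun z hz h => ⟨hhigh z hz h, hz.2.1, hz.2.2.1⟩
    have hTTsub : TT' R' ⊆ TT' R := fun z hz => ⟨lt_of_le_of_lt hRR hz.1, hz.2⟩
    have hsrcM : ∀ x : X, M ≤ H x → x ∈ e.source := by
      intro x hx
      rw [← hσ2 x]
      exact hsrc _ (hTTsub (hTT _ (hσ x) hx))
    -- level set compact
    have hC : IsCompact (H ⁻¹' {M}) := by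
      have hQ : IsCompact (Icc R' M ×ℂ Icc (0:ℝ) 1) := isCompact_Icc.reProdIm isCompact_Icc
      have hQS : Icc R' M ×ℂ Icc (0:ℝ) 1 ⊆ Strip β := by
        intro z hz
        rw [hs.strip]; exact ⟨lt_of_lt_of_le hR' hz.1.1, hz.2.1, hz.2.2⟩
      have hD : IsCompact ((Icc R' M ×ℂ Icc (0:ℝ) 1) ∩ hh β ⁻¹' {M}) := by
        have := ((hh_cont hs).mono hQS).preimage_isClosed_of_isClosed hQ.isClosed (isClosed_singleton (x := M))
        exact hQ.of_isClosed_subset this inter_subset_left
      have : H ⁻¹' {M} = π' '' ((Icc R' M ×ℂ Icc (0:ℝ) 1) ∩ hh β ⁻¹' {M}) := by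
        ext x
        constructor
        · intro hx
          have hx' : hh β (σ x) = M := hx
          refine ⟨σ x, ⟨⟨⟨?_, ?_⟩, ⟨?_, ?_⟩⟩, hx'⟩, hσ2 x⟩
          · exact (hhigh _ (hσ x) hx'.ge).le
          · have := hh_ge hβ (hσ x); linarith
          · exact (hσ x).2.1
          · exact (hσ x).2.2.1
        · rintro ⟨z, ⟨hz, hzM⟩, rfl⟩
          show H (π' z) = M
          rw [hHπ z (hQS hz)]; exact hzM
      rw [this]
      exact hD.image_of_continuousOn (hπc.mono (inter_subset_left.trans hQS))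
    have hN : IsCompact ((fun x => ‖e x‖) '' (H ⁻¹' {M})) := by
      apply hC.image_of_continuousOn
      apply ContinuousOn.norm
      apply e.continuousOn.mono
      intro x hx
      exact hsrcM x (le_of_eq (Eq.symm hx))
    -- the compact set of the ring
    set K : Set ℂ := {w | ‖w‖ ∈ (fun x => ‖e x‖) '' (H ⁻¹' {M})} with hK
    have hKring : K ⊆ e.target := by
      rintro w ⟨x, hx, hxw⟩
      have := e.map_source (hsrcM x (le_of_eq (Eq.symm hx)))
      rw [htgt] at this ⊢
      simp only at hxw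
      constructor
      · rw [← hxw]; exact this.1
      · rw [← hxw]; exact this.2
    have hKc : IsCompact K := by
      apply (isCompact_closedBall (0:ℂ) ρ).of_isClosed_subset
      · exact hN.isClosed.preimage continuous_norm
      · intro w hw
        have := hKring hw
        rw [htgt] at this
        rw [mem_closedBall_zero_iff]; exact this.2.le
    have hK' : IsCompact (e.symm '' K) := hKc.image_of_continuousOn (e.continuousOn_symm.mono hKring)
    obtain ⟨M', hM'⟩ := (hK'.image hHc).bddAbove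
    -- the point `z*`
    set t : ℝ := max (max M M') R' + 1 with ht
    have ht1 : M < t := by have := le_max_left (max M M') R'; have := le_max_left M M'; linarith
    have ht2 : M' < t := by have := le_max_left (max M M') R'; have := le_max_right M M'; linarith
    have ht3 : R' < t := by have := le_max_right (max M M') R'; linarith
    have hzT : (t : ℂ) ∈ TT' R' := ⟨by simpa using ht3, by simp, by simp⟩
    have hzS : (t : ℂ) ∈ Strip β := hTS _ (hTTsub hzT)
    have hzH : t ≤ H (π' (t:ℂ)) := by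
      rw [hHπ _ hzS]; have := hh_ge hβ hzS; simpa using this
    set w0 : ℂ := e (π' (t:ℂ)) with hw0
    have hw0src : π' (t:ℂ) ∈ e.source := hsrc _ (hTTsub hzT)
    have hw0tgt := e.map_source hw0src
    have hw0K : w0 ∉ K := by
      intro h
      have : π' (t:ℂ) ∈ e.symm '' K := ⟨w0, h, e.left_inv hw0src⟩
      have := hM' ⟨_, this, rfl⟩
      linarith
    set r : ℝ := ‖w0‖ with hr
    rw [htgt] at hw0tgt
    have hr1 : 1 < r := hw0tgt.1
    have hr2 : r < ρ := hw0tgt.2
    set wc : ℝ → ℂ := fun θ => r * Complex.exp (θ * I) with hwc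
    have hwn : ∀ θ, ‖wc θ‖ = r := by
      intro θ
      simp only [hwc]
      rw [norm_mul, Complex.norm_exp_ofReal_mul_I, mul_one, Complex.norm_real, Real.norm_eq_abs, abs_of_pos (by linarith)]
    have hwtgt : ∀ θ, wc θ ∈ e.target := by
      intro θ; rw [htgt]
      simp only [mem_setOf_eq]
      rw [hwn]; exact ⟨hr1, hr2⟩
    have hwcc : Continuous wc := by simp only [hwc]; fun_prop
    set xc : ℝ → X := fun θ => e.symm (wc θ) with hxc
    have hxcc : Continuous xc := e.continuousOn_symm.comp_continuous hwcc hwtgt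
    have hHne : ∀ θ, H (xc θ) ≠ M := by
      intro θ h
      apply hw0K
      show ‖w0‖ ∈ (fun x => ‖e x‖) '' (H ⁻¹' {M})
      refine ⟨xc θ, h, ?_⟩
      simp only [hxc]
      rw [e.right_inv (hwtgt θ), hwn]
    have hHgt : ∀ θ, M < H (xc θ) := by
      intro θ
      by_contra h
      push Not at h
      have h1 : ∃ b, M ≤ (fun θ => H (xc θ)) b := by
        refine ⟨Complex.arg w0, ?_⟩
        have : xc (Complex.arg w0) = π' (t:ℂ) := by
          simp only [hxc, hwc]
          rw [hr, Complex.norm_mul_exp_arg_mul_I, hw0, e.left_inv hw0src]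
        simp only [this]
        linarith
      obtain ⟨s, hs'⟩ := mem_range_of_exists_le_of_exists_ge (hHc.comp hxcc) ⟨θ, h⟩ h1
      exact hHne s hs'
    -- the descended logarithm
    set Fb : X → ℂ := fun x => F (σ x) with hFb
    have hFinv : ∀ z ∈ TT' R', ∀ w ∈ TT' R', Glue β z w → F z = F w := by
      rintro z hz w hw (h | h | h)
      · rw [h]
      · have e1 : z = (z.re : ℂ) := by apply Complex.ext <;> simp [h.1]
        have := hFg z.re hz.1
        rw [← e1] at this
        rw [this, h.2]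
      · have e1 : w = (w.re : ℂ) := by apply Complex.ext <;> simp [h.1]
        have := hFg w.re hw.1
        rw [← e1] at this
        rw [this, h.2]
    have hUo : IsOpen {x : X | M < H x} := isOpen_lt continuous_const hHc
    have hFbc : ContinuousOn Fb {x : X | M < H x} := by
      rw [hG.quotient.continuousOn_isOpen_iff hUo]
      have h1 : ContinuousOn (fun z : Strip β => F z) ((fun z : Strip β => π' z) ⁻¹' {x : X | M < H x}) := by
        apply hFc.comp continuous_subtype_val.continuousOn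
        intro z hz
        have hz' : M < H (π' z) := hz
        rw [hHπ z z.2] at hz'
        exact hTT z z.2 hz'.le
      apply h1.congr
      intro z hz
      have hz' : M < H (π' z) := hz
      have hz2 : M ≤ hh β (σ (π' z)) := hz'.le
      rw [hHπ z z.2] at hz'
      exact hFinv _ (hTT _ (hσ _) hz2) _ (hTT z z.2 hz'.le) (hglue z z.2)
    set f : ℝ → ℂ := fun θ => Fb (xc θ) - Real.log r - θ * I with hf
    have hfc : Continuous f := by
      have : Continuous (fun θ => Fb (xc θ)) := hFbc.comp_continuous hxcc hHgt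
      simp only [hf]
      exact (this.sub continuous_const).sub (by fun_prop)
    have hfe : ∀ θ, Complex.exp (f θ) = 1 := by
      intro θ
      simp only [hf]
      have h1 : Complex.exp (Fb (xc θ)) = wc θ := by
        simp only [hFb]
        rw [hFexp _ (hTT _ (hσ _) (hHgt θ).le)]
        rw [hσ2]
        simp only [hxc]
        exact e.right_inv (hwtgt θ)
      rw [Complex.exp_sub, Complex.exp_sub, h1]
      have hrpos : 0 < r := by linarith
      rw [← Complex.ofReal_exp, Real.exp_log hrpos]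
      simp only [hwc]
      have : (r:ℂ) ≠ 0 := by rw [Complex.ofReal_ne_zero]; exact hrpos.ne'
      field_simp [Complex.exp_ne_zero]
    have hconst := const_of_exp (s := univ) ordConnected_univ hfc.continuousOn (fun x _ => hfe x)
      (mem_univ (0:ℝ)) (mem_univ (2 * π))
    have hper : xc (2 * π) = xc 0 := by
      simp only [hxc, hwc]
      congr 1
      push_cast
      rw [Complex.exp_two_pi_mul_I]; simp
    simp only [hf] at hconst
    rw [hper] at hconst
    have h2 : (2 * π * I : ℂ) = 0 := by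
      have := hconst
      push_cast at this
      linear_combination this
    exact Complex.two_pi_I_ne_zero h2

end Pool.Agent.H813R2.Sew
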