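import Mathlib
import Pool.Agent.H813R2.Sew3
set_option autoImplicit false
open MeasureTheory Set Filter Topology Complex
open scoped ENNReal Real ComplexConjugate

namespace Pool.Agent.H813R2.Sew

variable {N n : ℕ}

/-- vertical integral -/
noncomputable def VI (F : ℂ → ℂ) (x : ℝ) : ℝ≥0∞ := ∫⁻ y in Ioo (0:ℝ) 1, ‖deriv F (x + y * I)‖ₑ

def col (p ρ : ℝ) : Set ℂ := {z | z.re ∈ Ioo (p - ρ) (p + ρ) ∧ z.im ∈ Ioo (0:ℝ) 1}

lemma col_meas (p ρ : ℝ) : MeasurableSet (col p ρ) :=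
  ((measurableSet_Ioo.preimage Complex.measurable_re).inter
    (measurableSet_Ioo.preimage Complex.measurable_im))

lemma VI_int (F : ℂ → ℂ) (p : ℝ) {ρ l : ℝ} (hρ : 0 < ρ) (hl : 0 < l) :
    ∫⁻ x in Ioo (p - ρ) (p + ρ), VI F x ≤
      ENNReal.ofReal (l / 2) * (∫⁻ z in col p ρ, ‖deriv F z‖ₑ ^ 2) + ENNReal.ofReal (ρ / l) := by
  have hv : (volume : Measure (ℝ × ℝ)) = (volume : Measure ℝ).prod volume := rfl
  have hm : Measurable (fun x : ℝ × ℝ => ‖deriv F (x.1 + x.2 * I)‖ₑ) := by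
    apply Measurable.enorm
    apply (measurable_deriv F).comp
    exact Continuous.measurable (by fun_prop)
  have h1 : ∫⁻ x in Ioo (p - ρ) (p + ρ), VI F x =
      ∫⁻ x in Ioo (p - ρ) (p + ρ) ×ˢ Ioo (0:ℝ) 1, ‖deriv F (x.1 + x.2 * I)‖ₑ := by
    unfold VI
    rw [hv, ← Measure.prod_restrict, lintegral_prod _ hm.aemeasurable]
  have h2 : ∫⁻ z in col p ρ, ‖deriv F z‖ₑ ^ 2 =
      ∫⁻ x in Ioo (p - ρ) (p + ρ) ×ˢ Ioo (0:ℝ) 1, ‖deriv F (x.1 + x.2 * I)‖ₑ ^ 2 := by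
    have h3 := Complex.volume_preserving_equiv_real_prod.symm.setLIntegral_comp_preimage_emb
      Complex.measurableEquivRealProd.symm.measurableEmbedding (fun z => ‖deriv F z‖ₑ ^ 2) (col p ρ)
    rw [← h3]
    have h4 : (Complex.measurableEquivRealProd.symm ⁻¹' col p ρ) =
        Ioo (p - ρ) (p + ρ) ×ˢ Ioo (0:ℝ) 1 := by
      ext x
      simp [col, Complex.measurableEquivRealProd]
    rw [h4]
    congr 1
    ext x
    congr 3
    apply Complex.ext <;> simp [Complex.measurableEquivRealProd]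
  rw [h1, h2]
  calc ∫⁻ x in Ioo (p - ρ) (p + ρ) ×ˢ Ioo (0:ℝ) 1, ‖deriv F (x.1 + x.2 * I)‖ₑ
      ≤ ∫⁻ x in Ioo (p - ρ) (p + ρ) ×ˢ Ioo (0:ℝ) 1, (ENNReal.ofReal (l / 2) *
          (‖deriv F (x.1 + x.2 * I)‖ₑ ^ 2) + ENNReal.ofReal (1 / (2 * l))) := by
        apply setLIntegral_mono_ae' (measurableSet_Ioo.prod measurableSet_Ioo)
        refine ae_of_all _ fun x _ => ?_
        have := ennreal_amgm (‖deriv F (x.1 + x.2 * I)‖ₑ) hl one_pos
        simpa using this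
    _ = ENNReal.ofReal (l / 2) * (∫⁻ x in Ioo (p - ρ) (p + ρ) ×ˢ Ioo (0:ℝ) 1,
          ‖deriv F (x.1 + x.2 * I)‖ₑ ^ 2) +
          ∫⁻ _ in Ioo (p - ρ) (p + ρ) ×ˢ Ioo (0:ℝ) 1, ENNReal.ofReal (1 / (2 * l)) := by
        rw [lintegral_add_left ((hm.pow_const 2).const_mul _), lintegral_const_mul _ (hm.pow_const 2)]
    _ ≤ _ := by
        refine add_le_add le_rfl ?_
        rw [lintegral_const, Measure.restrict_apply MeasurableSet.univ, univ_inter, hv,
          Measure.prod_prod, Real.volume_Ioo, Real.volume_Ioo, ← ENNReal.ofReal_mul (by linarith),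
          ← ENNReal.ofReal_mul (by positivity)]
        apply ENNReal.ofReal_le_ofReal
        apply le_of_eq
        field_simp
        ring

lemma VI_diff {F : ℂ → ℂ} {x : ℝ} (hc : ∀ y ∈ Icc (0:ℝ) 1, ContinuousWithinAt F
      {z | z.im ∈ Icc (0:ℝ) 1 ∧ z.re = x} (x + y * I))
    (hd : ∀ y ∈ Ioo (0:ℝ) 1, DifferentiableAt ℂ F (x + y * I)) {y₁ y₂ : ℝ} (h1 : 0 ≤ y₁)
    (h12 : y₁ ≤ y₂) (h2 : y₂ ≤ 1) :
    ‖F (x + y₂ * I) - F (x + y₁ * I)‖ₑ ≤ VI F x := by
  have hcc : ContinuousOn (fun y : ℝ => F (x + y * I)) (Icc y₁ y₂) := by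
    intro y hy
    have hy' : y ∈ Icc (0:ℝ) 1 := ⟨h1.trans hy.1, hy.2.trans h2⟩
    have h3 : ContinuousWithinAt (fun y : ℝ => (x : ℂ) + y * I) (Icc y₁ y₂) y := by fun_prop
    refine ContinuousWithinAt.comp (g := F) (f := fun y : ℝ => (x : ℂ) + y * I) (hc y hy') h3 ?_
    intro t ht
    refine ⟨?_, ?_⟩
    · simp
      exact ⟨h1.trans ht.1, ht.2.trans h2⟩
    · simp
  have hder : ∀ y ∈ Ioo y₁ y₂, HasDerivAt (fun y : ℝ => F (x + y * I)) (deriv F (x + y * I) * I) y := by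
    intro y hy
    have h3 := (hd y ⟨h1.trans_lt hy.1, hy.2.trans_le h2⟩).hasDerivAt
    have h4 : HasDerivAt (fun y : ℝ => (x : ℂ) + y * I) (1 * I) y :=
      ((hasDerivAt_id y).ofReal_comp.mul_const I).const_add _
    rw [one_mul] at h4
    exact h3.comp y h4
  refine (enorm_sub_le_lintegral h12 hcc fun y hy => (hder y hy).differentiableAt).trans ?_
  unfold VI
  calc ∫⁻ t in Ioo y₁ y₂, ‖deriv (fun y : ℝ => F (x + y * I)) t‖ₑ
      = ∫⁻ t in Ioo y₁ y₂, ‖deriv F (x + t * I)‖ₑ := by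
        apply setLIntegral_congr_fun measurableSet_Ioo
        intro t ht
        simp only
        rw [(hder t ht).deriv, enorm_mul, ← ofReal_norm I, Complex.norm_I, ENNReal.ofReal_one, mul_one]
    _ ≤ _ := by
        apply lintegral_mono_set
        exact Ioo_subset_Ioo h1 h2

lemma sin_lower {θ : ℝ} (h1 : 1 < θ) (h2 : θ < 2) : 1 / 2 ≤ Real.sin θ := by
  have hπ := Real.pi_gt_three
  have hπ' := Real.pi_lt_four
  rcases le_total θ (π / 2) with h | h
  · have h3 := Real.mul_le_sin (by linarith : 0 ≤ θ) h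
    have h4 : 1 / 2 ≤ 2 / π * θ := by
      rw [div_mul_eq_mul_div, le_div_iff₀ (by linarith)]
      linarith
    linarith
  · have h3 := Real.mul_le_sin (by linarith : 0 ≤ π - θ) (by linarith)
    rw [Real.sin_pi_sub] at h3
    have h4 : 1 / 2 ≤ 2 / π * (π - θ) := by
      have : π < 3.15 := Real.pi_lt_d2
      rw [div_mul_eq_mul_div, le_div_iff₀ (by linarith)]
      have : 3.14 < π := Real.pi_gt_d2
      linarith
    linarith

lemma theta_int (F : ℂ → ℂ) (p : ℝ) {ρ : ℝ} (hρ : 0 < ρ) :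
    ∫⁻ θ in Ioo (1:ℝ) 2, VI F (p + ρ * Real.cos θ) ≤
      ENNReal.ofReal (2 / ρ) * ∫⁻ x in Ioo (p - ρ) (p + ρ), VI F x := by
  have hπ := Real.pi_gt_three
  have h := cov (v := fun θ => p + ρ * Real.cos θ) (v' := fun θ => ρ * (-Real.sin θ))
    (w := fun _ => 1) (a := 1) (b := 2) (r := p - ρ) (ρ := p + ρ) (K := 2 / ρ) (by positivity)
    (fun θ _ => ((Real.hasDerivAt_cos θ).const_mul ρ).const_add p) ?_ ?_ ?_ (g := VI F)
  · simpa using h
  · have : StrictAntiOn (fun θ => p + ρ * Real.cos θ) (Ioo (1:ℝ) 2) := by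
      intro a ha b hb hab
      have := Real.strictAntiOn_cos (a := a) ⟨by linarith [ha.1], by linarith [ha.2]⟩
        (b := b) ⟨by linarith [hb.1], by linarith [hb.2]⟩ hab
      simp only
      nlinarith
    exact this.injOn
  · intro θ hθ
    have hs := sin_lower hθ.1 hθ.2
    have h1 := Real.sin_sq_add_cos_sq θ
    have h2 : Real.cos θ < 1 := by nlinarith
    have h3 : -1 < Real.cos θ := by nlinarith
    constructor <;> nlinarith
  · intro θ hθ
    have hs := sin_lower hθ.1 hθ.2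
    rw [abs_mul, abs_neg, abs_of_pos hρ, abs_of_pos (by linarith : 0 < Real.sin θ)]
    have : 2 / ρ * (ρ * Real.sin θ) = 2 * Real.sin θ := by field_simp
    rw [this]
    linarith

end Pool.Agent.H813R2.Sew
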