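import Mathlib
import Pool.Agent.H813R2.Sew4
set_option autoImplicit false
open MeasureTheory Set Filter Topology Complex
open scoped ENNReal Real ComplexConjugate

namespace Pool.Agent.H813R2.Sew

variable {N n : ℕ} {F : ℂ → ℂ} {c : ℂ}

structure Barr (F : ℂ → ℂ) (c : ℂ) (N n : ℕ) : Prop where
  par : Par N n
  cont : ContinuousOn F {z | (n:ℝ) - 1 ≤ z.re ∧ z.re ≤ 8 * n + 1 ∧ 0 ≤ z.im ∧ z.im ≤ 1}
  diff : ∀ z : ℂ, (n:ℝ) - 1 < z.re → z.re < 8 * n + 1 → 0 < z.im → z.im < 1 → DifferentiableAt ℂ F z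
  seamP : ∀ j : ℕ, N * n ≤ j → j < 4 * (N * n) → ∀ τ ∈ mid N n,
    F (I + (((2 * j + 1) / N - rt N n τ : ℝ) : ℂ)) = F ((j / N + rb N τ : ℝ) : ℂ) + c
  seamM : ∀ j : ℕ, N * n ≤ j → j < 4 * (N * n) → ∀ τ ∈ mid N n,
    F (I + (((2 * j + 1) / N + rt N n τ : ℝ) : ℂ)) = F ((((j + 1 : ℕ) : ℝ) / N - rb N τ : ℝ) : ℂ) + c

/-- bottom arcs -/
noncomputable def gb (F : ℂ → ℂ) (N : ℕ) (j : ℕ) (τ : ℝ) : ℝ≥0∞ :=
  ENNReal.ofReal (rb N τ) * CI F ((j:ℝ) / N) (rb N τ)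
/-- top arcs -/
noncomputable def gt (F : ℂ → ℂ) (N n : ℕ) (j : ℕ) (τ : ℝ) : ℝ≥0∞ :=
  ENNReal.ofReal (rt N n τ) * CI (tp F) ((2 * (j:ℝ) + 1) / N) (rt N n τ)

lemma ro_le (h : Par N n) : ro N ≤ 1 / 4 := by
  unfold ro
  rw [div_le_iff₀ h.N0]
  have : (1:ℝ) ≤ N := by exact_mod_cast h.hN
  linarith

lemma re_bound {z : ℂ} {p ρ : ℝ} (h : ‖z - p‖ ≤ ρ) : |z.re - p| ≤ ρ ∧ |z.im| ≤ ρ := by
  constructor
  · have := (Complex.abs_re_le_norm (z - p)).trans h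
    simpa using this
  · have := (Complex.abs_im_le_norm (z - p)).trans h
    simpa using this

lemma Barr.hdb (h : Barr F c N n) {j : ℕ} (h1 : N * n ≤ j) (h2 : j ≤ 4 * (N * n)) :
    HDisc F ((j:ℝ) / N) (ro N) := by
  have hN0 := h.par.N0
  have hn1 := h.par.n1
  have hro := ro_le h.par
  have e1 : (n:ℝ) ≤ (j:ℝ) / N := by
    rw [le_div_iff₀ hN0]
    have : ((N * n : ℕ) : ℝ) ≤ j := by exact_mod_cast h1
    push_cast at this; linarith
  have e2 : (j:ℝ) / N ≤ 4 * n := by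
    rw [div_le_iff₀ hN0]
    have : (j : ℝ) ≤ ((4 * (N * n) : ℕ) : ℝ) := by exact_mod_cast h2
    push_cast at this; linarith
  constructor
  · apply h.cont.mono
    rintro z ⟨hz0, hz⟩
    obtain ⟨ha, hb⟩ := re_bound hz
    rw [abs_le] at ha hb
    refine ⟨?_, ?_, hz0, ?_⟩ <;> linarith [ha.1, ha.2, hb.1, hb.2]
  · intro z hz0 hz
    obtain ⟨ha, hb⟩ := re_bound hz.le
    rw [abs_le] at ha hb
    apply h.diff z _ _ hz0 <;> linarith [ha.1, ha.2, hb.1, hb.2]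

lemma q_bounds (h : Par N n) {j : ℕ} (h1 : N * n ≤ j) (h2 : j < 4 * (N * n)) :
    (2 * n : ℝ) ≤ (2 * (j:ℝ) + 1) / N ∧ (2 * (j:ℝ) + 1) / N ≤ 8 * n := by
  have hN0 := h.N0
  constructor
  · rw [le_div_iff₀ hN0]
    have : ((N * n : ℕ) : ℝ) ≤ j := by exact_mod_cast h1
    push_cast at this; linarith
  · rw [div_le_iff₀ hN0]
    have : (j : ℝ) + 1 ≤ ((4 * (N * n) : ℕ) : ℝ) := by exact_mod_cast h2
    push_cast at this; linarith

lemma Barr.hdt (h : Barr F c N n) {j : ℕ} (h1 : N * n ≤ j) (h2 : j < 4 * (N * n)) :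
    HDisc (tp F) ((2 * (j:ℝ) + 1) / N) (ro N) := by
  have hN0 := h.par.N0
  have hn1 := h.par.n1
  have hro := ro_le h.par
  obtain ⟨e1, e2⟩ := q_bounds h.par h1 h2
  have hs : ∀ z : ℂ, (I + conj z).re = z.re := fun z => by simp
  have hi : ∀ z : ℂ, (I + conj z).im = 1 - z.im := fun z => by simp; ring
  constructor
  · unfold tp
    apply Complex.continuous_conj.comp_continuousOn
    have : ContinuousOn (fun z : ℂ => F (I + conj z)) {z | 0 ≤ z.im ∧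
        ‖z - (((2 * (j:ℝ) + 1) / N : ℝ) : ℂ)‖ ≤ ro N} := by
      apply h.cont.comp (by fun_prop)
      rintro z ⟨hz0, hz⟩
      obtain ⟨ha, hb⟩ := re_bound hz
      rw [abs_le] at ha hb
      simp only [mem_ofPred_eq, hs, hi]
      refine ⟨?_, ?_, ?_, ?_⟩ <;> linarith [ha.1, ha.2, hb.1, hb.2]
    exact this
  · intro z hz0 hz
    obtain ⟨ha, hb⟩ := re_bound hz.le
    rw [abs_le] at ha hb
    unfold tp
    rw [differentiableAt_conj_conj_iff]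
    have := h.diff (I + conj z) (by rw [hs]; linarith [ha.1, ha.2, hb.1, hb.2])
      (by rw [hs]; linarith [ha.1, ha.2, hb.1, hb.2])
      (by rw [hi]; linarith [ha.1, ha.2, hb.1, hb.2]) (by rw [hi]; linarith)
    exact this.comp (conj z) (by fun_prop)

lemma circ_zero : circ 0 = 1 := by simp [circ]
lemma circ_pi : circ π = -1 := by simp [circ]

lemma HDisc.arc' {G : ℂ → ℂ} {p ρ R : ℝ} (h : HDisc G p ρ) (hR : 0 < R) (hRρ : R < ρ) {θ : ℝ}
    (h0 : 0 ≤ θ) (h1 : θ ≤ π) :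
    ‖G (p + R * circ θ) - G ((p - R : ℝ) : ℂ)‖ₑ ≤ ENNReal.ofReal R * CI G p R := by
  have h2 := h.arc hR hRρ h0 h1 le_rfl
  have e : ((p - R : ℝ) : ℂ) = p + R * circ π := by rw [circ_pi]; push_cast; ring
  rw [e, ← enorm_neg, neg_sub]
  refine h2.trans (le_of_eq ?_)
  unfold CI
  rw [lintegral_mul_const' _ _ ENNReal.ofReal_ne_top, mul_comm]

lemma HDisc.arc2 {G : ℂ → ℂ} {p ρ R : ℝ} (h : HDisc G p ρ) (hR : 0 < R) (hRρ : R < ρ) :
    ‖G ((p + R : ℝ) : ℂ) - G ((p - R : ℝ) : ℂ)‖ₑ ≤ ENNReal.ofReal R * CI G p R := by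
  have h2 := h.arc' hR hRρ le_rfl Real.pi_pos.le
  rw [circ_zero, mul_one] at h2
  push_cast at h2 ⊢
  exact h2

lemma tp_real (F : ℂ → ℂ) (x : ℝ) : tp F x = conj (F (I + x)) := by
  simp [tp]

lemma Barr.arc_b (h : Barr F c N n) {j : ℕ} (h1 : N * n ≤ j) (h2 : j ≤ 4 * (N * n)) {τ : ℝ}
    (hτ : τ ∈ mid N n) :
    ‖F (((j:ℝ) / N + rb N τ : ℝ) : ℂ) - F (((j:ℝ) / N - rb N τ : ℝ) : ℂ)‖ₑ ≤ gb F N j τ :=
  (h.hdb h1 h2).arc2 (h.par.ri_pos.trans (h.par.rb_mem hτ).1) (h.par.rb_mem hτ).2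

lemma Barr.arc_t (h : Barr F c N n) {j : ℕ} (h1 : N * n ≤ j) (h2 : j < 4 * (N * n)) {τ : ℝ}
    (hτ : τ ∈ mid N n) :
    ‖F (I + (((2 * j + 1) / N + rt N n τ : ℝ) : ℂ)) - F (I + (((2 * j + 1) / N - rt N n τ : ℝ) : ℂ))‖ₑ
      ≤ gt F N n j τ := by
  have h3 := (h.hdt h1 h2).arc2 (h.par.ri_pos.trans (h.par.rt_mem hτ).1) (h.par.rt_mem hτ).2
  rw [tp_real, tp_real, ← map_sub] at h3
  rw [← ofReal_norm, RCLike.norm_conj, ofReal_norm] at h3
  exact h3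

/-- the chain -/
lemma Barr.chain (h : Barr F c N n) {J : ℕ} (h1 : N * n ≤ J) {τ : ℝ} (hτ : τ ∈ mid N n) (m : ℕ)
    (hm : J + m < 4 * (N * n)) :
    ‖F ((((J + m + 1 : ℕ) : ℝ) / N - rb N τ : ℝ) : ℂ) - F (((J:ℝ) / N + rb N τ : ℝ) : ℂ)‖ₑ ≤
      ∑ i ∈ Finset.range (m + 1), gt F N n (J + i) τ + ∑ i ∈ Finset.range m, gb F N (J + i + 1) τ := by
  have one : ∀ j : ℕ, N * n ≤ j → j < 4 * (N * n) →
      ‖F ((((j + 1 : ℕ) : ℝ) / N - rb N τ : ℝ) : ℂ) - F (((j:ℝ) / N + rb N τ : ℝ) : ℂ)‖ₑ ≤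
        gt F N n j τ := by
    intro j hj1 hj2
    have e1 := h.seamP j hj1 hj2 τ hτ
    have e2 := h.seamM j hj1 hj2 τ hτ
    have e3 := h.arc_t hj1 hj2 hτ
    rw [e1, e2] at e3
    have e4 : F ((((j + 1 : ℕ) : ℝ) / N - rb N τ : ℝ) : ℂ) + c - (F (((j:ℝ) / N + rb N τ : ℝ) : ℂ) + c)
      = F ((((j + 1 : ℕ) : ℝ) / N - rb N τ : ℝ) : ℂ) - F (((j:ℝ) / N + rb N τ : ℝ) : ℂ) := by ring
    rwa [e4] at e3
  induction m with
  | zero =>
    simpa using one J h1 (by simpa using hm)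
  | succ m ih =>
    have ih' := ih (by omega)
    have a1 := one (J + m + 1) (by omega) (by omega)
    have a2 := h.arc_b (j := J + m + 1) (by omega) (by omega) hτ
    rw [Finset.sum_range_succ, Finset.sum_range_succ (fun i => gb F N (J + i + 1) τ)]
    set X := F ((((J + (m + 1) + 1 : ℕ) : ℝ) / N - rb N τ : ℝ) : ℂ)
    set Y := F ((((J + m + 1 : ℕ) : ℝ) / N + rb N τ : ℝ) : ℂ)
    set Z := F ((((J + m + 1 : ℕ) : ℝ) / N - rb N τ : ℝ) : ℂ)
    set W := F (((J:ℝ) / N + rb N τ : ℝ) : ℂ)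
    have e : X - W = (X - Y) + (Y - Z) + (Z - W) := by ring
    rw [e]
    calc ‖(X - Y) + (Y - Z) + (Z - W)‖ₑ ≤ ‖X - Y‖ₑ + ‖Y - Z‖ₑ + ‖Z - W‖ₑ :=
          (enorm_add_le _ _).trans (add_le_add (enorm_add_le _ _) le_rfl)
      _ ≤ gt F N n (J + m + 1) τ + gb F N (J + m + 1) τ +
          (∑ i ∈ Finset.range (m + 1), gt F N n (J + i) τ + ∑ i ∈ Finset.range m, gb F N (J + i + 1) τ) := by
          gcongr
          exact a1
      _ = _ := by
          rw [show J + (m + 1) = J + m + 1 by ring]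
          ring


lemma Barr.vert (h : Barr F c N n) {J : ℕ} (h1 : N * n ≤ J) (h2 : J < 2 * (N * n)) {τ : ℝ}
    (hτ : τ ∈ mid N n) {θ : ℝ} (hθ : θ ∈ Ioo 0 π) :
    ‖F (I + (((2 * (J:ℝ) + 1) / N - rt N n τ : ℝ) : ℂ)) -
        F ((((2 * (J:ℝ) + 1) / N - rb N τ : ℝ) : ℂ))‖ₑ ≤
      gb F N (2 * J + 1) τ + gt F N n J τ + RI F ((2 * (J:ℝ) + 1) / N) (ri N n) (ro N) θ +
      RI (tp F) ((2 * (J:ℝ) + 1) / N) (ri N n) (ro N) θ +
      VI F ((2 * (J:ℝ) + 1) / N + ro N * Real.cos θ) := by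
  have hb := h.hdb (j := 2 * J + 1) (by omega) (by omega)
  have ht := h.hdt h1 (by omega)
  have hrb := h.par.rb_mem hτ
  have hrt := h.par.rt_mem hτ
  have hri := h.par.ri_pos
  obtain ⟨q1, q2⟩ := q_bounds h.par h1 (by omega)
  have hro := ro_le h.par
  have hro0 := h.par.ro_pos
  have hn1 := h.par.n1
  have ecast : (((2 * J + 1 : ℕ) : ℝ)) / N = (2 * (J:ℝ) + 1) / N := by push_cast; ring
  rw [ecast] at hb
  set p : ℝ := (2 * (J:ℝ) + 1) / N with hp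
  have hs := Real.sin_nonneg_of_nonneg_of_le_pi hθ.1.le hθ.2.le
  have hs1 := Real.sin_le_one θ
  have hc1 := Real.cos_le_one θ
  have hc2 := Real.neg_one_le_cos θ
  -- bottom pieces
  have b1 := hb.arc' (hri.trans hrb.1) hrb.2 hθ.1.le hθ.2.le
  have b2 := hb.rad hri hrb.1.le hrb.2.le hθ.1 hθ.2
  have t1 := ht.arc' (hri.trans hrt.1) hrt.2 hθ.1.le hθ.2.le
  have t2 := ht.rad hri hrt.1.le hrt.2.le hθ.1 hθ.2
  -- vertical piece
  have hv : ‖F (((p + ro N * Real.cos θ : ℝ) : ℂ) + ((1 - ro N * Real.sin θ : ℝ) : ℂ) * I) -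
      F (((p + ro N * Real.cos θ : ℝ) : ℂ) + ((ro N * Real.sin θ : ℝ) : ℂ) * I)‖ₑ ≤
      VI F (p + ro N * Real.cos θ) := by
    have b1 : -(1/4) ≤ ro N * Real.cos θ := by nlinarith
    have b2 : ro N * Real.cos θ ≤ 1/4 := by nlinarith
    apply VI_diff
    · intro y hy
      apply (h.cont _ _).mono
      · rintro z ⟨hz1, hz2⟩
        refine ⟨?_, ?_, hz1.1, hz1.2⟩
        · rw [hz2]; linarith
        · rw [hz2]; linarith
      · refine ⟨?_, ?_, ?_, ?_⟩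
        · simp [Complex.cos_ofReal_re]; linarith
        · simp [Complex.cos_ofReal_re]; linarith
        · simp; exact hy.1
        · simp; exact hy.2
    · intro y hy
      apply h.diff
      · simp [Complex.cos_ofReal_re]; linarith
      · simp [Complex.cos_ofReal_re]; linarith
      · simpa using hy.1
      · simpa using hy.2
    · positivity
    · nlinarith
    · have : 0 ≤ ro N * Real.sin θ := by positivity
      linarith
  -- rewriting of top values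
  have tpv : ∀ z : ℂ, tp F z = conj (F (I + conj z)) := fun z => rfl
  have conjnorm : ∀ a b : ℂ, ‖conj a - conj b‖ₑ = ‖a - b‖ₑ := by
    intro a b
    rw [← map_sub, ← ofReal_norm, RCLike.norm_conj, ofReal_norm]
  rw [tpv, tpv, conjnorm] at t1 t2
  have e1 : I + conj ((p:ℂ) + ro N * circ θ) =
      ((p + ro N * Real.cos θ : ℝ) : ℂ) + ((1 - ro N * Real.sin θ : ℝ) : ℂ) * I := by
    apply Complex.ext <;> simp [circ_re, circ_im, Complex.cos_ofReal_re, Complex.sin_ofReal_re]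
    ring
  have e2 : (p:ℂ) + ro N * circ θ =
      ((p + ro N * Real.cos θ : ℝ) : ℂ) + ((ro N * Real.sin θ : ℝ) : ℂ) * I := by
    apply Complex.ext <;> simp [circ_re, circ_im, Complex.cos_ofReal_re, Complex.sin_ofReal_re]
  have e3 : I + conj (((p - rt N n τ : ℝ) : ℂ)) = I + ((p - rt N n τ : ℝ) : ℂ) := by
    rw [Complex.conj_ofReal]
  rw [e3] at t1
  rw [e1] at t2
  rw [e2] at b2
  set A := F (I + ((p - rt N n τ : ℝ) : ℂ))
  set B := F (I + conj ((p:ℂ) + (rt N n τ) * circ θ))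
  set C := F (((p + ro N * Real.cos θ : ℝ) : ℂ) + ((1 - ro N * Real.sin θ : ℝ) : ℂ) * I)
  set D := F (((p + ro N * Real.cos θ : ℝ) : ℂ) + ((ro N * Real.sin θ : ℝ) : ℂ) * I)
  set E := F ((p:ℂ) + (rb N τ) * circ θ)
  set G := F ((p - rb N τ : ℝ) : ℂ)
  have e : A - G = (E - G) + (-(B - A)) + (D - E) + (-(C - B)) + (C - D) := by ring
  rw [e]
  have n1 : ∀ z : ℂ, ‖-z‖ₑ = ‖z‖ₑ := fun z => enorm_neg z
  calc ‖(E - G) + (-(B - A)) + (D - E) + (-(C - B)) + (C - D)‖ₑ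
      ≤ ‖E - G‖ₑ + ‖-(B - A)‖ₑ + ‖D - E‖ₑ + ‖-(C - B)‖ₑ + ‖C - D‖ₑ := by
        refine (enorm_add_le _ _).trans (add_le_add ?_ le_rfl)
        refine (enorm_add_le _ _).trans (add_le_add ?_ le_rfl)
        refine (enorm_add_le _ _).trans (add_le_add ?_ le_rfl)
        exact enorm_add_le _ _
    _ ≤ _ := by
        rw [n1, n1]
        refine add_le_add (add_le_add (add_le_add (add_le_add ?_ ?_) ?_) ?_) ?_
        · unfold gb
          rw [ecast]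
          exact b1
        · exact t1
        · exact b2
        · exact t2
        · exact hv

/-- total of arcs -/
noncomputable def SS (F : ℂ → ℂ) (N n : ℕ) (τ : ℝ) : ℝ≥0∞ :=
  ∑ j ∈ Finset.Ico (N * n) (4 * (N * n)), (gb F N j τ + gt F N n j τ)

lemma sum_sub {f : ℕ → ℝ≥0∞} {a b J m : ℕ} (h1 : a ≤ J) (h2 : J + m ≤ b) :
    ∑ i ∈ Finset.range m, f (J + i) ≤ ∑ j ∈ Finset.Ico a b, f j := by
  have : ∑ i ∈ Finset.range m, f (J + i) = ∑ j ∈ Finset.Ico J (J + m), f j := by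
    rw [Finset.sum_Ico_eq_sum_range]
    simp
  rw [this]
  apply Finset.sum_le_sum_of_subset
  exact Finset.Ico_subset_Ico h1 h2

lemma Barr.main1 (h : Barr F c N n) {J : ℕ} (h1 : N * n ≤ J) (h2 : J < 2 * (N * n)) {τ : ℝ}
    (hτ : τ ∈ mid N n) {θ : ℝ} (hθ : θ ∈ Ioo 0 π) :
    ‖c‖ₑ ≤ 2 * SS F N n τ + (RI F ((2 * (J:ℝ) + 1) / N) (ri N n) (ro N) θ +
      RI (tp F) ((2 * (J:ℝ) + 1) / N) (ri N n) (ro N) θ +
      VI F ((2 * (J:ℝ) + 1) / N + ro N * Real.cos θ)) := by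
  have hch := h.chain h1 hτ J (by omega)
  have hve := h.vert h1 h2 hτ hθ
  have hse := h.seamP J h1 (by omega) τ hτ
  have ecast : (((J + J + 1 : ℕ) : ℝ)) / N = (2 * (J:ℝ) + 1) / N := by push_cast; ring
  rw [ecast] at hch
  set A := F (I + (((2 * (J:ℝ) + 1) / N - rt N n τ : ℝ) : ℂ))
  set G := F ((((2 * (J:ℝ) + 1) / N - rb N τ : ℝ) : ℂ))
  set W := F (((J:ℝ) / N + rb N τ : ℝ) : ℂ)
  have e : c = (A - G) + (G - W) := by rw [hse]; ring
  have hc : ‖c‖ₑ ≤ ‖A - G‖ₑ + ‖G - W‖ₑ := by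
    conv_lhs => rw [e]
    exact enorm_add_le _ _
  have s1 : ∑ i ∈ Finset.range (J + 1), gt F N n (J + i) τ + ∑ i ∈ Finset.range J, gb F N (J + i + 1) τ
      ≤ SS F N n τ := by
    unfold SS
    rw [Finset.sum_add_distrib, add_comm]
    apply add_le_add
    · have := sum_sub (f := fun j => gb F N j τ) (a := N * n) (b := 4 * (N * n)) (J := J + 1) (m := J)
        (by omega) (by omega)
      refine le_trans (le_of_eq ?_) this
      apply Finset.sum_congr rfl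
      intro i _
      congr 1
      omega
    · exact sum_sub (f := fun j => gt F N n j τ) (by omega) (by omega)
  have s2 : gb F N (2 * J + 1) τ + gt F N n J τ ≤ SS F N n τ := by
    unfold SS
    rw [Finset.sum_add_distrib]
    apply add_le_add
    · exact Finset.single_le_sum (f := fun j => gb F N j τ) (fun _ _ => zero_le) (Finset.mem_Ico.2 ⟨by omega, by omega⟩)
    · exact Finset.single_le_sum (f := fun j => gt F N n j τ) (fun _ _ => zero_le) (Finset.mem_Ico.2 ⟨by omega, by omega⟩)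
  calc ‖c‖ₑ ≤ ‖A - G‖ₑ + ‖G - W‖ₑ := hc
    _ ≤ (gb F N (2 * J + 1) τ + gt F N n J τ + RI F ((2 * (J:ℝ) + 1) / N) (ri N n) (ro N) θ +
      RI (tp F) ((2 * (J:ℝ) + 1) / N) (ri N n) (ro N) θ +
      VI F ((2 * (J:ℝ) + 1) / N + ro N * Real.cos θ)) + SS F N n τ :=
        add_le_add hve (hch.trans s1)
    _ ≤ (SS F N n τ + RI F ((2 * (J:ℝ) + 1) / N) (ri N n) (ro N) θ +
      RI (tp F) ((2 * (J:ℝ) + 1) / N) (ri N n) (ro N) θ +
      VI F ((2 * (J:ℝ) + 1) / N + ro N * Real.cos θ)) + SS F N n τ := by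
        gcongr
    _ = _ := by ring

end Pool.Agent.H813R2.Sew
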