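import Mathlib
import Pool.Agent.H813R2.Sew5
set_option autoImplicit false
open MeasureTheory Set Filter Topology Complex
open scoped ENNReal Real ComplexConjugate

namespace Pool.Agent.H813R2.Sew

variable {N n : ℕ} {F : ℂ → ℂ} {c : ℂ}

lemma CI_meas (G : ℂ → ℂ) (p : ℝ) : Measurable (CI G p) := by
  unfold CI
  exact (PH_meas G p).lintegral_prod_right'

lemma RI_meas (G : ℂ → ℂ) (p r ρ : ℝ) : Measurable (RI G p r ρ) := by
  unfold RI
  exact (PH_meas G p).lintegral_prod_left'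

lemma vr_cont : Continuous vr := by unfold vr; fun_prop

lemma gb_meas (F : ℂ → ℂ) (N j : ℕ) : Measurable (gb F N j) := by
  unfold gb
  have h1 : Measurable (rb N) := by
    unfold rb; exact (vr_cont.div_const _).measurable
  exact h1.ennreal_ofReal.mul ((CI_meas _ _).comp h1)

lemma gt_meas (F : ℂ → ℂ) (N n j : ℕ) : Measurable (gt F N n j) := by
  unfold gt
  have h1 : Measurable (rt N n) := by
    unfold rt
    have : Continuous fun τ => vr (LL N n - τ) := vr_cont.comp (by fun_prop)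
    exact ((this.const_mul 2).div_const _).measurable
  exact h1.ennreal_ofReal.mul ((CI_meas _ _).comp h1)

noncomputable def TB (F : ℂ → ℂ) (N n : ℕ) (j : ℕ) : ℝ≥0∞ := TI F ((j:ℝ) / N) (ri N n) (ro N)
noncomputable def TT (F : ℂ → ℂ) (N n : ℕ) (j : ℕ) : ℝ≥0∞ :=
  TI (tp F) ((2 * (j:ℝ) + 1) / N) (ri N n) (ro N)

lemma SS_int (h : Par N n) : ∫⁻ τ in mid N n, SS F N n τ ≤
    2 * ∑ j ∈ Finset.Ico (N * n) (4 * (N * n)), (TB F N n j + TT F N n j) := by
  unfold SS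
  have hmj : ∀ j, Measurable (fun τ => gb F N j τ + gt F N n j τ) :=
    fun j => (gb_meas F N j).add (gt_meas F N n j)
  rw [lintegral_finsetSum _ (fun j _ => hmj j), Finset.mul_sum]
  apply Finset.sum_le_sum
  intro j _
  rw [lintegral_add_left (gb_meas F N j), mul_add]
  have e : ENNReal.ofReal 2 = 2 := by simp
  apply add_le_add
  · have := h.tau_b F ((j:ℝ) / N)
    rw [e] at this
    exact this
  · have := h.tau_t (tp F) ((2 * (j:ℝ) + 1) / N)
    rw [e] at this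
    exact this

noncomputable def BB (F : ℂ → ℂ) (N n J : ℕ) : ℝ≥0∞ :=
  TI F ((2 * (J:ℝ) + 1) / N) (ri N n) (ro N) + TT F N n J + ENNReal.ofReal (2 / ro N) *
    ∫⁻ x in Ioo ((2 * (J:ℝ) + 1) / N - ro N) ((2 * (J:ℝ) + 1) / N + ro N), VI F x

lemma Barr.main2 (h : Barr F c N n) {J : ℕ} (h1 : N * n ≤ J) (h2 : J < 2 * (N * n)) {τ : ℝ}
    (hτ : τ ∈ mid N n) : ‖c‖ₑ ≤ 2 * SS F N n τ + BB F N n J := by
  have hπ := Real.pi_gt_three
  set p : ℝ := (2 * (J:ℝ) + 1) / N with hp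
  have hvol : (volume.restrict (Ioo (1:ℝ) 2)) univ = 1 := by
    rw [Measure.restrict_apply MeasurableSet.univ, univ_inter, Real.volume_Ioo]
    norm_num
  have e1 : ‖c‖ₑ = ∫⁻ _ in Ioo (1:ℝ) 2, ‖c‖ₑ := by
    rw [lintegral_const, hvol, mul_one]
  have e2 : ∫⁻ _ in Ioo (1:ℝ) 2, ‖c‖ₑ ≤ ∫⁻ θ in Ioo (1:ℝ) 2, (2 * SS F N n τ +
      (RI F p (ri N n) (ro N) θ + RI (tp F) p (ri N n) (ro N) θ + VI F (p + ro N * Real.cos θ))) := by
    apply setLIntegral_mono_ae' measurableSet_Ioo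
    refine ae_of_all _ fun θ hθ => ?_
    exact h.main1 h1 h2 hτ ⟨by linarith [hθ.1], by linarith [hθ.2]⟩
  rw [e1]
  refine e2.trans ?_
  rw [lintegral_add_left measurable_const, lintegral_const, hvol, mul_one]
  refine add_le_add le_rfl ?_
  have hm2 : Measurable (fun θ => RI F p (ri N n) (ro N) θ + RI (tp F) p (ri N n) (ro N) θ) :=
    (RI_meas _ _ _ _).add (RI_meas _ _ _ _)
  rw [lintegral_add_left hm2, lintegral_add_left (RI_meas _ _ _ _)]
  unfold BB TT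
  have hsub : Ioo (1:ℝ) 2 ⊆ Ioo 0 π := Ioo_subset_Ioo (by norm_num) (by linarith)
  refine add_le_add (add_le_add ?_ ?_) ?_
  · rw [← RI_int]; exact lintegral_mono_set hsub
  · rw [← RI_int]; exact lintegral_mono_set hsub
  · exact theta_int F p h.par.ro_pos

lemma Barr.main3 (h : Barr F c N n) {J : ℕ} (h1 : N * n ≤ J) (h2 : J < 2 * (N * n)) :
    ‖c‖ₑ * ENNReal.ofReal (LL N n / 3) ≤
      4 * ∑ j ∈ Finset.Ico (N * n) (4 * (N * n)), (TB F N n j + TT F N n j) +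
      BB F N n J * ENNReal.ofReal (LL N n / 3) := by
  have hvol : (volume.restrict (mid N n)) univ = ENNReal.ofReal (LL N n / 3) := by
    unfold mid
    rw [Measure.restrict_apply MeasurableSet.univ, univ_inter, Real.volume_Ioo]
    congr 1; ring
  have hSm : Measurable (SS F N n) := by
    unfold SS
    exact Finset.measurable_sum _ (fun j _ => (gb_meas F N j).add (gt_meas F N n j))
  calc ‖c‖ₑ * ENNReal.ofReal (LL N n / 3) = ∫⁻ _ in mid N n, ‖c‖ₑ := by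
        rw [lintegral_const, hvol]
    _ ≤ ∫⁻ τ in mid N n, (2 * SS F N n τ + BB F N n J) := by
        apply setLIntegral_mono_ae' measurableSet_Ioo
        exact ae_of_all _ fun τ hτ => h.main2 h1 h2 hτ
    _ = 2 * (∫⁻ τ in mid N n, SS F N n τ) + BB F N n J * ENNReal.ofReal (LL N n / 3) := by
        rw [lintegral_add_left (hSm.const_mul 2), lintegral_const_mul _ hSm, lintegral_const, hvol]
    _ ≤ 2 * (2 * ∑ j ∈ Finset.Ico (N * n) (4 * (N * n)), (TB F N n j + TT F N n j)) +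
        BB F N n J * ENNReal.ofReal (LL N n / 3) := by
        gcongr
        exact SS_int h.par
    _ = _ := by
        rw [← mul_assoc]; norm_num

/-- sums over disjoint pieces -/
lemma sum_disj {ι : Type*} (s : Finset ι) (A : ι → Set ℂ) (hm : ∀ i ∈ s, MeasurableSet (A i))
    (hd : ∀ i ∈ s, ∀ j ∈ s, i ≠ j → Disjoint (A i) (A j)) {R : Set ℂ} (hR : ∀ i ∈ s, A i ⊆ R)
    (f : ℂ → ℝ≥0∞) : ∑ i ∈ s, ∫⁻ z in A i, f z ≤ ∫⁻ z in R, f z := by
  rw [← lintegral_biUnion_finset (fun i hi j hj hij => hd i hi j hj hij) hm]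
  apply lintegral_mono_set
  exact iUnion₂_subset hR

/-- the region of the barrier -/
def Rg (n : ℕ) : Set ℂ := {z | (n:ℝ) - 1 < z.re ∧ z.re < 8 * n + 1 ∧ 0 < z.im ∧ z.im < 1}

noncomputable def En (F : ℂ → ℂ) (n : ℕ) : ℝ≥0∞ := ∫⁻ z in Rg n, ‖deriv F z‖ₑ ^ 2

lemma div_sep {N : ℕ} (hN : 0 < (N:ℝ)) {i j : ℕ} (hij : i ≠ j) : 1 / (N:ℝ) ≤ |(i:ℝ) / N - (j:ℝ) / N| := by
  rw [← sub_div, abs_div, abs_of_pos hN]
  apply div_le_div_of_nonneg_right _ hN.le
  have h : (1:ℤ) ≤ |(i:ℤ) - j| := Int.one_le_abs (sub_ne_zero.2 (by exact_mod_cast hij))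
  have h' : ((1:ℤ):ℝ) ≤ ((|(i:ℤ) - j| : ℤ) : ℝ) := by exact_mod_cast h
  push_cast at h'
  exact h'

lemma sumB (h : Par N n) (F : ℂ → ℂ) : ∑ j ∈ Finset.Ico (N * n) (4 * (N * n)), Ed F ((j:ℝ) / N) (ro N)
    ≤ En F n := by
  unfold Ed En
  have hN0 := h.N0
  have hro := ro_le h
  have hn1 := h.n1
  apply sum_disj
  · intro i _; exact HD_meas _ _
  · intro i _ j _ hij
    rw [Set.disjoint_left]
    rintro z ⟨_, h1⟩ ⟨_, h2⟩
    have a1 := (re_bound h1.le).1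
    have a2 := (re_bound h2.le).1
    have a3 := div_sep hN0 hij
    have a4 : ro N = (1/4) * (1 / N) := by unfold ro; ring
    have a5 : 0 < 1 / (N:ℝ) := by positivity
    rw [abs_le] at a1 a2
    rw [le_abs] at a3
    rcases a3 with a3 | a3 <;> linarith [a1.1, a1.2, a2.1, a2.2]
  · intro j hj
    rw [Finset.mem_Ico] at hj
    rintro z ⟨h0, h1⟩
    obtain ⟨a1, a2⟩ := re_bound h1.le
    have e1 : (n:ℝ) ≤ (j:ℝ) / N := by
      rw [le_div_iff₀ hN0]
      have : ((N * n : ℕ) : ℝ) ≤ j := by exact_mod_cast hj.1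
      push_cast at this; linarith
    have e2 : (j:ℝ) / N ≤ 4 * n := by
      rw [div_le_iff₀ hN0]
      have : (j : ℝ) ≤ ((4 * (N * n) : ℕ) : ℝ) := by exact_mod_cast hj.2.le
      push_cast at this; linarith
    rw [abs_le] at a1 a2
    refine ⟨?_, ?_, h0, ?_⟩ <;> linarith [a1.1, a1.2, a2.1, a2.2]

lemma sumT (h : Par N n) (F : ℂ → ℂ) :
    ∑ j ∈ Finset.Ico (N * n) (4 * (N * n)), Ed (tp F) ((2 * (j:ℝ) + 1) / N) (ro N) ≤ En F n := by
  simp_rw [Ed_tp]
  unfold En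
  have hN0 := h.N0
  have hro := ro_le h
  have hn1 := h.n1
  have hb : ∀ (z : ℂ) (p : ℝ), ‖z - (I + p)‖ < ro N → |z.re - p| < ro N ∧ |z.im - 1| < ro N := by
    intro z p hz
    constructor
    · have := (Complex.abs_re_le_norm (z - (I + p))).trans_lt hz
      simpa using this
    · have := (Complex.abs_im_le_norm (z - (I + p))).trans_lt hz
      simpa using this
  apply sum_disj
  · intro i _; exact HDt_meas _ _
  · intro i _ j _ hij
    rw [Set.disjoint_left]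
    rintro z ⟨_, h1⟩ ⟨_, h2⟩
    have a1 := (hb _ _ h1).1
    have a2 := (hb _ _ h2).1
    have a3 := div_sep hN0 hij
    have a4 : ro N = (1/4) * (1 / N) := by unfold ro; ring
    have a5 : 0 < 1 / (N:ℝ) := by positivity
    have a6 : ∀ k : ℕ, (2 * (k:ℝ) + 1) / N = 2 * ((k:ℝ) / N) + 1 / N := by intro k; ring
    rw [a6] at a1 a2
    rw [abs_lt] at a1 a2
    rw [le_abs] at a3
    rcases a3 with a3 | a3 <;> linarith [a1.1, a1.2, a2.1, a2.2]
  · intro j hj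
    rw [Finset.mem_Ico] at hj
    rintro z ⟨h0, h1⟩
    obtain ⟨a1, a2⟩ := hb _ _ h1
    obtain ⟨e1, e2⟩ := q_bounds h hj.1 hj.2
    rw [abs_lt] at a1 a2
    refine ⟨?_, ?_, ?_, h0⟩ <;> linarith [a1.1, a1.2, a2.1, a2.2]

lemma sumC (h : Par N n) (F : ℂ → ℂ) :
    ∑ j ∈ Finset.Ico (N * n) (2 * (N * n)), ∫⁻ z in col ((2 * (j:ℝ) + 1) / N) (ro N), ‖deriv F z‖ₑ ^ 2
      ≤ En F n := by
  unfold En
  have hN0 := h.N0
  have hro := ro_le h
  have hn1 := h.n1
  apply sum_disj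
  · intro i _; exact col_meas _ _
  · intro i _ j _ hij
    rw [Set.disjoint_left]
    rintro z ⟨h1, _⟩ ⟨h2, _⟩
    have a3 := div_sep hN0 hij
    have a4 : ro N = (1/4) * (1 / N) := by unfold ro; ring
    have a5 : 0 < 1 / (N:ℝ) := by positivity
    have a6 : ∀ k : ℕ, (2 * (k:ℝ) + 1) / N = 2 * ((k:ℝ) / N) + 1 / N := by intro k; ring
    rw [a6] at h1 h2
    rw [le_abs] at a3
    rcases a3 with a3 | a3 <;> linarith [h1.1, h1.2, h2.1, h2.2]
  · intro j hj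
    rw [Finset.mem_Ico] at hj
    rintro z ⟨h1, h2⟩
    obtain ⟨e1, e2⟩ := q_bounds h hj.1 (by omega : j < 4 * (N * n))
    refine ⟨?_, ?_, h2.1, h2.2⟩ <;> linarith [h1.1, h1.2]

end Pool.Agent.H813R2.Sew
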