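import Mathlib
import Pool.Agent.H813R2.Sew6
set_option autoImplicit false
open MeasureTheory Set Filter Topology Complex
open scoped ENNReal Real ComplexConjugate

namespace Pool.Agent.H813R2.Sew

variable {N n : ℕ} {F : ℂ → ℂ} {c : ℂ}

lemma toReal_fin_of_sum {s : Finset ℕ} {f : ℕ → ℝ≥0∞} {E : ℝ≥0∞} (hE : E ≠ ⊤) (h : ∑ j ∈ s, f j ≤ E) :
    (∀ j ∈ s, f j ≠ ⊤) ∧ ∑ j ∈ s, (f j).toReal ≤ E.toReal := by
  have h1 : ∀ j ∈ s, f j ≠ ⊤ := by
    intro j hj
    have := (Finset.single_le_sum (f := f) (fun _ _ => zero_le) hj).trans h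
    exact (lt_of_le_of_lt this (lt_top_iff_ne_top.2 hE)).ne
  refine ⟨h1, ?_⟩
  rw [← ENNReal.toReal_sum h1]
  exact ENNReal.toReal_mono hE h

/-- the barrier inequality -/
theorem Barr.final (h : Barr F c N n) (hE : En F n ≠ ⊤) : ‖c‖ ≤ 3400 * (En F n).toReal + 2 := by
  have hN0 := h.par.N0
  have hn1 := h.par.n1
  have hL6 := h.par.L6
  have hπ := Real.pi_gt_three
  have hπ' : π < 3.15 := Real.pi_lt_d2
  set L := LL N n with hL
  have hL0 : 0 < L := by linarith
  obtain ⟨fB, sB⟩ := toReal_fin_of_sum hE (sumB h.par F)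
  obtain ⟨fT, sT⟩ := toReal_fin_of_sum hE (sumT h.par F)
  obtain ⟨fC, sC⟩ := toReal_fin_of_sum hE (sumC h.par F)
  set a : ℕ → ℝ := fun j => (Ed F ((j:ℝ) / N) (ro N)).toReal with ha
  set a' : ℕ → ℝ := fun j => (Ed (tp F) ((2 * (j:ℝ) + 1) / N) (ro N)).toReal with ha'
  set k : ℕ → ℝ := fun j => (∫⁻ z in col ((2 * (j:ℝ) + 1) / N) (ro N), ‖deriv F z‖ₑ ^ 2).toReal with hk
  set e := (En F n).toReal with he
  have ha0 : ∀ j, 0 ≤ a j := fun j => ENNReal.toReal_nonneg
  have ha'0 : ∀ j, 0 ≤ a' j := fun j => ENNReal.toReal_nonneg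
  have hk0 : ∀ j, 0 ≤ k j := fun j => ENNReal.toReal_nonneg
  have he0 : 0 ≤ e := ENNReal.toReal_nonneg
  have hl : 0 < 200 * L := by linarith
  have hconst : π * L / (200 * L) = π / 200 := by field_simp
  -- bounds of TI
  have tB : ∀ j ∈ Finset.Ico (N * n) (4 * (N * n)), TB F N n j ≤ ENNReal.ofReal (100 * L * a j + π / 200) := by
    intro j hj
    have h1 := h.par.TI_le F ((j:ℝ) / N) hl
    rw [← hL, hconst] at h1
    refine h1.trans (le_of_eq ?_)
    rw [ENNReal.ofReal_add (by have := ha0 j; positivity) (by positivity)]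
    congr 1
    rw [show (200 * L / 2) = 100 * L by ring, ENNReal.ofReal_mul (p := 100 * L) (q := a j) (by positivity)]
    congr 1
    exact (ENNReal.ofReal_toReal (fB j hj)).symm
  have tT : ∀ j ∈ Finset.Ico (N * n) (4 * (N * n)), TT F N n j ≤ ENNReal.ofReal (100 * L * a' j + π / 200) := by
    intro j hj
    have h1 := h.par.TI_le (tp F) ((2 * (j:ℝ) + 1) / N) hl
    rw [← hL, hconst] at h1
    refine h1.trans (le_of_eq ?_)
    rw [ENNReal.ofReal_add (by have := ha'0 j; positivity) (by positivity)]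
    congr 1
    rw [show (200 * L / 2) = 100 * L by ring, ENNReal.ofReal_mul (p := 100 * L) (q := a' j) (by positivity)]
    congr 1
    exact (ENNReal.ofReal_toReal (fT j hj)).symm
  -- the real inequality for each J
  have key : ∀ J ∈ Finset.Ico (N * n) (2 * (N * n)), ‖c‖ * (L / 3) ≤
      4 * ∑ j ∈ Finset.Ico (N * n) (4 * (N * n)), ((100 * L * a j + π / 200) + (100 * L * a' j + π / 200)) +
      ((100 * L * a (2 * J + 1) + π / 200) + (100 * L * a' J + π / 200) + (800 * N * k J + 1 / 100)) * (L / 3) := by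
    intro J hJ
    rw [Finset.mem_Ico] at hJ
    have h3 := h.main3 hJ.1 hJ.2
    have hsum : ∑ j ∈ Finset.Ico (N * n) (4 * (N * n)), (TB F N n j + TT F N n j) ≤
        ENNReal.ofReal (∑ j ∈ Finset.Ico (N * n) (4 * (N * n)),
          ((100 * L * a j + π / 200) + (100 * L * a' j + π / 200))) := by
      rw [ENNReal.ofReal_sum_of_nonneg (fun j _ => by have := ha0 j; have := ha'0 j; positivity)]
      apply Finset.sum_le_sum
      intro j hj
      rw [ENNReal.ofReal_add (by have := ha0 j; positivity) (by have := ha'0 j; positivity)]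
      exact add_le_add (tB j hj) (tT j hj)
    have hBB : BB F N n J ≤ ENNReal.ofReal ((100 * L * a (2 * J + 1) + π / 200) +
        (100 * L * a' J + π / 200) + (800 * N * k J + 1 / 100)) := by
      unfold BB
      have hJ1 : (2 * J + 1) ∈ Finset.Ico (N * n) (4 * (N * n)) := Finset.mem_Ico.2 ⟨by omega, by omega⟩
      have hJ2 : J ∈ Finset.Ico (N * n) (4 * (N * n)) := Finset.mem_Ico.2 ⟨by omega, by omega⟩
      rw [ENNReal.ofReal_add (by have := ha0 (2 * J + 1); have := ha'0 J; positivity)
        (by have := hk0 J; positivity),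
        ENNReal.ofReal_add (by have := ha0 (2 * J + 1); positivity) (by have := ha'0 J; positivity)]
      refine add_le_add (add_le_add ?_ (tT J hJ2)) ?_
      · have := tB (2 * J + 1) hJ1
        unfold TB at this
        have ecast : (((2 * J + 1 : ℕ) : ℝ)) / N = (2 * (J:ℝ) + 1) / N := by push_cast; ring
        rw [ecast] at this
        exact this
      · have h4 := VI_int F ((2 * (J:ℝ) + 1) / N) h.par.ro_pos (l := 200) (by norm_num)
        have hfin := fC J (Finset.mem_Ico.2 ⟨hJ.1, hJ.2⟩)
        have hro : ro N = (1 / 4) / N := rfl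
        calc ENNReal.ofReal (2 / ro N) * ∫⁻ x in Ioo ((2 * (J:ℝ) + 1) / N - ro N) ((2 * (J:ℝ) + 1) / N + ro N), VI F x
            ≤ ENNReal.ofReal (2 / ro N) * (ENNReal.ofReal (200 / 2) *
              (∫⁻ z in col ((2 * (J:ℝ) + 1) / N) (ro N), ‖deriv F z‖ₑ ^ 2) + ENNReal.ofReal (ro N / 200)) := by
              gcongr
          _ = ENNReal.ofReal (2 / ro N) * (ENNReal.ofReal (200 / 2 * k J + ro N / 200)) := by
              congr 1
              rw [ENNReal.ofReal_add (by have := hk0 J; positivity) (by have := h.par.ro_pos; positivity),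
                ENNReal.ofReal_mul (by norm_num)]
              congr 2
              rw [hk, ENNReal.ofReal_toReal hfin]
          _ = ENNReal.ofReal (2 / ro N * (200 / 2 * k J + ro N / 200)) := by
              rw [ENNReal.ofReal_mul]
              have := h.par.ro_pos; positivity
          _ = _ := by
              congr 1
              rw [hro]
              field_simp
              ring
    have hfinal : ‖c‖ₑ * ENNReal.ofReal (L / 3) ≤ ENNReal.ofReal
      (4 * ∑ j ∈ Finset.Ico (N * n) (4 * (N * n)), ((100 * L * a j + π / 200) + (100 * L * a' j + π / 200)) +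
      ((100 * L * a (2 * J + 1) + π / 200) + (100 * L * a' J + π / 200) + (800 * N * k J + 1 / 100)) * (L / 3)) := by
      have hs0 : 0 ≤ ∑ j ∈ Finset.Ico (N * n) (4 * (N * n)), ((100 * L * a j + π / 200) + (100 * L * a' j + π / 200)) :=
        Finset.sum_nonneg (fun j _ => by have := ha0 j; have := ha'0 j; positivity)
      have hb0 : 0 ≤ (100 * L * a (2 * J + 1) + π / 200) + (100 * L * a' J + π / 200) + (800 * N * k J + 1 / 100) := by
        have := ha0 (2 * J + 1); have := ha'0 J; have := hk0 J; positivity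
      rw [ENNReal.ofReal_add (by positivity) (by positivity), ENNReal.ofReal_mul (by norm_num),
        ENNReal.ofReal_mul hb0]
      refine h3.trans (add_le_add ?_ ?_)
      · have e4 : ENNReal.ofReal 4 = 4 := by simp
        rw [e4]
        gcongr
      · gcongr
    have hs0 : 0 ≤ ∑ j ∈ Finset.Ico (N * n) (4 * (N * n)), ((100 * L * a j + π / 200) + (100 * L * a' j + π / 200)) :=
      Finset.sum_nonneg (fun j _ => by have := ha0 j; have := ha'0 j; positivity)
    have hpos : 0 ≤ 4 * ∑ j ∈ Finset.Ico (N * n) (4 * (N * n)), ((100 * L * a j + π / 200) + (100 * L * a' j + π / 200)) +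
      ((100 * L * a (2 * J + 1) + π / 200) + (100 * L * a' J + π / 200) + (800 * N * k J + 1 / 100)) * (L / 3) := by
      have hb0 : 0 ≤ (100 * L * a (2 * J + 1) + π / 200) + (100 * L * a' J + π / 200) + (800 * N * k J + 1 / 100) := by
        have := ha0 (2 * J + 1); have := ha'0 J; have := hk0 J; positivity
      exact add_nonneg (mul_nonneg (by norm_num) hs0) (mul_nonneg hb0 (by linarith))
    rw [← ofReal_norm, ← ENNReal.ofReal_mul (norm_nonneg _)] at hfinal
    generalize hXX : 4 * ∑ j ∈ Finset.Ico (N * n) (4 * (N * n)), ((100 * L * a j + π / 200) + (100 * L * a' j + π / 200)) +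
      ((100 * L * a (2 * J + 1) + π / 200) + (100 * L * a' J + π / 200) + (800 * N * k J + 1 / 100)) * (L / 3) = XX at hfinal hpos ⊢
    exact (ENNReal.ofReal_le_ofReal_iff hpos).1 hfinal
  -- sum over J
  have hsumJ := Finset.sum_le_sum key
  have card1 : ((Finset.Ico (N * n) (2 * (N * n))).card : ℝ) = L := by
    rw [Nat.card_Ico, hL]
    unfold LL
    have : 2 * (N * n) - N * n = N * n := by omega
    rw [this]; push_cast; ring
  have card2 : ((Finset.Ico (N * n) (4 * (N * n))).card : ℝ) = 3 * L := by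
    rw [Nat.card_Ico, hL]
    unfold LL
    have : 4 * (N * n) - N * n = 3 * (N * n) := by omega
    rw [this]; push_cast; ring
  have sA : ∑ j ∈ Finset.Ico (N * n) (4 * (N * n)), ((100 * L * a j + π / 200) + (100 * L * a' j + π / 200)) ≤
      200 * L * e + 3 * L * (π / 100) := by
    have : ∑ j ∈ Finset.Ico (N * n) (4 * (N * n)), ((100 * L * a j + π / 200) + (100 * L * a' j + π / 200)) =
        100 * L * (∑ j ∈ Finset.Ico (N * n) (4 * (N * n)), a j) +
        100 * L * (∑ j ∈ Finset.Ico (N * n) (4 * (N * n)), a' j) + 3 * L * (π / 100) := by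
      rw [← card2, Finset.mul_sum, Finset.mul_sum, ← Finset.sum_add_distrib]
      rw [← nsmul_eq_mul, ← Finset.sum_const, ← Finset.sum_add_distrib]
      apply Finset.sum_congr rfl
      intro j _
      ring
    rw [this]
    nlinarith [mul_le_mul_of_nonneg_left sB (by positivity : 0 ≤ 100 * L),
      mul_le_mul_of_nonneg_left sT (by positivity : 0 ≤ 100 * L)]
  have sJ1 : ∑ J ∈ Finset.Ico (N * n) (2 * (N * n)), a (2 * J + 1) ≤ e := by
    refine le_trans ?_ sB
    have : ∑ J ∈ Finset.Ico (N * n) (2 * (N * n)), a (2 * J + 1) =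
        ∑ j ∈ (Finset.Ico (N * n) (2 * (N * n))).image (fun J => 2 * J + 1), a j := by
      rw [Finset.sum_image]
      intro x _ y _ hxy
      simp only at hxy
      omega
    rw [this]
    apply Finset.sum_le_sum_of_subset_of_nonneg
    · intro j hj
      rw [Finset.mem_image] at hj
      obtain ⟨J, hJ, rfl⟩ := hj
      rw [Finset.mem_Ico] at hJ ⊢
      omega
    · intro j _ _; exact ha0 j
  have sJ2 : ∑ J ∈ Finset.Ico (N * n) (2 * (N * n)), a' J ≤ e := by
    refine le_trans ?_ sT
    apply Finset.sum_le_sum_of_subset_of_nonneg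
    · apply Finset.Ico_subset_Ico le_rfl; omega
    · intro j _ _; exact ha'0 j
  set S := ∑ j ∈ Finset.Ico (N * n) (4 * (N * n)), ((100 * L * a j + π / 200) + (100 * L * a' j + π / 200)) with hS
  have hright : ∑ J ∈ Finset.Ico (N * n) (2 * (N * n)), (4 * S +
      ((100 * L * a (2 * J + 1) + π / 200) + (100 * L * a' J + π / 200) + (800 * N * k J + 1 / 100)) * (L / 3)) =
      L * (4 * S) + (L / 3) * (100 * L * (∑ J ∈ Finset.Ico (N * n) (2 * (N * n)), a (2 * J + 1)) +
        100 * L * (∑ J ∈ Finset.Ico (N * n) (2 * (N * n)), a' J) +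
        800 * N * (∑ J ∈ Finset.Ico (N * n) (2 * (N * n)), k J) + L * (π / 100 + 1 / 100)) := by
    rw [Finset.sum_add_distrib, Finset.sum_const, nsmul_eq_mul, card1]
    congr 1
    rw [← card1, Finset.mul_sum, Finset.mul_sum, Finset.mul_sum]
    rw [← Finset.sum_add_distrib, ← Finset.sum_add_distrib]
    rw [← nsmul_eq_mul (Finset.Ico (N * n) (2 * (N * n))).card (π / 100 + 1 / 100), ← Finset.sum_const,
      ← Finset.sum_add_distrib, Finset.mul_sum]
    apply Finset.sum_congr rfl
    intro J _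
    rw [card1]
    ring
  rw [hright, Finset.sum_const, nsmul_eq_mul, card1] at hsumJ
  -- final arithmetic
  have hNL : (N:ℝ) ≤ L := by
    rw [hL]; unfold LL
    nlinarith
  have f1 : L * (‖c‖ * (L / 3)) ≤ L * (4 * (200 * L * e + 3 * L * (π / 100))) +
      (L / 3) * (100 * L * e + 100 * L * e + 800 * L * e + L * (π / 100 + 1 / 100)) := by
    refine hsumJ.trans (add_le_add ?_ ?_)
    · gcongr
    · apply mul_le_mul_of_nonneg_left _ (by positivity)
      refine add_le_add (add_le_add (add_le_add ?_ ?_) ?_) le_rfl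
      · gcongr
      · gcongr
      · calc 800 * N * (∑ J ∈ Finset.Ico (N * n) (2 * (N * n)), k J) ≤ 800 * N * e := by gcongr
          _ ≤ 800 * L * e := by gcongr
  have f2 : ‖c‖ ≤ 3 * (4 * (200 * e + 3 * (π / 100))) + (1000 * e + (π / 100 + 1 / 100)) := by
    have hLL : 0 < L * L / 3 := by positivity
    have : ‖c‖ * (L * L / 3) ≤ (3 * (4 * (200 * e + 3 * (π / 100))) + (1000 * e + (π / 100 + 1 / 100))) * (L * L / 3) := by
      linarith [f1]
    exact le_of_mul_le_mul_right this hLL
  linarith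

end Pool.Agent.H813R2.Sew
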