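import Mathlib
import Pool.Agent.H813R2.Sew20
import Pool.Agent.H813R2.Sew7
import Pool.Agent.H813R2.Sew17
import Pool.Agent.H813R2.Sew19
set_option autoImplicit false
open MeasureTheory Set Filter Topology Complex Metric
open scoped ENNReal Real ComplexConjugate Interval Manifold ContDiff

namespace Pool.Agent.H813R2.Sew

lemma image_vol {s : Set ℂ} (hs : MeasurableSet s) {g : ℂ → ℂ}
    (h : ∀ x ∈ s, DifferentiableAt ℂ g x) (inj : InjOn g s) :
    volume (g '' s) = ∫⁻ x in s, ‖deriv g x‖ₑ ^ 2 := by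
  have h1 := lintegral_image_eq_lintegral_abs_det_fderiv_mul volume hs
    (f' := fun x => (ContinuousLinearMap.toSpanSingleton ℂ (deriv g x)).restrictScalars ℝ)
    (fun x hx => ((h x hx).hasDerivAt.hasFDerivAt.restrictScalars ℝ).hasFDerivWithinAt) inj (fun _ => 1)
  have h2 : ∀ x, |((ContinuousLinearMap.toSpanSingleton ℂ (deriv g x)).restrictScalars ℝ).det| = ‖deriv g x‖ ^ 2 := by
    intro x
    simp [ContinuousLinearMap.det, LinearMap.det_restrictScalars, Algebra.norm_complex_eq,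
      Complex.normSq_eq_norm_sq]
  simp only [h2, mul_one] at h1
  rw [lintegral_one, Measure.restrict_apply_univ] at h1
  rw [h1]
  apply lintegral_congr
  intro x
  rw [ENNReal.ofReal_pow (norm_nonneg _), ofReal_norm]

/-- retraction on the half strip -/
noncomputable def ret (R : ℝ) (z : ℂ) : ℂ := ⟨max R z.re, max 0 (min 1 z.im)⟩

lemma ret_cont (R : ℝ) : Continuous (ret R) := by
  have : ret R = fun z => ((max R z.re : ℝ) : ℂ) + ((max 0 (min 1 z.im) : ℝ) : ℂ) * I := by
    funext z; unfold ret; apply Complex.ext <;> simp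
  rw [this]
  have h1 := Complex.continuous_re
  have h2 := Complex.continuous_im
  have h3 : Continuous (fun z : ℂ => max R z.re) := continuous_const.max h1
  have h4 : Continuous (fun z : ℂ => max 0 (min 1 z.im)) := continuous_const.max (continuous_const.min h2)
  exact (Complex.continuous_ofReal.comp h3).add ((Complex.continuous_ofReal.comp h4).mul continuous_const)

lemma ret_id {R : ℝ} {z : ℂ} (h1 : R ≤ z.re) (h2 : 0 ≤ z.im) (h3 : z.im ≤ 1) : ret R z = z := by
  unfold ret
  apply Complex.ext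
  · simp [h1]
  · simp [h2, h3]

lemma isOpen_TO (R : ℝ) : IsOpen (TO R) := by
  have : TO R = Complex.re ⁻¹' (Ioi R) ∩ Complex.im ⁻¹' (Ioo 0 1) := by
    ext z; simp [TO]
  rw [this]
  exact (isOpen_Ioi.preimage Complex.continuous_re).inter (isOpen_Ioo.preimage Complex.continuous_im)

lemma sc_univ : IsSimplyConnected (univ : Set ℂ) := by
  have : ContractibleSpace (univ : Set ℂ) := convex_univ.contractibleSpace univ_nonempty
  exact SimplyConnectedSpace.ofContractible _

/-- a continuous logarithm of a holomorphic function is holomorphic -/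
lemma log_hol {F G : ℂ → ℂ} {z : ℂ} (hF : ContinuousAt F z) (hG : DifferentiableAt ℂ G z)
    (h : ∀ᶠ w in 𝓝 z, Complex.exp (F w) = G w) : HasDerivAt F (deriv G z / G z) z := by
  have hz := h.self_of_nhds
  have hGz : G z ≠ 0 := by rw [← hz]; exact Complex.exp_ne_zero _
  have h1 : HasDerivAt (fun w => Complex.log (G w / G z) + F z) (deriv G z / G z) z := by
    have h2 : HasDerivAt (fun w => G w / G z) (deriv G z / G z) z := hG.hasDerivAt.div_const _
    have h3 := h2.clog (by rw [div_self hGz]; exact Complex.one_mem_slitPlane)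
    rw [div_self hGz, div_one] at h3
    exact h3.add_const (F z)
  apply h1.congr_of_eventuallyEq
  have h4 : ∀ᶠ w in 𝓝 z, ‖F w - F z‖ < 1 := by
    have := Metric.continuousAt_iff'.1 hF 1 one_pos
    simpa [dist_eq_norm] using this
  filter_upwards [h, h4] with w hw hw4
  have h5 : G w / G z = Complex.exp (F w - F z) := by rw [Complex.exp_sub, hw, hz]
  rw [h5]
  have h6 := Complex.abs_im_le_norm (F w - F z)
  have h7 := abs_lt.1 (lt_of_le_of_lt h6 hw4)
  have hπ := Real.pi_gt_three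
  rw [Complex.log_exp (by linarith) (by linarith)]
  ring

theorem EndMap.log {β : ℝ → ℝ} {G : ℂ → ℂ} {R ρ : ℝ} (h : EndMap β G R ρ) (hs : Sewn β)
    (hβ : ∀ x, 0 < x → x ≤ β x) :
    ∃ (R1 : ℝ) (F : ℂ → ℂ) (c : ℂ), 0 < R1 ∧ Continuous F ∧ (∀ z ∈ TO R1, DifferentiableAt ℂ F z) ∧
      (∀ x : ℝ, R1 < x → F (I + (β x : ℂ)) = F x + c) ∧ 2 * π ≤ ‖c‖ ∧
      ∫⁻ z in TO R1, ‖deriv F z‖ₑ ^ 2 ≠ ⊤ := by
  set R1 := R + 1 with hR1
  have hR := h.hR
  have hsub : ∀ z, R1 ≤ z.re → 0 ≤ z.im → z.im ≤ 1 → z ∈ TT' R := fun z h1 h2 h3 => ⟨by linarith, h2, h3⟩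
  have hret : ∀ z, ret R1 z ∈ TT' R := by
    intro z
    apply hsub
    · exact le_max_left _ _
    · exact le_max_left _ _
    · exact max_le zero_le_one (min_le_left _ _)
  have hgc : Continuous (fun z => G (ret R1 z)) := h.cont.comp_continuous (ret_cont R1) hret
  have hg0 : ∀ z, G (ret R1 z) ≠ 0 := by
    intro z hz
    have := (h.ring _ (hret z)).1
    rw [hz, norm_zero] at this
    linarith
  obtain ⟨F, hFc, hFe⟩ := exists_continuousOn_eqOn_exp_comp sc_univ isOpen_univ hgc.continuousOn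
    (by rintro ⟨z, _, hz⟩; exact hg0 z hz)
  have hF : Continuous F := continuousOn_univ.1 hFc
  have hexp : ∀ z, R1 ≤ z.re → 0 ≤ z.im → z.im ≤ 1 → Complex.exp (F z) = G z := by
    intro z h1 h2 h3
    have := hFe (mem_univ z)
    simp only [Function.comp_apply] at this
    rw [this, ret_id h1 h2 h3]
  have hcβ : ContinuousOn β (Ioi R1) := hs.cont.mono (fun x hx => lt_trans (by linarith) (show R1 < x from hx))
  -- the jump
  set d : ℝ → ℂ := fun x => F (β x + I) - F x with hd
  have hdc : ContinuousOn d (Ioi R1) := by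
    apply ContinuousOn.sub
    · apply hF.comp_continuousOn
      exact (Complex.continuous_ofReal.comp_continuousOn hcβ).add continuousOn_const
    · exact (hF.comp Complex.continuous_ofReal).continuousOn
  have hdx : ∀ x : ℝ, R1 < x → Complex.exp (F (β x + I)) = G (β x + I) ∧ Complex.exp (F x) = G x := by
    intro x hx
    have h0 : 0 < x := by linarith
    have := hβ x h0
    constructor
    · apply hexp
      · simp; linarith
      · simp
      · simp
    · apply hexp
      · simp; linarith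
      · simp
      · simp
  have hde : ∀ x ∈ Ioi R1, Complex.exp (d x) = 1 := by
    intro x hx
    have hx' : R1 < x := hx
    obtain ⟨e1, e2⟩ := hdx x hx'
    simp only [hd]
    rw [Complex.exp_sub, e1, e2, ← h.glue x (by linarith)]
    apply div_self
    rw [← e2]; exact Complex.exp_ne_zero _
  have hconst : ∀ x ∈ Ioi R1, d x = d (R1 + 1) := fun x hx =>
    const_of_exp ordConnected_Ioi hdc hde hx (show R1 < R1 + 1 by linarith)
  set c : ℂ := d (R1 + 1) with hc
  have hexpc : Complex.exp c = 1 := hde _ (show R1 < R1 + 1 by linarith)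
  have hFg : ∀ x : ℝ, R1 < x → F (β x + I) = F x + c := by
    intro x hx
    have := hconst x hx
    simp only [hd] at this
    rw [← this]; ring
  have hc0 : c ≠ 0 := by
    intro hc0
    apply h.nolog
    refine ⟨R1, F, by linarith, hF.continuousOn, fun z hz => hexp z hz.1.le hz.2.1 hz.2.2, ?_⟩
    intro x hx
    rw [hFg x hx, hc0, add_zero]
  have hcn : 2 * π ≤ ‖c‖ := by
    obtain ⟨n, hn⟩ := Complex.exp_eq_one_iff.1 hexpc
    have hn0 : n ≠ 0 := by rintro rfl; apply hc0; rw [hn]; simp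
    rw [hn, norm_mul]
    have h1 : ‖(2 * π * I : ℂ)‖ = 2 * π := by
      rw [norm_mul, Complex.norm_I, mul_one, norm_mul, Complex.norm_ofNat, Complex.norm_real, Real.norm_eq_abs, abs_of_pos Real.pi_pos]
    rw [h1]
    have h2 : (1:ℝ) ≤ ‖(n:ℂ)‖ := by
      rw [Complex.norm_intCast]
      exact_mod_cast Int.one_le_abs hn0
    nlinarith [Real.pi_pos]
  have hder : ∀ z ∈ TO R1, HasDerivAt F (deriv G z / G z) z := by
    intro z hz
    apply log_hol hF.continuousAt (h.diff z ⟨by linarith [hz.1], hz.2⟩)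
    filter_upwards [(isOpen_TO R1).mem_nhds hz] with w hw
    exact hexp w hw.1.le hw.2.1.le hw.2.2.le
  refine ⟨R1, F, c, by linarith, hF, fun z hz => (hder z hz).differentiableAt, ?_, hcn, ?_⟩
  · intro x hx
    rw [add_comm]; exact hFg x hx
  · have hsubTO : TO R1 ⊆ TO R := fun z hz => ⟨by linarith [hz.1], hz.2⟩
    have h1 : ∫⁻ z in TO R1, ‖deriv F z‖ₑ ^ 2 ≤ ∫⁻ z in TO R1, ‖deriv G z‖ₑ ^ 2 := by
      apply setLIntegral_mono' (isOpen_TO R1).measurableSet
      intro z hz
      gcongr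
      rw [(hder z hz).deriv, ← ofReal_norm, ← ofReal_norm]
      apply ENNReal.ofReal_le_ofReal
      rw [norm_div]
      have := (h.ring z ⟨by linarith [hz.1], hz.2.1.le, hz.2.2.le⟩).1
      exact div_le_self (norm_nonneg _) this.le
    have h2 : ∫⁻ z in TO R1, ‖deriv G z‖ₑ ^ 2 = volume (G '' TO R1) := by
      rw [image_vol (isOpen_TO R1).measurableSet (fun z hz => h.diff z (hsubTO hz)) (h.inj.mono hsubTO)]
    have h3 : volume (G '' TO R1) ≤ volume (ball (0:ℂ) ρ) := by
      apply measure_mono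
      rintro _ ⟨z, hz, rfl⟩
      rw [mem_ball_zero_iff]
      exact (h.ring z ⟨by linarith [hz.1], hz.2.1.le, hz.2.2.le⟩).2
    have h4 : volume (ball (0:ℂ) ρ) < ⊤ := measure_ball_lt_top
    rw [h2] at h1
    exact (lt_of_le_of_lt (h1.trans h3) h4).ne

variable {N : ℕ → ℕ}

lemma be_ge (hN : ∀ k, 1 ≤ N k) (x : ℝ) (hx : 0 < x) : x ≤ be N x := by
  by_cases h : x < 16
  · rw [be_small h]; linarith
  · push Not at h
    have := abs_le.1 (be_close1 hN x)
    linarith [this.1]

lemma barr_of (hN : ∀ k, 1 ≤ N k) {F : ℂ → ℂ} {c : ℂ} {R1 : ℝ} (hF : Continuous F)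
    (hd : ∀ z ∈ TO R1, DifferentiableAt ℂ F z) (hg : ∀ x : ℝ, R1 < x → F (I + (be N x : ℂ)) = F x + c)
    {k : ℕ} (hk : R1 < (nn k : ℝ) - 1) : Barr F c (N k) (nn k) where
  par := {
    hN := hN k
    hn := by have := nn_ge k; omega
    h6 := by
      have h1 := nn_ge k
      have h2 := hN k
      calc 6 ≤ 1 * 16 := by norm_num
        _ ≤ N k * nn k := Nat.mul_le_mul h2 h1 }
  cont := hF.continuousOn
  diff := fun z h1 _ h3 h4 => hd z ⟨by linarith, h3, h4⟩
  seamP := by
    intro j h1 h2 τ _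
    have hN0 : (0:ℝ) < N k := by have := hN k; positivity
    have e1 : ((N k * nn k : ℕ) : ℝ) ≤ j := by exact_mod_cast h1
    push_cast at e1
    have hx : R1 < j / N k + rb (N k) τ := by
      have h3 : (nn k : ℝ) ≤ j / N k := by rw [le_div_iff₀ hN0]; linarith
      have h4 : 0 < rb (N k) τ := by unfold rb; have := vr_pos τ; positivity
      linarith
    have := hg _ hx
    rw [be_seamP hN h1 h2] at this
    exact this
  seamM := by
    intro j h1 h2 τ _
    have hN0 : (0:ℝ) < N k := by have := hN k; positivity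
    have e1 : ((N k * nn k : ℕ) : ℝ) ≤ j := by exact_mod_cast h1
    push_cast at e1
    have hx : R1 < ((j + 1 : ℕ) : ℝ) / N k - rb (N k) τ := by
      have hv1 : vr τ < 1 / 2 := by
        unfold vr
        rw [div_lt_iff₀ Real.pi_pos]
        have := Real.arctan_lt_pi_div_two (Real.exp (-τ))
        linarith
      have h3 : (nn k : ℝ) ≤ ((j + 1 : ℕ) : ℝ) / N k - rb (N k) τ := by
        unfold rb
        rw [← sub_div, le_div_iff₀ hN0]
        push_cast; linarith
      linarith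
    have := hg _ hx
    rw [be_seamM hN h1 h2] at this
    exact this

lemma Rg_meas (n : ℕ) : MeasurableSet (Rg n) := by
  have : Rg n = (Complex.re ⁻¹' (Ioo ((n:ℝ) - 1) (8 * n + 1))) ∩ (Complex.im ⁻¹' (Ioo 0 1)) := by
    ext z; simp [Rg, and_assoc]
  rw [this]
  exact ((isOpen_Ioo.preimage Complex.continuous_re).inter (isOpen_Ioo.preimage Complex.continuous_im)).measurableSet

lemma Rg_disj : Pairwise (Function.onFun Disjoint (fun k => Rg (nn k))) := by
  have key : ∀ k m, k < m → Disjoint (Rg (nn k)) (Rg (nn m)) := by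
    intro k m h
    rw [Set.disjoint_left]
    rintro z hz hz'
    have h1 := nn_ltR h
    have h2 := nn_geR k
    linarith [hz.2.1, hz'.1]
  intro k m hkm
  rcases lt_or_gt_of_ne hkm with h | h
  · exact key k m h
  · exact (key m k h).symm

/-- `be N` is not a hyperbolic sewing -/
theorem be_not_hyp (hN : ∀ k, 1 ≤ N k) : ¬ HyperbolicSewing (be N) := by
  rintro ⟨X, iT, iC, π', hG, hE⟩
  obtain ⟨G, R, ρ, hEM⟩ := endMap (be_sewn hN) (be_ge hN) hG hE
  obtain ⟨R1, F, c, hR1, hF, hd, hg, hc, hen⟩ := hEM.log (be_sewn hN) (be_ge hN)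
  obtain ⟨k0, hk0⟩ : ∃ k0 : ℕ, ∀ k, k0 ≤ k → R1 < (nn k : ℝ) - 1 := by
    refine ⟨⌈R1 + 1⌉₊, fun k hk => ?_⟩
    have h1 : (k:ℝ) < nn k := by exact_mod_cast k_lt_nn k
    have h2 : R1 + 1 ≤ k := (Nat.le_ceil _).trans (by exact_mod_cast hk)
    linarith
  have hsum : ∑' k : ℕ, En F (nn (k + k0)) ≤ ∫⁻ z in TO R1, ‖deriv F z‖ₑ ^ 2 := by
    have h1 : Pairwise (Function.onFun Disjoint (fun k => Rg (nn (k + k0)))) := by
      intro a b hab
      exact Rg_disj (by omega : a + k0 ≠ b + k0)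
    have h2 := lintegral_iUnion (μ := volume) (fun k => Rg_meas (nn (k + k0))) h1 (fun z => ‖deriv F z‖ₑ ^ 2)
    unfold En
    rw [← h2]
    apply lintegral_mono_set
    intro z hz
    rw [mem_iUnion] at hz
    obtain ⟨k, hk⟩ := hz
    exact ⟨(hk0 (k + k0) (by omega)).trans hk.1, hk.2.2.1, hk.2.2.2⟩
  have hne : ∑' k : ℕ, En F (nn (k + k0)) ≠ ⊤ := (lt_of_le_of_lt hsum (lt_top_iff_ne_top.2 hen)).ne
  have htend := ENNReal.tendsto_atTop_zero_of_tsum_ne_top hne
  have hev := (ENNReal.tendsto_nhds_zero.1 htend) (ENNReal.ofReal (1 / 3400)) (ENNReal.ofReal_pos.2 (by norm_num))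
  obtain ⟨k, hk⟩ := hev.exists
  have hB := barr_of hN hF hd hg (hk0 (k + k0) (by omega))
  have hne2 : En F (nn (k + k0)) ≠ ⊤ := (lt_of_le_of_lt hk ENNReal.ofReal_lt_top).ne
  have hfin := hB.final hne2
  have hsmall : (En F (nn (k + k0))).toReal ≤ 1 / 3400 := ENNReal.toReal_le_of_le_ofReal (by norm_num) hk
  have hπ := Real.pi_gt_three
  linarith

/-- choice of the integers `N k` -/
lemma exists_N {ε : ℝ → ℝ} (hε : ContinuousOn ε (Ioi 0)) (hpos : ∀ x, 0 < x → 0 < ε x) :
    ∃ N : ℕ → ℕ, (∀ k, 1 ≤ N k) ∧ ∀ k, ∀ x ∈ bar k, 1 / (N k : ℝ) ≤ ε x := by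
  have h : ∀ k : ℕ, ∃ n : ℕ, 1 ≤ n ∧ ∀ x ∈ bar k, 1 / (n : ℝ) ≤ ε x := by
    intro k
    have hb0 := nn_geR k
    have hsub : bar k ⊆ Ioi 0 := fun x hx => by have := hx.1; simp only [mem_Ioi]; linarith
    have hne : (bar k).Nonempty := ⟨nn k, le_rfl, by linarith⟩
    obtain ⟨x0, hx0, hmin⟩ := (isCompact_Icc (a := (nn k : ℝ)) (b := 4 * nn k)).exists_isMinOn hne (hε.mono hsub)
    have he0 : 0 < ε x0 := hpos x0 (hsub hx0)
    obtain ⟨n, hn⟩ := exists_nat_gt (1 / ε x0)
    have hn0 : (0:ℝ) < n := lt_trans (by positivity) hn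
    refine ⟨n, ?_, ?_⟩
    · have : 0 < n := by exact_mod_cast hn0
      omega
    · intro x hx
      refine le_trans ?_ (hmin hx)
      rw [div_lt_iff₀ he0] at hn
      rw [div_le_iff₀ hn0]
      linarith
  choose N h1 h2 using h
  exact ⟨N, h1, h2⟩

theorem main_sew : ConformalSewing (fun x => 2 * x) ∧ HyperbolicSewing (fun x => 2 * x) ∧
    ∀ ε : ℝ → ℝ, ContinuousOn ε (Ioi 0) → (∀ x, 0 < x → 0 < ε x) →
      ∃ β : ℝ → ℝ, ConformalSewing β ∧ (∀ x, 0 < x → |β x - 2 * x| < ε x) ∧ ¬ HyperbolicSewing β := by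
  refine ⟨?_, hyp_al, ?_⟩
  · refine ⟨⟨surf_two.sewn.mono, surf_two.sewn.cont, 0, le_rfl, surf_two.sewn.img⟩,
      XX al, inferInstance, surf_al.charted, pj al, surf_al.generates⟩
  · intro ε hε hpos
    obtain ⟨N, hN, hNε⟩ := exists_N hε hpos
    refine ⟨be N, ⟨⟨(be_sewn hN).mono, (be_sewn hN).cont, 0, le_rfl, (be_sewn hN).img⟩,
      XX (be N), inferInstance, (surf_be hN).charted, pj (be N), (surf_be hN).generates⟩, ?_, be_not_hyp hN⟩
    intro x hx
    by_cases hb : ∃ k, x ∈ bar k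
    · obtain ⟨k, hk⟩ := hb
      exact lt_of_lt_of_le (be_close hN hk) (hNε k x hk)
    · push Not at hb
      rw [be_out' hb, sub_self, abs_zero]
      exact hpos x hx

end Pool.Agent.H813R2.Sew
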